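import Pool.Agent.Work.MP_b0b133_an.Poly

/-!
# Harmonic polynomials: ladder maps, zonal polynomials and their generating function
-/

set_option autoImplicit false
open MeasureTheory Complex
open scoped ENNReal ComplexConjugate

namespace Pool.Agent.Cone

open MvPolynomial (pderiv)

/-! ## Derivatives -/

theorem A_pderiv_comm (i j : Fin 5) (P : MvPolynomial (Fin 5) ℂ) :
    pderiv i (pderiv j P) = pderiv j (pderiv i P) := by
  have h : ⁅(pderiv i : Derivation ℂ (MvPolynomial (Fin 5) ℂ) (MvPolynomial (Fin 5) ℂ)),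
      (pderiv j : Derivation ℂ (MvPolynomial (Fin 5) ℂ) (MvPolynomial (Fin 5) ℂ))⁆ = 0 := by
    apply MvPolynomial.derivation_ext
    intro k
    rw [Derivation.commutator_apply, MvPolynomial.pderiv_X, MvPolynomial.pderiv_X]
    simp only [Pi.single_apply]
    split_ifs <;> simp
  have h2 := congrArg (fun D : Derivation ℂ (MvPolynomial (Fin 5) ℂ)
    (MvPolynomial (Fin 5) ℂ) => D P) h
  simp only [Derivation.commutator_apply, Derivation.coe_zero, Pi.zero_apply] at h2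
  exact sub_eq_zero.mp h2

/-- the Laplacian -/
noncomputable def A_lap (P : MvPolynomial (Fin 5) ℂ) : MvPolynomial (Fin 5) ℂ :=
  ∑ j, pderiv j (pderiv j P)

/-- `r²` -/
noncomputable def A_rr : MvPolynomial (Fin 5) ℂ := ∑ k, MvPolynomial.X k ^ 2

theorem A_pderiv_rr (j : Fin 5) : pderiv j A_rr = 2 * MvPolynomial.X j := by
  unfold A_rr
  rw [map_sum, Finset.sum_eq_single j]
  · rw [MvPolynomial.pderiv_pow, MvPolynomial.pderiv_X_self]
    simp
  · intro k _ hk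
    rw [MvPolynomial.pderiv_pow, MvPolynomial.pderiv_X_of_ne hk]
    simp
  · simp

theorem A_lap_add (P Q : MvPolynomial (Fin 5) ℂ) : A_lap (P + Q) = A_lap P + A_lap Q := by
  simp [A_lap, Finset.sum_add_distrib]

theorem A_lap_sub (P Q : MvPolynomial (Fin 5) ℂ) : A_lap (P - Q) = A_lap P - A_lap Q := by
  simp [A_lap, Finset.sum_sub_distrib]

theorem A_lap_C_mul (c : ℂ) (P : MvPolynomial (Fin 5) ℂ) :
    A_lap (MvPolynomial.C c * P) = MvPolynomial.C c * A_lap P := by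
  simp [A_lap, Finset.mul_sum]

theorem A_lap_X_mul (j : Fin 5) (P : MvPolynomial (Fin 5) ℂ) :
    A_lap (MvPolynomial.X j * P) = 2 * pderiv j P + MvPolynomial.X j * A_lap P := by
  unfold A_lap
  have h : ∀ i : Fin 5, pderiv i (pderiv i (MvPolynomial.X j * P)) =
      2 * ((pderiv i (MvPolynomial.X j : MvPolynomial (Fin 5) ℂ)) * pderiv i P) +
        MvPolynomial.X j * pderiv i (pderiv i P) := by
    intro i
    have h0 : pderiv i (pderiv i (MvPolynomial.X j : MvPolynomial (Fin 5) ℂ)) = 0 := by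
      rw [MvPolynomial.pderiv_X]
      simp only [Pi.single_apply]
      split_ifs <;> simp
    rw [MvPolynomial.pderiv_mul, map_add, MvPolynomial.pderiv_mul, MvPolynomial.pderiv_mul, h0]
    ring
  rw [Finset.sum_congr rfl fun i _ => h i, Finset.sum_add_distrib, ← Finset.mul_sum,
    ← Finset.mul_sum, Finset.sum_eq_single j]
  · rw [MvPolynomial.pderiv_X_self, one_mul]
  · intro k _ hk
    rw [MvPolynomial.pderiv_X_of_ne (Ne.symm hk), zero_mul]
  · simp

theorem A_lap_rr_mul (m : ℕ) (Q : MvPolynomial (Fin 5) ℂ) (hQ : Q.IsHomogeneous m) :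
    A_lap (A_rr * Q) = (10 + 4 * (m : MvPolynomial (Fin 5) ℂ)) * Q + A_rr * A_lap Q := by
  have he : ∑ i, MvPolynomial.X i * pderiv i Q = (m : MvPolynomial (Fin 5) ℂ) * Q := by
    rw [hQ.sum_X_mul_pderiv, nsmul_eq_mul]
  unfold A_lap
  have h : ∀ i : Fin 5, pderiv i (pderiv i (A_rr * Q)) =
      2 * Q + 4 * (MvPolynomial.X i * pderiv i Q) + A_rr * pderiv i (pderiv i Q) := by
    intro i
    have h2 : pderiv i (2 * MvPolynomial.X i : MvPolynomial (Fin 5) ℂ) = 2 := by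
      have : (2 : MvPolynomial (Fin 5) ℂ) = MvPolynomial.C 2 := (map_ofNat _ 2).symm
      rw [this, MvPolynomial.pderiv_C_mul, MvPolynomial.pderiv_X_self, mul_one]
    rw [MvPolynomial.pderiv_mul, map_add, MvPolynomial.pderiv_mul, MvPolynomial.pderiv_mul,
      A_pderiv_rr, h2]
    ring
  rw [Finset.sum_congr rfl fun i _ => h i, Finset.sum_add_distrib, Finset.sum_add_distrib,
    ← Finset.mul_sum, ← Finset.mul_sum, ← Finset.mul_sum, he]
  simp only [Finset.sum_const, Finset.card_univ, Fintype.card_fin, nsmul_eq_mul]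
  push_cast
  ring

theorem A_mem_Harm (l : ℕ) (P : MvPolynomial (Fin 5) ℂ) :
    P ∈ Harm l ↔ P.IsHomogeneous l ∧ A_lap P = 0 := Iff.rfl

theorem A_up_eq (l : ℕ) (j : Fin 5) (P : MvPolynomial (Fin 5) ℂ) :
    up l j P = MvPolynomial.X j * P -
      MvPolynomial.C (1 / (2 * l + 3) : ℂ) * (A_rr * pderiv j P) := rfl

theorem A_pderiv_deg_zero (j : Fin 5) (P : MvPolynomial (Fin 5) ℂ) (h : P.IsHomogeneous 0) :
    pderiv j P = 0 := by
  rw [← MvPolynomial.totalDegree_zero_iff_isHomogeneous,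
    MvPolynomial.totalDegree_eq_zero_iff_eq_C] at h
  rw [h, MvPolynomial.pderiv_C]

theorem A_rr_hom : A_rr.IsHomogeneous 2 := by
  unfold A_rr
  apply MvPolynomial.IsHomogeneous.sum
  intro k _
  exact MvPolynomial.isHomogeneous_X_pow k 2

/-- A1 -/
theorem up_mem (l : ℕ) (j : Fin 5) (P : MvPolynomial (Fin 5) ℂ) (hP : P ∈ Harm l) :
    up l j P ∈ Harm (l + 1) := by
  rw [A_mem_Harm] at hP ⊢
  obtain ⟨h1, h2⟩ := hP
  rw [A_up_eq]
  have hX : (MvPolynomial.X j * P).IsHomogeneous (l + 1) := by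
    rw [add_comm]
    exact (MvPolynomial.isHomogeneous_X ℂ j).mul h1
  rcases Nat.eq_zero_or_pos l with h0 | h0
  · subst h0
    have hd := A_pderiv_deg_zero j P h1
    rw [hd, mul_zero, mul_zero, sub_zero]
    refine ⟨hX, ?_⟩
    rw [A_lap_X_mul, hd, h2]
    simp
  · have hd : (pderiv j P).IsHomogeneous (l - 1) := h1.pderiv
    have hdl : A_lap (pderiv j P) = 0 := by
      have : A_lap (pderiv j P) = pderiv j (A_lap P) := by
        unfold A_lap
        rw [map_sum]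
        refine Finset.sum_congr rfl fun i _ => ?_
        rw [A_pderiv_comm i j P, A_pderiv_comm i j (pderiv i P)]
      rw [this, h2, map_zero]
    refine ⟨?_, ?_⟩
    · refine hX.sub ?_
      have h3 : (A_rr * pderiv j P).IsHomogeneous (2 + (l - 1)) := A_rr_hom.mul hd
      have h4 : 2 + (l - 1) = l + 1 := by omega
      rw [h4] at h3
      exact h3.C_mul _
    · rw [A_lap_sub, A_lap_X_mul, A_lap_C_mul, A_lap_rr_mul (l - 1) _ hd, h2, hdl]
      have h5 : ((l - 1 : ℕ) : MvPolynomial (Fin 5) ℂ) = (l : MvPolynomial (Fin 5) ℂ) - 1 := by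
        rw [Nat.cast_sub h0, Nat.cast_one]
      rw [h5]
      have h6 : MvPolynomial.C (1 / (2 * l + 3) : ℂ) *
          (2 * (l : MvPolynomial (Fin 5) ℂ) + 3) = 1 := by
        have : (2 * (l : MvPolynomial (Fin 5) ℂ) + 3) =
            MvPolynomial.C (2 * (l : ℂ) + 3) := by
          rw [map_add, map_mul, map_ofNat, map_ofNat, map_natCast]
        rw [this, ← MvPolynomial.C_mul, one_div_mul_cancel, MvPolynomial.C_1]
        exact_mod_cast (by positivity : (2 * (l : ℝ) + 3) ≠ 0)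
      linear_combination (-2 * pderiv j P) * h6

/-- A2 -/
theorem pderiv_mem (l : ℕ) (j : Fin 5) (P : MvPolynomial (Fin 5) ℂ) (hP : P ∈ Harm (l + 1)) :
    MvPolynomial.pderiv j P ∈ Harm l := by
  rw [A_mem_Harm] at hP ⊢
  obtain ⟨h1, h2⟩ := hP
  refine ⟨?_, ?_⟩
  · have := h1.pderiv (i := j)
    rwa [Nat.add_sub_cancel] at this
  · have : A_lap (pderiv j P) = pderiv j (A_lap P) := by
      unfold A_lap
      rw [map_sum]
      refine Finset.sum_congr rfl fun i _ => ?_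
      rw [A_pderiv_comm i j P, A_pderiv_comm i j (pderiv i P)]
    rw [this, h2, map_zero]

theorem A_up_smul (l : ℕ) (j : Fin 5) (c : ℂ) (P : MvPolynomial (Fin 5) ℂ) :
    up l j (MvPolynomial.C c * P) = MvPolynomial.C c * up l j P := by
  rw [A_up_eq, A_up_eq, MvPolynomial.pderiv_C_mul]
  ring

/-- A4 : zonal polynomials are homogeneous in `β` -/
theorem zon_smul (l : ℕ) (r : ℂ) (β : Fin 5 → ℂ) : zon l (r • β) = r ^ l • zon l β := by
  induction l with
  | zero => simp [zon]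
  | succ l ih =>
    rw [zon, zon, ih, MvPolynomial.smul_eq_C_mul, MvPolynomial.smul_eq_C_mul]
    have h : ∀ j : Fin 5, MvPolynomial.C ((r • β) j) * up l j (MvPolynomial.C (r ^ l) * zon l β) =
        MvPolynomial.C (r ^ (l + 1)) * (MvPolynomial.C (β j) * up l j (zon l β)) := by
      intro j
      rw [A_up_smul, Pi.smul_apply, smul_eq_mul, MvPolynomial.C_mul, pow_succ, MvPolynomial.C_mul]
      ring
    rw [Finset.sum_congr rfl fun j _ => h j, ← Finset.mul_sum]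
    ring

/-- L6 -/
theorem zon_mem (l : ℕ) (β : Fin 5 → ℂ) : zon l β ∈ Harm l := by
  induction l with
  | zero =>
    rw [zon, A_mem_Harm]
    refine ⟨MvPolynomial.isHomogeneous_one _ _, ?_⟩
    simp [A_lap]
  | succ l ih =>
    rw [zon, ← MvPolynomial.smul_eq_C_mul]
    apply Submodule.smul_mem
    apply Submodule.sum_mem
    intro j _
    rw [← MvPolynomial.smul_eq_C_mul]
    exact Submodule.smul_mem _ _ (up_mem l j _ ih)

/-! ## The recurrence -/

/-- `D_β` -/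
noncomputable def A_D (β : Fin 5 → ℂ) (P : MvPolynomial (Fin 5) ℂ) : MvPolynomial (Fin 5) ℂ :=
  ∑ j, MvPolynomial.C (β j) * pderiv j P

noncomputable def A_U (β : Fin 5 → ℂ) : MvPolynomial (Fin 5) ℂ :=
  ∑ j, MvPolynomial.C (β j) * MvPolynomial.X j

theorem A_D_mul (β : Fin 5 → ℂ) (P Q : MvPolynomial (Fin 5) ℂ) :
    A_D β (P * Q) = A_D β P * Q + P * A_D β Q := by
  unfold A_D
  rw [Finset.sum_mul, Finset.mul_sum, ← Finset.sum_add_distrib]
  refine Finset.sum_congr rfl fun j _ => ?_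
  rw [MvPolynomial.pderiv_mul]
  ring

theorem A_D_sub (β : Fin 5 → ℂ) (P Q : MvPolynomial (Fin 5) ℂ) :
    A_D β (P - Q) = A_D β P - A_D β Q := by
  unfold A_D
  rw [← Finset.sum_sub_distrib]
  refine Finset.sum_congr rfl fun j _ => ?_
  rw [map_sub]
  ring

theorem A_D_C (β : Fin 5 → ℂ) (c : ℂ) : A_D β (MvPolynomial.C c) = 0 := by
  unfold A_D
  simp

theorem A_D_U (β : Fin 5 → ℂ) : A_D β (A_U β) = MvPolynomial.C (∑ j, β j ^ 2) := by
  unfold A_D A_U
  rw [map_sum]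
  refine Finset.sum_congr rfl fun j _ => ?_
  rw [map_sum, Finset.sum_eq_single j]
  · rw [MvPolynomial.pderiv_C_mul, MvPolynomial.pderiv_X_self, mul_one, pow_two,
      MvPolynomial.C_mul]
  · intro k _ hk
    rw [MvPolynomial.pderiv_C_mul, MvPolynomial.pderiv_X_of_ne hk, mul_zero]
  · simp

theorem A_D_rr (β : Fin 5 → ℂ) : A_D β A_rr = 2 * A_U β := by
  unfold A_D A_U
  rw [Finset.mul_sum]
  refine Finset.sum_congr rfl fun j _ => ?_
  rw [A_pderiv_rr]
  ring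

theorem A_zon_succ (l : ℕ) (β : Fin 5 → ℂ) :
    MvPolynomial.C ((l : ℂ) + 1) * zon (l + 1) β =
      MvPolynomial.C (2 * (l : ℂ) + 3) * (A_U β * zon l β) - A_rr * A_D β (zon l β) := by
  have h1 : ((l : ℂ) + 1) ≠ 0 := Nat.cast_add_one_ne_zero l
  have h2 : (2 * (l : ℂ) + 3) ≠ 0 := by
    exact_mod_cast (by positivity : (2 * (l : ℝ) + 3) ≠ 0)
  have h3 : ∑ j, MvPolynomial.C (β j) * up l j (zon l β) = A_U β * zon l β -
      MvPolynomial.C (1 / (2 * l + 3) : ℂ) * (A_rr * A_D β (zon l β)) := by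
    unfold A_U A_D
    rw [Finset.sum_mul, Finset.mul_sum, Finset.mul_sum, ← Finset.sum_sub_distrib]
    refine Finset.sum_congr rfl fun j _ => ?_
    rw [A_up_eq]
    ring
  rw [zon, h3, ← mul_assoc, ← MvPolynomial.C_mul, mul_div_cancel₀ _ h1, mul_sub, ← mul_assoc
    (MvPolynomial.C (2 * (l : ℂ) + 3)) (MvPolynomial.C (1 / (2 * l + 3) : ℂ)),
    ← MvPolynomial.C_mul, mul_one_div_cancel h2, MvPolynomial.C_1, one_mul]

theorem A_D_zon (l : ℕ) (β : Fin 5 → ℂ) :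
    A_D β (zon (l + 1) β) = MvPolynomial.C (((l : ℂ) + 3) * ∑ j, β j ^ 2) * zon l β := by
  induction l with
  | zero =>
    have h := A_zon_succ 0 β
    have h0 : A_D β (zon 0 β) = 0 := by
      rw [zon, ← MvPolynomial.C_1]
      exact A_D_C β 1
    rw [h0] at h
    simp only [Nat.cast_zero, zero_add, mul_zero, sub_zero, MvPolynomial.C_1, one_mul] at h
    rw [zero_add, h, A_D_mul, A_D_C, A_D_mul, A_D_U, h0, zero_mul, zero_add, mul_zero, add_zero,
      ← mul_assoc, ← MvPolynomial.C_mul]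
    simp
  | succ l ih =>
    have h := A_zon_succ (l + 1) β
    have h' := A_zon_succ l β
    have hd := congrArg (A_D β) h
    rw [A_D_mul, A_D_C, zero_mul, zero_add, A_D_sub, A_D_mul, A_D_C, zero_mul, zero_add, A_D_mul,
      A_D_U, A_D_mul, A_D_rr, ih, A_D_mul, A_D_C, zero_mul, zero_add] at hd
    have h1 : ((l : ℂ) + 1 + 1) ≠ 0 := by
      exact_mod_cast (by positivity : ((l : ℝ) + 1 + 1) ≠ 0)
    have hC : (MvPolynomial.C ((l : ℂ) + 1 + 1) : MvPolynomial (Fin 5) ℂ) ≠ 0 := by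
      rw [Ne, MvPolynomial.C_eq_zero]
      exact h1
    apply mul_left_cancel₀ hC
    push_cast at hd ⊢
    rw [hd]
    simp only [MvPolynomial.C_mul, MvPolynomial.C_add, map_natCast, map_ofNat,
      MvPolynomial.C_1] at h' ⊢
    linear_combination ((l : MvPolynomial (Fin 5) ℂ) + 3) *
      MvPolynomial.C (∑ j, β j ^ 2) * (-h')

/-- the three term recurrence -/
theorem A_zon_rec (l : ℕ) (β : Fin 5 → ℂ) (x : Fin 5 → ℂ) :
    ((l : ℂ) + 2) * MvPolynomial.eval x (zon (l + 2) β) =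
      (2 * (l : ℂ) + 5) * (∑ j, x j * β j) * MvPolynomial.eval x (zon (l + 1) β) -
      ((l : ℂ) + 3) * ((∑ j, x j ^ 2) * ∑ j, β j ^ 2) * MvPolynomial.eval x (zon l β) := by
  have h := congrArg (MvPolynomial.eval x) (A_zon_succ (l + 1) β)
  rw [A_D_zon] at h
  have hU : MvPolynomial.eval x (A_U β) = ∑ j, x j * β j := by
    unfold A_U
    rw [map_sum]
    refine Finset.sum_congr rfl fun j _ => ?_
    rw [map_mul, MvPolynomial.eval_C, MvPolynomial.eval_X, mul_comm]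
  have hr : MvPolynomial.eval x A_rr = ∑ j, x j ^ 2 := by
    unfold A_rr
    rw [map_sum]
    refine Finset.sum_congr rfl fun j _ => ?_
    rw [map_pow, MvPolynomial.eval_X]
  simp only [map_mul, map_sub, MvPolynomial.eval_C, hU, hr] at h
  push_cast at h
  linear_combination h

/-! ## The generating function -/

noncomputable def A_P (Z : ℕ → ℂ) (n : ℕ) (s : ℂ) : ℂ := ∑ l ∈ Finset.range n, Z l * s ^ l

noncomputable def A_P' (Z : ℕ → ℂ) (n : ℕ) (s : ℂ) : ℂ :=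
  ∑ l ∈ Finset.range n, Z l * (l * s ^ (l - 1))

theorem A_hasDeriv (Z : ℕ → ℂ) (n : ℕ) (s : ℂ) : HasDerivAt (A_P Z n) (A_P' Z n s) s := by
  unfold A_P A_P'
  apply HasDerivAt.fun_sum
  intro l _
  exact (hasDerivAt_pow l s).const_mul (Z l)

theorem A_rem (Z : ℕ → ℂ) (u v : ℂ) (h0 : Z 0 = 1) (h1 : Z 1 = 3 * u)
    (hr : ∀ l : ℕ, ((l : ℂ) + 2) * Z (l + 2) =
      (2 * (l : ℂ) + 5) * u * Z (l + 1) - ((l : ℂ) + 3) * v * Z l) (n : ℕ) (s : ℂ) :
    (1 - 2 * u * s + v * s ^ 2) * A_P' Z (n + 1) s - 3 * (u - v * s) * A_P Z (n + 1) s =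
      -((n : ℂ) + 1) * Z (n + 1) * s ^ n + ((n : ℂ) + 3) * v * Z n * s ^ (n + 1) := by
  induction n with
  | zero =>
    simp only [A_P', A_P, Finset.sum_range_succ, Finset.sum_range_zero, h0, zero_add, h1]
    push_cast
    ring
  | succ n ih =>
    have e1 : A_P' Z (n + 1 + 1) s = A_P' Z (n + 1) s + Z (n + 1) * (((n : ℂ) + 1) * s ^ n) := by
      unfold A_P'
      rw [Finset.sum_range_succ _ (n + 1)]
      push_cast
      simp
    have e2 : A_P Z (n + 1 + 1) s = A_P Z (n + 1) s + Z (n + 1) * s ^ (n + 1) := by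
      unfold A_P
      rw [Finset.sum_range_succ _ (n + 1)]
    have h := hr n
    rw [e1, e2]
    push_cast
    linear_combination ih + s ^ (n + 1) * h

theorem A_bound (Z : ℕ → ℂ) (u v : ℂ) (hu : ‖u‖ ≤ 1 / 4) (hv : ‖v‖ ≤ 1 / 16)
    (h0 : Z 0 = 1) (h1 : Z 1 = 3 * u)
    (hr : ∀ l : ℕ, ((l : ℂ) + 2) * Z (l + 2) =
      (2 * (l : ℂ) + 5) * u * Z (l + 1) - ((l : ℂ) + 3) * v * Z l) (n : ℕ) :
    ‖Z n‖ ≤ (3 / 4 : ℝ) ^ n ∧ ‖Z (n + 1)‖ ≤ (3 / 4 : ℝ) ^ (n + 1) := by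
  induction n with
  | zero =>
    refine ⟨by simp [h0], ?_⟩
    rw [zero_add, h1, norm_mul]
    norm_num
    linarith
  | succ n ih =>
    refine ⟨ih.2, ?_⟩
    have h := congrArg norm (hr n)
    have hn : ‖((n : ℂ) + 2)‖ = (n : ℝ) + 2 := by
      have : ((n : ℂ) + 2) = (((n : ℝ) + 2 : ℝ) : ℂ) := by push_cast; ring
      rw [this, Complex.norm_real, Real.norm_of_nonneg (by positivity)]
    have hn2 : ‖(2 * (n : ℂ) + 5)‖ = 2 * (n : ℝ) + 5 := by
      have : (2 * (n : ℂ) + 5) = ((2 * (n : ℝ) + 5 : ℝ) : ℂ) := by push_cast; ring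
      rw [this, Complex.norm_real, Real.norm_of_nonneg (by positivity)]
    have hn3 : ‖((n : ℂ) + 3)‖ = (n : ℝ) + 3 := by
      have : ((n : ℂ) + 3) = (((n : ℝ) + 3 : ℝ) : ℂ) := by push_cast; ring
      rw [this, Complex.norm_real, Real.norm_of_nonneg (by positivity)]
    rw [norm_mul, hn] at h
    have h2 : ‖(2 * (n : ℂ) + 5) * u * Z (n + 1) - ((n : ℂ) + 3) * v * Z n‖ ≤
        (2 * (n : ℝ) + 5) * (1 / 4) * (3 / 4) ^ (n + 1) +
          ((n : ℝ) + 3) * (1 / 16) * (3 / 4) ^ n := by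
      refine (norm_sub_le _ _).trans ?_
      rw [norm_mul, norm_mul, norm_mul, norm_mul, hn2, hn3]
      gcongr
      · exact ih.2
      · exact ih.1
    rw [← h] at h2
    have hp : (0 : ℝ) < (3 / 4) ^ n := by positivity
    have hn0 : (0 : ℝ) ≤ n := Nat.cast_nonneg n
    have h3 : ((n : ℝ) + 2) * ‖Z (n + 2)‖ ≤ ((n : ℝ) + 2) * (3 / 4) ^ (n + 2) := by
      refine h2.trans ?_
      rw [pow_succ, pow_succ, pow_succ]
      nlinarith [mul_nonneg hn0 hp.le]
    exact le_of_mul_le_mul_left h3 (by positivity)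

theorem A_q_slit (u v : ℂ) (hu : ‖u‖ ≤ 1 / 4) (hv : ‖v‖ ≤ 1 / 16) (s : ℝ) (hs0 : 0 ≤ s)
    (hs1 : s ≤ 1) : (1 - 2 * u * s + v * s ^ 2 : ℂ) ∈ slitPlane ∧
      ‖(1 - 2 * u * s + v * s ^ 2 : ℂ)‖ ≤ 4 := by
  have hs : ‖(s : ℂ)‖ ≤ 1 := by
    rw [Complex.norm_real, Real.norm_of_nonneg hs0]
    exact hs1
  have h1 : ‖(-(2 * u * s) + v * s ^ 2 : ℂ)‖ ≤ 9 / 16 := by
    refine (norm_add_le _ _).trans ?_
    rw [norm_neg, norm_mul, norm_mul, norm_mul, norm_pow]
    have e1 : ‖(2 : ℂ)‖ * ‖u‖ * ‖(s : ℂ)‖ ≤ 2 * (1 / 4) * 1 := by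
      gcongr
      · simp
    have e2 : ‖v‖ * ‖(s : ℂ)‖ ^ 2 ≤ 1 / 16 * 1 ^ 2 := by gcongr
    linarith
  have h2 : (1 - 2 * u * s + v * s ^ 2 : ℂ) = 1 + (-(2 * u * s) + v * s ^ 2) := by ring
  refine ⟨?_, ?_⟩
  · rw [h2]
    left
    rw [Complex.add_re, Complex.one_re]
    have := (abs_le.mp (Complex.abs_re_le_norm (-(2 * u * s) + v * s ^ 2 : ℂ))).1
    linarith
  · rw [h2]
    refine (norm_add_le _ _).trans ?_
    rw [norm_one]
    linarith

theorem A_hasSum (Z : ℕ → ℂ) (u v : ℂ) (hu : ‖u‖ ≤ 1 / 4) (hv : ‖v‖ ≤ 1 / 16)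
    (h0 : Z 0 = 1) (h1 : Z 1 = 3 * u)
    (hr : ∀ l : ℕ, ((l : ℂ) + 2) * Z (l + 2) =
      (2 * (l : ℂ) + 5) * u * Z (l + 1) - ((l : ℂ) + 3) * v * Z l) :
    HasSum Z ((1 - 2 * u + v) ^ (-(3 / 2) : ℂ)) := by
  have hb := A_bound Z u v hu hv h0 h1 hr
  have hsm : Summable fun l => ‖Z l‖ :=
    Summable.of_nonneg_of_le (fun _ => norm_nonneg _) (fun l => (hb l).1)
      (summable_geometric_of_lt_one (by norm_num) (by norm_num))
  rw [hasSum_iff_tendsto_nat_of_summable_norm hsm]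
  have hq : (1 - 2 * u + v : ℂ) ∈ slitPlane := by
    have := (A_q_slit u v hu hv 1 zero_le_one le_rfl).1
    simpa using this
  have hq0 : (1 - 2 * u + v : ℂ) ≠ 0 := slitPlane_ne_zero hq
  -- the derivative
  have hder : ∀ n : ℕ, ∀ s ∈ Set.Icc (0 : ℝ) 1, HasDerivWithinAt
      (fun s : ℝ => A_P Z (n + 1) s * (1 - 2 * u * s + v * s ^ 2 : ℂ) ^ (3 / 2 : ℂ))
      ((1 - 2 * u * s + v * s ^ 2 : ℂ) ^ (1 / 2 : ℂ) *
        (-((n : ℂ) + 1) * Z (n + 1) * s ^ n + ((n : ℂ) + 3) * v * Z n * s ^ (n + 1)))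
      (Set.Icc 0 1) s := by
    intro n s hs
    have hsl := (A_q_slit u v hu hv s hs.1 hs.2).1
    have hqd : HasDerivAt (fun z : ℂ => 1 - 2 * u * z + v * z ^ 2) (-(2 * u) + v * (2 * s))
        (s : ℂ) := by
      have e1 : HasDerivAt (fun z : ℂ => 1 - 2 * u * z) (-(2 * u)) (s : ℂ) := by
        have := ((hasDerivAt_id (s : ℂ)).const_mul (2 * u)).const_sub 1
        simpa using this
      have e2 : HasDerivAt (fun z : ℂ => v * z ^ 2) (v * (2 * s)) (s : ℂ) := by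
        have := (hasDerivAt_pow 2 (s : ℂ)).const_mul v
        simpa using this
      exact e1.add e2
    have hc := hqd.cpow_const (c := (3 / 2 : ℂ)) hsl
    have hm := (A_hasDeriv Z (n + 1) (s : ℂ)).mul hc
    have hm2 := hm.comp_ofReal
    refine HasDerivAt.hasDerivWithinAt ?_
    refine hm2.congr_deriv ?_
    have hne : (1 - 2 * u * s + v * s ^ 2 : ℂ) ≠ 0 := slitPlane_ne_zero hsl
    have e3 : (1 - 2 * u * s + v * s ^ 2 : ℂ) ^ (3 / 2 : ℂ) =
        (1 - 2 * u * s + v * s ^ 2 : ℂ) ^ (1 / 2 : ℂ) * (1 - 2 * u * s + v * s ^ 2) := by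
      rw [show (3 / 2 : ℂ) = 1 / 2 + 1 by norm_num, Complex.cpow_add _ _ hne, Complex.cpow_one]
    have e4 : (3 / 2 - 1 : ℂ) = 1 / 2 := by norm_num
    rw [e3, e4, ← A_rem Z u v h0 h1 hr n s]
    ring
  have hbd : ∀ n : ℕ, ‖A_P Z (n + 1) 1 * (1 - 2 * u + v : ℂ) ^ (3 / 2 : ℂ) - 1‖ ≤
      4 * (((n : ℝ) + 3) * (3 / 4) ^ n) := by
    intro n
    have hle := norm_image_sub_le_of_norm_deriv_le_segment_01' (hder n)
      (C := 4 * (((n : ℝ) + 3) * (3 / 4) ^ n)) ?_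
    · have e1 : A_P Z (n + 1) 0 = 1 := by
        unfold A_P
        rw [Finset.sum_range_succ']
        simp [h0]
      simpa [e1] using hle
    · intro s hs
      rw [norm_mul]
      have hq4 := (A_q_slit u v hu hv s hs.1 hs.2.le).2
      have a1 : ‖(1 - 2 * u * s + v * s ^ 2 : ℂ) ^ (1 / 2 : ℂ)‖ ≤ 2 := by
        have e : (1 / 2 : ℂ) = ((1 / 2 : ℝ) : ℂ) := by push_cast; rfl
        rw [e, Complex.norm_cpow_real]
        calc ‖(1 - 2 * u * s + v * s ^ 2 : ℂ)‖ ^ (1 / 2 : ℝ) ≤ (4 : ℝ) ^ (1 / 2 : ℝ) := by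
              gcongr
          _ = 2 := by
              rw [show (4 : ℝ) = 2 ^ (2 : ℝ) by norm_num, ← Real.rpow_mul (by norm_num)]
              norm_num
      have hsn : ‖(s : ℂ)‖ ≤ 1 := by
        rw [Complex.norm_real, Real.norm_of_nonneg hs.1]
        exact hs.2.le
      have a2 : ‖(-((n : ℂ) + 1) * Z (n + 1) * s ^ n + ((n : ℂ) + 3) * v * Z n * s ^ (n + 1) :
          ℂ)‖ ≤ 2 * (((n : ℝ) + 3) * (3 / 4) ^ n) := by
        refine (norm_add_le _ _).trans ?_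
        have hn1 : ‖((n : ℂ) + 1)‖ = (n : ℝ) + 1 := by
          have : ((n : ℂ) + 1) = (((n : ℝ) + 1 : ℝ) : ℂ) := by push_cast; ring
          rw [this, Complex.norm_real, Real.norm_of_nonneg (by positivity)]
        have hn3 : ‖((n : ℂ) + 3)‖ = (n : ℝ) + 3 := by
          have : ((n : ℂ) + 3) = (((n : ℝ) + 3 : ℝ) : ℂ) := by push_cast; ring
          rw [this, Complex.norm_real, Real.norm_of_nonneg (by positivity)]
        rw [norm_mul, norm_mul, norm_neg, hn1, norm_mul, norm_mul, norm_mul, hn3, norm_pow,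
          norm_pow]
        have b1 : ((n : ℝ) + 1) * ‖Z (n + 1)‖ * ‖(s : ℂ)‖ ^ n ≤
            ((n : ℝ) + 3) * (3 / 4) ^ n * 1 := by
          have hz : ‖Z (n + 1)‖ ≤ (3 / 4 : ℝ) ^ n := by
            refine (hb n).2.trans ?_
            rw [pow_succ]
            have : (0 : ℝ) < (3 / 4) ^ n := by positivity
            linarith
          have hs' : ‖(s : ℂ)‖ ^ n ≤ 1 := pow_le_one₀ (norm_nonneg _) hsn
          gcongr
          norm_num
        have b2 : ((n : ℝ) + 3) * ‖v‖ * ‖Z n‖ * ‖(s : ℂ)‖ ^ (n + 1) ≤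
            ((n : ℝ) + 3) * 1 * (3 / 4) ^ n * 1 := by
          have hz := (hb n).1
          have hs' : ‖(s : ℂ)‖ ^ (n + 1) ≤ 1 := pow_le_one₀ (norm_nonneg _) hsn
          have hv1 : ‖v‖ ≤ 1 := hv.trans (by norm_num)
          gcongr
        linarith
      calc ‖(1 - 2 * u * s + v * s ^ 2 : ℂ) ^ (1 / 2 : ℂ)‖ *
            ‖(-((n : ℂ) + 1) * Z (n + 1) * s ^ n + ((n : ℂ) + 3) * v * Z n * s ^ (n + 1) : ℂ)‖ ≤
            2 * (2 * (((n : ℝ) + 3) * (3 / 4) ^ n)) := by gcongr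
        _ = _ := by ring
  have hlim : Filter.Tendsto (fun n : ℕ => 4 * (((n : ℝ) + 3) * (3 / 4 : ℝ) ^ n)) Filter.atTop
      (nhds 0) := by
    have e1 : Filter.Tendsto (fun n : ℕ => (n : ℝ) * (3 / 4 : ℝ) ^ n) Filter.atTop (nhds 0) :=
      tendsto_self_mul_const_pow_of_lt_one (by norm_num) (by norm_num)
    have e2 : Filter.Tendsto (fun n : ℕ => (3 / 4 : ℝ) ^ n) Filter.atTop (nhds 0) :=
      tendsto_pow_atTop_nhds_zero_of_lt_one (by norm_num) (by norm_num)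
    have e3 := (e1.add (e2.const_mul 3)).const_mul 4
    simp only [mul_zero, add_zero] at e3
    refine e3.congr fun n => ?_
    ring
  have ht : Filter.Tendsto (fun n : ℕ => A_P Z (n + 1) 1 *
      (1 - 2 * u + v : ℂ) ^ (3 / 2 : ℂ)) Filter.atTop (nhds 1) := by
    rw [tendsto_iff_norm_sub_tendsto_zero]
    exact squeeze_zero (fun _ => norm_nonneg _) hbd hlim
  have ht2 := ht.mul_const ((1 - 2 * u + v : ℂ) ^ (-(3 / 2) : ℂ))
  rw [one_mul] at ht2
  rw [← Filter.tendsto_add_atTop_iff_nat 1]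
  refine ht2.congr fun n => ?_
  have e : (1 - 2 * u + v : ℂ) ^ (3 / 2 : ℂ) * (1 - 2 * u + v : ℂ) ^ (-(3 / 2) : ℂ) = 1 := by
    rw [← Complex.cpow_add _ _ hq0]
    simp
  rw [mul_assoc, e, mul_one]
  unfold A_P
  simp

/-- A3 : generating function, `(1 - 2u + v)^{-3/2}` -/
theorem hasSum_zon (x β : Fin 5 → ℂ) (hx : ∑ j, ‖x j‖ ^ 2 ≤ 1) (hβ : ∑ j, ‖β j‖ ^ 2 ≤ 1 / 16) :
    HasSum (fun l => MvPolynomial.eval x (zon l β))
      ((1 - 2 * ∑ j, x j * β j + (∑ j, x j ^ 2) * ∑ j, β j ^ 2) ^ (-(3 / 2) : ℂ)) := by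
  have hu : ‖∑ j, x j * β j‖ ≤ 1 / 4 := by
    have h1 : ‖∑ j, x j * β j‖ ≤ ∑ j, ‖x j‖ * ‖β j‖ := by
      refine (norm_sum_le _ _).trans ?_
      exact (Finset.sum_congr rfl fun j _ => norm_mul _ _).le
    have h2 := Finset.sum_mul_sq_le_sq_mul_sq Finset.univ (fun j => ‖x j‖) (fun j => ‖β j‖)
    have h3 : (∑ j, ‖x j‖ ^ 2) * ∑ j, ‖β j‖ ^ 2 ≤ 1 * (1 / 16) := by
      gcongr
    have h4 : (∑ j, ‖x j‖ * ‖β j‖) ^ 2 ≤ (1 / 4) ^ 2 := by
      refine h2.trans (h3.trans ?_)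
      norm_num
    exact h1.trans (abs_le_of_sq_le_sq' h4 (by norm_num)).2
  have hv : ‖(∑ j, x j ^ 2) * ∑ j, β j ^ 2‖ ≤ 1 / 16 := by
    rw [norm_mul]
    have h1 : ‖∑ j, x j ^ 2‖ ≤ 1 := by
      refine (norm_sum_le _ _).trans ?_
      simp only [norm_pow]
      exact hx
    have h2 : ‖∑ j, β j ^ 2‖ ≤ 1 / 16 := by
      refine (norm_sum_le _ _).trans ?_
      simp only [norm_pow]
      exact hβ
    calc ‖∑ j, x j ^ 2‖ * ‖∑ j, β j ^ 2‖ ≤ 1 * (1 / 16) := by gcongr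
      _ = 1 / 16 := by norm_num
  refine A_hasSum _ _ _ hu hv ?_ ?_ (fun l => A_zon_rec l β x)
  · simp [zon]
  · have h := congrArg (MvPolynomial.eval x) (A_zon_succ 0 β)
    have h0 : A_D β (zon 0 β) = 0 := by
      rw [zon, ← MvPolynomial.C_1]
      exact A_D_C β 1
    rw [h0] at h
    simp only [Nat.cast_zero, zero_add, mul_zero, sub_zero, MvPolynomial.C_1, one_mul,
      map_mul, MvPolynomial.eval_C] at h
    rw [h]
    simp only [zon, map_one, mul_one, A_U, map_sum, map_mul, MvPolynomial.eval_C,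
      MvPolynomial.eval_X]
    congr 1
    exact Finset.sum_congr rfl fun j _ => mul_comm _ _

end Pool.Agent.Cone
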