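import Pool.Agent.Work.MP_b0b133_an.B1

/-!
# The sphere `S⁴` in polar coordinates
-/

set_option autoImplicit false
open MeasureTheory Complex Set
open scoped ENNReal ComplexConjugate

namespace Pool.Agent.Cone

/-- integral against `volumeIoiPow` -/
theorem B_nu {F : Type*} [NormedAddCommGroup F] [NormedSpace ℝ F] (n : ℕ) (f : ℝ → F) :
    ∫ r : Ioi (0 : ℝ), f r ∂(Measure.volumeIoiPow n) = ∫ r in Ioi (0 : ℝ), r ^ n • f r := by
  simp only [Measure.volumeIoiPow, ENNReal.ofReal]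
  rw [integral_withDensity_eq_integral_smul (by fun_prop)]
  rw [integral_subtype_comap measurableSet_Ioi fun a : ℝ ↦ Real.toNNReal (a ^ n) • f a]
  refine setIntegral_congr_fun measurableSet_Ioi fun x hx => ?_
  rw [NNReal.smul_def, Real.coe_toNNReal _ (pow_nonneg (le_of_lt hx) _)]

/-- `ℝ × ℝ⁴ = ℝ⁵` -/
noncomputable def B_cons : ℝ × R4 ≃ᵐ B_E5 :=
  ((MeasurableEquiv.refl ℝ).prodCongr (MeasurableEquiv.toLp 2 (Fin 4 → ℝ)).symm).trans
    ((MeasurableEquiv.piFinSuccAbove (fun _ : Fin 5 => ℝ) 0).symm.trans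
      (MeasurableEquiv.toLp 2 (Fin 5 → ℝ)))

theorem B_cons_apply (a : ℝ) (y : R4) (j : Fin 5) :
    B_cons (a, y) j = Fin.cases (motive := fun _ => ℝ) a (fun i : Fin 4 => y i) j := by
  refine Fin.cases ?_ (fun i => ?_) j
  · simp [B_cons, MeasurableEquiv.piFinSuccAbove]
    rfl
  · simp [B_cons, MeasurableEquiv.piFinSuccAbove]
    rfl

theorem B_cons_mp : MeasurePreserving B_cons (volume : Measure (ℝ × R4)) volume := by
  have h1 : MeasurePreserving (Prod.map (id : ℝ → ℝ) (WithLp.ofLp : R4 → (Fin 4 → ℝ)))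
      ((volume : Measure ℝ).prod volume) ((volume : Measure ℝ).prod volume) :=
    (MeasurePreserving.id _).prod (PiLp.volume_preserving_ofLp (Fin 4))
  have h2 := (volume_preserving_piFinSuccAbove (fun _ : Fin 5 => ℝ) 0).symm
  have h3 := PiLp.volume_preserving_toLp (Fin 5)
  exact h3.comp (h2.comp h1)

theorem B_cons_norm (a : ℝ) (y : R4) : ‖B_cons (a, y)‖ ^ 2 = a ^ 2 + ‖y‖ ^ 2 := by
  rw [EuclideanSpace.norm_sq_eq, EuclideanSpace.norm_sq_eq, Fin.sum_univ_succ]
  simp only [B_cons_apply, Fin.cases_zero, Fin.cases_succ, Real.norm_eq_abs, sq_abs]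

/-- a homogeneous function times a Gaussian -/
noncomputable def B_H (h : (Fin 5 → ℝ) → ℂ) (x : B_E5) : ℂ :=
  h (fun j => ‖x‖⁻¹ * x j) * (Real.exp (-‖x‖ ^ 2 / 2) : ℂ)

theorem B_H_bound (h : (Fin 5 → ℝ) → ℂ) (hc : Continuous h) : ∃ C : ℝ, 0 ≤ C ∧
    ∀ x, ‖B_H h x‖ ≤ C * Real.exp (-‖x‖ ^ 2 / 2) := by
  obtain ⟨C, hC⟩ := (isCompact_closedBall (0 : Fin 5 → ℝ) 1).exists_bound_of_continuousOn
    hc.continuousOn
  refine ⟨C, (norm_nonneg _).trans (hC 0 (Metric.mem_closedBall_self zero_le_one)), fun x => ?_⟩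
  unfold B_H
  rw [norm_mul, Complex.norm_real, Real.norm_eq_abs, abs_of_pos (Real.exp_pos _)]
  refine mul_le_mul_of_nonneg_right (hC _ ?_) (Real.exp_pos _).le
  rw [mem_closedBall_zero_iff, pi_norm_le_iff_of_nonneg zero_le_one]
  intro j
  rw [Real.norm_eq_abs, abs_mul, abs_of_nonneg (inv_nonneg.2 (norm_nonneg _))]
  have h1 := PiLp.norm_apply_le x j
  rw [Real.norm_eq_abs] at h1
  by_cases h0 : ‖x‖ = 0
  · rw [h0, inv_zero, zero_mul]; exact zero_le_one
  · have h2 : 0 < ‖x‖ := lt_of_le_of_ne (norm_nonneg _) (Ne.symm h0)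
    rw [inv_mul_le_iff₀ h2, mul_one]
    exact h1

theorem B_H_meas (h : (Fin 5 → ℝ) → ℂ) (hc : Continuous h) : Measurable (B_H h) := by
  unfold B_H
  refine Measurable.mul (hc.measurable.comp ?_) ?_
  · refine measurable_pi_lambda _ fun j => ?_
    fun_prop
  · fun_prop

theorem B_H_int (h : (Fin 5 → ℝ) → ℂ) (hc : Continuous h) : Integrable (B_H h) := by
  obtain ⟨C, hC, hb⟩ := B_H_bound h hc
  have key : Integrable (fun x : B_E5 => (fun y : ℝ => C * Real.exp (-(1 / 2) * y ^ 2)) ‖x‖) := by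
    refine (integrable_fun_norm_addHaar (volume : Measure B_E5) (f := fun y : ℝ =>
      C * Real.exp (-(1 / 2) * y ^ 2))).2 ?_
    have := (integrable_rpow_mul_exp_neg_mul_sq (b := 1 / 2) (by norm_num)
      (s := ((Module.finrank ℝ B_E5 - 1 : ℕ) : ℝ))
      (by have := Nat.cast_nonneg (α := ℝ) (Module.finrank ℝ B_E5 - 1); linarith)).const_mul C
    simp only [Real.rpow_natCast] at this
    refine this.integrableOn.congr_fun (fun y _ => ?_) measurableSet_Ioi
    simp only [smul_eq_mul]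
    ring
  refine key.mono' (B_H_meas h hc).aestronglyMeasurable (Filter.Eventually.of_forall fun x => ?_)
  refine (hb x).trans (le_of_eq ?_)
  simp only
  congr 2
  ring

/-- the Gaussian radial constant -/
noncomputable def B_c : ℂ := ∫ r in Ioi (0 : ℝ), r ^ 4 • ((Real.exp (-r ^ 2 / 2) : ℝ) : ℂ)

theorem B_c_ne : B_c ≠ 0 := by
  have h := B_rad_ne 0 4
  simp only [pow_zero, one_mul] at h
  rw [B_nu 4 fun r : ℝ => ((Real.exp (-r ^ 2 / 2) : ℝ) : ℂ)] at h
  exact h

theorem B_lhs (h : (Fin 5 → ℝ) → ℂ) : ∫ x, B_H h x =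
    (∫ ω : S4, h (fun j => (ω : B_E5) j) ∂(volume : Measure B_E5).toSphere) * B_c := by
  unfold B_c
  have hd : Module.finrank ℝ B_E5 - 1 = 4 := by simp [B_E5]
  rw [B_polar, hd, ← B_nu 4 fun r : ℝ => ((Real.exp (-r ^ 2 / 2) : ℝ) : ℂ), ← integral_prod_mul]
  congr 1
  ext p
  have hr : (0 : ℝ) < p.2 := p.2.2
  have hn : ‖(p.2 : ℝ) • (p.1 : B_E5)‖ = p.2 := by
    rw [norm_smul, norm_eq_of_mem_sphere p.1, mul_one, Real.norm_eq_abs, abs_of_pos hr]
  unfold B_H
  rw [hn]
  congr 2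
  ext j
  rw [PiLp.smul_apply, smul_eq_mul, ← mul_assoc, inv_mul_cancel₀ hr.ne', one_mul]

theorem B_inner (h : (Fin 5 → ℝ) → ℂ) (hc : Continuous h) (η : S3) :
    ∫ r : Ioi (0 : ℝ), ∫ a : ℝ, B_H h (B_cons (a, (r : ℝ) • (η : R4)))
      ∂volume ∂(Measure.volumeIoiPow 3) =
    B_c * ∫ θ in Ioo (0 : ℝ) Real.pi, (Real.sin θ ^ 3) •
      h (fun j => Fin.cases (motive := fun _ => ℝ) (Real.cos θ)
        (fun i : Fin 4 => Real.sin θ * (η : R4) i) j) := by
  rw [B_nu 3 fun r : ℝ => ∫ a : ℝ, B_H h (B_cons (a, r • (η : R4)))]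
  have hη : ‖(η : R4)‖ = 1 := norm_eq_of_mem_sphere η
  set K : ℝ × ℝ → ℂ := fun p => if 0 < p.2 then p.2 ^ 3 • B_H h (B_cons (p.1, p.2 • (η : R4)))
    else 0 with hK
  have hn : ∀ p : ℝ × ℝ, ‖B_cons (p.1, p.2 • (η : R4))‖ ^ 2 = p.1 ^ 2 + p.2 ^ 2 := by
    intro p
    rw [B_cons_norm, norm_smul, hη, mul_one, Real.norm_eq_abs, sq_abs]
  have hm : Measurable K := by
    have h1 : Measurable fun p : ℝ × ℝ => B_H h (B_cons (p.1, p.2 • (η : R4))) :=
      (B_H_meas h hc).comp (B_cons.measurable.comp (by fun_prop))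
    refine Measurable.ite (measurableSet_lt measurable_const measurable_snd) ?_ measurable_const
    exact (measurable_snd.pow_const 3).smul h1
  have hKi : Integrable K := by
    obtain ⟨C, hC, hb⟩ := B_H_bound h hc
    have g1 : Integrable (fun a : ℝ => Real.exp (-(1 / 2) * a ^ 2)) :=
      integrable_exp_neg_mul_sq (by norm_num)
    have g2 : Integrable (fun r : ℝ => C * |r ^ 3 * Real.exp (-(1 / 2) * r ^ 2)|) := by
      have := (integrable_rpow_mul_exp_neg_mul_sq (b := 1 / 2) (by norm_num)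
        (s := ((3 : ℕ) : ℝ)) (by norm_num)).abs.const_mul C
      simpa only [Real.rpow_natCast] using this
    refine (g1.mul_prod g2).mono' hm.aestronglyMeasurable (Filter.Eventually.of_forall fun p => ?_)
    rw [hK]
    simp only
    split_ifs with hp
    · rw [norm_smul, Real.norm_eq_abs, abs_of_pos (pow_pos hp 3)]
      have h2 := hb (B_cons (p.1, p.2 • (η : R4)))
      rw [hn] at h2
      have e1 : Real.exp (-(p.1 ^ 2 + p.2 ^ 2) / 2) = Real.exp (-(1 / 2) * p.1 ^ 2) *
          Real.exp (-(1 / 2) * p.2 ^ 2) := by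
        rw [← Real.exp_add]; congr 1; ring
      rw [e1] at h2
      rw [abs_of_pos (mul_pos (pow_pos hp 3) (Real.exp_pos _))]
      calc p.2 ^ 3 * ‖B_H h (B_cons (p.1, p.2 • (η : R4)))‖ ≤ p.2 ^ 3 *
          (C * (Real.exp (-(1 / 2) * p.1 ^ 2) * Real.exp (-(1 / 2) * p.2 ^ 2))) :=
            mul_le_mul_of_nonneg_left h2 (pow_pos hp 3).le
        _ = _ := by ring
    · rw [norm_zero]
      positivity
  have e1 : ∫ r in Ioi (0 : ℝ), r ^ 3 • ∫ a : ℝ, B_H h (B_cons (a, r • (η : R4))) =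
      ∫ p, K p := by
    rw [← integral_indicator measurableSet_Ioi]
    rw [Measure.volume_eq_prod] at hKi ⊢
    rw [integral_prod_symm _ hKi]
    congr 1
    ext r
    by_cases hr : 0 < r
    · rw [indicator_of_mem (show r ∈ Ioi (0 : ℝ) from hr), ← integral_smul]
      congr 1
      ext a
      simp [hK, hr]
    · rw [indicator_of_notMem (show r ∉ Ioi (0 : ℝ) from hr)]
      simp [hK, hr]
  rw [e1, ← _root_.integral_comp_polarCoord_symm K]
  have e2 : ∫ p in _root_.polarCoord.target, p.1 • K (_root_.polarCoord.symm p) =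
      ∫ p in Ioi (0 : ℝ) ×ˢ Ioo (0 : ℝ) Real.pi, p.1 • K (_root_.polarCoord.symm p) := by
    have hsub : Ioi (0 : ℝ) ×ˢ Ioo (0 : ℝ) Real.pi ⊆ _root_.polarCoord.target := by
      rw [_root_.polarCoord_target]
      refine prod_mono le_rfl (Ioo_subset_Ioo_left ?_)
      linarith [Real.pi_pos]
    refine setIntegral_eq_of_subset_of_forall_sdiff_eq_zero
      (_root_.polarCoord.open_target.measurableSet) hsub ?_
    rintro ⟨r, θ⟩ ⟨h1, h2⟩
    rw [_root_.polarCoord_target] at h1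
    have hr : 0 < r := h1.1
    have hθ : θ ≤ 0 := by
      by_contra h3
      push Not at h3
      exact h2 ⟨hr, h3, h1.2.2⟩
    have hs : ¬ 0 < r * Real.sin θ := by
      have : Real.sin θ ≤ 0 := Real.sin_nonpos_of_nonpos_of_neg_pi_le hθ h1.2.1.le
      nlinarith
    simp only [_root_.polarCoord_symm_apply, hK]
    rw [if_neg hs, smul_zero]
  rw [e2]
  have e3 : ∀ p ∈ Ioi (0 : ℝ) ×ˢ Ioo (0 : ℝ) Real.pi, p.1 • K (_root_.polarCoord.symm p) =
      (p.1 ^ 4 • ((Real.exp (-p.1 ^ 2 / 2) : ℝ) : ℂ)) * ((Real.sin p.2 ^ 3) •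
      h (fun j => Fin.cases (motive := fun _ => ℝ) (Real.cos p.2)
        (fun i : Fin 4 => Real.sin p.2 * (η : R4) i) j)) := by
    rintro ⟨r, θ⟩ ⟨hr, hθ⟩
    have hr' : 0 < r := hr
    have hs : 0 < Real.sin θ := Real.sin_pos_of_pos_of_lt_pi hθ.1 hθ.2
    simp only [_root_.polarCoord_symm_apply, hK]
    rw [if_pos (mul_pos hr' hs)]
    have hn1 : ‖B_cons (r * Real.cos θ, (r * Real.sin θ) • (η : R4))‖ = r := by
      have h1 := hn (r * Real.cos θ, r * Real.sin θ)
      simp only at h1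
      have h2 : (r * Real.cos θ) ^ 2 + (r * Real.sin θ) ^ 2 = r ^ 2 := by
        have := Real.sin_sq_add_cos_sq θ
        nlinarith
      rw [h2] at h1
      exact (pow_left_inj₀ (norm_nonneg _) hr'.le two_ne_zero).1 h1
    unfold B_H
    rw [hn1]
    have hfun : (fun j => r⁻¹ * B_cons (r * Real.cos θ, (r * Real.sin θ) • (η : R4)) j) =
        fun j => Fin.cases (motive := fun _ => ℝ) (Real.cos θ)
          (fun i : Fin 4 => Real.sin θ * (η : R4) i) j := by
      ext j
      rw [B_cons_apply]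
      refine Fin.cases ?_ (fun i => ?_) j
      · simp only [Fin.cases_zero]
        field_simp
      · simp only [Fin.cases_succ, PiLp.smul_apply, smul_eq_mul]
        field_simp
    rw [hfun]
    simp only [real_smul]
    push_cast
    ring
  rw [setIntegral_congr_fun (measurableSet_Ioi.prod measurableSet_Ioo) e3]
  unfold B_c
  rw [Measure.volume_eq_prod]
  exact setIntegral_prod_mul (fun r : ℝ => (r ^ 4 • ((Real.exp (-r ^ 2 / 2) : ℝ) : ℂ)))
    (fun θ : ℝ => ((Real.sin θ ^ 3) • h (fun j => Fin.cases (motive := fun _ => ℝ) (Real.cos θ)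
        (fun i : Fin 4 => Real.sin θ * (η : R4) i) j))) _ _

theorem B_int_prod (h : (Fin 5 → ℝ) → ℂ) (hc : Continuous h) :
    Integrable (fun p : ℝ × R4 => B_H h (B_cons p)) ((volume : Measure ℝ).prod volume) :=
  (B_cons_mp.integrable_comp_emb B_cons.measurableEmbedding).2 (B_H_int h hc)

theorem B_rhs (h : (Fin 5 → ℝ) → ℂ) (hc : Continuous h) : ∫ x, B_H h x =
    B_c * ∫ η : S3, (∫ θ in Ioo (0 : ℝ) Real.pi, (Real.sin θ ^ 3) •
      h (fun j => Fin.cases (motive := fun _ => ℝ) (Real.cos θ)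
        (fun i : Fin 4 => Real.sin θ * (η : R4) i) j)) ∂(volume : Measure R4).toSphere := by
  have hi := B_int_prod h hc
  rw [← B_cons_mp.integral_comp B_cons.measurableEmbedding, Measure.volume_eq_prod,
    integral_prod_symm _ hi]
  have hi2 : Integrable (fun y : R4 => ∫ a : ℝ, B_H h (B_cons (a, y))) :=
    hi.integral_prod_right
  have hd : Module.finrank ℝ R4 - 1 = 3 := by simp [R4]
  rw [B_polar, hd]
  have hi3 : Integrable (fun p : S3 × Ioi (0 : ℝ) =>
      ∫ a : ℝ, B_H h (B_cons (a, (p.2 : ℝ) • (p.1 : R4))))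
      ((volume : Measure R4).toSphere.prod (Measure.volumeIoiPow 3)) := by
    have h1 := (volume : Measure R4).measurePreserving_homeomorphUnitSphereProd
    rw [hd] at h1
    rw [← h1.integrable_comp_emb (Homeomorph.measurableEmbedding _)]
    have h2 : Integrable (fun y : R4 => ∫ a : ℝ, B_H h (B_cons (a, y)))
        ((volume : Measure R4).restrict {0}ᶜ) := hi2.restrict
    rw [← IntegrableOn, integrableOn_iff_comap_subtypeVal (measurableSet_singleton _).compl] at h2
    refine h2.congr (Filter.Eventually.of_forall fun y => ?_)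
    simp only [Function.comp_apply, homeomorphUnitSphereProd_apply_fst_coe,
      homeomorphUnitSphereProd_apply_snd_coe]
    have hx : ‖(y : R4)‖ ≠ 0 := norm_ne_zero_iff.2 y.2
    rw [smul_smul, mul_inv_cancel₀ hx, one_smul]
  rw [integral_prod _ hi3, ← integral_const_mul]
  congr 1
  ext η
  exact B_inner h hc η

theorem B_swap (h : (Fin 5 → ℝ) → ℂ) (hc : Continuous h) :
    ∫ η : S3, (∫ θ in Ioo (0 : ℝ) Real.pi, (Real.sin θ ^ 3) •
      h (fun j => Fin.cases (motive := fun _ => ℝ) (Real.cos θ)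
        (fun i : Fin 4 => Real.sin θ * (η : R4) i) j)) ∂(volume : Measure R4).toSphere =
    ∫ θ in (0 : ℝ)..Real.pi, (Real.sin θ ^ 3) • ∫ η : S3,
      h (fun j => Fin.cases (motive := fun _ => ℝ) (Real.cos θ)
        (fun i : Fin 4 => Real.sin θ * (η : R4) i) j) ∂(volume : Measure R4).toSphere := by
  have hcont : Continuous (fun p : S3 × ℝ => (Real.sin p.2 ^ 3) •
      h (fun j => Fin.cases (motive := fun _ => ℝ) (Real.cos p.2)
        (fun i : Fin 4 => Real.sin p.2 * (p.1 : R4) i) j)) := by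
    refine Continuous.smul (f := fun p : S3 × ℝ => Real.sin p.2 ^ 3) (by fun_prop)
      (hc.comp (continuous_pi fun j => ?_))
    refine Fin.cases ?_ (fun i => ?_) j
    · simp only [Fin.cases_zero]
      fun_prop
    · simp only [Fin.cases_succ]
      fun_prop
  have hi : Integrable (fun p : S3 × ℝ => (Real.sin p.2 ^ 3) •
      h (fun j => Fin.cases (motive := fun _ => ℝ) (Real.cos p.2)
        (fun i : Fin 4 => Real.sin p.2 * (p.1 : R4) i) j))
      ((volume : Measure R4).toSphere.prod (volume.restrict (Ioo (0 : ℝ) Real.pi))) := by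
    obtain ⟨C, hC⟩ := (isCompact_univ.prod (isCompact_Icc (a := (0 : ℝ))
      (b := Real.pi))).exists_bound_of_continuousOn hcont.continuousOn
    refine (integrable_const C).mono' hcont.aestronglyMeasurable ?_
    have hae : ∀ᵐ p ∂((volume : Measure R4).toSphere.prod (volume.restrict (Ioo (0 : ℝ) Real.pi))),
        p.2 ∈ Ioo (0 : ℝ) Real.pi := by
      have h0 : ∀ᵐ θ ∂(volume.restrict (Ioo (0 : ℝ) Real.pi)), θ ∈ Ioo (0 : ℝ) Real.pi :=
        ae_restrict_mem measurableSet_Ioo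
      exact Measure.quasiMeasurePreserving_snd.ae h0
    filter_upwards [hae] with p hp
    exact hC p ⟨mem_univ _, Ioo_subset_Icc_self hp⟩
  rw [integral_integral_swap hi, intervalIntegral.integral_of_le Real.pi_pos.le,
    integral_Ioc_eq_integral_Ioo]
  refine integral_congr_ae (Filter.Eventually.of_forall fun θ => ?_)
  exact integral_smul _ _

/-- B3 : `S⁴` in polar coordinates -/
theorem sphM_polar (h : (Fin 5 → ℝ) → ℂ) (hc : Continuous h) :
    ∫ ω : S4, h (fun j => (ω : EuclideanSpace ℝ (Fin 5)) j) ∂sphM =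
      (3 / 4 : ℝ) • ∫ θ in (0 : ℝ)..Real.pi, (Real.sin θ ^ 3) • ∫ η : S3,
        h (fun j => Fin.cases (Real.cos θ) (fun i : Fin 4 => Real.sin θ * (η : R4) i) j) ∂sphM3 := by
  have key : ∀ g : (Fin 5 → ℝ) → ℂ, Continuous g →
      ∫ ω : S4, g (fun j => (ω : B_E5) j) ∂(volume : Measure B_E5).toSphere =
      ∫ θ in (0 : ℝ)..Real.pi, (Real.sin θ ^ 3) • ∫ η : S3,
      g (fun j => Fin.cases (motive := fun _ => ℝ) (Real.cos θ)
        (fun i : Fin 4 => Real.sin θ * (η : R4) i) j) ∂(volume : Measure R4).toSphere := by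
    intro g hg
    have h1 := (B_lhs g).symm.trans (B_rhs g hg)
    rw [B_swap g hg, mul_comm] at h1
    exact mul_left_cancel₀ B_c_ne h1
  have h4 : (volume : Measure R4).toSphere Set.univ ≠ 0 :=
    (Measure.measure_univ_ne_zero).2 (Measure.toSphere_ne_zero _)
  have h4' : (volume : Measure R4).toSphere Set.univ ≠ ⊤ := measure_ne_top _ _
  have h5 : (volume : Measure B_E5).toSphere Set.univ ≠ 0 :=
    (Measure.measure_univ_ne_zero).2 (Measure.toSphere_ne_zero _)
  have h5' : (volume : Measure B_E5).toSphere Set.univ ≠ ⊤ := measure_ne_top _ _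
  -- total masses
  have hone := key (fun _ => 1) continuous_const
  have hs : ∫ θ in (0 : ℝ)..Real.pi, Real.sin θ ^ 3 = 4 / 3 := by
    rw [integral_sin_pow (a := 0) (b := Real.pi) 1]
    norm_num
  set A : ℝ := ((volume : Measure B_E5).toSphere Set.univ).toReal with hA
  set B : ℝ := ((volume : Measure R4).toSphere Set.univ).toReal with hB
  have hA0 : A ≠ 0 := (ENNReal.toReal_pos h5 h5').ne'
  have hB0 : B ≠ 0 := (ENNReal.toReal_pos h4 h4').ne'
  have hAB : A = 4 / 3 * B := by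
    have e1 : ∫ ω : S4, (1 : ℂ) ∂(volume : Measure B_E5).toSphere = (A : ℂ) := by
      rw [integral_const]
      simp [Measure.real, hA]
    have e2 : ∫ η : S3, (1 : ℂ) ∂(volume : Measure R4).toSphere = (B : ℂ) := by
      rw [integral_const]
      simp [Measure.real, hB]
    rw [e1] at hone
    simp only [e2] at hone
    rw [intervalIntegral.integral_smul_const, hs] at hone
    have : (A : ℂ) = ((4 / 3 * B : ℝ) : ℂ) := by
      rw [hone]
      simp
    exact_mod_cast this
  have eL : ∫ ω : S4, h (fun j => (ω : EuclideanSpace ℝ (Fin 5)) j) ∂sphM =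
      A⁻¹ • ∫ ω : S4, h (fun j => (ω : B_E5) j) ∂(volume : Measure B_E5).toSphere := by
    unfold sphM
    rw [integral_smul_measure, ENNReal.toReal_inv]
  have eR : ∀ θ : ℝ, ∫ η : S3,
      h (fun j => Fin.cases (Real.cos θ) (fun i : Fin 4 => Real.sin θ * (η : R4) i) j) ∂sphM3 =
      B⁻¹ • ∫ η : S3, h (fun j => Fin.cases (motive := fun _ => ℝ) (Real.cos θ)
        (fun i : Fin 4 => Real.sin θ * (η : R4) i) j) ∂(volume : Measure R4).toSphere := by
    intro θ
    unfold sphM3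
    rw [integral_smul_measure, ENNReal.toReal_inv]
  rw [eL, key h hc]
  simp only [eR]
  have e3 : ∀ θ : ℝ, (Real.sin θ ^ 3) • B⁻¹ • ∫ η : S3,
      h (fun j => Fin.cases (motive := fun _ => ℝ) (Real.cos θ)
        (fun i : Fin 4 => Real.sin θ * (η : R4) i) j) ∂(volume : Measure R4).toSphere =
      B⁻¹ • (Real.sin θ ^ 3) • ∫ η : S3,
      h (fun j => Fin.cases (motive := fun _ => ℝ) (Real.cos θ)
        (fun i : Fin 4 => Real.sin θ * (η : R4) i) j) ∂(volume : Measure R4).toSphere :=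
    fun θ => smul_comm _ _ _
  simp only [e3]
  rw [intervalIntegral.integral_smul, smul_smul]
  congr 1
  rw [hAB]
  field_simp

end Pool.Agent.Cone
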