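import Mathlib

/-!
# Penrose change of variables in the `(t, r)` half plane
-/

set_option autoImplicit false
set_option linter.unusedVariables false
set_option linter.style.longLine false
open MeasureTheory

namespace Pool.Agent.Cone

/-- the inverse Penrose map `(T, θ) ↦ (t, r)` -/
noncomputable def C1_phi (q : ℝ × ℝ) : ℝ × ℝ :=
  ((Real.tan ((q.1 + q.2) / 2) + Real.tan ((q.1 - q.2) / 2)) / 2,
    (Real.tan ((q.1 + q.2) / 2) - Real.tan ((q.1 - q.2) / 2)) / 2)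

/-- the triangle -/
def C1_A : Set (ℝ × ℝ) := {q | 0 < q.2 ∧ |q.1| + q.2 < Real.pi}

theorem C1a_mem {q : ℝ × ℝ} (hq : q ∈ C1_A) :
    (q.1 + q.2) / 2 ∈ Set.Ioo (-(Real.pi / 2)) (Real.pi / 2) ∧
      (q.1 - q.2) / 2 ∈ Set.Ioo (-(Real.pi / 2)) (Real.pi / 2) := by
  obtain ⟨h1, h2⟩ := hq
  have h3 := abs_le.1 (le_refl |q.1|)
  refine ⟨⟨?_, ?_⟩, ⟨?_, ?_⟩⟩ <;> linarith [h3.1, h3.2]

/-- the derivative -/
noncomputable def C1a_d (q : ℝ × ℝ) : ℝ × ℝ →L[ℝ] ℝ × ℝ :=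
  let A := 1 / Real.cos ((q.1 + q.2) / 2) ^ 2
  let B := 1 / Real.cos ((q.1 - q.2) / 2) ^ 2
  (Matrix.toLin (Module.Basis.finTwoProd ℝ) (Module.Basis.finTwoProd ℝ)
    !![(A + B) / 4, (A - B) / 4; (A - B) / 4, (A + B) / 4]).toContinuousLinearMap

theorem C1a_det (q : ℝ × ℝ) : (C1a_d q).det =
    1 / Real.cos ((q.1 + q.2) / 2) ^ 2 * (1 / Real.cos ((q.1 - q.2) / 2) ^ 2) / 4 := by
  unfold C1a_d
  simp only [LinearMap.det_toContinuousLinearMap, LinearMap.det_toLin, Matrix.det_fin_two_of]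
  ring

theorem C1a_hasFDerivAt {q : ℝ × ℝ} (hq : q ∈ C1_A) : HasFDerivAt C1_phi (C1a_d q) q := by
  obtain ⟨ha, hb⟩ := C1a_mem hq
  have hca := (Real.cos_pos_of_mem_Ioo ha).ne'
  have hcb := (Real.cos_pos_of_mem_Ioo hb).ne'
  have h1 : HasFDerivAt (fun q : ℝ × ℝ => (q.1 + q.2) / 2)
      ((1 / 2 : ℝ) • (ContinuousLinearMap.fst ℝ ℝ ℝ + ContinuousLinearMap.snd ℝ ℝ ℝ)) q := by
    have := ((hasFDerivAt_fst (𝕜 := ℝ) (p := q)).add (hasFDerivAt_snd (𝕜 := ℝ) (p := q))).const_smul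
      (1 / 2 : ℝ)
    refine this.congr_of_eventuallyEq (Filter.Eventually.of_forall fun x => ?_)
    simp
    ring
  have h2 : HasFDerivAt (fun q : ℝ × ℝ => (q.1 - q.2) / 2)
      ((1 / 2 : ℝ) • (ContinuousLinearMap.fst ℝ ℝ ℝ - ContinuousLinearMap.snd ℝ ℝ ℝ)) q := by
    have := ((hasFDerivAt_fst (𝕜 := ℝ) (p := q)).sub (hasFDerivAt_snd (𝕜 := ℝ) (p := q))).const_smul
      (1 / 2 : ℝ)
    refine this.congr_of_eventuallyEq (Filter.Eventually.of_forall fun x => ?_)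
    simp
    ring
  have h3 := (Real.hasDerivAt_tan hca).comp_hasFDerivAt q h1
  have h4 := (Real.hasDerivAt_tan hcb).comp_hasFDerivAt q h2
  have h5 := (h3.add h4).const_smul (1 / 2 : ℝ)
  have h6 := (h3.sub h4).const_smul (1 / 2 : ℝ)
  have h7 := h5.prodMk h6
  have h8 : C1_phi = fun x : ℝ × ℝ =>
      (((1 / 2 : ℝ) • ((Real.tan ∘ fun q : ℝ × ℝ => (q.1 + q.2) / 2) +
        (Real.tan ∘ fun q : ℝ × ℝ => (q.1 - q.2) / 2))) x,
       ((1 / 2 : ℝ) • ((Real.tan ∘ fun q : ℝ × ℝ => (q.1 + q.2) / 2) -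
        (Real.tan ∘ fun q : ℝ × ℝ => (q.1 - q.2) / 2))) x) := by
    funext x
    simp only [C1_phi, Pi.smul_apply, Pi.add_apply, Pi.sub_apply, Function.comp_apply, smul_eq_mul,
      Prod.mk.injEq]
    constructor <;> ring
  rw [h8]
  refine HasFDerivAt.congr_fderiv h7 ?_
  unfold C1a_d
  simp only
  rw [Matrix.toLin_finTwoProd_toContinuousLinearMap]
  ext <;> simp <;> ring

theorem C1a_injOn : Set.InjOn C1_phi C1_A := by
  intro p hp q hq h
  obtain ⟨h1, h2⟩ := C1a_mem hp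
  obtain ⟨h3, h4⟩ := C1a_mem hq
  simp only [C1_phi, Prod.mk.injEq] at h
  have e1 : Real.tan ((p.1 + p.2) / 2) = Real.tan ((q.1 + q.2) / 2) := by linarith [h.1, h.2]
  have e2 : Real.tan ((p.1 - p.2) / 2) = Real.tan ((q.1 - q.2) / 2) := by linarith [h.1, h.2]
  have e3 := Real.injOn_tan h1 h3 e1
  have e4 := Real.injOn_tan h2 h4 e2
  refine Prod.ext ?_ ?_ <;> linarith

theorem C1a_image : C1_phi '' C1_A = {p : ℝ × ℝ | 0 < p.2} := by
  ext p
  constructor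
  · rintro ⟨q, hq, rfl⟩
    obtain ⟨h1, h2⟩ := C1a_mem hq
    have h3 : (q.1 - q.2) / 2 < (q.1 + q.2) / 2 := by linarith [hq.1]
    have h4 := Real.tan_lt_tan_of_lt_of_lt_pi_div_two h2.1 h1.2 h3
    simp only [C1_phi, Set.mem_setOf_eq]
    linarith
  · intro hp
    have hp' : 0 < p.2 := hp
    refine ⟨(Real.arctan (p.1 + p.2) + Real.arctan (p.1 - p.2),
      Real.arctan (p.1 + p.2) - Real.arctan (p.1 - p.2)), ⟨?_, ?_⟩, ?_⟩
    · have := Real.arctan_strictMono (show p.1 - p.2 < p.1 + p.2 by linarith)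
      simp only
      linarith
    · simp only
      have h1 := Real.arctan_lt_pi_div_two (p.1 + p.2)
      have h2 := Real.neg_pi_div_two_lt_arctan (p.1 - p.2)
      rcases abs_cases (Real.arctan (p.1 + p.2) + Real.arctan (p.1 - p.2)) with h | h <;> linarith
    · simp only [C1_phi]
      have e1 : (Real.arctan (p.1 + p.2) + Real.arctan (p.1 - p.2) +
          (Real.arctan (p.1 + p.2) - Real.arctan (p.1 - p.2))) / 2 = Real.arctan (p.1 + p.2) := by
        ring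
      have e2 : (Real.arctan (p.1 + p.2) + Real.arctan (p.1 - p.2) -
          (Real.arctan (p.1 + p.2) - Real.arctan (p.1 - p.2))) / 2 = Real.arctan (p.1 - p.2) := by
        ring
      rw [e1, e2, Real.tan_arctan, Real.tan_arctan]
      refine Prod.ext ?_ ?_ <;> simp only <;> ring

theorem C1a_measurableSet : MeasurableSet C1_A := by
  have h1 : IsOpen C1_A := by
    have h2 : IsOpen {q : ℝ × ℝ | 0 < q.2} := isOpen_lt continuous_const continuous_snd
    have h3 : IsOpen {q : ℝ × ℝ | |q.1| + q.2 < Real.pi} :=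
      isOpen_lt (continuous_fst.abs.add continuous_snd) continuous_const
    exact h2.inter h3
  exact h1.measurableSet

theorem C1a_jac {q : ℝ × ℝ} (hq : q ∈ C1_A) :
    |(C1a_d q).det| * ((C1_phi q).2 ^ 3 * ((1 + ((C1_phi q).1 - (C1_phi q).2) ^ 2) *
      (1 + ((C1_phi q).1 + (C1_phi q).2) ^ 2)) ^ (-(5 / 2) : ℝ)) = Real.sin q.2 ^ 3 / 32 := by
  obtain ⟨ha, hb⟩ := C1a_mem hq
  set a := (q.1 + q.2) / 2 with ha'
  set b := (q.1 - q.2) / 2 with hb'
  have hca := Real.cos_pos_of_mem_Ioo ha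
  have hcb := Real.cos_pos_of_mem_Ioo hb
  have e1 : (C1_phi q).1 - (C1_phi q).2 = Real.tan b := by
    simp only [C1_phi]
    rw [← ha', ← hb']
    ring
  have e2 : (C1_phi q).1 + (C1_phi q).2 = Real.tan a := by
    simp only [C1_phi]
    rw [← ha', ← hb']
    ring
  have e3 : (C1_phi q).2 = Real.sin q.2 / (2 * (Real.cos a * Real.cos b)) := by
    simp only [C1_phi]
    rw [← ha', ← hb']
    have h1 : q.2 = a - b := by
      rw [ha', hb']
      ring
    rw [h1, Real.sin_sub, Real.tan_eq_sin_div_cos, Real.tan_eq_sin_div_cos]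
    field_simp
  have e4 : ∀ x : ℝ, 0 < Real.cos x → 1 + Real.tan x ^ 2 = (Real.cos x ^ 2)⁻¹ := by
    intro x hx
    rw [Real.tan_eq_sin_div_cos, div_pow]
    have h1 := Real.sin_sq_add_cos_sq x
    field_simp
    linarith
  rw [e1, e2, e3, e4 _ hca, e4 _ hcb, C1a_det, ← ha', ← hb']
  have hc : 0 < Real.cos b * Real.cos a := mul_pos hcb hca
  have e5 : ((Real.cos b ^ 2)⁻¹ * (Real.cos a ^ 2)⁻¹) ^ (-(5 / 2) : ℝ) =
      (Real.cos b * Real.cos a) ^ 5 := by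
    rw [← mul_inv, ← mul_pow, Real.rpow_neg (inv_nonneg.2 (sq_nonneg _)),
      Real.inv_rpow (sq_nonneg _), inv_inv, ← Real.rpow_natCast (Real.cos b * Real.cos a) 2,
      ← Real.rpow_mul hc.le]
    have : ((2 : ℕ) : ℝ) * (5 / 2) = ((5 : ℕ) : ℝ) := by norm_num
    rw [this, Real.rpow_natCast]
  rw [e5, abs_of_pos (by positivity)]
  field_simp
  ring

/-- the change of variables -/
theorem C1a (g : ℝ × ℝ → ℂ) :
    ∫ p in {p : ℝ × ℝ | 0 < p.2}, (p.2 ^ 3 * ((1 + (p.1 - p.2) ^ 2) * (1 + (p.1 + p.2) ^ 2)) ^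
      (-(5 / 2) : ℝ)) • g p = ∫ q in C1_A, (Real.sin q.2 ^ 3 / 32) • g (C1_phi q) := by
  rw [← C1a_image, integral_image_eq_integral_abs_det_fderiv_smul volume C1a_measurableSet
    (fun x hx => (C1a_hasFDerivAt hx).hasFDerivWithinAt) C1a_injOn]
  refine setIntegral_congr_fun C1a_measurableSet fun q hq => ?_
  rw [smul_smul, C1a_jac hq]

end Pool.Agent.Cone
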