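import Pool.Agent.Work.MP_b0b133_an.Defs

/-!
# The abstract core of the argument

`Core m` collects what the second variation argument needs; the concrete data are provided by
`m = mM`, `X`, `V l = {evX P | P ∈ Harm l}`, `A = {toM (coneExt f) | f ∈ ExpSpan}`.
-/

set_option autoImplicit false
open MeasureTheory Complex
open scoped ENNReal ComplexConjugate

namespace Pool.Agent.Cone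

structure Core {Ω : Type*} [MeasurableSpace Ω] (m : Measure Ω) [IsProbabilityMeasure m] where
  X : Fin 5 → Ω → ℂ
  V : ℕ → Submodule ℂ (Lp ℂ 2 m)
  P : ℕ → (Lp ℂ 2 m →L[ℂ] Lp ℂ 2 m)
  A : Submodule ℂ (Lp ℂ 2 m)
  one : Lp ℂ 2 m
  hXm : ∀ j, Measurable (X j)
  hX1 : ∀ x, ∑ j, ‖X j x‖ ^ 2 = 1
  /-- `P l` is the orthogonal projection on `V l` -/
  hP : ∀ l F, P l F ∈ V l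
  hP' : ∀ l F, ∀ Y ∈ V l, inner ℂ Y (P l F) = inner ℂ Y F
  orth : ∀ l k, l ≠ k → ∀ Y ∈ V l, ∀ Z ∈ V k, inner ℂ Y Z = 0
  one_ae : ∀ᵐ x ∂m, one x = 1
  V0 : V 0 = Submodule.span ℂ {one}
  /-- the harmonic part of `x_j Y` -/
  up : ∀ l, ∀ Y ∈ V l, ∃ M : Fin 5 → Lp ℂ 2 m, (∀ j, M j ∈ V (l + 1)) ∧
    (∀ᵐ x ∂m, ∑ j, conj (X j x) * M j x = ((l + 3) / (2 * l + 3) : ℝ) * Y x) ∧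
    ∑ j, ‖M j‖ ^ 2 = (l + 3) / (2 * l + 3) * ‖Y‖ ^ 2
  /-- the derivatives of `Y` -/
  dn : ∀ l, ∀ Y ∈ V (l + 1), ∃ M : Fin 5 → Lp ℂ 2 m, (∀ j, M j ∈ V l) ∧
    (∀ᵐ x ∂m, ∑ j, X j x * M j x = ((l + 1) / (2 * l + 5) : ℝ) * Y x) ∧
    ∑ j, ‖M j‖ ^ 2 = (l + 1) / (2 * l + 5) * ‖Y‖ ^ 2
  bil : ∀ l k, 0 < l → ∀ Y ∈ V l, ∀ Z ∈ V k, ∫ x, Y x * Z x ∂m = 0
  oneA : one ∈ A
  A_sum : ∀ F ∈ A, Summable fun l => (cw l)⁻¹ * ‖P l F‖ ^ 2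
  A_par : ∀ F ∈ A, HasSum (fun l => ‖P l F‖ ^ 2) (‖F‖ ^ 2)
  A_bdd : ∀ F ∈ A, ∃ C : ℝ, ∀ᵐ x ∂m, ‖F x‖ ≤ C
  dense : ∀ l, ∀ Y ∈ V l, ∀ ε > 0, ∃ F ∈ A,
    ∑' k, (cw k)⁻¹ * ‖P k (F - Y)‖ ^ 2 < ε
  finite : ∃ C : ℝ, ∀ F ∈ A, (∫ x, ‖F x‖ ^ (10 / 3 : ℝ) ∂m) ^ (3 / 5 : ℝ) ≤
    C * ∑' l, (cw l)⁻¹ * ‖P l F‖ ^ 2
  cent : ∀ F ∈ A, F ≠ 0 → ∀ ε > 0, ∃ F' ∈ A,
    ∑' l, (cw l)⁻¹ * ‖P l F'‖ ^ 2 = ∑' l, (cw l)⁻¹ * ‖P l F‖ ^ 2 ∧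
    ∫ x, ‖F' x‖ ^ (10 / 3 : ℝ) ∂m = ∫ x, ‖F x‖ ^ (10 / 3 : ℝ) ∂m ∧
    ∀ j, ‖∫ x, X j x * (‖F' x‖ ^ (10 / 3 : ℝ) : ℝ) ∂m‖ ≤
      ε * ∫ x, ‖F x‖ ^ (10 / 3 : ℝ) ∂m

namespace Core

variable {Ω : Type*} [MeasurableSpace Ω] {m : Measure Ω} [IsProbabilityMeasure m]

/-- the energy `∑ (1 + l / ν) ‖F_l‖²` -/
noncomputable def En (D : Core m) (F : Lp ℂ 2 m) : ℝ := ∑' l, (cw l)⁻¹ * ‖D.P l F‖ ^ 2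

/-- the dual quadratic form -/
noncomputable def Qn (D : Core m) (G : Lp ℂ 2 m) : ℝ := ∑' l, cw l * ‖D.P l G‖ ^ 2

end Core

/-- `∫ ‖F‖ ^ (10/3)` -/
noncomputable def I3 {Ω : Type*} [MeasurableSpace Ω] {m : Measure Ω} (F : Lp ℂ 2 m) : ℝ :=
  ∫ x, ‖F x‖ ^ (10 / 3 : ℝ) ∂m

/-- `∫ ‖G‖ ^ (10/7)` -/
noncomputable def I7 {Ω : Type*} [MeasurableSpace Ω] {m : Measure Ω} (G : Lp ℂ 2 m) : ℝ :=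
  ∫ x, ‖G x‖ ^ (10 / 7 : ℝ) ∂m

end Pool.Agent.Cone
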