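import Mathlib

/-!
# Definitions for the sharp extension inequality on the half-cone in dimension `4`

`R5 = ℝ × ℝ⁴` is space-time, `q = (t, x)`; the half-cone is parametrised by `ξ ∈ ℝ⁴`, its Lorentz
invariant measure is `dξ / |ξ|`.
-/

set_option autoImplicit false
open MeasureTheory Complex
open scoped ENNReal ComplexConjugate

namespace Pool.Agent.Cone

instance fact_ten_thirds : Fact ((1 : ℝ≥0∞) ≤ 10 / 3) := ⟨by
  rw [ENNReal.le_div_iff_mul_le (by norm_num) (by norm_num)]
  norm_num⟩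

abbrev R4 := EuclideanSpace ℝ (Fin 4)

/-- space-time, points `(t, x)` -/
abbrev R5 := ℝ × R4

/-- the measure `dξ / |ξ|` -/
noncomputable def sig : Measure R4 :=
  volume.withDensity fun ξ => ENNReal.ofReal (‖ξ‖⁻¹)

/-- `k ↦ a · k` for `k = (|ξ|, ξ)` on the half-cone (Euclidean pairing `t |ξ| + x · ξ`) -/
noncomputable def pair (a : R5) (ξ : R4) : ℝ := a.1 * ‖ξ‖ + inner ℝ a.2 ξ

/-- the extension operator -/
noncomputable def coneExt (f : R4 → ℂ) (a : R5) : ℂ :=
  ∫ ξ, cexp (-(I * (pair a ξ : ℂ))) * f ξ ∂sig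

/-- exponentials `exp (i c · k - v · k)`, to be used for `v` in the open forward cone -/
noncomputable def expo (c v : R5) (ξ : R4) : ℂ :=
  cexp (I * (pair c ξ : ℂ) - (pair v ξ : ℂ))

/-- the open forward cone -/
def Fwd : Set R5 := {v | ‖v.2‖ < v.1}

/-- finite linear combinations of exponentials -/
noncomputable def ExpSpan : Submodule ℂ (R4 → ℂ) :=
  Submodule.span ℂ {f | ∃ c v : R5, v ∈ Fwd ∧ f = expo c v}

/-- `∑ (u_j - i v_j)² - (u_0 - i v_0)²` -/
noncomputable def qf (u v : R5) : ℂ :=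
  ((‖u.2‖ ^ 2 - ‖v.2‖ ^ 2 - u.1 ^ 2 + v.1 ^ 2 : ℝ) : ℂ)
    + 2 * I * ((u.1 * v.1 - inner ℝ u.2 v.2 : ℝ) : ℂ)

/-- `w (t, x) = (1 + i t)² + |x|²` -/
noncomputable def w (a : R5) : ℂ := qf a (1, 0)

/-- the coordinates of the conformal compactification: `X = e^{-iT} ω`, `ω ∈ S⁴` -/
noncomputable def X (j : Fin 5) (a : R5) : ℂ :=
  Fin.cases ((1 - ‖a.2‖ ^ 2 + a.1 ^ 2 : ℝ) / w a) (fun i : Fin 4 => 2 * (a.2 i : ℂ) / w a) j

/-- the measure `|w|^{-5} dt dx`, not normalised -/
noncomputable def mM0 : Measure R5 :=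
  volume.withDensity fun a => ENNReal.ofReal (‖w a‖ ^ (-5 : ℝ))

/-- the invariant probability measure of the compactification, in the Minkowski chart -/
noncomputable def mM : Measure R5 := (mM0 Set.univ)⁻¹ • mM0

/-- the transplant of a function on space-time to the compactification -/
noncomputable def toM (u : R5 → ℂ) (a : R5) : ℂ := (w a) ^ (3 / 2 : ℂ) * u a

/-- `c_l = ν / (l + ν)`, `ν = 3 / 2` -/
noncomputable def cw (l : ℕ) : ℝ := 3 / (2 * l + 3)

/-- homogeneous harmonic polynomials of degree `l` in five variables, complex coefficients -/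
noncomputable def Harm (l : ℕ) : Submodule ℂ (MvPolynomial (Fin 5) ℂ) where
  carrier := {P | P.IsHomogeneous l ∧ ∑ j, MvPolynomial.pderiv j (MvPolynomial.pderiv j P) = 0}
  add_mem' := by
    rintro P Q ⟨h1, h2⟩ ⟨h3, h4⟩
    refine ⟨h1.add h3, ?_⟩
    simp only [map_add, Finset.sum_add_distrib, h2, h4, add_zero]
  zero_mem' := ⟨MvPolynomial.isHomogeneous_zero _ _ _, by simp⟩
  smul_mem' := by
    rintro c P ⟨h1, h2⟩
    refine ⟨?_, ?_⟩
    · rw [MvPolynomial.smul_eq_C_mul]
      exact h1.C_mul c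
    · have : ∀ j : Fin 5, MvPolynomial.pderiv j (MvPolynomial.pderiv j (c • P)) =
          c • MvPolynomial.pderiv j (MvPolynomial.pderiv j P) := fun j => by
        rw [Derivation.map_smul, Derivation.map_smul]
      rw [Finset.sum_congr rfl fun j _ => this j, ← Finset.smul_sum, h2, smul_zero]

/-- evaluation of a polynomial at the point `X a` -/
noncomputable def evX (P : MvPolynomial (Fin 5) ℂ) (a : R5) : ℂ :=
  MvPolynomial.eval (fun j => X j a) P

/-- the unit sphere of `ℝ⁵` -/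
abbrev S4 := Metric.sphere (0 : EuclideanSpace ℝ (Fin 5)) 1

/-- the rotation invariant probability measure on the sphere -/
noncomputable def sphM : Measure S4 :=
  ((volume : Measure (EuclideanSpace ℝ (Fin 5))).toSphere Set.univ)⁻¹ •
    (volume : Measure (EuclideanSpace ℝ (Fin 5))).toSphere

/-- the unit sphere of `ℝ⁴` -/
abbrev S3 := Metric.sphere (0 : R4) 1

/-- the rotation invariant probability measure on the sphere -/
noncomputable def sphM3 : Measure S3 :=
  ((volume : Measure R4).toSphere Set.univ)⁻¹ • (volume : Measure R4).toSphere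

/-- `t² - |x|²` -/
noncomputable def lor (v : R5) : ℝ := v.1 ^ 2 - ‖v.2‖ ^ 2

/-- the boost with dilation that sends `e = (1, 0)` to `v` -/
noncomputable def boost (v a : R5) : R5 :=
  (v.1 * a.1 + inner ℝ v.2 a.2,
    a.1 • v.2 + √(lor v) • a.2 + (inner ℝ v.2 a.2 / (v.1 + √(lor v))) • v.2)

/-- `e^{-|ξ|}` -/
noncomputable def fstar : R4 → ℂ := fun ξ => cexp (-(‖ξ‖ : ℂ))

end Pool.Agent.Cone
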