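import Pool.Agent.Work.MP_b0b133_an.ELap

/-!
# The Plancherel endpoint of the Strichartz estimate
-/

set_option autoImplicit false
open MeasureTheory Complex
open scoped ENNReal ComplexConjugate

namespace Pool.Agent.Cone

theorem E2_haar : (volume : Measure R5).IsAddHaarMeasure :=
  inferInstanceAs ((volume : Measure ℝ).prod (volume : Measure R4)).IsAddHaarMeasure

/-- Euclidean pairing on space-time -/
noncomputable def E2_dot (a k : R5) : ℝ := a.1 * k.1 + inner ℝ a.2 k.2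

/-- Fourier kernel -/
noncomputable def E2_ker (a k : R5) : ℂ := cexp (I * (E2_dot a k : ℂ))

/-- Fourier transform, positive sign, no normalisation -/
noncomputable def E2_hat (G : R5 → ℂ) (k : R5) : ℂ := ∫ a, E2_ker a k * G a

/-- Gaussian weight -/
noncomputable def E2_g (δ : ℝ) (k : R5) : ℝ :=
  Real.exp (-(δ * k.1 ^ 2)) * Real.exp (-(δ * ‖k.2‖ ^ 2))

/-- its Fourier transform -/
noncomputable def E2_gam (δ : ℝ) (c : R5) : ℝ :=
  (√(Real.pi / δ) * Real.exp (-(c.1 ^ 2 / (4 * δ)))) *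
    ((Real.pi / δ) ^ 2 * Real.exp (-(‖c.2‖ ^ 2 / (4 * δ))))

theorem E2_dot_sub (a b k : R5) : E2_dot (a - b) k = E2_dot a k - E2_dot b k := by
  simp only [E2_dot, Prod.fst_sub, Prod.snd_sub, inner_sub_left]
  ring

theorem E2_dot_meas : Measurable fun p : R5 × R5 => E2_dot p.1 p.2 := by
  unfold E2_dot
  fun_prop

theorem E2_ker_meas : Measurable fun p : R5 × R5 => E2_ker p.1 p.2 := by
  unfold E2_ker
  have := E2_dot_meas
  fun_prop

theorem E2_ker_norm (a k : R5) : ‖E2_ker a k‖ = 1 := by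
  unfold E2_ker
  rw [mul_comm]
  exact norm_exp_ofReal_mul_I _

theorem E2_ker_mul_conj (a b k : R5) : E2_ker a k * conj (E2_ker b k) = E2_ker (a - b) k := by
  unfold E2_ker
  rw [← exp_conj, ← exp_add, E2_dot_sub]
  congr 1
  simp only [map_mul, conj_I, conj_ofReal]
  push_cast
  ring

theorem E2_gauss1 {b : ℝ} (hb : 0 < b) (t : ℝ) :
    ∫ x : ℝ, (Real.exp (-(b * x ^ 2)) : ℂ) * cexp (I * (t * x : ℝ)) =
      ((√(Real.pi / b) * Real.exp (-(t ^ 2 / (4 * b))) : ℝ) : ℂ) := by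
  have h := fourierIntegral_gaussian (b := (b : ℂ)) (by simpa using hb) (t : ℂ)
  have h1 : ∫ x : ℝ, (Real.exp (-(b * x ^ 2)) : ℂ) * cexp (I * (t * x : ℝ)) =
      ∫ x : ℝ, cexp (I * (t : ℂ) * x) * cexp (-(b : ℂ) * x ^ 2) := by
    congr 1
    ext x
    rw [mul_comm]
    push_cast
    congr 1
    · congr 1
      ring
    · congr 1
      ring
  rw [h1, h]
  rw [ofReal_mul]
  congr 1
  · have h2 : (0 : ℝ) ≤ Real.pi / b := by positivity
    rw [Real.sqrt_eq_rpow, ofReal_cpow h2]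
    push_cast
    rfl
  · push_cast
    congr 1
    ring

theorem E2_gauss4 {b : ℝ} (hb : 0 < b) (x : R4) :
    ∫ v : R4, (Real.exp (-(b * ‖v‖ ^ 2)) : ℂ) * cexp (I * (inner ℝ x v : ℝ)) =
      (((Real.pi / b) ^ 2 * Real.exp (-(‖x‖ ^ 2 / (4 * b))) : ℝ) : ℂ) := by
  have h := GaussianFourier.integral_cexp_neg_mul_sq_norm_add (V := R4) (b := (b : ℂ))
    (by simpa using hb) I x
  have h1 : ∫ v : R4, (Real.exp (-(b * ‖v‖ ^ 2)) : ℂ) * cexp (I * (inner ℝ x v : ℝ)) =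
      ∫ v : R4, cexp (-(b : ℂ) * ‖v‖ ^ 2 + I * (inner ℝ x v : ℝ)) := by
    congr 1
    ext v
    rw [exp_add]
    congr 1
    push_cast
    congr 1
    ring
  rw [h1, h]
  have h2 : ((Module.finrank ℝ R4 : ℂ) / 2) = (2 : ℕ) := by
    simp
    norm_num
  rw [h2, cpow_natCast]
  push_cast
  congr 1
  congr 1
  rw [I_sq]
  ring

theorem E2_g_eq (δ : ℝ) (c k : R5) : (E2_g δ k : ℂ) * E2_ker c k =
    ((Real.exp (-(δ * k.1 ^ 2)) : ℂ) * cexp (I * (c.1 * k.1 : ℝ))) *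
      ((Real.exp (-(δ * ‖k.2‖ ^ 2)) : ℂ) * cexp (I * (inner ℝ c.2 k.2 : ℝ))) := by
  unfold E2_g E2_ker E2_dot
  rw [ofReal_add, mul_add, exp_add, ofReal_mul (Real.exp _)]
  ring

theorem E2_ft_g {δ : ℝ} (hδ : 0 < δ) (c : R5) :
    ∫ k, (E2_g δ k : ℂ) * E2_ker c k = (E2_gam δ c : ℂ) := by
  simp_rw [E2_g_eq]
  rw [Measure.volume_eq_prod]
  rw [integral_prod_mul (fun x : ℝ => (Real.exp (-(δ * x ^ 2)) : ℂ) * cexp (I * (c.1 * x : ℝ)))
    (fun v : R4 => (Real.exp (-(δ * ‖v‖ ^ 2)) : ℂ) * cexp (I * (inner ℝ c.2 v : ℝ)))]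
  rw [E2_gauss1 hδ, E2_gauss4 hδ]
  unfold E2_gam
  push_cast
  ring

theorem E2_gauss1_int {b : ℝ} (hb : 0 < b) :
    Integrable (fun x : ℝ => Real.exp (-(b * x ^ 2))) := by
  have := integrable_exp_neg_mul_sq hb
  refine this.congr (Filter.Eventually.of_forall fun x => ?_)
  simp only
  congr 1
  ring

theorem E2_gauss4_int {b : ℝ} (hb : 0 < b) :
    Integrable (fun v : R4 => Real.exp (-(b * ‖v‖ ^ 2))) := by
  have h := GaussianFourier.integrable_cexp_neg_mul_sq_norm_add (V := R4) (b := (b : ℂ))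
    (by simpa using hb) 0 0
  have h2 := h.norm
  refine h2.congr (Filter.Eventually.of_forall fun v => ?_)
  simp only
  rw [norm_exp]
  congr 1
  simp
  left
  norm_cast

theorem E2_g_int {δ : ℝ} (hδ : 0 < δ) : Integrable (E2_g δ) :=
  Integrable.mul_prod (E2_gauss1_int hδ) (E2_gauss4_int hδ)

theorem E2_g_nonneg (δ : ℝ) (k : R5) : 0 ≤ E2_g δ k := by unfold E2_g; positivity

theorem E2_gam_nonneg (δ : ℝ) (k : R5) : 0 ≤ E2_gam δ k := by unfold E2_gam; positivity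

theorem E2_gam_eq (δ : ℝ) (c : R5) : E2_gam δ c =
    (√(Real.pi / δ) * (Real.pi / δ) ^ 2) * E2_g (1 / (4 * δ)) c := by
  unfold E2_gam E2_g
  have h1 : -(c.1 ^ 2 / (4 * δ)) = -(1 / (4 * δ) * c.1 ^ 2) := by ring
  have h2 : -(‖c.2‖ ^ 2 / (4 * δ)) = -(1 / (4 * δ) * ‖c.2‖ ^ 2) := by ring
  rw [h1, h2]
  ring

theorem E2_gam_int {δ : ℝ} (hδ : 0 < δ) : Integrable (E2_gam δ) := by
  have h : E2_gam δ = fun c => (√(Real.pi / δ) * (Real.pi / δ) ^ 2) * E2_g (1 / (4 * δ)) c := by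
    ext c; exact E2_gam_eq δ c
  rw [h]
  exact (E2_g_int (by positivity)).const_mul _

theorem E2_g_integral {δ : ℝ} (hδ : 0 < δ) :
    ∫ k, E2_g δ k = √(Real.pi / δ) * (Real.pi / δ) ^ 2 := by
  have h := E2_ft_g hδ (0 : R5)
  have h1 : ∀ k : R5, (E2_g δ k : ℂ) * E2_ker 0 k = (E2_g δ k : ℂ) := by
    intro k
    have : E2_ker 0 k = 1 := by simp [E2_ker, E2_dot]
    rw [this, mul_one]
  simp_rw [h1] at h
  rw [integral_complex_ofReal] at h
  have h2 : E2_gam δ 0 = √(Real.pi / δ) * (Real.pi / δ) ^ 2 := by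
    simp [E2_gam]
  rw [h2] at h
  exact_mod_cast h

theorem E2_gam_integral {δ : ℝ} (hδ : 0 < δ) : ∫ k, E2_gam δ k = 32 * Real.pi ^ 5 := by
  have h : E2_gam δ = fun c => (√(Real.pi / δ) * (Real.pi / δ) ^ 2) * E2_g (1 / (4 * δ)) c := by
    ext c; exact E2_gam_eq δ c
  rw [h, integral_const_mul, E2_g_integral (by positivity)]
  have h1 : √(Real.pi / δ) * √(Real.pi / (1 / (4 * δ))) = 2 * Real.pi := by
    rw [← Real.sqrt_mul (by positivity)]
    have : Real.pi / δ * (Real.pi / (1 / (4 * δ))) = (2 * Real.pi) ^ 2 := by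
      field_simp
      ring
    rw [this, Real.sqrt_sq (by positivity)]
  have h2 : √(Real.pi / δ) * (Real.pi / δ) ^ 2 *
      (√(Real.pi / (1 / (4 * δ))) * (Real.pi / (1 / (4 * δ))) ^ 2) =
      (√(Real.pi / δ) * √(Real.pi / (1 / (4 * δ)))) *
        ((Real.pi / δ) * (Real.pi / (1 / (4 * δ)))) ^ 2 := by ring
  rw [h2, h1]
  have : Real.pi / δ * (Real.pi / (1 / (4 * δ))) = (2 * Real.pi) ^ 2 := by
    field_simp
    ring
  rw [this]
  ring

theorem E2_gam_lint {δ : ℝ} (hδ : 0 < δ) :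
    ∫⁻ c, ENNReal.ofReal (E2_gam δ c) = ENNReal.ofReal (32 * Real.pi ^ 5) := by
  rw [← ofReal_integral_eq_lintegral_ofReal (E2_gam_int hδ)
    (Filter.Eventually.of_forall (E2_gam_nonneg δ)), E2_gam_integral hδ]

theorem E2_gam_meas (δ : ℝ) : Measurable (E2_gam δ) := by
  unfold E2_gam
  fun_prop

theorem E2_g_meas (δ : ℝ) : Measurable (E2_g δ) := by
  unfold E2_g
  fun_prop

theorem E2_hat_meas (G : R5 → ℂ) (hG : Measurable G) : StronglyMeasurable (E2_hat G) := by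
  unfold E2_hat
  have h : StronglyMeasurable fun p : R5 × R5 => E2_ker p.2 p.1 * G p.2 := by
    apply Measurable.stronglyMeasurable
    have h1 : Measurable fun p : R5 × R5 => E2_ker p.2 p.1 := E2_ker_meas.comp measurable_swap
    exact h1.mul (hG.comp measurable_snd)
  exact h.integral_prod_right

theorem E2_swap (G : R5 → ℂ) (hG : Measurable G) (hi : Integrable G) {δ : ℝ} (hδ : 0 < δ) :
    ∫ k, (E2_g δ k : ℂ) * (E2_hat G k * conj (E2_hat G k)) =
      ∫ p : R5 × R5, (G p.1 * conj (G p.2)) * (E2_gam δ (p.1 - p.2) : ℂ) := by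
  set F : R5 × (R5 × R5) → ℂ := fun q =>
    (E2_g δ q.1 : ℂ) * ((E2_ker q.2.1 q.1 * G q.2.1) * conj (E2_ker q.2.2 q.1 * G q.2.2)) with hF
  have hFm : Measurable F := by
    simp only [hF]
    have h1 : Measurable fun q : R5 × (R5 × R5) => E2_ker q.2.1 q.1 :=
      E2_ker_meas.comp ((measurable_fst.comp measurable_snd).prodMk measurable_fst)
    have h2 : Measurable fun q : R5 × (R5 × R5) => E2_ker q.2.2 q.1 :=
      E2_ker_meas.comp ((measurable_snd.comp measurable_snd).prodMk measurable_fst)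
    have h3 : Measurable fun q : R5 × (R5 × R5) => (E2_g δ q.1 : ℂ) :=
      measurable_ofReal.comp ((E2_g_meas δ).comp measurable_fst)
    have h4 : Measurable fun q : R5 × (R5 × R5) => G q.2.1 :=
      hG.comp (measurable_fst.comp measurable_snd)
    have h5 : Measurable fun q : R5 × (R5 × R5) => G q.2.2 :=
      hG.comp (measurable_snd.comp measurable_snd)
    have h6 : Measurable fun q : R5 × (R5 × R5) => conj (E2_ker q.2.2 q.1 * G q.2.2) :=
      continuous_conj.measurable.comp (h2.mul h5)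
    exact h3.mul ((h1.mul h4).mul h6)
  have hFi : Integrable F ((volume : Measure R5).prod (volume : Measure (R5 × R5))) := by
    have h1 : Integrable (fun q : R5 × (R5 × R5) => E2_g δ q.1 * (‖G q.2.1‖ * ‖G q.2.2‖))
        ((volume : Measure R5).prod (volume : Measure (R5 × R5))) := by
      apply Integrable.mul_prod (f := E2_g δ) (g := fun p : R5 × R5 => ‖G p.1‖ * ‖G p.2‖)
        (E2_g_int hδ)
      exact Integrable.mul_prod (f := fun a => ‖G a‖) (g := fun a => ‖G a‖) hi.norm hi.norm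
    refine h1.mono' hFm.aestronglyMeasurable (Filter.Eventually.of_forall fun q => ?_)
    simp only [hF, norm_mul, RCLike.norm_conj, E2_ker_norm, one_mul]
    rw [norm_real, Real.norm_eq_abs, abs_of_nonneg (E2_g_nonneg δ _)]
  have hsw := integral_integral_swap (f := fun k p => F (k, p)) hFi
  have hL : ∀ k : R5, ∫ p : R5 × R5, F (k, p) = (E2_g δ k : ℂ) * (E2_hat G k * conj (E2_hat G k)) := by
    intro k
    simp only [hF]
    rw [integral_const_mul]
    congr 1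
    rw [Measure.volume_eq_prod]
    rw [integral_prod_mul (fun a : R5 => E2_ker a k * G a) (fun b : R5 => conj (E2_ker b k * G b))]
    unfold E2_hat
    rw [integral_conj]
  have hR : ∀ p : R5 × R5, ∫ k : R5, F (k, p) =
      (G p.1 * conj (G p.2)) * (E2_gam δ (p.1 - p.2) : ℂ) := by
    intro p
    rw [← E2_ft_g hδ, ← integral_const_mul]
    congr 1
    ext k
    simp only [hF]
    rw [← E2_ker_mul_conj, map_mul]
    ring
  simp_rw [hL, hR] at hsw
  exact hsw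

theorem E2_hat_bound (G : R5 → ℂ) (k : R5) : ‖E2_hat G k‖ ≤ ∫ a, ‖G a‖ := by
  unfold E2_hat
  refine (norm_integral_le_integral_norm _).trans (le_of_eq ?_)
  congr 1
  ext a
  rw [norm_mul, E2_ker_norm, one_mul]

theorem E2_mul_le (x y : ℝ≥0∞) : x * y ≤ x ^ 2 + y ^ 2 := by
  rcases le_total x y with h | h
  · calc x * y ≤ y * y := by gcongr
      _ = y ^ 2 := (sq y).symm
      _ ≤ x ^ 2 + y ^ 2 := le_add_self
  · calc x * y ≤ x * x := by gcongr
      _ = x ^ 2 := (sq x).symm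
      _ ≤ x ^ 2 + y ^ 2 := le_self_add

theorem E2_young (G : R5 → ℂ) (hG : Measurable G) {δ : ℝ} (hδ : 0 < δ) :
    ∫⁻ p : R5 × R5, ‖(G p.1 * conj (G p.2)) * (E2_gam δ (p.1 - p.2) : ℂ)‖ₑ ≤
      ENNReal.ofReal (64 * Real.pi ^ 5) * ∫⁻ a, ‖G a‖ₑ ^ 2 := by
  have := E2_haar
  have hγ : Measurable fun p : R5 × R5 => ENNReal.ofReal (E2_gam δ (p.1 - p.2)) :=
    ((E2_gam_meas δ).comp (measurable_fst.sub measurable_snd)).ennreal_ofReal
  have hG1 : Measurable fun a : R5 => ‖G a‖ₑ ^ 2 := hG.enorm.pow_const 2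
  have h1 : ∀ p : R5 × R5, ‖(G p.1 * conj (G p.2)) * (E2_gam δ (p.1 - p.2) : ℂ)‖ₑ ≤
      ‖G p.1‖ₑ ^ 2 * ENNReal.ofReal (E2_gam δ (p.1 - p.2)) +
        ‖G p.2‖ₑ ^ 2 * ENNReal.ofReal (E2_gam δ (p.1 - p.2)) := by
    intro p
    have e1 : ‖conj (G p.2)‖ₑ = ‖G p.2‖ₑ := by
      simp only [← ofReal_norm, RCLike.norm_conj]
    have e2 : ‖(E2_gam δ (p.1 - p.2) : ℂ)‖ₑ = ENNReal.ofReal (E2_gam δ (p.1 - p.2)) := by
      rw [← ofReal_norm, norm_real, Real.norm_eq_abs, abs_of_nonneg (E2_gam_nonneg δ _)]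
    rw [enorm_mul, enorm_mul, e1, e2, ← add_mul]
    gcongr
    exact E2_mul_le _ _
  refine (lintegral_mono h1).trans ?_
  have hm1 : Measurable fun p : R5 × R5 => ‖G p.1‖ₑ ^ 2 * ENNReal.ofReal (E2_gam δ (p.1 - p.2)) :=
    (hG1.comp measurable_fst).mul hγ
  have hm2 : Measurable fun p : R5 × R5 => ‖G p.2‖ₑ ^ 2 * ENNReal.ofReal (E2_gam δ (p.1 - p.2)) :=
    (hG1.comp measurable_snd).mul hγ
  rw [lintegral_add_left hm1]
  have hA : ∫⁻ p : R5 × R5, ‖G p.1‖ₑ ^ 2 * ENNReal.ofReal (E2_gam δ (p.1 - p.2)) =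
      ENNReal.ofReal (32 * Real.pi ^ 5) * ∫⁻ a, ‖G a‖ₑ ^ 2 := by
    rw [Measure.volume_eq_prod, lintegral_prod _ hm1.aemeasurable]
    simp only
    have : ∀ a : R5, ∫⁻ b : R5, ‖G a‖ₑ ^ 2 * ENNReal.ofReal (E2_gam δ (a - b)) =
        ‖G a‖ₑ ^ 2 * ENNReal.ofReal (32 * Real.pi ^ 5) := by
      intro a
      rw [lintegral_const_mul' _ _ (by simp)]
      rw [lintegral_sub_left_eq_self (fun c => ENNReal.ofReal (E2_gam δ c)) a, E2_gam_lint hδ]
    simp_rw [this]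
    rw [lintegral_mul_const _ hG1, mul_comm]
  have hB : ∫⁻ p : R5 × R5, ‖G p.2‖ₑ ^ 2 * ENNReal.ofReal (E2_gam δ (p.1 - p.2)) =
      ENNReal.ofReal (32 * Real.pi ^ 5) * ∫⁻ a, ‖G a‖ₑ ^ 2 := by
    rw [Measure.volume_eq_prod, lintegral_prod_symm _ hm2.aemeasurable]
    simp only
    have : ∀ b : R5, ∫⁻ a : R5, ‖G b‖ₑ ^ 2 * ENNReal.ofReal (E2_gam δ (a - b)) =
        ‖G b‖ₑ ^ 2 * ENNReal.ofReal (32 * Real.pi ^ 5) := by
      intro b
      rw [lintegral_const_mul' _ _ (by simp)]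
      rw [lintegral_sub_right_eq_self (fun c => ENNReal.ofReal (E2_gam δ c)) b, E2_gam_lint hδ]
    simp_rw [this]
    rw [lintegral_mul_const _ hG1, mul_comm]
  rw [hA, hB, ← add_mul, ← ENNReal.ofReal_add (by positivity) (by positivity)]
  apply le_of_eq
  congr 2
  ring

theorem E2_planch_aux (G : R5 → ℂ) (hG : Measurable G) (hi : Integrable G) {δ : ℝ} (hδ : 0 < δ) :
    ∫⁻ k, ENNReal.ofReal (E2_g δ k) * ‖E2_hat G k‖ₑ ^ 2 ≤
      ENNReal.ofReal (64 * Real.pi ^ 5) * ∫⁻ a, ‖G a‖ₑ ^ 2 := by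
  have hmeas : Measurable fun k => E2_g δ k * ‖E2_hat G k‖ ^ 2 :=
    (E2_g_meas δ).mul ((E2_hat_meas G hG).measurable.norm.pow_const 2)
  have hint : Integrable fun k => E2_g δ k * ‖E2_hat G k‖ ^ 2 := by
    refine ((E2_g_int hδ).mul_const ((∫ a, ‖G a‖) ^ 2)).mono' hmeas.aestronglyMeasurable
      (Filter.Eventually.of_forall fun k => ?_)
    rw [Real.norm_eq_abs, abs_of_nonneg (mul_nonneg (E2_g_nonneg δ k) (by positivity))]
    have := E2_hat_bound G k
    have h0 := E2_g_nonneg δ k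
    gcongr
  have h1 : ∫⁻ k, ENNReal.ofReal (E2_g δ k) * ‖E2_hat G k‖ₑ ^ 2 =
      ENNReal.ofReal (∫ k, E2_g δ k * ‖E2_hat G k‖ ^ 2) := by
    rw [ofReal_integral_eq_lintegral_ofReal hint (Filter.Eventually.of_forall fun k =>
      mul_nonneg (E2_g_nonneg δ k) (by positivity))]
    congr 1
    ext k
    rw [ENNReal.ofReal_mul (E2_g_nonneg δ k), ENNReal.ofReal_pow (norm_nonneg _),
      ofReal_norm]
  have h2 : ((∫ k, E2_g δ k * ‖E2_hat G k‖ ^ 2 : ℝ) : ℂ) =
      ∫ k, (E2_g δ k : ℂ) * (E2_hat G k * conj (E2_hat G k)) := by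
    rw [← integral_complex_ofReal]
    congr 1
    ext k
    rw [mul_conj, normSq_eq_norm_sq]
    push_cast
    ring
  have h3 : ENNReal.ofReal (∫ k, E2_g δ k * ‖E2_hat G k‖ ^ 2) =
      ‖((∫ k, E2_g δ k * ‖E2_hat G k‖ ^ 2 : ℝ) : ℂ)‖ₑ := by
    rw [← ofReal_norm, norm_real, Real.norm_eq_abs, abs_of_nonneg]
    exact integral_nonneg fun k => mul_nonneg (E2_g_nonneg δ k) (by positivity)
  rw [h1, h3, h2, E2_swap G hG hi hδ]
  exact (enorm_integral_le_lintegral_enorm _).trans (E2_young G hG hδ)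

/-- Plancherel inequality -/
theorem E2_planch (G : R5 → ℂ) (hG : Measurable G) (hi : Integrable G) :
    ∫⁻ k, ‖E2_hat G k‖ₑ ^ 2 ≤ ENNReal.ofReal (64 * Real.pi ^ 5) * ∫⁻ a, ‖G a‖ₑ ^ 2 := by
  set f : ℕ → R5 → ℝ≥0∞ := fun n k =>
    ENNReal.ofReal (E2_g (1 / ((n : ℝ) + 1)) k) * ‖E2_hat G k‖ₑ ^ 2 with hf
  have hfm : ∀ n, Measurable (f n) := by
    intro n
    exact (E2_g_meas _).ennreal_ofReal.mul ((E2_hat_meas G hG).measurable.enorm.pow_const 2)
  have hlim : ∀ k, Filter.Tendsto (fun n => f n k) Filter.atTop (nhds (‖E2_hat G k‖ₑ ^ 2)) := by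
    intro k
    have h1 : Filter.Tendsto (fun n : ℕ => E2_g (1 / ((n : ℝ) + 1)) k) Filter.atTop (nhds 1) := by
      have h2 : Continuous fun δ : ℝ => E2_g δ k := by
        unfold E2_g
        fun_prop
      have h3 := (h2.tendsto 0).comp tendsto_one_div_add_atTop_nhds_zero_nat
      have h4 : E2_g 0 k = 1 := by simp [E2_g]
      rw [h4] at h3
      exact h3
    have h2 := ENNReal.tendsto_ofReal h1
    have h3 := ENNReal.Tendsto.mul_const (b := ‖E2_hat G k‖ₑ ^ 2) h2 (Or.inl (by simp))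
    simpa [hf] using h3
  have h1 : ∫⁻ k, ‖E2_hat G k‖ₑ ^ 2 = ∫⁻ k, Filter.liminf (fun n => f n k) Filter.atTop := by
    congr 1
    ext k
    exact (hlim k).liminf_eq.symm
  rw [h1]
  refine (lintegral_liminf_le hfm).trans ?_
  apply Filter.liminf_le_of_frequently_le'
  apply Filter.Frequently.of_forall
  intro n
  exact E2_planch_aux G hG hi (by positivity)

/-! ### The Gamma factor -/

theorem E2_gamma_sq (t : ℝ) (ht : t ≠ 0) :
    ‖Complex.Gamma (1 + t * I)‖ ^ 2 = Real.pi * t / Real.sinh (Real.pi * t) := by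
  have hI : (t : ℂ) * I ≠ 0 := mul_ne_zero (by exact_mod_cast ht) I_ne_zero
  have h1 := Complex.Gamma_mul_Gamma_one_sub ((t : ℂ) * I)
  have h2 := Complex.Gamma_add_one ((t : ℂ) * I) hI
  have h3 : Complex.Gamma (1 - t * I) = conj (Complex.Gamma (1 + t * I)) := by
    rw [← Complex.Gamma_conj]
    congr 1
    simp
    ring
  have h4 : Complex.Gamma (1 + t * I) * conj (Complex.Gamma (1 + t * I)) =
      ((t : ℂ) * I) * (Real.pi / sin (Real.pi * (t * I))) := by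
    rw [← h1, ← h3, add_comm (1 : ℂ), h2]
    ring
  have h5 : sin (Real.pi * (t * I)) = (Real.sinh (Real.pi * t) : ℝ) * I := by
    rw [← mul_assoc, Complex.sin_mul_I]
    push_cast
    ring
  have h6 : Real.sinh (Real.pi * t) ≠ 0 := by
    intro h
    rw [Real.sinh_eq_zero] at h
    exact ht ((mul_eq_zero.mp h).resolve_left Real.pi_ne_zero)
  rw [mul_conj, normSq_eq_norm_sq, h5] at h4
  have h7 : ((‖Complex.Gamma (1 + t * I)‖ ^ 2 : ℝ) : ℂ) =
      ((Real.pi * t / Real.sinh (Real.pi * t) : ℝ) : ℂ) := by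
    rw [h4]
    have : ((Real.sinh (Real.pi * t) : ℝ) : ℂ) ≠ 0 := by exact_mod_cast h6
    push_cast at this ⊢
    field_simp
  exact_mod_cast h7

theorem E2_sinh_le {x : ℝ} (hx : 0 < x) : Real.sinh x ≤ x * Real.exp x := by
  have h1 := Real.add_one_le_exp (-(2 * x))
  have h2 : Real.exp (-x) = Real.exp (-(2 * x)) * Real.exp x := by
    rw [← Real.exp_add]; congr 1; ring
  rw [Real.sinh_eq, h2]
  have h3 := Real.exp_pos x
  nlinarith

theorem E2_x_div_sinh {x : ℝ} (hx : x ≠ 0) : Real.exp (-|x|) ≤ x / Real.sinh x := by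
  have key : ∀ y : ℝ, 0 < y → Real.exp (-y) ≤ y / Real.sinh y := by
    intro y hy
    have h1 := E2_sinh_le hy
    have h2 : 0 < Real.sinh y := Real.sinh_pos_iff.mpr hy
    rw [le_div_iff₀ h2, Real.exp_neg]
    rw [inv_mul_le_iff₀ (Real.exp_pos y)]
    linarith
  rcases lt_or_gt_of_ne hx with h | h
  · have := key (-x) (by linarith)
    rw [Real.sinh_neg, neg_div_neg_eq] at this
    rw [abs_of_neg h]
    exact this
  · rw [abs_of_pos h]
    exact key x h

theorem E2_gamma_low (t : ℝ) : Real.exp (-(Real.pi * |t|)) ≤ ‖Complex.Gamma (1 + t * I)‖ ^ 2 := by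
  rcases eq_or_ne t 0 with rfl | ht
  · simp
  · rw [E2_gamma_sq t ht]
    have h : Real.pi * t ≠ 0 := mul_ne_zero Real.pi_ne_zero ht
    have := E2_x_div_sinh h
    rwa [abs_mul, abs_of_pos Real.pi_pos] at this

/-- the constant of the Laplace transform -/
noncomputable def E2_cst (α : ℂ) : ℂ :=
  Real.pi ^ 2 * Complex.Gamma (2 * α + 5) / ((α + 1) * (α + 2))

theorem E2_cst_eq (y : ℝ) : E2_cst (y * I) = Real.pi ^ 2 * (4 * (3 + 2 * y * I) * (1 + 2 * y * I) *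
    Complex.Gamma (1 + (2 * y : ℝ) * I)) := by
  have hre : ∀ c : ℝ, 0 < c → ((c : ℂ) + 2 * y * I) ≠ 0 := by
    intro c hc h
    have := congrArg Complex.re h
    simp at this
    linarith
  have h1 : (1 : ℂ) + 2 * y * I ≠ 0 := by simpa using hre 1 (by norm_num)
  have h2 : (2 : ℂ) + 2 * y * I ≠ 0 := by simpa using hre 2 (by norm_num)
  have h3 : (3 : ℂ) + 2 * y * I ≠ 0 := by simpa using hre 3 (by norm_num)
  have h4 : (4 : ℂ) + 2 * y * I ≠ 0 := by simpa using hre 4 (by norm_num)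
  have e1 : Complex.Gamma (2 * (y * I) + 5) = (4 + 2 * y * I) * ((3 + 2 * y * I) *
      ((2 + 2 * y * I) * ((1 + 2 * y * I) * Complex.Gamma (1 + 2 * y * I)))) := by
    have a1 : (2 * ((y : ℂ) * I) + 5) = (4 + 2 * y * I) + 1 := by ring
    have a2 : ((4 : ℂ) + 2 * y * I) = (3 + 2 * y * I) + 1 := by ring
    have a3 : ((3 : ℂ) + 2 * y * I) = (2 + 2 * y * I) + 1 := by ring
    have a4 : ((2 : ℂ) + 2 * y * I) = (1 + 2 * y * I) + 1 := by ring
    have b1 := Complex.Gamma_add_one _ h4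
    have b2 := Complex.Gamma_add_one _ h3
    have b3 := Complex.Gamma_add_one _ h2
    have b4 := Complex.Gamma_add_one _ h1
    rw [a1, b1, ← b4, ← a4, ← b3, ← a3, ← b2, ← a2]
  unfold E2_cst
  rw [e1]
  have c1 : (y : ℂ) * I + 1 ≠ 0 := by
    intro h
    apply h2
    linear_combination 2 * h
  have c2 : (y : ℂ) * I + 2 ≠ 0 := by
    intro h
    apply h4
    linear_combination 2 * h
  have e2 : ((2 * y : ℝ) : ℂ) = 2 * y := by push_cast; ring
  rw [e2]
  field_simp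
  ring

theorem E2_cst_low (y : ℝ) : Real.exp (-(Real.pi * |y|)) ≤ ‖E2_cst (y * I)‖ := by
  rw [E2_cst_eq]
  have h1 := E2_gamma_low (2 * y)
  have h2 : Real.exp (-(Real.pi * |2 * y|)) = Real.exp (-(Real.pi * |y|)) ^ 2 := by
    rw [← Real.exp_nat_mul, abs_mul, abs_of_pos (by norm_num : (0 : ℝ) < 2)]
    congr 1
    push_cast
    ring
  rw [h2] at h1
  have h3 : Real.exp (-(Real.pi * |y|)) ≤ ‖Complex.Gamma (1 + (2 * y : ℝ) * I)‖ :=
    le_of_sq_le_sq h1 (norm_nonneg _)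
  refine h3.trans ?_
  rw [norm_mul, norm_mul, norm_mul, norm_mul]
  have n1 : 1 ≤ ‖(3 : ℂ) + 2 * y * I‖ := by
    refine le_trans ?_ (Complex.abs_re_le_norm _)
    simp
  have n2 : 1 ≤ ‖(1 : ℂ) + 2 * y * I‖ := by
    refine le_trans ?_ (Complex.abs_re_le_norm _)
    simp
  have n3 : 1 ≤ ‖(Real.pi : ℂ) ^ 2‖ := by
    rw [norm_pow, norm_real, Real.norm_eq_abs, abs_of_pos Real.pi_pos]
    have := Real.pi_gt_three
    nlinarith
  have n4 : 1 ≤ ‖(4 : ℂ)‖ := by
    simp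
  have n5 : (1 : ℝ) ≤ ‖(4 : ℂ)‖ * ‖(3 : ℂ) + 2 * y * I‖ * ‖(1 : ℂ) + 2 * y * I‖ := by
    have := one_le_mul_of_one_le_of_one_le n4 n1
    exact one_le_mul_of_one_le_of_one_le this n2
  have h0 := norm_nonneg (Complex.Gamma (1 + (2 * y : ℝ) * I))
  have n6 : ‖Complex.Gamma (1 + (2 * y : ℝ) * I)‖ ≤
      ‖(4 : ℂ)‖ * ‖(3 : ℂ) + 2 * y * I‖ * ‖(1 : ℂ) + 2 * y * I‖ *
        ‖Complex.Gamma (1 + (2 * y : ℝ) * I)‖ := le_mul_of_one_le_left h0 n5
  refine n6.trans (le_mul_of_one_le_left (by positivity) n3)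

/-! ### The endpoint -/

theorem E2_phi_eq (ε : ℝ) (α : ℂ) (u k : R5) :
    cexp (-(((((ε, (0 : R4)) : R5).1 * k.1 + inner ℝ ((ε, (0 : R4)) : R5).2 k.2 : ℝ) : ℂ) +
      I * ((u.1 * k.1 + inner ℝ u.2 k.2 : ℝ) : ℂ))) * ((lor k : ℝ) : ℂ) ^ α =
    ((Real.exp (-(ε * k.1)) : ℂ) * ((lor k : ℝ) : ℂ) ^ α) * conj (E2_ker u k) := by
  have h1 : conj (E2_ker u k) = cexp (-(I * ((u.1 * k.1 + inner ℝ u.2 k.2 : ℝ) : ℂ))) := by
    unfold E2_ker E2_dot
    rw [← exp_conj]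
    congr 1
    simp only [map_mul, conj_I, conj_ofReal]
    ring
  have h2 : (((ε, (0 : R4)) : R5).1 * k.1 + inner ℝ ((ε, (0 : R4)) : R5).2 k.2 : ℝ) = ε * k.1 := by
    simp
  rw [h1, h2, neg_add, exp_add]
  push_cast
  ring

theorem E2_phi_norm {ε : ℝ} (hε : 0 < ε) (y : ℝ) {k : R5} (hk : k ∈ Fwd) :
    ‖(Real.exp (-(ε * k.1)) : ℂ) * ((lor k : ℝ) : ℂ) ^ ((y : ℂ) * I)‖ ≤ 1 := by
  have hk' : ‖k.2‖ < k.1 := hk
  have h0 := norm_nonneg k.2
  have hl : 0 < lor k := by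
    unfold lor
    nlinarith
  rw [norm_mul, Complex.norm_cpow_eq_rpow_re_of_pos hl]
  have : ((y : ℂ) * I).re = 0 := by simp
  rw [this, Real.rpow_zero, mul_one, norm_real, Real.norm_eq_abs, abs_of_pos (Real.exp_pos _)]
  rw [Real.exp_le_one_iff]
  have : 0 < k.1 := lt_of_le_of_lt h0 hk'
  have := mul_pos hε this
  linarith

theorem E2_cs (A B : R5 → ℝ≥0∞) (hA : Measurable A) (hB : Measurable B) (K : ℝ≥0∞) (a b : ℝ≥0∞)
    (h1 : ∫⁻ k, A k ^ 2 ≤ K * a ^ 2) (h2 : ∫⁻ k, B k ^ 2 ≤ K * b ^ 2) :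
    ∫⁻ k, A k * B k ≤ K * (a * b) := by
  have h := ENNReal.lintegral_mul_le_Lp_mul_Lq (volume : Measure R5)
    Real.HolderConjugate.two_two hA.aemeasurable hB.aemeasurable
  simp only [Pi.mul_apply, ENNReal.rpow_two] at h
  refine h.trans ?_
  have e : ∀ x : ℝ≥0∞, (x ^ 2) ^ (1 / 2 : ℝ) = x := by
    intro x
    rw [← ENNReal.rpow_two, ← ENNReal.rpow_mul]
    norm_num
  calc (∫⁻ k, A k ^ 2) ^ (1 / 2 : ℝ) * (∫⁻ k, B k ^ 2) ^ (1 / 2 : ℝ)
      ≤ (K * a ^ 2) ^ (1 / 2 : ℝ) * (K * b ^ 2) ^ (1 / 2 : ℝ) := by gcongr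
    _ = (K ^ (1 / 2 : ℝ) * K ^ (1 / 2 : ℝ)) * (a * b) := by
        rw [ENNReal.mul_rpow_of_nonneg _ _ (by norm_num), ENNReal.mul_rpow_of_nonneg _ _
          (by norm_num), e, e]
        ring
    _ = K * (a * b) := by
        congr 1
        have := e K
        rw [sq, ENNReal.mul_rpow_of_nonneg _ _ (by norm_num)] at this
        exact this

/-- the identity behind the endpoint bound: Fubini -/
theorem E2_fub (Φ : R5 → ℂ) (hΦ : IntegrableOn Φ Fwd volume) (G H : R5 → ℂ)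
    (hGi : Integrable G) (hHi : Integrable H) :
    ∫ a, ∫ b, (∫ k in Fwd, Φ k * conj (E2_ker (a - b) k)) * G b * H a =
      ∫ k in Fwd, Φ k * (E2_hat G k * conj (E2_hat (fun a => conj (H a)) k)) := by
  set μ : Measure R5 := volume.restrict Fwd with hμ
  set T : (R5 × R5) × R5 → ℂ := fun q =>
    ((conj (E2_ker q.1.1 q.2) * H q.1.1) * (E2_ker q.1.2 q.2 * G q.1.2)) * Φ q.2 with hT
  have hb : Integrable (fun q : (R5 × R5) × R5 => (H q.1.1 * G q.1.2) * Φ q.2)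
      ((volume : Measure (R5 × R5)).prod μ) := by
    apply Integrable.mul_prod (f := fun p : R5 × R5 => H p.1 * G p.2) (g := Φ) _ hΦ
    exact Integrable.mul_prod (f := H) (g := G) hHi hGi
  have hTi : Integrable T ((volume : Measure (R5 × R5)).prod μ) := by
    have hu : Measurable fun q : (R5 × R5) × R5 => conj (E2_ker q.1.1 q.2) * E2_ker q.1.2 q.2 := by
      have h1 : Measurable fun q : (R5 × R5) × R5 => E2_ker q.1.1 q.2 :=
        E2_ker_meas.comp ((measurable_fst.comp measurable_fst).prodMk measurable_snd)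
      have h2 : Measurable fun q : (R5 × R5) × R5 => E2_ker q.1.2 q.2 :=
        E2_ker_meas.comp ((measurable_snd.comp measurable_fst).prodMk measurable_snd)
      exact (continuous_conj.measurable.comp h1).mul h2
    have hT2 : T = fun q => (conj (E2_ker q.1.1 q.2) * E2_ker q.1.2 q.2) *
        ((H q.1.1 * G q.1.2) * Φ q.2) := by
      ext q
      simp only [hT]
      ring
    rw [hT2]
    refine hb.mono (hu.aestronglyMeasurable.mul hb.aestronglyMeasurable)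
      (Filter.Eventually.of_forall fun q => ?_)
    rw [norm_mul, norm_mul, RCLike.norm_conj, E2_ker_norm, E2_ker_norm, one_mul, one_mul]
  have hsw := integral_integral_swap (f := fun p k => T (p, k)) hTi
  have hL : ∀ p : R5 × R5, ∫ k, T (p, k) ∂μ =
      (∫ k in Fwd, Φ k * conj (E2_ker (p.1 - p.2) k)) * G p.2 * H p.1 := by
    intro p
    rw [mul_assoc, ← integral_mul_const]
    apply integral_congr_ae
    refine Filter.Eventually.of_forall fun k => ?_
    simp only [hT]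
    rw [← E2_ker_mul_conj, map_mul, conj_conj]
    ring
  have hR : ∀ k : R5, ∫ p : R5 × R5, T (p, k) =
      Φ k * (E2_hat G k * conj (E2_hat (fun a => conj (H a)) k)) := by
    intro k
    simp only [hT]
    rw [integral_mul_const, mul_comm]
    congr 1
    rw [Measure.volume_eq_prod]
    rw [integral_prod_mul (fun a : R5 => conj (E2_ker a k) * H a) (fun b : R5 => E2_ker b k * G b)]
    rw [mul_comm]
    congr 1
    unfold E2_hat
    rw [← integral_conj]
    congr 1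
    ext a
    rw [map_mul, conj_conj]
  have hLi := hTi.integral_prod_left
  simp_rw [hL] at hsw hLi
  simp_rw [hR] at hsw
  rw [← hsw]
  exact (integral_prod (μ := (volume : Measure R5)) (ν := (volume : Measure R5)) _ hLi).symm

/-- the endpoint bound from the Laplace transform -/
theorem E2_l2_of
    (hlap : ∀ (α : ℂ), -1 < α.re → ∀ (v u : R5), v ∈ Fwd →
      IntegrableOn (fun k : R5 => cexp (-((v.1 * k.1 + inner ℝ v.2 k.2 : ℝ) +
        I * (u.1 * k.1 + inner ℝ u.2 k.2 : ℝ))) * ((lor k : ℝ) : ℂ) ^ α) Fwd volume ∧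
      ∫ k in Fwd, cexp (-((v.1 * k.1 + inner ℝ v.2 k.2 : ℝ) +
        I * (u.1 * k.1 + inner ℝ u.2 k.2 : ℝ))) * ((lor k : ℝ) : ℂ) ^ α =
      (Real.pi ^ 2 * Complex.Gamma (2 * α + 5) / ((α + 1) * (α + 2))) *
        (qf u v) ^ (-α - 5 / 2 : ℂ)) :
    ∃ C : ℝ, 0 ≤ C ∧ ∀ (y ε : ℝ) (_ : 0 < ε) (G H : R5 → ℂ),
    Measurable G → Measurable H → (∃ M : ℝ, ∀ a, ‖G a‖ ≤ M ∧ ‖H a‖ ≤ M ∧
      (M < ‖a‖ → G a = 0 ∧ H a = 0)) →
    ‖∫ a, ∫ b, (qf (a - b) (ε, 0)) ^ (-(5 / 2) - y * I : ℂ) * G b * H a‖ ≤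
      C * Real.exp (C * |y|) * √(∫ a, ‖G a‖ ^ 2) * √(∫ a, ‖H a‖ ^ 2) := by
  refine ⟨64 * Real.pi ^ 5, by positivity, ?_⟩
  intro y ε hε G H hG hH ⟨M, hM⟩
  set K : ℝ := 64 * Real.pi ^ 5 with hK
  -- integrability
  have hball : ∀ a : R5, a ∉ Metric.closedBall (0 : R5) M → G a = 0 ∧ H a = 0 := by
    intro a ha
    apply (hM a).2.2
    simpa [Metric.mem_closedBall, dist_zero_right] using ha
  have hfin : (volume : Measure R5) (Metric.closedBall (0 : R5) M) < ⊤ := by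
    have := E2_haar
    exact (isCompact_closedBall (0 : R5) M).measure_lt_top
  have hint : ∀ F : R5 → ℂ, Measurable F → (∀ a, ‖F a‖ ≤ M) →
      (∀ a, a ∉ Metric.closedBall (0 : R5) M → F a = 0) →
      Integrable F ∧ Integrable (fun a => ‖F a‖ ^ 2) := by
    intro F hF hb h0
    have hon : ∀ E : R5 → ℝ, Measurable E → (∀ C : ℝ, (∀ a, ‖E a‖ ≤ C) →
        (∀ a, a ∉ Metric.closedBall (0 : R5) M → E a = 0) → Integrable E) := by
      intro E hE C hC hE0
      have h1 : IntegrableOn E (Metric.closedBall (0 : R5) M) :=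
        Measure.integrableOn_of_bounded hfin.ne hE.aestronglyMeasurable
          (Filter.Eventually.of_forall hC)
      have h2 := h1.integrable_indicator measurableSet_closedBall
      refine h2.congr (Filter.Eventually.of_forall fun a => ?_)
      by_cases ha : a ∈ Metric.closedBall (0 : R5) M
      · exact Set.indicator_of_mem ha _
      · rw [Set.indicator_of_notMem ha, hE0 a ha]
    constructor
    · have h1 := hon (fun a => ‖F a‖) hF.norm M (fun a => by simpa using hb a)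
        (fun a ha => by simp [h0 a ha])
      exact (integrable_norm_iff hF.aestronglyMeasurable).mp h1
    · refine hon (fun a => ‖F a‖ ^ 2) (hF.norm.pow_const 2) (M ^ 2) (fun a => ?_)
        (fun a ha => by simp [h0 a ha])
      rw [norm_pow, norm_norm]
      have := hb a
      gcongr
  obtain ⟨hGi, hG2⟩ := hint G hG (fun a => (hM a).1) (fun a ha => (hball a ha).1)
  obtain ⟨hHi, hH2⟩ := hint H hH (fun a => (hM a).2.1) (fun a ha => (hball a ha).2)
  set α : ℂ := (y : ℂ) * I with hα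
  have hαre : -1 < α.re := by simp [hα]
  have hmem : ((ε, (0 : R4)) : R5) ∈ Fwd := by
    change ‖(0 : R4)‖ < ε
    simpa using hε
  set Φ : R5 → ℂ := fun k => (Real.exp (-(ε * k.1)) : ℂ) * ((lor k : ℝ) : ℂ) ^ α with hΦ
  have hl1 : ∀ u : R5, ∫ k in Fwd, Φ k * conj (E2_ker u k) =
      E2_cst α * (qf u (ε, 0)) ^ (-α - 5 / 2 : ℂ) := by
    intro u
    exact (integral_congr_ae (Filter.Eventually.of_forall fun k =>
      (E2_phi_eq ε α u k).symm)).trans (hlap α hαre (ε, 0) u hmem).2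
  have hΦi : IntegrableOn Φ Fwd volume := by
    have h := (hlap α hαre (ε, 0) 0 hmem).1
    refine Integrable.congr h (Filter.Eventually.of_forall fun k => ?_)
    have h0 : E2_ker 0 k = 1 := by
      simp [E2_ker, E2_dot]
    exact (E2_phi_eq ε α 0 k).trans (by rw [h0, map_one, mul_one])
  have hc0 : E2_cst α ≠ 0 := by
    intro h
    have := E2_cst_low y
    rw [← hα, h, norm_zero] at this
    linarith [Real.exp_pos (-(Real.pi * |y|))]
  have hκ : ∀ u : R5, (qf u (ε, 0)) ^ (-(5 / 2) - α : ℂ) =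
      (E2_cst α)⁻¹ * ∫ k in Fwd, Φ k * conj (E2_ker u k) := by
    intro u
    rw [hl1, inv_mul_cancel_left₀ hc0]
    congr 1
    ring
  simp_rw [hκ]
  have hfub := E2_fub Φ hΦi G H hGi hHi
  have e1 : ∫ a, ∫ b, ((E2_cst α)⁻¹ * ∫ k in Fwd, Φ k * conj (E2_ker (a - b) k)) * G b * H a =
      (E2_cst α)⁻¹ * ∫ a, ∫ b, (∫ k in Fwd, Φ k * conj (E2_ker (a - b) k)) * G b * H a := by
    rw [← integral_const_mul]
    congr 1
    ext a
    rw [← integral_const_mul]
    congr 1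
    ext b
    ring
  rw [e1, hfub, norm_mul, norm_inv]
  -- the size of the integral
  have hH' : Measurable fun a => conj (H a) := continuous_conj.measurable.comp hH
  have hHi' : Integrable fun a => conj (H a) := by
    refine hHi.norm.mono' hH'.aestronglyMeasurable (Filter.Eventually.of_forall fun a => ?_)
    rw [RCLike.norm_conj]
  have hFwdm : MeasurableSet (Fwd : Set R5) := by
    have h1 : IsOpen (Fwd : Set R5) := isOpen_lt (by fun_prop) (by fun_prop)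
    exact h1.measurableSet
  have hP1 := E2_planch G hG hGi
  have hP2 := E2_planch (fun a => conj (H a)) hH' hHi'
  have eL2 : ∀ F : R5 → ℂ, Integrable (fun a => ‖F a‖ ^ 2) →
      ∫⁻ a, ‖F a‖ₑ ^ 2 = ENNReal.ofReal (√(∫ a, ‖F a‖ ^ 2)) ^ 2 := by
    intro F hF
    rw [← ENNReal.ofReal_pow (Real.sqrt_nonneg _), Real.sq_sqrt (integral_nonneg fun a =>
      by positivity), ofReal_integral_eq_lintegral_ofReal hF
      (Filter.Eventually.of_forall fun a => by positivity)]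
    congr 1
    ext a
    rw [ENNReal.ofReal_pow (norm_nonneg _), ofReal_norm]
  have hH2' : Integrable fun a => ‖conj (H a)‖ ^ 2 := by
    refine hH2.congr (Filter.Eventually.of_forall fun a => ?_)
    simp only [RCLike.norm_conj]
  rw [eL2 G hG2] at hP1
  rw [eL2 _ hH2'] at hP2
  have e5 : ∫ a, ‖conj (H a)‖ ^ 2 = ∫ a, ‖H a‖ ^ 2 := by
    congr 1
    ext a
    rw [RCLike.norm_conj]
  rw [e5] at hP2
  set g : ℝ := √(∫ a, ‖G a‖ ^ 2) with hg
  set h : ℝ := √(∫ a, ‖H a‖ ^ 2) with hh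
  have hcs := E2_cs (fun k => ‖E2_hat G k‖ₑ) (fun k => ‖E2_hat (fun a => conj (H a)) k‖ₑ)
    (E2_hat_meas G hG).measurable.enorm (E2_hat_meas _ hH').measurable.enorm _ _ _ hP1 hP2
  have hbd : ‖∫ k in Fwd, Φ k * (E2_hat G k * conj (E2_hat (fun a => conj (H a)) k))‖ₑ ≤
      ENNReal.ofReal (K * (g * h)) := by
    refine (enorm_integral_le_lintegral_enorm _).trans ?_
    have h1 : ∫⁻ k in Fwd, ‖Φ k * (E2_hat G k * conj (E2_hat (fun a => conj (H a)) k))‖ₑ ≤
        ∫⁻ k in Fwd, ‖E2_hat G k‖ₑ * ‖E2_hat (fun a => conj (H a)) k‖ₑ := by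
      refine setLIntegral_mono_ae' hFwdm (Filter.Eventually.of_forall fun k hk => ?_)
      rw [enorm_mul (Φ k), enorm_mul (E2_hat G k)]
      have e2 : ‖conj (E2_hat (fun a => conj (H a)) k)‖ₑ = ‖E2_hat (fun a => conj (H a)) k‖ₑ := by
        simp only [← ofReal_norm, RCLike.norm_conj]
      rw [e2]
      have e3 : ‖Φ k‖ₑ ≤ 1 := by
        rw [← ofReal_norm]
        exact ENNReal.ofReal_le_one.mpr (E2_phi_norm hε y hk)
      calc ‖Φ k‖ₑ * (‖E2_hat G k‖ₑ * ‖E2_hat (fun a => conj (H a)) k‖ₑ)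
          ≤ 1 * (‖E2_hat G k‖ₑ * ‖E2_hat (fun a => conj (H a)) k‖ₑ) := by gcongr
        _ = _ := one_mul _
    refine h1.trans ((setLIntegral_le_lintegral _ _).trans (hcs.trans (le_of_eq ?_)))
    rw [← hK, ← ENNReal.ofReal_mul (Real.sqrt_nonneg _), ← ENNReal.ofReal_mul (by positivity)]
  have hbd' : ‖∫ k in Fwd, Φ k * (E2_hat G k * conj (E2_hat (fun a => conj (H a)) k))‖ ≤
      K * (g * h) := by
    rw [← ofReal_norm] at hbd
    exact (ENNReal.ofReal_le_ofReal_iff (by positivity)).mp hbd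
  have hcinv : ‖E2_cst α‖⁻¹ ≤ Real.exp (Real.pi * |y|) := by
    have h1 := E2_cst_low y
    rw [Real.exp_neg] at h1
    rw [inv_le_comm₀ (norm_pos_iff.mpr hc0) (Real.exp_pos _)]
    exact h1
  have hpiK : Real.pi ≤ K := by
    have h3 := Real.pi_gt_three
    have h4 : 1 ≤ Real.pi ^ 4 := one_le_pow₀ (by linarith)
    have h5 : K = 64 * Real.pi ^ 4 * Real.pi := by rw [hK]; ring
    rw [h5]
    nlinarith
  have hexp : Real.exp (Real.pi * |y|) ≤ Real.exp (K * |y|) := by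
    apply Real.exp_le_exp.mpr
    have := abs_nonneg y
    gcongr
  calc ‖E2_cst α‖⁻¹ * ‖∫ k in Fwd, Φ k * (E2_hat G k * conj (E2_hat (fun a => conj (H a)) k))‖
      ≤ Real.exp (K * |y|) * (K * (g * h)) := by
        apply mul_le_mul (hcinv.trans hexp) hbd' (norm_nonneg _) (Real.exp_pos _).le
    _ = K * Real.exp (K * |y|) * g * h := by ring

/-- E0' : Plancherel endpoint -/
theorem l2_endpoint : ∃ C : ℝ, ∀ (y ε : ℝ) (hε : 0 < ε) (G H : R5 → ℂ),
    Measurable G → Measurable H → (∃ M : ℝ, ∀ a, ‖G a‖ ≤ M ∧ ‖H a‖ ≤ M ∧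
      (M < ‖a‖ → G a = 0 ∧ H a = 0)) →
    ‖∫ a, ∫ b, (qf (a - b) (ε, 0)) ^ (-(5 / 2) - y * I : ℂ) * G b * H a‖ ≤
      C * Real.exp (C * |y|) * √(∫ a, ‖G a‖ ^ 2) * √(∫ a, ‖H a‖ ^ 2) := by
  obtain ⟨C, _, h⟩ := E2_l2_of laplace_cone
  exact ⟨C, h⟩

end Pool.Agent.Cone
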