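import Pool.Agent.Work.MP_b0b133_an.EStr
import Pool.Agent.Work.MP_b0b133_an.EL2
import Pool.Agent.Work.MP_b0b133_an.D
import Pool.Agent.Work.MP_b0b133_an.D3

/-!
# Finiteness of the extension constant
-/

set_option autoImplicit false
open MeasureTheory Complex
open scoped ENNReal ComplexConjugate

namespace Pool.Agent.Cone

/-- E0'' : after interpolation -/
theorem bilinear_bound : ∃ C : ℝ, ∀ (ε : ℝ) (_ : 0 < ε) (G : R5 → ℂ), Measurable G →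
    (∃ M : ℝ, ∀ a, ‖G a‖ ≤ M ∧ (M < ‖a‖ → G a = 0)) →
    ‖∫ a, ∫ b, (qf (a - b) (ε, 0)) ^ (-(3 / 2) : ℂ) * G b * conj (G a)‖ ≤
      C * (∫ a, ‖G a‖ ^ (10 / 7 : ℝ)) ^ (7 / 5 : ℝ) := E_bilinear l2_endpoint

/-- E1 -/
theorem strichartz : ∃ C : ℝ, ∀ f : R4 → ℂ, Integrable f sig → MemLp f 2 sig →
    MemLp (coneExt f) (10 / 3) volume ∧
    (∫ a, ‖coneExt f a‖ ^ (10 / 3 : ℝ)) ^ (3 / 5 : ℝ) ≤ C * ∫ ξ, ‖f ξ‖ ^ 2 ∂sig :=
  E_strichartz ⟨fun ε hε => (expo_integrable 0 (ε, 0) (by simpa [Fwd] using hε)).1,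
    fun ε hε c a => coneExt_expo c (ε, 0) (by simpa [Fwd] using hε) a⟩ bilinear_bound

end Pool.Agent.Cone
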