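import Mathlib
import Pool.Agent.Work.MP_b0b133_an.Defs

set_option autoImplicit false
open MeasureTheory Complex Set
open scoped ENNReal ComplexConjugate

namespace Pool.Agent.Cone

theorem E_finrank4 : Module.finrank ℝ R4 = 4 := by simp

theorem E_ball4 : (volume : Measure R4).real (Metric.ball 0 1) = Real.pi ^ 2 / 2 := by
  rw [Measure.real, EuclideanSpace.volume_ball]
  simp only [ENNReal.ofReal_one, one_pow, one_mul, Fintype.card_fin]
  have h : Real.Gamma ((4 : ℕ) / 2 + 1 : ℝ) = 2 := by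
    have : ((4 : ℕ) / 2 + 1 : ℝ) = ((2 : ℕ) : ℝ) + 1 := by norm_num
    rw [this, Real.Gamma_nat_eq_factorial]
    norm_num
  rw [h, ENNReal.toReal_ofReal (by positivity)]
  have : (√Real.pi) ^ 4 = Real.pi ^ 2 := by
    rw [show (4 : ℕ) = 2 * 2 by norm_num, pow_mul, Real.sq_sqrt Real.pi_pos.le]
  rw [this]

/-- the one-dimensional integrand -/
noncomputable def E_g (A : ℝ) (α : ℂ) (y : ℝ) : ℂ :=
  (Iio A).indicator (fun y : ℝ => (y : ℂ) * ((A - y : ℝ) : ℂ) ^ α) y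

theorem E_g_int (A : ℝ) (hA : 0 < A) (α : ℂ) (hα : -1 < α.re) :
    IntegrableOn (E_g A α) (Ioi 0) ∧
    ∫ y in Ioi 0, E_g A α y = (A : ℂ) ^ (α + 2) / ((α + 1) * (α + 2)) := by
  have h1 : IntervalIntegrable (fun x : ℝ => (x : ℂ) ^ α) volume 0 A :=
    intervalIntegral.intervalIntegrable_cpow' hα
  have h2 : IntervalIntegrable (fun x : ℝ => ((A - x : ℝ) : ℂ) ^ α) volume 0 A := by
    have := (h1.comp_sub_left A)
    simp only [sub_zero, sub_self] at this
    exact this.symm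
  have h3 : IntervalIntegrable (fun x : ℝ => (x : ℂ) * ((A - x : ℝ) : ℂ) ^ α) volume 0 A :=
    h2.continuousOn_mul (Complex.continuous_ofReal.continuousOn)
  have hio : IntegrableOn (fun x : ℝ => (x : ℂ) * ((A - x : ℝ) : ℂ) ^ α) (Ioo 0 A) volume := by
    rw [intervalIntegrable_iff_integrableOn_Ioo_of_le hA.le] at h3
    exact h3
  have hset : Ioi (0 : ℝ) ∩ Iio A = Ioo 0 A := by
    ext x; simp [mem_Ioo]
  constructor
  · unfold E_g
    rw [IntegrableOn, integrable_indicator_iff measurableSet_Iio, IntegrableOn,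
      Measure.restrict_restrict measurableSet_Iio, inter_comm, hset]
    exact hio
  · unfold E_g
    rw [integral_indicator measurableSet_Iio, Measure.restrict_restrict measurableSet_Iio,
      inter_comm, hset, ← integral_Ioc_eq_integral_Ioo, ← intervalIntegral.integral_of_le hA.le]
    have e1 : ∫ x in (0 : ℝ)..A, (x : ℂ) * ((A - x : ℝ) : ℂ) ^ α =
        ∫ x in (0 : ℝ)..A, (((A - x : ℝ)) : ℂ) * (x : ℂ) ^ α := by
      have := intervalIntegral.integral_comp_sub_left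
        (fun x : ℝ => (((A - x : ℝ)) : ℂ) * (x : ℂ) ^ α) A (a := 0) (b := A)
      simp only [sub_sub_cancel, sub_zero, sub_self] at this
      exact this
    rw [e1]
    have e2 : ∀ x ∈ Set.uIoc (0 : ℝ) A, (((A - x : ℝ)) : ℂ) * (x : ℂ) ^ α =
        (A : ℂ) * (x : ℂ) ^ α - (x : ℂ) ^ (α + 1) := by
      intro x hx
      rw [uIoc_of_le hA.le] at hx
      have hx0 : (x : ℂ) ≠ 0 := by
        have := hx.1
        exact_mod_cast this.ne'
      rw [cpow_add _ _ hx0, cpow_one]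
      push_cast
      ring
    rw [intervalIntegral.integral_congr_ae (Filter.Eventually.of_forall e2)]
    have h4 : IntervalIntegrable (fun x : ℝ => (x : ℂ) ^ (α + 1)) volume 0 A :=
      intervalIntegral.intervalIntegrable_cpow' (by simp; linarith)
    rw [intervalIntegral.integral_sub (h1.const_mul _) h4, intervalIntegral.integral_const_mul,
      integral_cpow (Or.inl hα), integral_cpow (Or.inl (by simp; linarith))]
    have n1 : α + 1 ≠ 0 := by
      intro h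
      have := congrArg Complex.re h
      simp at this
      linarith
    have n2 : α + 2 ≠ 0 := by
      intro h
      have := congrArg Complex.re h
      simp at this
      linarith
    have n3 : α + 1 + 1 ≠ 0 := by
      rw [show α + 1 + 1 = α + 2 by ring]; exact n2
    have hA0 : (A : ℂ) ≠ 0 := by exact_mod_cast hA.ne'
    rw [Complex.ofReal_zero, zero_cpow n1, zero_cpow n3, sub_zero, sub_zero]
    have e3 : (A : ℂ) ^ (α + 1 + 1) = (A : ℂ) * (A : ℂ) ^ (α + 1) := by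
      rw [cpow_add _ _ hA0, cpow_one, mul_comm]
    have e4 : (A : ℂ) ^ (α + 2) = (A : ℂ) * (A : ℂ) ^ (α + 1) := by
      rw [← e3]; congr 1; ring
    rw [e3, e4, show α + 1 + 1 = α + 2 by ring]
    field_simp
    ring

theorem E_radial (α : ℂ) (τ : ℝ) (hτ : 0 < τ) (r : ℝ) (hr : r ∈ Ioi (0 : ℝ)) :
    r ^ (4 - 1) • (Iio τ).indicator (fun r : ℝ => ((τ ^ 2 - r ^ 2 : ℝ) : ℂ) ^ α) r =
      (1 / 2 : ℝ) • ((|(2 : ℝ)| * r ^ ((2 : ℝ) - 1)) • E_g (τ ^ 2) α (r ^ (2 : ℝ))) := by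
  have hr0 : 0 < r := hr
  have e1 : r ^ (2 : ℝ) = r ^ 2 := by exact_mod_cast Real.rpow_natCast r 2
  have e2 : r ^ ((2 : ℝ) - 1) = r := by norm_num
  rw [e1, e2]
  unfold E_g
  by_cases h : r < τ
  · have h2 : r ^ 2 < τ ^ 2 := by nlinarith
    rw [indicator_of_mem (by exact h : r ∈ Iio τ), indicator_of_mem (by exact h2 : r ^ 2 ∈ Iio (τ ^ 2))]
    simp only [Complex.real_smul]
    push_cast
    rw [abs_of_pos (by norm_num : (0 : ℝ) < 2)]
    push_cast
    ring
  · have h2 : ¬ r ^ 2 < τ ^ 2 := by nlinarith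
    rw [indicator_of_notMem (by exact h : r ∉ Iio τ),
      indicator_of_notMem (by exact h2 : r ^ 2 ∉ Iio (τ ^ 2))]
    simp

theorem E_inner (α : ℂ) (hα : -1 < α.re) (τ : ℝ) (hτ : 0 < τ) :
    Integrable (fun ξ : R4 => (Iio τ).indicator (fun r : ℝ => ((τ ^ 2 - r ^ 2 : ℝ) : ℂ) ^ α) ‖ξ‖) ∧
    ∫ ξ : R4, (Iio τ).indicator (fun r : ℝ => ((τ ^ 2 - r ^ 2 : ℝ) : ℂ) ^ α) ‖ξ‖ =
      Real.pi ^ 2 / ((α + 1) * (α + 2)) * ((τ : ℂ) ^ (2 * α + 4)) := by
  have hg := E_g_int (τ ^ 2) (by positivity) α hα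
  constructor
  · rw [integrable_fun_norm_addHaar (volume : Measure R4)
      (f := (Iio τ).indicator (fun r : ℝ => ((τ ^ 2 - r ^ 2 : ℝ) : ℂ) ^ α)), E_finrank4]
    rw [integrableOn_congr_fun (fun r hr => E_radial α τ hτ r hr) measurableSet_Ioi]
    exact ((integrableOn_Ioi_comp_rpow_iff (E_g (τ ^ 2) α) (by norm_num : (2 : ℝ) ≠ 0)).2
      hg.1).smul (1 / 2 : ℝ)
  · rw [integral_fun_norm_addHaar (volume : Measure R4)
      (f := (Iio τ).indicator (fun r : ℝ => ((τ ^ 2 - r ^ 2 : ℝ) : ℂ) ^ α)), E_finrank4, E_ball4,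
      setIntegral_congr_fun measurableSet_Ioi (fun r hr => E_radial α τ hτ r hr),
      integral_smul]
    have := integral_comp_rpow_Ioi (E_g (τ ^ 2) α) (by norm_num : (2 : ℝ) ≠ 0)
    rw [this, hg.2]
    have hτ0 : (τ : ℂ) ≠ 0 := by exact_mod_cast hτ.ne'
    have e5 : (((τ ^ 2 : ℝ)) : ℂ) ^ (α + 2) = (τ : ℂ) ^ (2 * α + 4) := by
      rw [cpow_def_of_ne_zero (by exact_mod_cast (by positivity : τ ^ 2 ≠ 0)),
        cpow_def_of_ne_zero hτ0, ← Complex.ofReal_log (by positivity), ← Complex.ofReal_log hτ.le,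
        Real.log_pow]
      congr 1
      push_cast
      ring
    rw [e5]
    simp only [nsmul_eq_mul, Complex.real_smul]
    push_cast
    ring

theorem E_norm_cpow (x : ℝ) (hx : 0 < x) (α : ℂ) : ‖((x : ℝ) : ℂ) ^ α‖ = x ^ α.re :=
  Complex.norm_cpow_eq_rpow_re_of_pos hx α

/-- the radial profile -/
noncomputable def E_F (α : ℂ) (τ : ℝ) (ξ : R4) : ℂ :=
  (Iio τ).indicator (fun r : ℝ => ((τ ^ 2 - r ^ 2 : ℝ) : ℂ) ^ α) ‖ξ‖

theorem E_F_norm (α : ℂ) (τ : ℝ) (ξ : R4) : ((‖E_F α τ ξ‖ : ℝ) : ℂ) = E_F (α.re : ℂ) τ ξ := by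
  unfold E_F
  by_cases h : ‖ξ‖ < τ
  · have h2 : 0 < τ ^ 2 - ‖ξ‖ ^ 2 := by
      have := norm_nonneg ξ
      nlinarith
    rw [indicator_of_mem (by exact h : ‖ξ‖ ∈ Iio τ), indicator_of_mem (by exact h : ‖ξ‖ ∈ Iio τ),
      E_norm_cpow _ h2, Complex.ofReal_cpow h2.le]
  · rw [indicator_of_notMem (by exact h : ‖ξ‖ ∉ Iio τ),
      indicator_of_notMem (by exact h : ‖ξ‖ ∉ Iio τ)]
    simp

theorem E_F_int_norm (α : ℂ) (hα : -1 < α.re) (τ : ℝ) (hτ : 0 < τ) :
    ∫ ξ, ‖E_F α τ ξ‖ = Real.pi ^ 2 / ((α.re + 1) * (α.re + 2)) * τ ^ (2 * α.re + 4) := by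
  have h := (E_inner (α.re : ℂ) (by simpa using hα) τ hτ).2
  have e : ∫ ξ : R4, E_F (α.re : ℂ) τ ξ = ((∫ ξ, ‖E_F α τ ξ‖ : ℝ) : ℂ) := by
    rw [← integral_complex_ofReal]
    refine integral_congr_ae (Filter.Eventually.of_forall fun ξ => ?_)
    exact (E_F_norm α τ ξ).symm
  have h' : ((∫ ξ, ‖E_F α τ ξ‖ : ℝ) : ℂ) =
      ((Real.pi ^ 2 / ((α.re + 1) * (α.re + 2)) * τ ^ (2 * α.re + 4) : ℝ) : ℂ) := by
    rw [← e]
    unfold E_F
    rw [h]
    push_cast
    rw [Complex.ofReal_cpow hτ.le]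
    push_cast
    rfl
  exact_mod_cast h'

/-- the integrand on the axis, extended by zero -/
theorem E_ind (α : ℂ) (m : ℝ) (k : R5) :
    Fwd.indicator (fun k : R5 => cexp (-((m * k.1 : ℝ) : ℂ)) * ((lor k : ℝ) : ℂ) ^ α) k =
      (Ioi (0 : ℝ)).indicator (fun τ => cexp (-((m * τ : ℝ) : ℂ)) * E_F α τ k.2) k.1 := by
  obtain ⟨τ, ξ⟩ := k
  unfold E_F
  by_cases h : ‖ξ‖ < τ
  · have h0 : 0 < τ := lt_of_le_of_lt (norm_nonneg ξ) h
    rw [indicator_of_mem (by exact h : (τ, ξ) ∈ Fwd),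
      indicator_of_mem (by exact h0 : (τ, ξ).1 ∈ Ioi (0 : ℝ)),
      indicator_of_mem (by exact h : ‖ξ‖ ∈ Iio τ)]
    rfl
  · rw [indicator_of_notMem (by exact h : (τ, ξ) ∉ Fwd)]
    by_cases h0 : 0 < τ
    · rw [indicator_of_mem (by exact h0 : (τ, ξ).1 ∈ Ioi (0 : ℝ)),
        indicator_of_notMem (by exact h : ‖ξ‖ ∉ Iio τ), mul_zero]
    · rw [indicator_of_notMem (by exact h0 : (τ, ξ).1 ∉ Ioi (0 : ℝ))]

theorem E_Fwd_meas : MeasurableSet Fwd :=
  measurableSet_lt (measurable_snd.norm) measurable_fst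

theorem E_lor_meas : Measurable lor :=
  (measurable_fst.pow_const 2).sub (measurable_snd.norm.pow_const 2)

theorem E_axis (α : ℂ) (hα : -1 < α.re) (m : ℝ) (hm : 0 < m) :
    IntegrableOn (fun k : R5 => cexp (-((m * k.1 : ℝ) : ℂ)) * ((lor k : ℝ) : ℂ) ^ α) Fwd ∧
    ∫ k in Fwd, cexp (-((m * k.1 : ℝ) : ℂ)) * ((lor k : ℝ) : ℂ) ^ α =
      (Real.pi ^ 2 * Complex.Gamma (2 * α + 5) / ((α + 1) * (α + 2))) *
        (m : ℂ) ^ (-(2 * α + 5)) := by
  have hmeas : Measurable (fun k : R5 => cexp (-((m * k.1 : ℝ) : ℂ)) * ((lor k : ℝ) : ℂ) ^ α) := by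
    refine Measurable.mul ?_ ?_
    · exact (Complex.measurable_ofReal.comp (measurable_fst.const_mul m)).neg.cexp
    · exact (Complex.measurable_ofReal.comp E_lor_meas).pow_const α
  have hint : Integrable (Fwd.indicator
      (fun k : R5 => cexp (-((m * k.1 : ℝ) : ℂ)) * ((lor k : ℝ) : ℂ) ^ α)) := by
    rw [Measure.volume_eq_prod, integrable_prod_iff
      (hmeas.indicator E_Fwd_meas).aestronglyMeasurable]
    constructor
    · refine Filter.Eventually.of_forall fun τ => ?_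
      simp only [E_ind]
      by_cases h0 : 0 < τ
      · simp only [indicator_of_mem (by exact h0 : τ ∈ Ioi (0 : ℝ))]
        exact (E_inner α hα τ h0).1.const_mul _
      · simp only [indicator_of_notMem (by exact h0 : τ ∉ Ioi (0 : ℝ))]
        exact integrable_zero _ _ _
    · simp only [E_ind]
      have : (fun τ : ℝ => ∫ ξ : R4, ‖(Ioi (0 : ℝ)).indicator
          (fun τ => cexp (-((m * τ : ℝ) : ℂ)) * E_F α τ ξ) τ‖) =
          (Ioi (0 : ℝ)).indicator (fun τ : ℝ => Real.pi ^ 2 / ((α.re + 1) * (α.re + 2)) *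
            (τ ^ (2 * α.re + 4) * Real.exp (-m * τ ^ (1 : ℝ)))) := by
        funext τ
        by_cases h0 : 0 < τ
        · simp only [indicator_of_mem (by exact h0 : τ ∈ Ioi (0 : ℝ)), norm_mul]
          rw [integral_const_mul, E_F_int_norm α hα τ h0, Complex.norm_exp, Real.rpow_one]
          have : (-((m * τ : ℝ) : ℂ)).re = -m * τ := by
            rw [Complex.neg_re, Complex.ofReal_re]; ring
          rw [this]
          ring
        · simp only [indicator_of_notMem (by exact h0 : τ ∉ Ioi (0 : ℝ)), norm_zero,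
            integral_zero]
      rw [this, integrable_indicator_iff measurableSet_Ioi]
      exact (integrableOn_rpow_mul_exp_neg_mul_rpow (by linarith) one_pos hm).const_mul _
  refine ⟨(integrable_indicator_iff E_Fwd_meas).1 hint, ?_⟩
  rw [← integral_indicator E_Fwd_meas]
  rw [Measure.volume_eq_prod] at hint ⊢
  rw [integral_prod _ hint]
  simp only [E_ind]
  have : (fun τ : ℝ => ∫ ξ : R4, (Ioi (0 : ℝ)).indicator
      (fun τ => cexp (-((m * τ : ℝ) : ℂ)) * E_F α τ ξ) τ) =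
      (Ioi (0 : ℝ)).indicator (fun τ : ℝ => Real.pi ^ 2 / ((α + 1) * (α + 2)) *
        ((τ : ℂ) ^ ((2 * α + 5) - 1) * cexp (-((m : ℂ) * τ)))) := by
    funext τ
    by_cases h0 : 0 < τ
    · simp only [indicator_of_mem (by exact h0 : τ ∈ Ioi (0 : ℝ))]
      rw [integral_const_mul]
      have := (E_inner α hα τ h0).2
      unfold E_F
      rw [this, show (2 * α + 5) - 1 = 2 * α + 4 by ring]
      push_cast
      ring
    · simp only [indicator_of_notMem (by exact h0 : τ ∉ Ioi (0 : ℝ)), integral_zero]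
  rw [this, integral_indicator measurableSet_Ioi, integral_const_mul,
    integral_cpow_mul_exp_neg_mul_Ioi (by simp; linarith) hm]
  have e6 : (1 / (m : ℂ)) ^ (2 * α + 5) = (m : ℂ) ^ (-(2 * α + 5)) := by
    rw [one_div, inv_cpow, cpow_neg]
    rw [Complex.arg_ofReal_of_nonneg hm.le]
    exact Real.pi_pos.ne
  rw [e6]
  ring

end Pool.Agent.Cone
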