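import Mathlib
import Pool.Agent.Work.MP_b0b133_an.ELap1

set_option autoImplicit false
open MeasureTheory Complex Set
open scoped ENNReal ComplexConjugate

namespace Pool.Agent.Cone

/-! ### Boosts -/

/-- a shear in the time direction -/
noncomputable def E_S (u : R4) (c : ℝ) (k : R5) : R5 := (k.1 + c * inner ℝ u k.2, k.2)

/-- a shear in the space direction -/
noncomputable def E_T (u : R4) (c : ℝ) (k : R5) : R5 := (k.1, k.2 + (c * k.1) • u)

theorem E_T_mp (u : R4) (c : ℝ) : MeasurePreserving (E_T u c) volume volume := by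
  have h := (MeasurePreserving.id (volume : Measure ℝ)).skew_product
    (μc := (volume : Measure R4)) (μd := (volume : Measure R4))
    (g := fun (τ : ℝ) (ξ : R4) => ξ + (c * τ) • u) (by
      refine Measurable.add measurable_snd ?_
      exact (measurable_fst.const_mul c).smul_const u)
    (Filter.Eventually.of_forall fun τ => by
      exact (measurePreserving_add_right (volume : Measure R4) ((c * τ) • u)).map_eq)
  exact h

theorem E_S_mp (u : R4) (c : ℝ) : MeasurePreserving (E_S u c) volume volume := by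
  have h := (MeasurePreserving.id (volume : Measure R4)).skew_product
    (μc := (volume : Measure ℝ)) (μd := (volume : Measure ℝ))
    (g := fun (ξ : R4) (τ : ℝ) => τ + c * inner ℝ u ξ) (by
      refine Measurable.add measurable_snd ?_
      exact ((continuous_const.inner continuous_id).measurable.comp measurable_fst).const_mul c)
    (Filter.Eventually.of_forall fun ξ => by
      exact (measurePreserving_add_right (volume : Measure ℝ) (c * inner ℝ u ξ)).map_eq)
  have h2 := ((Measure.measurePreserving_swap (μ := (volume : Measure R4))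
    (ν := (volume : Measure ℝ))).comp h).comp (Measure.measurePreserving_swap
      (μ := (volume : Measure ℝ)) (ν := (volume : Measure R4)))
  exact h2

/-- a boost -/
noncomputable def E_B (u : R4) (ch sh : ℝ) (k : R5) : R5 :=
  E_S u (sh / (1 + ch)) (E_T u sh (E_S u (sh / (1 + ch)) k))

theorem E_B_mp (u : R4) (ch sh : ℝ) : MeasurePreserving (E_B u ch sh) volume volume :=
  (E_S_mp u _).comp ((E_T_mp u _).comp (E_S_mp u _))

theorem E_B_eq (u : R4) (hu : ‖u‖ = 1) (ch sh : ℝ) (hch : 0 < ch) (h : ch ^ 2 - sh ^ 2 = 1)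
    (k : R5) : E_B u ch sh k =
      (ch * k.1 + sh * inner ℝ u k.2, k.2 + (sh * k.1 + (ch - 1) * inner ℝ u k.2) • u) := by
  have huu : inner ℝ u u = (1 : ℝ) := by rw [real_inner_self_eq_norm_sq, hu]; norm_num
  have h1 : 1 + ch ≠ 0 := by positivity
  have h2 : sh * (sh / (1 + ch)) = ch - 1 := by
    field_simp
    linarith
  unfold E_B E_S E_T
  simp only [inner_add_right, inner_smul_right, huu, mul_one]
  refine Prod.ext ?_ ?_
  · simp only
    have : sh / (1 + ch) * (sh * (k.1 + sh / (1 + ch) * inner ℝ u k.2)) =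
      (ch - 1) * (k.1 + sh / (1 + ch) * inner ℝ u k.2) := by
      rw [← h2]; ring
    rw [mul_add (sh / (1 + ch)), this]
    have h3 : (1 + ch) * (sh / (1 + ch)) = sh := by field_simp
    linear_combination (inner ℝ u k.2) * h3
  · simp only
    congr 2
    linear_combination (inner ℝ u k.2) * h2

theorem E_B_lor (u : R4) (hu : ‖u‖ = 1) (ch sh : ℝ) (hch : 0 < ch) (h : ch ^ 2 - sh ^ 2 = 1)
    (k : R5) : lor (E_B u ch sh k) = lor k := by
  have huu : inner ℝ u u = (1 : ℝ) := by rw [real_inner_self_eq_norm_sq, hu]; norm_num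
  rw [E_B_eq u hu ch sh hch h]
  unfold lor
  simp only
  rw [← real_inner_self_eq_norm_sq, ← real_inner_self_eq_norm_sq]
  simp only [inner_add_left, inner_add_right, inner_smul_left, inner_smul_right, huu,
    RCLike.conj_to_real, mul_one]
  rw [real_inner_comm u k.2]
  linear_combination (k.1 ^ 2 - (inner ℝ u k.2) ^ 2) * h

theorem E_mem_Fwd (k : R5) : k ∈ Fwd ↔ 0 < k.1 ∧ 0 < lor k := by
  unfold Fwd lor
  simp only [mem_ofPred_eq]
  have := norm_nonneg k.2
  constructor
  · intro h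
    exact ⟨by linarith, by nlinarith⟩
  · rintro ⟨h1, h2⟩
    nlinarith

theorem E_B_Fwd (u : R4) (hu : ‖u‖ = 1) (ch sh : ℝ) (hch : 0 < ch) (h : ch ^ 2 - sh ^ 2 = 1)
    (k : R5) : E_B u ch sh k ∈ Fwd ↔ k ∈ Fwd := by
  have hsh : |sh| < ch := by
    rw [← abs_of_pos hch]
    exact sq_lt_sq.1 (by linarith)
  have aux : ∀ (c s : ℝ) (x : R5), |s| < c → x ∈ Fwd → 0 < c * x.1 + s * inner ℝ u x.2 := by
    intro c s x hs hx
    have hx' : ‖x.2‖ < x.1 := hx
    have h1 : |inner ℝ u x.2| ≤ ‖x.2‖ := by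
      have := abs_real_inner_le_norm u x.2
      rwa [hu, one_mul] at this
    have h2 : |s * inner ℝ u x.2| ≤ |s| * ‖x.2‖ := by
      rw [abs_mul]
      exact mul_le_mul_of_nonneg_left h1 (abs_nonneg s)
    have h3 := neg_abs_le (s * inner ℝ u x.2)
    have h4 : 0 < c := lt_of_le_of_lt (abs_nonneg s) hs
    have h5 := norm_nonneg x.2
    have h6 : |s| * ‖x.2‖ ≤ c * ‖x.2‖ := mul_le_mul_of_nonneg_right hs.le h5
    have h7 : c * ‖x.2‖ < c * x.1 := mul_lt_mul_of_pos_left hx' h4
    linarith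
  have huu : inner ℝ u u = (1 : ℝ) := by rw [real_inner_self_eq_norm_sq, hu]; norm_num
  constructor
  · intro hk
    rw [E_mem_Fwd]
    have h1 := (E_mem_Fwd _).1 hk
    rw [E_B_lor u hu ch sh hch h] at h1
    refine ⟨?_, h1.2⟩
    have := aux ch (-sh) (E_B u ch sh k) (by rwa [abs_neg]) hk
    rw [E_B_eq u hu ch sh hch h] at this
    simp only [inner_add_right, inner_smul_right, huu, mul_one] at this
    have e : ch * (ch * k.1 + sh * inner ℝ u k.2) + -sh * (inner ℝ u k.2 + (sh * k.1 +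
      (ch - 1) * inner ℝ u k.2)) = k.1 := by
      linear_combination k.1 * h
    rwa [e] at this
  · intro hk
    rw [E_mem_Fwd, E_B_lor u hu ch sh hch h]
    refine ⟨?_, ((E_mem_Fwd k).1 hk).2⟩
    rw [E_B_eq u hu ch sh hch h]
    exact aux ch sh k hsh hk

/-- the Laplace transform at real points -/
theorem E_real (α : ℂ) (hα : -1 < α.re) (v : R5) (hv : v ∈ Fwd) :
    IntegrableOn (fun k : R5 => cexp (-((v.1 * k.1 + inner ℝ v.2 k.2 : ℝ) : ℂ)) *
      ((lor k : ℝ) : ℂ) ^ α) Fwd ∧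
    ∫ k in Fwd, cexp (-((v.1 * k.1 + inner ℝ v.2 k.2 : ℝ) : ℂ)) * ((lor k : ℝ) : ℂ) ^ α =
      (Real.pi ^ 2 * Complex.Gamma (2 * α + 5) / ((α + 1) * (α + 2))) *
        ((lor v : ℝ) : ℂ) ^ (-α - 5 / 2 : ℂ) := by
  obtain ⟨u, hu, hvu⟩ : ∃ u : R4, ‖u‖ = 1 ∧ v.2 = ‖v.2‖ • u := by
    by_cases h0 : v.2 = 0
    · refine ⟨EuclideanSpace.single 0 1, by simp, by rw [h0]; simp⟩
    · have hn : ‖v.2‖ ≠ 0 := norm_ne_zero_iff.2 h0
      refine ⟨‖v.2‖⁻¹ • v.2, ?_, ?_⟩
      · rw [norm_smul, norm_inv, norm_norm, inv_mul_cancel₀ hn]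
      · rw [smul_smul, mul_inv_cancel₀ hn, one_smul]
  have hL : 0 < lor v := ((E_mem_Fwd v).1 hv).2
  have hv1 : 0 < v.1 := ((E_mem_Fwd v).1 hv).1
  set m := √(lor v) with hm
  have hm0 : 0 < m := Real.sqrt_pos.2 hL
  have hm2 : m ^ 2 = lor v := Real.sq_sqrt hL.le
  have hch : 0 < v.1 / m := by positivity
  have hcs : (v.1 / m) ^ 2 - (‖v.2‖ / m) ^ 2 = 1 := by
    rw [div_pow, div_pow, ← sub_div, hm2]
    exact div_self hL.ne'
  have hax := E_axis α hα m hm0
  have hfun : ∀ k : R5, v.1 * k.1 + inner ℝ v.2 k.2 =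
      m * (E_B u (v.1 / m) (‖v.2‖ / m) k).1 := by
    intro k
    rw [E_B_eq u hu _ _ hch hcs]
    simp only
    have : inner ℝ v.2 k.2 = ‖v.2‖ * inner ℝ u k.2 := by
      conv_lhs => rw [hvu]
      rw [real_inner_smul_left]
    rw [this]
    field_simp
  set F : R5 → ℂ := Fwd.indicator
    (fun k : R5 => cexp (-((m * k.1 : ℝ) : ℂ)) * ((lor k : ℝ) : ℂ) ^ α) with hF
  have hFm : Measurable F := by
    refine Measurable.indicator (Measurable.mul ?_ ?_) E_Fwd_meas
    · exact (Complex.measurable_ofReal.comp (measurable_fst.const_mul m)).neg.cexp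
    · exact (Complex.measurable_ofReal.comp E_lor_meas).pow_const α
  have hcomp : Fwd.indicator (fun k : R5 => cexp (-((v.1 * k.1 + inner ℝ v.2 k.2 : ℝ) : ℂ)) *
      ((lor k : ℝ) : ℂ) ^ α) = F ∘ E_B u (v.1 / m) (‖v.2‖ / m) := by
    funext k
    simp only [Function.comp, hF]
    by_cases hk : k ∈ Fwd
    · rw [indicator_of_mem hk, indicator_of_mem ((E_B_Fwd u hu _ _ hch hcs k).2 hk), hfun,
        E_B_lor u hu _ _ hch hcs]
    · rw [indicator_of_notMem hk,
        indicator_of_notMem (fun h => hk ((E_B_Fwd u hu _ _ hch hcs k).1 h))]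
  have hmp := E_B_mp u (v.1 / m) (‖v.2‖ / m)
  constructor
  · rw [← integrable_indicator_iff E_Fwd_meas, hcomp]
    exact (hmp.integrable_comp hFm.aestronglyMeasurable).2
      ((integrable_indicator_iff E_Fwd_meas).2 hax.1)
  · rw [← integral_indicator E_Fwd_meas, hcomp]
    have h1 : ∫ k, (F ∘ E_B u (v.1 / m) (‖v.2‖ / m)) k = ∫ k, F k := by
      have := integral_map hmp.measurable.aemeasurable (f := F) (by
        rw [hmp.map_eq]; exact hFm.aestronglyMeasurable)
      rw [hmp.map_eq] at this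
      exact this.symm
    rw [h1, hF, integral_indicator E_Fwd_meas, hax.2]
    congr 1
    have hL0 : ((lor v : ℝ) : ℂ) ≠ 0 := by exact_mod_cast hL.ne'
    have hm00 : (m : ℂ) ≠ 0 := by exact_mod_cast hm0.ne'
    rw [cpow_def_of_ne_zero hm00, cpow_def_of_ne_zero hL0, ← Complex.ofReal_log hm0.le,
      ← Complex.ofReal_log hL.le, hm, Real.log_sqrt hL.le]
    congr 1
    push_cast
    ring

end Pool.Agent.Cone
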