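import Mathlib
import Pool.Agent.Work.MP_b0b133_an.ELap2

set_option autoImplicit false
open MeasureTheory Complex Set
open scoped ENNReal ComplexConjugate

namespace Pool.Agent.Cone

/-! ### Holomorphic dependence -/

/-- a complex number in the disc of radius `r` which makes `exp` of the product large -/
theorem E_dir (l : ℂ) (r : ℝ) (hr : 0 < r) : ∃ d : ℂ, ‖d‖ ≤ r ∧ (d * l).re = r * ‖l‖ := by
  by_cases hl : l = 0
  · exact ⟨0, by simpa using hr.le, by simp [hl]⟩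
  · have hn : ‖l‖ ≠ 0 := norm_ne_zero_iff.2 hl
    refine ⟨(r / ‖l‖ : ℝ) * conj l, ?_, ?_⟩
    · rw [norm_mul, RCLike.norm_conj, Complex.norm_real, Real.norm_of_nonneg (by positivity),
        div_mul_cancel₀ _ hn]
    · rw [mul_assoc, Complex.conj_mul', ← Complex.ofReal_pow, ← Complex.ofReal_mul,
        Complex.ofReal_re]
      field_simp

theorem E_param {β : Type*} [MeasurableSpace β] (ν : Measure β) (g l : β → ℂ) (bd : β → ℝ)
    (z0 : ℂ) (r : ℝ) (hr : 0 < r) (hg : AEStronglyMeasurable g ν)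
    (hl : AEStronglyMeasurable l ν) (hbd : Integrable bd ν)
    (h : ∀ᵐ a ∂ν, ∀ z : ℂ, ‖z - z0‖ < 2 * r → ‖g a * cexp (z * l a)‖ ≤ bd a) :
    DifferentiableAt ℂ (fun z => ∫ a, g a * cexp (z * l a) ∂ν) z0 := by
  have hmeas : ∀ z : ℂ, AEStronglyMeasurable (fun a => g a * cexp (z * l a)) ν := fun z =>
    hg.mul (Complex.continuous_exp.comp_aestronglyMeasurable (hl.const_mul z))
  have hint : Integrable (fun a => g a * cexp (z0 * l a)) ν := by
    refine hbd.mono' (hmeas z0) ?_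
    filter_upwards [h] with a ha
    exact ha z0 (by simpa using hr)
  have := (hasDerivAt_integral_of_dominated_loc_of_deriv_le (μ := ν)
    (F := fun z a => g a * cexp (z * l a)) (F' := fun z a => g a * (l a * cexp (z * l a)))
    (x₀ := z0) (s := Metric.ball z0 r) (bound := fun a => bd a / r)
    (Metric.ball_mem_nhds z0 hr) (Filter.Eventually.of_forall hmeas) hint
    (hg.mul (hl.mul (Complex.continuous_exp.comp_aestronglyMeasurable (hl.const_mul z0))))
    ?_ (hbd.div_const r) ?_).2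
  · exact this.differentiableAt
  · filter_upwards [h] with a ha z hz
    rw [Metric.mem_ball, dist_eq_norm] at hz
    obtain ⟨d, hd, hd2⟩ := E_dir (l a) r hr
    have h1 := ha (z + d) (by
      calc ‖z + d - z0‖ = ‖(z - z0) + d‖ := by ring_nf
        _ ≤ ‖z - z0‖ + ‖d‖ := norm_add_le _ _
        _ < 2 * r := by linarith)
    have h2 : ‖cexp ((z + d) * l a)‖ = ‖cexp (z * l a)‖ * Real.exp (r * ‖l a‖) := by
      rw [add_mul, Complex.exp_add, norm_mul, Complex.norm_exp (d * l a), hd2]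
    rw [norm_mul, h2] at h1
    have h3 : r * ‖l a‖ ≤ Real.exp (r * ‖l a‖) := by
      have := Real.add_one_le_exp (r * ‖l a‖)
      linarith
    rw [le_div_iff₀ hr, norm_mul, norm_mul]
    calc ‖g a‖ * (‖l a‖ * ‖cexp (z * l a)‖) * r = ‖g a‖ * (‖cexp (z * l a)‖ * (r * ‖l a‖)) := by
          ring
      _ ≤ ‖g a‖ * (‖cexp (z * l a)‖ * Real.exp (r * ‖l a‖)) := by gcongr
      _ ≤ bd a := h1
  · filter_upwards with a z hz
    have h1 : HasDerivAt (fun z : ℂ => z * l a) (l a) z := by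
      simpa using (hasDerivAt_id z).mul_const (l a)
    have h2 := (h1.cexp).const_mul (g a)
    rw [mul_comm (cexp (z * l a)) (l a)] at h2
    exact h2

/-! ### Continuation -/

theorem E_slit (u v : R5) (hv : v ∈ Fwd) : qf u v ∈ slitPlane := by
  rw [mem_slitPlane_iff]
  by_cases him : (qf u v).im = 0
  · left
    have hv' : ‖v.2‖ < v.1 := hv
    have hv1 : 0 < v.1 := lt_of_le_of_lt (norm_nonneg _) hv'
    have e1 : (qf u v).im = 2 * (u.1 * v.1 - inner ℝ u.2 v.2) := by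
      unfold qf
      rw [Complex.add_im, Complex.ofReal_im, zero_add, Complex.mul_im, Complex.ofReal_im,
        Complex.ofReal_re, mul_zero, zero_add]
      simp
    have e2 : (qf u v).re = ‖u.2‖ ^ 2 - ‖v.2‖ ^ 2 - u.1 ^ 2 + v.1 ^ 2 := by
      unfold qf
      rw [Complex.add_re, Complex.ofReal_re, Complex.mul_re, Complex.ofReal_im,
        Complex.ofReal_re, mul_zero, sub_zero]
      simp
    rw [e1] at him
    rw [e2]
    have h1 : u.1 * v.1 = inner ℝ u.2 v.2 := by linarith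
    have h2 : |u.1| * v.1 ≤ ‖u.2‖ * ‖v.2‖ := by
      have := abs_real_inner_le_norm u.2 v.2
      rwa [← h1, abs_mul, abs_of_pos hv1] at this
    have h3 : |u.1| ≤ ‖u.2‖ := by
      by_contra hc
      push Not at hc
      have h4 : ‖u.2‖ * ‖v.2‖ ≤ ‖u.2‖ * v.1 := by gcongr
      have h5 : ‖u.2‖ * v.1 < |u.1| * v.1 := by gcongr
      linarith
    have h6 : u.1 ^ 2 ≤ ‖u.2‖ ^ 2 := by
      rw [← sq_abs u.1]
      gcongr
    have h7 : ‖v.2‖ ^ 2 < v.1 ^ 2 := by gcongr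
    linarith
  · right; exact him

/-- the quadratic polynomial `lor (v + z u)` -/
noncomputable def E_Q (u v : R5) (z : ℂ) : ℂ :=
  (lor v : ℂ) + 2 * z * ((v.1 * u.1 - inner ℝ v.2 u.2 : ℝ) : ℂ) + z ^ 2 * (lor u : ℂ)

theorem E_Q_eq (u v : R5) (z : ℂ) : E_Q u v z = qf (z.im • u) (v + z.re • u) := by
  have hz : z = z.re + z.im * I := (Complex.re_add_im z).symm
  unfold E_Q qf lor
  simp only [Prod.smul_fst, Prod.smul_snd, Prod.fst_add, Prod.snd_add, smul_eq_mul]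
  have e1 : ‖v.2 + z.re • u.2‖ ^ 2 = ‖v.2‖ ^ 2 + 2 * z.re * inner ℝ v.2 u.2 +
      z.re ^ 2 * ‖u.2‖ ^ 2 := by
    rw [norm_add_sq_real, real_inner_smul_right, norm_smul, mul_pow, Real.norm_eq_abs, sq_abs]
    ring
  have e2 : ‖z.im • u.2‖ ^ 2 = z.im ^ 2 * ‖u.2‖ ^ 2 := by
    rw [norm_smul, mul_pow, Real.norm_eq_abs, sq_abs]
  have e3 : inner ℝ (z.im • u.2) (v.2 + z.re • u.2) = z.im * (inner ℝ v.2 u.2 +
      z.re * ‖u.2‖ ^ 2) := by
    rw [real_inner_smul_left, inner_add_right, real_inner_smul_right, real_inner_self_eq_norm_sq,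
      real_inner_comm]
  rw [e1, e2, e3]
  conv_lhs => rw [hz]
  push_cast
  ring_nf
  simp only [I_sq]
  ring

theorem E_Q_I (u v : R5) : E_Q u v I = qf u v := by
  rw [E_Q_eq]
  simp

theorem E_exp_bound (u v : R5) (δ η : ℝ) (hvη : 2 * η ≤ v.1 - ‖v.2‖)
    (hδ : δ * (|u.1| + ‖u.2‖) ≤ η) (x : ℝ) (hx : |x| < δ) (k : R5) (hk : k ∈ Fwd) :
    -(v.1 * k.1 + inner ℝ v.2 k.2) - x * (u.1 * k.1 + inner ℝ u.2 k.2) ≤ -(η * k.1) := by
  have hk' : ‖k.2‖ < k.1 := hk
  have hk0 : 0 < k.1 := lt_of_le_of_lt (norm_nonneg _) hk'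
  have h1 : |inner ℝ v.2 k.2| ≤ ‖v.2‖ * k.1 :=
    (abs_real_inner_le_norm _ _).trans (mul_le_mul_of_nonneg_left hk'.le (norm_nonneg _))
  have h2 : |inner ℝ u.2 k.2| ≤ ‖u.2‖ * k.1 :=
    (abs_real_inner_le_norm _ _).trans (mul_le_mul_of_nonneg_left hk'.le (norm_nonneg _))
  have h3 : |u.1 * k.1 + inner ℝ u.2 k.2| ≤ (|u.1| + ‖u.2‖) * k.1 := by
    calc |u.1 * k.1 + inner ℝ u.2 k.2| ≤ |u.1 * k.1| + |inner ℝ u.2 k.2| := abs_add_le _ _
      _ ≤ |u.1| * k.1 + ‖u.2‖ * k.1 := by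
        rw [abs_mul, abs_of_pos hk0]
        linarith
      _ = _ := by ring
  have h4 : |x * (u.1 * k.1 + inner ℝ u.2 k.2)| ≤ η * k.1 := by
    rw [abs_mul]
    calc |x| * |u.1 * k.1 + inner ℝ u.2 k.2| ≤ δ * ((|u.1| + ‖u.2‖) * k.1) :=
          mul_le_mul hx.le h3 (abs_nonneg _) (by linarith [abs_nonneg x])
      _ = (δ * (|u.1| + ‖u.2‖)) * k.1 := by ring
      _ ≤ η * k.1 := by gcongr
  have h5 := neg_abs_le (inner ℝ v.2 k.2)
  have h6 := neg_abs_le (x * (u.1 * k.1 + inner ℝ u.2 k.2))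
  nlinarith

theorem E_add_mem (u v : R5) (δ η : ℝ) (hη : 0 < η) (hvη : 2 * η ≤ v.1 - ‖v.2‖)
    (hδ : δ * (|u.1| + ‖u.2‖) ≤ η) (x : ℝ) (hx : |x| < δ) : v + x • u ∈ Fwd := by
  show ‖v.2 + x • u.2‖ < v.1 + x * u.1
  have h1 : ‖v.2 + x • u.2‖ ≤ ‖v.2‖ + |x| * ‖u.2‖ := by
    calc _ ≤ ‖v.2‖ + ‖x • u.2‖ := norm_add_le _ _
      _ = _ := by rw [norm_smul, Real.norm_eq_abs]
  have h2 : |x| * (|u.1| + ‖u.2‖) ≤ η := by
    refine le_trans ?_ hδ
    exact mul_le_mul_of_nonneg_right hx.le (by positivity)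
  have h3 := neg_abs_le (x * u.1)
  rw [abs_mul] at h3
  nlinarith

theorem laplace_cone (α : ℂ) (hα : -1 < α.re) (v u : R5) (hv : v ∈ Fwd) :
    IntegrableOn (fun k : R5 => cexp (-((v.1 * k.1 + inner ℝ v.2 k.2 : ℝ) +
      I * (u.1 * k.1 + inner ℝ u.2 k.2 : ℝ))) * ((lor k : ℝ) : ℂ) ^ α) Fwd volume ∧
    ∫ k in Fwd, cexp (-((v.1 * k.1 + inner ℝ v.2 k.2 : ℝ) +
      I * (u.1 * k.1 + inner ℝ u.2 k.2 : ℝ))) * ((lor k : ℝ) : ℂ) ^ α =
    (Real.pi ^ 2 * Complex.Gamma (2 * α + 5) / ((α + 1) * (α + 2))) *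
      (qf u v) ^ (-α - 5 / 2 : ℂ) := by
  have hv' : ‖v.2‖ < v.1 := hv
  set η := (v.1 - ‖v.2‖) / 2 with hη
  have hη0 : 0 < η := by rw [hη]; linarith
  have hvη : 2 * η ≤ v.1 - ‖v.2‖ := by rw [hη]; linarith
  set δ := η / (|u.1| + ‖u.2‖ + 1) with hδdef
  have hden : 0 < |u.1| + ‖u.2‖ + 1 := by positivity
  have hδ0 : 0 < δ := by positivity
  have hδ : δ * (|u.1| + ‖u.2‖) ≤ η := by
    have : δ * (|u.1| + ‖u.2‖ + 1) = η := by
      rw [hδdef]; field_simp
    nlinarith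
  set g : R5 → ℂ := fun k => cexp (-((v.1 * k.1 + inner ℝ v.2 k.2 : ℝ) : ℂ)) *
    ((lor k : ℝ) : ℂ) ^ α with hg
  set l : R5 → ℂ := fun k => -((u.1 * k.1 + inner ℝ u.2 k.2 : ℝ) : ℂ) with hl
  set bd : R5 → ℝ := fun k => ‖cexp (-((η * k.1 : ℝ) : ℂ)) * ((lor k : ℝ) : ℂ) ^ α‖ with hbd
  have hbdint : Integrable bd (volume.restrict Fwd) := (E_axis α hα η hη0).1.norm
  have hlin : ∀ w : R5, Measurable fun k : R5 => (w.1 * k.1 + inner ℝ w.2 k.2 : ℝ) := fun w =>
    (measurable_fst.const_mul _).add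
      ((continuous_const.inner continuous_id).measurable.comp measurable_snd)
  have hgm : Measurable g := (Complex.measurable_ofReal.comp (hlin v)).neg.cexp.mul
    ((Complex.measurable_ofReal.comp E_lor_meas).pow_const α)
  have hlm : Measurable l := (Complex.measurable_ofReal.comp (hlin u)).neg
  have hbound : ∀ z : ℂ, |z.re| < δ → ∀ k ∈ Fwd, ‖g k * cexp (z * l k)‖ ≤ bd k := by
    intro z hz k hk
    simp only [hg, hl, hbd]
    rw [norm_mul, norm_mul, norm_mul, Complex.norm_exp, Complex.norm_exp, Complex.norm_exp]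
    have e1 : (-((v.1 * k.1 + inner ℝ v.2 k.2 : ℝ) : ℂ)).re =
        -(v.1 * k.1 + inner ℝ v.2 k.2) := by rw [Complex.neg_re, Complex.ofReal_re]
    have e2 : (z * -((u.1 * k.1 + inner ℝ u.2 k.2 : ℝ) : ℂ)).re =
        -(z.re * (u.1 * k.1 + inner ℝ u.2 k.2)) := by
      rw [mul_neg, Complex.neg_re, Complex.re_mul_ofReal]
    have e3 : (-((η * k.1 : ℝ) : ℂ)).re = -(η * k.1) := by
      rw [Complex.neg_re, Complex.ofReal_re]
    rw [e1, e2, e3]
    have h1 := E_exp_bound u v δ η hvη hδ z.re hz k hk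
    have h2 : Real.exp (-(v.1 * k.1 + inner ℝ v.2 k.2)) *
        Real.exp (-(z.re * (u.1 * k.1 + inner ℝ u.2 k.2))) ≤ Real.exp (-(η * k.1)) := by
      rw [← Real.exp_add]
      exact Real.exp_le_exp.2 (by linarith)
    calc Real.exp (-(v.1 * k.1 + inner ℝ v.2 k.2)) * ‖((lor k : ℝ) : ℂ) ^ α‖ *
          Real.exp (-(z.re * (u.1 * k.1 + inner ℝ u.2 k.2))) =
        (Real.exp (-(v.1 * k.1 + inner ℝ v.2 k.2)) *
          Real.exp (-(z.re * (u.1 * k.1 + inner ℝ u.2 k.2)))) * ‖((lor k : ℝ) : ℂ) ^ α‖ := by ring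
      _ ≤ _ := mul_le_mul_of_nonneg_right h2 (norm_nonneg _)
  have hbound' : ∀ z : ℂ, |z.re| < δ → ∀ᵐ k ∂(volume.restrict Fwd),
      ‖g k * cexp (z * l k)‖ ≤ bd k := by
    intro z hz
    filter_upwards [ae_restrict_mem E_Fwd_meas] with k hk
    exact hbound z hz k hk
  set U : Set ℂ := {z | |z.re| < δ} with hU
  have hUo : IsOpen U := isOpen_lt (continuous_abs.comp Complex.continuous_re) continuous_const
  have hUc : IsPreconnected U := by
    have : U = Complex.reCLM ⁻¹' (Ioo (-δ) δ) := by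
      ext z; simp [hU, abs_lt]
    rw [this]
    exact ((convex_Ioo (-δ) δ).linear_preimage Complex.reCLM.toLinearMap).isPreconnected
  have hΦ : AnalyticOnNhd ℂ (fun z => ∫ k in Fwd, g k * cexp (z * l k)) U := by
    refine DifferentiableOn.analyticOnNhd (fun z0 hz0 => ?_) hUo
    refine DifferentiableAt.differentiableWithinAt ?_
    have hz0' : |z0.re| < δ := hz0
    refine E_param (volume.restrict Fwd) g l bd z0 ((δ - |z0.re|) / 2) (by linarith)
      hgm.aestronglyMeasurable hlm.aestronglyMeasurable hbdint ?_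
    filter_upwards [ae_restrict_mem E_Fwd_meas] with k hk z hz
    refine hbound z ?_ k hk
    have h1 : |(z - z0).re| ≤ ‖z - z0‖ := Complex.abs_re_le_norm _
    have h2 : |z.re| ≤ |z0.re| + |(z - z0).re| := by
      have : z.re = z0.re + (z - z0).re := by simp
      rw [this]
      exact abs_add_le _ _
    linarith
  have hΨ : AnalyticOnNhd ℂ (fun z => (Real.pi ^ 2 * Complex.Gamma (2 * α + 5) /
      ((α + 1) * (α + 2))) * (E_Q u v z) ^ (-α - 5 / 2 : ℂ)) U := by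
    refine DifferentiableOn.analyticOnNhd (fun z hz => ?_) hUo
    refine DifferentiableAt.differentiableWithinAt ?_
    refine DifferentiableAt.const_mul ?_ _
    have hQ : DifferentiableAt ℂ (E_Q u v) z := by
      unfold E_Q
      fun_prop
    refine hQ.cpow_const ?_
    rw [E_Q_eq]
    exact E_slit _ _ (E_add_mem u v δ η hη0 hvη hδ z.re hz)
  have hreal : ∀ x : ℝ, |x| < δ → ∫ k in Fwd, g k * cexp ((x : ℂ) * l k) =
      (Real.pi ^ 2 * Complex.Gamma (2 * α + 5) / ((α + 1) * (α + 2))) *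
        (E_Q u v x) ^ (-α - 5 / 2 : ℂ) := by
    intro x hx
    have h := (E_real α hα (v + x • u) (E_add_mem u v δ η hη0 hvη hδ x hx)).2
    have eQ : E_Q u v x = ((lor (v + x • u) : ℝ) : ℂ) := by
      rw [E_Q_eq]
      unfold qf lor
      simp only [Complex.ofReal_im, Complex.ofReal_re, zero_smul, Prod.fst_zero, Prod.snd_zero,
        norm_zero, inner_zero_left]
      push_cast
      ring
    rw [eQ, ← h]
    refine integral_congr_ae (Filter.Eventually.of_forall fun k => ?_)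
    simp only [hg, hl, Prod.fst_add, Prod.snd_add, Prod.smul_fst, Prod.smul_snd, smul_eq_mul]
    rw [inner_add_left, real_inner_smul_left, mul_right_comm, ← Complex.exp_add]
    congr 2
    push_cast
    ring
  have hI : (I : ℂ) ∈ U := by simp [hU, hδ0]
  have h0 : (0 : ℂ) ∈ U := by simp [hU, hδ0]
  have hfreq : ∃ᶠ z in nhdsWithin (0 : ℂ) {0}ᶜ, (∫ k in Fwd, g k * cexp (z * l k)) =
      (Real.pi ^ 2 * Complex.Gamma (2 * α + 5) / ((α + 1) * (α + 2))) *
        (E_Q u v z) ^ (-α - 5 / 2 : ℂ) := by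
    have ht : Filter.Tendsto (fun x : ℝ => (x : ℂ)) (nhdsWithin 0 {0}ᶜ) (nhdsWithin 0 {0}ᶜ) := by
      refine tendsto_nhdsWithin_iff.2 ⟨?_, ?_⟩
      · have : Filter.Tendsto (fun x : ℝ => (x : ℂ)) (nhds 0) (nhds ((0 : ℝ) : ℂ)) :=
          Complex.continuous_ofReal.tendsto 0
        rw [Complex.ofReal_zero] at this
        exact this.mono_left nhdsWithin_le_nhds
      · filter_upwards [self_mem_nhdsWithin] with x hx
        simpa using hx
    refine ht.frequently (Filter.Eventually.frequently ?_)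
    have : ∀ᶠ x : ℝ in nhds 0, |x| < δ := by
      have := (continuous_abs (G := ℝ)).tendsto 0
      rw [abs_zero] at this
      exact this.eventually (gt_mem_nhds hδ0)
    filter_upwards [this.filter_mono nhdsWithin_le_nhds] with x hx
    exact hreal x hx
  have heq := hΦ.eqOn_of_preconnected_of_frequently_eq hΨ hUc h0 hfreq hI
  simp only [E_Q_I] at heq
  have hcongr : ∀ k : R5, cexp (-((v.1 * k.1 + inner ℝ v.2 k.2 : ℝ) +
      I * (u.1 * k.1 + inner ℝ u.2 k.2 : ℝ))) * ((lor k : ℝ) : ℂ) ^ α =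
      g k * cexp (I * l k) := by
    intro k
    simp only [hg, hl]
    rw [mul_right_comm, ← Complex.exp_add]
    congr 2
    ring
  constructor
  · simp only [hcongr]
    refine Integrable.mono' hbdint ?_ (hbound' I (by simpa using hδ0))
    exact (hgm.mul (hlm.const_mul I).cexp).aestronglyMeasurable
  · simp only [hcongr]
    exact heq

end Pool.Agent.Cone
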