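import Mathlib
import Pool.Agent.Work.MP_b0b133_an.ELap

set_option autoImplicit false
open MeasureTheory Complex Set
open scoped ENNReal ComplexConjugate

namespace Pool.Agent.Cone

/-! ### The kernel -/

/-- the kernel variable -/
noncomputable def E_w (ε : ℝ) (p : R5 × R5) : ℂ := qf (p.1 - p.2) (ε, 0)

theorem E_qf_eq (u : R5) (ε : ℝ) : qf u (ε, 0) =
    ((‖u.2‖ ^ 2 - u.1 ^ 2 + ε ^ 2 : ℝ) : ℂ) + ((2 * u.1 * ε : ℝ) : ℂ) * I := by
  unfold qf
  simp only [norm_zero, inner_zero_right]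
  push_cast
  ring

theorem E_qf_re (u : R5) (ε : ℝ) : (qf u (ε, 0)).re = ‖u.2‖ ^ 2 - u.1 ^ 2 + ε ^ 2 := by
  rw [E_qf_eq, Complex.add_re, Complex.ofReal_re, Complex.re_ofReal_mul, Complex.I_re, mul_zero,
    add_zero]

theorem E_qf_im (u : R5) (ε : ℝ) : (qf u (ε, 0)).im = 2 * u.1 * ε := by
  rw [E_qf_eq, Complex.add_im, Complex.ofReal_im, Complex.im_ofReal_mul, Complex.I_im, mul_one,
    zero_add]

theorem E_qf_lower (u : R5) (ε : ℝ) : ε ^ 2 ≤ ‖qf u (ε, 0)‖ := by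
  have h : (ε ^ 2) ^ 2 ≤ ‖qf u (ε, 0)‖ ^ 2 := by
    rw [← Complex.normSq_eq_norm_sq, Complex.normSq_apply, E_qf_re, E_qf_im]
    nlinarith [sq_nonneg (‖u.2‖ ^ 2 - u.1 ^ 2), sq_nonneg (ε * u.1), sq_nonneg (ε * ‖u.2‖)]
  exact le_of_sq_le_sq h (norm_nonneg _)

theorem E_qf_upper (u : R5) (ε : ℝ) : ‖qf u (ε, 0)‖ ≤ ‖u.2‖ ^ 2 + u.1 ^ 2 + ε ^ 2 +
    2 * |u.1| * |ε| := by
  rw [E_qf_eq]
  refine (norm_add_le _ _).trans ?_
  rw [norm_mul, Complex.norm_I, mul_one, Complex.norm_real, Complex.norm_real, Real.norm_eq_abs,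
    Real.norm_eq_abs, abs_mul, abs_mul, abs_two]
  have : |‖u.2‖ ^ 2 - u.1 ^ 2 + ε ^ 2| ≤ ‖u.2‖ ^ 2 + u.1 ^ 2 + ε ^ 2 := by
    rw [abs_le]
    constructor <;> nlinarith [sq_nonneg (‖u.2‖), sq_nonneg u.1, sq_nonneg ε]
  linarith

theorem E_qf_meas (ε : ℝ) : Measurable fun u : R5 => qf u (ε, 0) := by
  simp only [E_qf_eq]
  refine Measurable.add ?_ (Measurable.mul_const ?_ _)
  · exact Complex.measurable_ofReal.comp
      (((measurable_snd.norm.pow_const 2).sub (measurable_fst.pow_const 2)).add_const _)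
  · exact Complex.measurable_ofReal.comp ((measurable_fst.const_mul 2).mul_const ε)

theorem E_w_meas (ε : ℝ) : Measurable (E_w ε) :=
  (E_qf_meas ε).comp (measurable_fst.sub measurable_snd)

theorem E_w_ne (ε : ℝ) (hε : 0 < ε) (p : R5 × R5) : E_w ε p ≠ 0 := by
  have := E_qf_lower (p.1 - p.2) ε
  intro h
  unfold E_w at h
  rw [h, norm_zero] at this
  nlinarith

theorem E_norm_cpow_le (w : ℂ) (hw : w ≠ 0) (W : ℝ) (hW : 1 ≤ W) (h1 : ‖w‖ ≤ W)
    (h2 : W⁻¹ ≤ ‖w‖) (z : ℂ) (hz : |z.re| ≤ 3) :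
    ‖w ^ (-z)‖ ≤ W ^ 3 * Real.exp (Real.pi * |z.im|) := by
  have hw0 : 0 < ‖w‖ := norm_pos_iff.2 hw
  rw [Complex.norm_cpow_of_ne_zero hw]
  have e1 : Real.exp (Complex.arg w * (-z).im) ≥ Real.exp (-(Real.pi * |z.im|)) := by
    apply Real.exp_le_exp.2
    have h3 : |Complex.arg w * (-z).im| ≤ Real.pi * |z.im| := by
      rw [abs_mul, Complex.neg_im, abs_neg]
      exact mul_le_mul_of_nonneg_right (Complex.abs_arg_le_pi w) (abs_nonneg _)
    have := neg_abs_le (Complex.arg w * (-z).im)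
    linarith
  have e2 : ‖w‖ ^ (-z).re ≤ W ^ 3 := by
    have hW0 : 0 < W := by linarith
    have hlog : |Real.log ‖w‖| ≤ Real.log W := by
      rw [abs_le]
      constructor
      · have := Real.log_le_log (by positivity) h2
        rw [Real.log_inv] at this
        exact this
      · exact Real.log_le_log hw0 h1
    have hW3 : W ^ 3 = Real.exp (Real.log W * 3) := by
      rw [← Real.rpow_natCast W 3, Real.rpow_def_of_pos hW0]
      norm_num
    rw [Real.rpow_def_of_pos hw0, hW3]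
    apply Real.exp_le_exp.2
    have h4 : |Real.log ‖w‖ * (-z).re| ≤ Real.log W * 3 := by
      rw [abs_mul, Complex.neg_re, abs_neg]
      exact mul_le_mul hlog hz (abs_nonneg _) (Real.log_nonneg hW)
    exact (le_abs_self _).trans h4
  rw [div_le_iff₀ (Real.exp_pos _)]
  calc ‖w‖ ^ (-z).re ≤ W ^ 3 := e2
    _ = W ^ 3 * Real.exp (Real.pi * |z.im|) * Real.exp (-(Real.pi * |z.im|)) := by
      rw [mul_assoc, ← Real.exp_add]; simp
    _ ≤ _ := by gcongr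

/-! ### The analytic family -/

/-- `|G|^{(10 - 2 z) / 7} sgn G` -/
noncomputable def E_G (G : R5 → ℂ) (z : ℂ) (b : R5) : ℂ :=
  cexp ((10 / 7 - 2 / 7 * z) * (Real.log ‖G b‖ : ℂ)) * (G b / (‖G b‖ : ℂ))

theorem E_G_norm (G : R5 → ℂ) (z : ℂ) (b : R5) (hz : 0 < 10 / 7 - 2 / 7 * z.re) :
    ‖E_G G z b‖ = ‖G b‖ ^ (10 / 7 - 2 / 7 * z.re) := by
  unfold E_G
  by_cases h : G b = 0
  · rw [h]
    simp only [norm_zero, Complex.ofReal_zero, div_zero, mul_zero]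
    rw [Real.zero_rpow hz.ne']
  · have hn : 0 < ‖G b‖ := norm_pos_iff.2 h
    rw [norm_mul, norm_div, Complex.norm_real, norm_norm, div_self hn.ne', mul_one,
      Complex.norm_exp, Complex.re_mul_ofReal, Real.rpow_def_of_pos hn]
    congr 1
    simp
    ring

theorem E_G_one (G : R5 → ℂ) (b : R5) : E_G G (3 / 2) b = G b := by
  unfold E_G
  by_cases h : G b = 0
  · rw [h]; simp
  · have hn : 0 < ‖G b‖ := norm_pos_iff.2 h
    have hn' : (‖G b‖ : ℂ) ≠ 0 := by exact_mod_cast hn.ne'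
    have : (10 / 7 - 2 / 7 * (3 / 2) : ℂ) = 1 := by norm_num
    rw [this, one_mul, ← Complex.ofReal_exp, Real.exp_log hn, mul_div_cancel₀ _ hn']

theorem E_G_meas (G : R5 → ℂ) (hG : Measurable G) (z : ℂ) : Measurable (E_G G z) := by
  unfold E_G
  refine Measurable.mul ?_ (hG.div (Complex.measurable_ofReal.comp hG.norm))
  exact ((Complex.measurable_ofReal.comp (Real.measurable_log.comp hG.norm)).const_mul _).cexp

theorem E_G_zero (G : R5 → ℂ) (z : ℂ) (b : R5) (h : G b = 0) : E_G G z b = 0 := by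
  unfold E_G; rw [h]; simp

/-- the base function of the family -/
noncomputable def E_gg (G H : R5 → ℂ) (p : R5 × R5) : ℂ :=
  cexp (10 / 7 * ((Real.log ‖G p.2‖ + Real.log ‖H p.1‖ : ℝ) : ℂ)) *
    ((G p.2 / (‖G p.2‖ : ℂ)) * (H p.1 / (‖H p.1‖ : ℂ)))

/-- the exponent of the family -/
noncomputable def E_lam (ε : ℝ) (G H : R5 → ℂ) (p : R5 × R5) : ℂ :=
  -(2 / 7) * ((Real.log ‖G p.2‖ + Real.log ‖H p.1‖ : ℝ) : ℂ) - Complex.log (E_w ε p)

theorem E_family (ε : ℝ) (hε : 0 < ε) (G H : R5 → ℂ) (z : ℂ) (p : R5 × R5) :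
    E_gg G H p * cexp (z * E_lam ε G H p) = E_w ε p ^ (-z) * E_G G z p.2 * E_G H z p.1 := by
  unfold E_gg E_lam E_G
  rw [cpow_def_of_ne_zero (E_w_ne ε hε p)]
  have : cexp (Complex.log (E_w ε p) * -z) *
      (cexp ((10 / 7 - 2 / 7 * z) * (Real.log ‖G p.2‖ : ℂ)) * (G p.2 / (‖G p.2‖ : ℂ))) *
      (cexp ((10 / 7 - 2 / 7 * z) * (Real.log ‖H p.1‖ : ℂ)) * (H p.1 / (‖H p.1‖ : ℂ))) =
      (cexp (Complex.log (E_w ε p) * -z) * cexp ((10 / 7 - 2 / 7 * z) * (Real.log ‖G p.2‖ : ℂ)) *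
      cexp ((10 / 7 - 2 / 7 * z) * (Real.log ‖H p.1‖ : ℂ))) *
      ((G p.2 / (‖G p.2‖ : ℂ)) * (H p.1 / (‖H p.1‖ : ℂ))) := by ring
  rw [this, ← Complex.exp_add, ← Complex.exp_add, mul_right_comm, ← Complex.exp_add]
  congr 2
  push_cast
  ring

end Pool.Agent.Cone
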