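import Mathlib
import Pool.Agent.Work.MP_b0b133_an.EKer

set_option autoImplicit false
open MeasureTheory Complex Set
open scoped ENNReal ComplexConjugate

namespace Pool.Agent.Cone

/-- the box that carries the bilinear form -/
def E_box (M : ℝ) : Set (R5 × R5) := Metric.closedBall 0 M ×ˢ Metric.closedBall 0 M

theorem E_box_meas (M : ℝ) : MeasurableSet (E_box M) :=
  measurableSet_closedBall.prod measurableSet_closedBall

theorem E_box_fin (M : ℝ) : volume (E_box M) < ∞ := by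
  unfold E_box
  rw [Measure.volume_eq_prod, Measure.prod_prod]
  exact ENNReal.mul_lt_top measure_closedBall_lt_top measure_closedBall_lt_top

theorem E_rpow_le (x M a : ℝ) (hx : 0 ≤ x) (hxM : x ≤ M) (hM : 1 ≤ M) (ha : 0 ≤ a)
    (ha2 : a ≤ 2) : x ^ a ≤ M ^ 2 := by
  calc x ^ a ≤ M ^ a := Real.rpow_le_rpow hx hxM ha
    _ ≤ M ^ (2 : ℝ) := Real.rpow_le_rpow_of_exponent_le hM ha2
    _ = M ^ 2 := by exact_mod_cast Real.rpow_natCast M 2

theorem E_w_bd (ε : ℝ) (hε : 0 < ε) (M : ℝ) : ∃ W : ℝ, 1 ≤ W ∧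
    ∀ p ∈ E_box M, ‖E_w ε p‖ ≤ W ∧ W⁻¹ ≤ ‖E_w ε p‖ := by
  refine ⟨max (8 * M ^ 2 + ε ^ 2 + 4 * M * ε) (max 1 (ε ^ 2)⁻¹), ?_, ?_⟩
  · exact (le_max_left 1 _).trans (le_max_right _ _)
  · rintro ⟨a, b⟩ hp
    have ha : ‖a‖ ≤ M := by simpa using hp.1
    have hb : ‖b‖ ≤ M := by simpa using hp.2
    have hab : ‖a - b‖ ≤ 2 * M := (norm_sub_le a b).trans (by linarith)
    have h1 : |(a - b).1| ≤ 2 * M := by
      rw [← Real.norm_eq_abs]; exact (norm_fst_le _).trans hab
    have h2 : ‖(a - b).2‖ ≤ 2 * M := (norm_snd_le _).trans hab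
    constructor
    · refine le_trans ?_ (le_max_left _ _)
      unfold E_w
      refine (E_qf_upper (a - b) ε).trans ?_
      have h3 : ‖(a - b).2‖ ^ 2 ≤ (2 * M) ^ 2 := by gcongr
      have h4 : (a - b).1 ^ 2 ≤ (2 * M) ^ 2 := by rw [← sq_abs]; gcongr
      have h5 : |(a - b).1| * ε ≤ 2 * M * ε := by gcongr
      rw [abs_of_pos hε]
      nlinarith
    · refine le_trans ?_ (E_qf_lower (a - b) ε)
      refine inv_le_of_inv_le₀ (by positivity) ?_
      exact (le_max_right 1 _).trans (le_max_right _ _)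

theorem E_fam_bound (ε : ℝ) (G H : R5 → ℂ) (M : ℝ) (hM : 1 ≤ M)
    (hG : ∀ a, ‖G a‖ ≤ M ∧ (M < ‖a‖ → G a = 0)) (hH : ∀ a, ‖H a‖ ≤ M ∧ (M < ‖a‖ → H a = 0))
    (hε : 0 < ε) (W : ℝ) (hW : 1 ≤ W)
    (hWb : ∀ p ∈ E_box M, ‖E_w ε p‖ ≤ W ∧ W⁻¹ ≤ ‖E_w ε p‖) (z : ℂ) (hz1 : -2 ≤ z.re)
    (hz2 : z.re ≤ 3) (p : R5 × R5) :
    ‖E_w ε p ^ (-z) * E_G G z p.2 * E_G H z p.1‖ ≤
      (E_box M).indicator (fun _ => W ^ 3 * Real.exp (Real.pi * |z.im|) * M ^ 2 * M ^ 2) p := by
  by_cases hp : p ∈ E_box M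
  · rw [indicator_of_mem hp, norm_mul, norm_mul]
    have ha : 0 < 10 / 7 - 2 / 7 * z.re := by linarith
    have h1 := E_norm_cpow_le (E_w ε p) (E_w_ne ε hε p) W hW (hWb p hp).1 (hWb p hp).2 z
      (abs_le.2 ⟨by linarith, hz2⟩)
    have h2 : ∀ (F : R5 → ℂ) (x : R5), ‖F x‖ ≤ M → ‖E_G F z x‖ ≤ M ^ 2 := by
      intro F x hF
      rw [E_G_norm F z x ha]
      exact E_rpow_le _ M _ (norm_nonneg _) hF hM ha.le (by linarith)
    have h3 := h2 G p.2 (hG _).1
    have h4 := h2 H p.1 (hH _).1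
    exact mul_le_mul (mul_le_mul h1 h3 (norm_nonneg _) (by positivity)) h4 (norm_nonneg _)
      (by positivity)
  · rw [indicator_of_notMem hp]
    have : E_G G z p.2 = 0 ∨ E_G H z p.1 = 0 := by
      by_contra hc
      push Not at hc
      apply hp
      refine ⟨?_, ?_⟩
      · rw [mem_closedBall_zero_iff]
        by_contra h
        push Not at h
        exact hc.2 (E_G_zero H z _ ((hH p.1).2 h))
      · rw [mem_closedBall_zero_iff]
        by_contra h
        push Not at h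
        exact hc.1 (E_G_zero G z _ ((hG p.2).2 h))
    rcases this with h | h <;> simp [h]

/-- the analytic function of the interpolation -/
noncomputable def E_Phi (ε : ℝ) (G H : R5 → ℂ) (z : ℂ) : ℂ :=
  ∫ p : R5 × R5, E_w ε p ^ (-z) * E_G G z p.2 * E_G H z p.1

theorem E_fam_meas (ε : ℝ) (G H : R5 → ℂ) (hGm : Measurable G) (hHm : Measurable H) (z : ℂ) :
    Measurable fun p : R5 × R5 => E_w ε p ^ (-z) * E_G G z p.2 * E_G H z p.1 :=
  (((E_w_meas ε).pow_const _).mul ((E_G_meas G hGm z).comp measurable_snd)).mul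
    ((E_G_meas H hHm z).comp measurable_fst)

theorem E_box_int (M c : ℝ) : Integrable ((E_box M).indicator fun _ => c) := by
  rw [integrable_indicator_iff (E_box_meas M)]
  exact integrableOn_const (E_box_fin M).ne

section
variable (ε : ℝ) (hε : 0 < ε) (G H : R5 → ℂ) (hGm : Measurable G) (hHm : Measurable H)
  (M : ℝ) (hM : 1 ≤ M)
  (hG : ∀ a, ‖G a‖ ≤ M ∧ (M < ‖a‖ → G a = 0)) (hH : ∀ a, ‖H a‖ ≤ M ∧ (M < ‖a‖ → H a = 0))
include hε hGm hHm hM hG hH

theorem E_fam_int (z : ℂ) (hz1 : -2 ≤ z.re) (hz2 : z.re ≤ 3) :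
    Integrable fun p : R5 × R5 => E_w ε p ^ (-z) * E_G G z p.2 * E_G H z p.1 := by
  obtain ⟨W, hW, hWb⟩ := E_w_bd ε hε M
  exact (E_box_int M _).mono' (E_fam_meas ε G H hGm hHm z).aestronglyMeasurable
    (Filter.Eventually.of_forall fun p => E_fam_bound ε G H M hM hG hH hε W hW hWb z hz1 hz2 p)

theorem E_Phi_diff (z0 : ℂ) (h0 : 0 ≤ z0.re) (h1 : z0.re ≤ 5 / 2) :
    DifferentiableAt ℂ (E_Phi ε G H) z0 := by
  obtain ⟨W, hW, hWb⟩ := E_w_bd ε hε M
  have e : E_Phi ε G H = fun z => ∫ p, E_gg G H p * cexp (z * E_lam ε G H p) := by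
    funext z
    unfold E_Phi
    refine integral_congr_ae (Filter.Eventually.of_forall fun p => ?_)
    exact (E_family ε hε G H z p).symm
  rw [e]
  have hR : Measurable fun p : R5 × R5 => ((Real.log ‖G p.2‖ + Real.log ‖H p.1‖ : ℝ) : ℂ) :=
    Complex.measurable_ofReal.comp
      ((Real.measurable_log.comp (hGm.comp measurable_snd).norm).add
        (Real.measurable_log.comp (hHm.comp measurable_fst).norm))
  refine E_param volume (E_gg G H) (E_lam ε G H)
    ((E_box M).indicator (fun _ => W ^ 3 * Real.exp (Real.pi * (|z0.im| + 1 / 2)) * M ^ 2 * M ^ 2))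
    z0 (1 / 4) (by norm_num) ?_ ?_ (E_box_int M _) ?_
  · refine Measurable.aestronglyMeasurable ?_
    unfold E_gg
    refine ((hR.const_mul _).cexp).mul ?_
    exact ((hGm.comp measurable_snd).div (Complex.measurable_ofReal.comp
      (hGm.comp measurable_snd).norm)).mul ((hHm.comp measurable_fst).div
      (Complex.measurable_ofReal.comp (hHm.comp measurable_fst).norm))
  · refine Measurable.aestronglyMeasurable ?_
    unfold E_lam
    exact (hR.const_mul _).sub (Complex.measurable_log.comp (E_w_meas ε))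
  · refine Filter.Eventually.of_forall fun p z hz => ?_
    rw [E_family ε hε G H z p]
    have hre : |(z - z0).re| ≤ ‖z - z0‖ := Complex.abs_re_le_norm _
    have him : |(z - z0).im| ≤ ‖z - z0‖ := Complex.abs_im_le_norm _
    rw [Complex.sub_re] at hre
    rw [Complex.sub_im] at him
    have hre' := abs_le.1 (hre.trans hz.le)
    refine (E_fam_bound ε G H M hM hG hH hε W hW hWb z (by linarith [hre'.1])
      (by linarith [hre'.2]) p).trans ?_
    refine indicator_le_indicator' fun _ => ?_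
    have : |z.im| ≤ |z0.im| + 1 / 2 := by
      have h3 : |z.im| ≤ |z0.im| + |z.im - z0.im| := by
        calc |z.im| = |z0.im + (z.im - z0.im)| := by ring_nf
          _ ≤ _ := abs_add_le _ _
      linarith
    gcongr

omit hGm hHm in
theorem E_Phi_bound : ∃ K : ℝ, 0 ≤ K ∧ ∀ z : ℂ, 0 ≤ z.re → z.re ≤ 5 / 2 →
    ‖E_Phi ε G H z‖ ≤ K * Real.exp (Real.pi * |z.im|) := by
  obtain ⟨W, hW, hWb⟩ := E_w_bd ε hε M
  refine ⟨W ^ 3 * M ^ 2 * M ^ 2 * (volume (E_box M)).toReal, by positivity, fun z h0 h1 => ?_⟩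
  unfold E_Phi
  refine (norm_integral_le_of_norm_le (E_box_int M _) (Filter.Eventually.of_forall fun p =>
    E_fam_bound ε G H M hM hG hH hε W hW hWb z (by linarith) (by linarith) p)).trans ?_
  rw [integral_indicator (E_box_meas M), setIntegral_const, smul_eq_mul, Measure.real]
  apply le_of_eq
  ring

end

end Pool.Agent.Cone
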