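import Mathlib
import Pool.Agent.Work.MP_b0b133_an.EFam

set_option autoImplicit false
open MeasureTheory Complex Set
open scoped ENNReal ComplexConjugate

namespace Pool.Agent.Cone

/-- the statement of the Plancherel endpoint -/
def E_L2 : Prop := ∃ C : ℝ, ∀ (y ε : ℝ) (_ : 0 < ε) (G H : R5 → ℂ),
    Measurable G → Measurable H → (∃ M : ℝ, ∀ a, ‖G a‖ ≤ M ∧ ‖H a‖ ≤ M ∧
      (M < ‖a‖ → G a = 0 ∧ H a = 0)) →
    ‖∫ a, ∫ b, (qf (a - b) (ε, 0)) ^ (-(5 / 2) - y * I : ℂ) * G b * H a‖ ≤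
      C * Real.exp (C * |y|) * √(∫ a, ‖G a‖ ^ 2) * √(∫ a, ‖H a‖ ^ 2)

theorem E_edge0 (ε : ℝ) (hε : 0 < ε) (G H : R5 → ℂ) (z : ℂ) (hz : z.re = 0)
    (hGi : Integrable fun a => ‖G a‖ ^ (10 / 7 : ℝ)) (hHi : Integrable fun a => ‖H a‖ ^ (10 / 7 : ℝ)) :
    ‖E_Phi ε G H z‖ ≤ Real.exp (Real.pi * |z.im|) *
      ((∫ a, ‖G a‖ ^ (10 / 7 : ℝ)) * ∫ a, ‖H a‖ ^ (10 / 7 : ℝ)) := by
  unfold E_Phi
  have h1 : ∀ p : R5 × R5, ‖E_w ε p ^ (-z) * E_G G z p.2 * E_G H z p.1‖ ≤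
      Real.exp (Real.pi * |z.im|) * (‖H p.1‖ ^ (10 / 7 : ℝ) * ‖G p.2‖ ^ (10 / 7 : ℝ)) := by
    intro p
    rw [norm_mul, norm_mul, E_G_norm _ _ _ (by rw [hz]; norm_num),
      E_G_norm _ _ _ (by rw [hz]; norm_num), hz]
    have h2 : ‖E_w ε p ^ (-z)‖ ≤ Real.exp (Real.pi * |z.im|) := by
      rw [Complex.norm_cpow_of_ne_zero (E_w_ne ε hε p), Complex.neg_re, hz, neg_zero,
        Real.rpow_zero, one_div, ← Real.exp_neg]
      apply Real.exp_le_exp.2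
      have h3 : |Complex.arg (E_w ε p) * (-z).im| ≤ Real.pi * |z.im| := by
        rw [abs_mul, Complex.neg_im, abs_neg]
        exact mul_le_mul_of_nonneg_right (Complex.abs_arg_le_pi _) (abs_nonneg _)
      have := neg_abs_le (Complex.arg (E_w ε p) * (-z).im)
      linarith
    simp only [mul_zero, sub_zero]
    calc ‖E_w ε p ^ (-z)‖ * ‖G p.2‖ ^ (10 / 7 : ℝ) * ‖H p.1‖ ^ (10 / 7 : ℝ) =
        ‖E_w ε p ^ (-z)‖ * (‖H p.1‖ ^ (10 / 7 : ℝ) * ‖G p.2‖ ^ (10 / 7 : ℝ)) := by ring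
      _ ≤ _ := by gcongr
  have hint : Integrable (fun p : R5 × R5 => Real.exp (Real.pi * |z.im|) *
      (‖H p.1‖ ^ (10 / 7 : ℝ) * ‖G p.2‖ ^ (10 / 7 : ℝ))) := (hHi.mul_prod hGi).const_mul _
  refine (norm_integral_le_of_norm_le hint (Filter.Eventually.of_forall h1)).trans ?_
  rw [integral_const_mul]
  have h4 := integral_prod_mul (μ := (volume : Measure R5)) (ν := (volume : Measure R5))
    (fun a => ‖H a‖ ^ (10 / 7 : ℝ)) (fun a => ‖G a‖ ^ (10 / 7 : ℝ))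
  rw [← Measure.volume_eq_prod] at h4
  rw [h4]
  apply le_of_eq
  ring

theorem E_edge1 (C : ℝ) (hC : ∀ (y ε : ℝ) (_ : 0 < ε) (G H : R5 → ℂ),
    Measurable G → Measurable H → (∃ M : ℝ, ∀ a, ‖G a‖ ≤ M ∧ ‖H a‖ ≤ M ∧
      (M < ‖a‖ → G a = 0 ∧ H a = 0)) →
    ‖∫ a, ∫ b, (qf (a - b) (ε, 0)) ^ (-(5 / 2) - y * I : ℂ) * G b * H a‖ ≤
      C * Real.exp (C * |y|) * √(∫ a, ‖G a‖ ^ 2) * √(∫ a, ‖H a‖ ^ 2))
    (ε : ℝ) (hε : 0 < ε) (G H : R5 → ℂ) (hGm : Measurable G) (hHm : Measurable H)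
    (M : ℝ) (hM : 1 ≤ M) (hG : ∀ a, ‖G a‖ ≤ M ∧ (M < ‖a‖ → G a = 0))
    (hH : ∀ a, ‖H a‖ ≤ M ∧ (M < ‖a‖ → H a = 0)) (z : ℂ) (hz : z.re = 5 / 2) :
    ‖E_Phi ε G H z‖ ≤ C * Real.exp (C * |z.im|) * √(∫ a, ‖G a‖ ^ (10 / 7 : ℝ)) *
      √(∫ a, ‖H a‖ ^ (10 / 7 : ℝ)) := by
  have hzz : -z = (-(5 / 2) - (z.im : ℂ) * I : ℂ) := by
    conv_lhs => rw [← Complex.re_add_im z, hz]
    push_cast
    ring
  have hpos : 0 < 10 / 7 - 2 / 7 * z.re := by rw [hz]; norm_num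
  have hsq : ∀ (F : R5 → ℂ) (a : R5), ‖E_G F z a‖ ^ 2 = ‖F a‖ ^ (10 / 7 : ℝ) := by
    intro F a
    rw [E_G_norm F z a hpos, hz, ← Real.rpow_natCast, ← Real.rpow_mul (norm_nonneg _)]
    norm_num
  have hle : ∀ (F : R5 → ℂ) (a : R5), ‖F a‖ ≤ M → ‖E_G F z a‖ ≤ M ^ 2 := by
    intro F a hF
    rw [E_G_norm F z a hpos]
    exact E_rpow_le _ M _ (norm_nonneg _) hF hM hpos.le (by rw [hz]; norm_num)
  have hMM : M ≤ M ^ 2 := by nlinarith
  have h := hC z.im ε hε (E_G G z) (E_G H z) (E_G_meas G hGm z) (E_G_meas H hHm z)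
    ⟨M ^ 2, fun a => ⟨hle G a (hG a).1, hle H a (hH a).1, fun ha =>
      ⟨E_G_zero G z a ((hG a).2 (lt_of_le_of_lt hMM ha)),
        E_G_zero H z a ((hH a).2 (lt_of_le_of_lt hMM ha))⟩⟩⟩
  simp only [hsq] at h
  have e : E_Phi ε G H z = ∫ a, ∫ b, (qf (a - b) (ε, 0)) ^ (-(5 / 2) - (z.im : ℂ) * I : ℂ) *
      E_G G z b * E_G H z a := by
    unfold E_Phi
    have hint := E_fam_int ε hε G H hGm hHm M hM hG hH z (by rw [hz]; norm_num)
      (by rw [hz]; norm_num)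
    rw [Measure.volume_eq_prod] at hint ⊢
    rw [integral_prod _ hint]
    simp only [E_w, hzz]
  rw [e]
  exact h

theorem E_quad (c y : ℝ) : c * |y| - y ^ 2 ≤ c ^ 2 / 4 := by
  rw [← sq_abs y]
  nlinarith [sq_nonneg (c / 2 - |y|)]

theorem E_expsq (z : ℂ) : ‖cexp (z ^ 2)‖ = Real.exp (z.re ^ 2 - z.im ^ 2) := by
  rw [Complex.norm_exp]
  congr 1
  rw [sq, Complex.mul_re]
  ring

theorem E_bilinear (hL2 : E_L2) : ∃ C : ℝ, ∀ (ε : ℝ) (_ : 0 < ε) (G : R5 → ℂ), Measurable G →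
    (∃ M : ℝ, ∀ a, ‖G a‖ ≤ M ∧ (M < ‖a‖ → G a = 0)) →
    ‖∫ a, ∫ b, (qf (a - b) (ε, 0)) ^ (-(3 / 2) : ℂ) * G b * conj (G a)‖ ≤
      C * (∫ a, ‖G a‖ ^ (10 / 7 : ℝ)) ^ (7 / 5 : ℝ) := by
  obtain ⟨C₀, hC₀⟩ := hL2
  -- a nonnegative constant
  set C := max C₀ 0 with hCdef
  have hC0 : 0 ≤ C := le_max_right _ _
  set K0 := Real.exp (Real.pi ^ 2 / 4) with hK0
  set K1 := C * Real.exp (25 / 4 + C ^ 2 / 4) with hK1
  refine ⟨K0 ^ (2 / 5 : ℝ) * K1 ^ (3 / 5 : ℝ), ?_⟩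
  rintro ε hε G hGm ⟨M₀, hM₀⟩
  set M := max M₀ 1 with hMdef
  have hM : 1 ≤ M := le_max_right _ _
  have hG : ∀ a, ‖G a‖ ≤ M ∧ (M < ‖a‖ → G a = 0) := fun a =>
    ⟨(hM₀ a).1.trans (le_max_left _ _), fun h => (hM₀ a).2 (lt_of_le_of_lt (le_max_left _ _) h)⟩
  set H : R5 → ℂ := fun a => conj (G a) with hHdef
  have hHm : Measurable H := Complex.continuous_conj.measurable.comp hGm
  have hHn : ∀ a, ‖H a‖ = ‖G a‖ := fun a => RCLike.norm_conj _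
  have hH : ∀ a, ‖H a‖ ≤ M ∧ (M < ‖a‖ → H a = 0) := fun a =>
    ⟨by rw [hHn]; exact (hG a).1, fun h => by simp [hHdef, (hG a).2 h]⟩
  have hGi : Integrable fun a => ‖G a‖ ^ (10 / 7 : ℝ) := by
    have hb : Integrable ((Metric.closedBall (0 : R5) M).indicator fun _ => M ^ 2) := by
      rw [integrable_indicator_iff measurableSet_closedBall]
      exact integrableOn_const measure_closedBall_lt_top.ne
    refine hb.mono' (hGm.norm.pow_const _).aestronglyMeasurable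
      (Filter.Eventually.of_forall fun a => ?_)
    rw [Real.norm_of_nonneg (by positivity)]
    by_cases ha : a ∈ Metric.closedBall (0 : R5) M
    · rw [indicator_of_mem ha]
      exact E_rpow_le _ M _ (norm_nonneg _) (hG a).1 hM (by norm_num) (by norm_num)
    · rw [indicator_of_notMem ha]
      have : G a = 0 := (hG a).2 (by simpa using ha)
      rw [this, norm_zero, Real.zero_rpow (by norm_num)]
  have hHi : Integrable fun a => ‖H a‖ ^ (10 / 7 : ℝ) := by simpa only [hHn] using hGi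
  set N := ∫ a, ‖G a‖ ^ (10 / 7 : ℝ) with hN
  have hN0 : 0 ≤ N := integral_nonneg fun a => by positivity
  have hHN : ∫ a, ‖H a‖ ^ (10 / 7 : ℝ) = N := by simp only [hHn, hN]
  obtain ⟨K, hK, hKb⟩ := E_Phi_bound ε hε G H M hM hG hH
  set f : ℂ → ℂ := fun z => cexp (z ^ 2) * E_Phi ε G H z with hf
  have hdiff : ∀ z : ℂ, 0 ≤ z.re → z.re ≤ 5 / 2 → DifferentiableAt ℂ f z := fun z h0 h1 =>
    ((differentiableAt_id.pow 2).cexp).mul (E_Phi_diff ε hε G H hGm hHm M hM hG hH z h0 h1)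
  have hcl : closure (HadamardThreeLines.verticalStrip 0 (5 / 2)) ⊆
      {z : ℂ | 0 ≤ z.re ∧ z.re ≤ 5 / 2} := by
    refine closure_minimal ?_ ?_
    · intro z hz
      exact ⟨hz.1.le, hz.2.le⟩
    · exact (isClosed_le continuous_const Complex.continuous_re).inter
        (isClosed_le Complex.continuous_re continuous_const)
  have hd : DiffContOnCl ℂ f (HadamardThreeLines.verticalStrip 0 (5 / 2)) := by
    refine ⟨fun z hz => (hdiff z hz.1.le hz.2.le).differentiableWithinAt, fun z hz => ?_⟩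
    exact (hdiff z (hcl hz).1 (hcl hz).2).continuousAt.continuousWithinAt
  have hB : BddAbove ((norm ∘ f) '' HadamardThreeLines.verticalClosedStrip 0 (5 / 2)) := by
    refine ⟨Real.exp (25 / 4 + Real.pi ^ 2 / 4) * K, ?_⟩
    rintro _ ⟨z, hz, rfl⟩
    have hz0 : 0 ≤ z.re := hz.1
    have hz1 : z.re ≤ 5 / 2 := hz.2
    simp only [Function.comp, hf, norm_mul, E_expsq]
    calc Real.exp (z.re ^ 2 - z.im ^ 2) * ‖E_Phi ε G H z‖ ≤
        Real.exp (z.re ^ 2 - z.im ^ 2) * (K * Real.exp (Real.pi * |z.im|)) := by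
          gcongr
          exact hKb z hz0 hz1
      _ = Real.exp (z.re ^ 2 + (Real.pi * |z.im| - z.im ^ 2)) * K := by
        rw [show z.re ^ 2 + (Real.pi * |z.im| - z.im ^ 2) = (z.re ^ 2 - z.im ^ 2) +
          Real.pi * |z.im| by ring, Real.exp_add]
        ring
      _ ≤ _ := by
        gcongr
        · nlinarith
        · exact E_quad _ _
  have ha : ∀ z ∈ re ⁻¹' ({0} : Set ℝ), ‖f z‖ ≤ K0 * (N * N) := by
    intro z hz
    have hz0 : z.re = 0 := hz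
    have h1 := E_edge0 ε hε G H z hz0 hGi hHi
    rw [hHN] at h1
    simp only [hf, norm_mul, E_expsq]
    calc Real.exp (z.re ^ 2 - z.im ^ 2) * ‖E_Phi ε G H z‖ ≤
        Real.exp (z.re ^ 2 - z.im ^ 2) * (Real.exp (Real.pi * |z.im|) * (N * N)) := by gcongr
      _ = Real.exp (Real.pi * |z.im| - z.im ^ 2) * (N * N) := by
        rw [hz0, show Real.pi * |z.im| - z.im ^ 2 = ((0 : ℝ) ^ 2 - z.im ^ 2) +
          Real.pi * |z.im| by ring, Real.exp_add]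
        ring
      _ ≤ _ := by
        gcongr
        exact Real.exp_le_exp.2 (E_quad _ _)
  have hb : ∀ z ∈ re ⁻¹' ({5 / 2} : Set ℝ), ‖f z‖ ≤ K1 * N := by
    intro z hz
    have hz0 : z.re = 5 / 2 := hz
    have hC' : ∀ (y ε : ℝ) (_ : 0 < ε) (G H : R5 → ℂ),
        Measurable G → Measurable H → (∃ M : ℝ, ∀ a, ‖G a‖ ≤ M ∧ ‖H a‖ ≤ M ∧
          (M < ‖a‖ → G a = 0 ∧ H a = 0)) →
        ‖∫ a, ∫ b, (qf (a - b) (ε, 0)) ^ (-(5 / 2) - y * I : ℂ) * G b * H a‖ ≤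
          C * Real.exp (C * |y|) * √(∫ a, ‖G a‖ ^ 2) * √(∫ a, ‖H a‖ ^ 2) := by
      intro y ε hε G H h1 h2 h3
      refine (hC₀ y ε hε G H h1 h2 h3).trans ?_
      gcongr
      · exact le_max_left _ _
      · exact le_max_left _ _
    have h1 := E_edge1 C hC' ε hε G H hGm hHm M hM hG hH z hz0
    rw [hHN] at h1
    simp only [hf, norm_mul, E_expsq]
    calc Real.exp (z.re ^ 2 - z.im ^ 2) * ‖E_Phi ε G H z‖ ≤
        Real.exp (z.re ^ 2 - z.im ^ 2) * (C * Real.exp (C * |z.im|) * √N * √N) := by gcongr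
      _ = C * Real.exp (25 / 4 + (C * |z.im| - z.im ^ 2)) * N := by
        rw [hz0, show (25 : ℝ) / 4 + (C * |z.im| - z.im ^ 2) = (((5 : ℝ) / 2) ^ 2 - z.im ^ 2) +
          C * |z.im| by ring, Real.exp_add]
        have := Real.mul_self_sqrt hN0
        linear_combination (Real.exp ((5 / 2) ^ 2 - z.im ^ 2) * (C * Real.exp (C * |z.im|))) * this
      _ ≤ _ := by
        rw [hK1]
        gcongr
        exact E_quad _ _
  have hz32 : ((3 / 2 : ℂ)) ∈ HadamardThreeLines.verticalClosedStrip 0 (5 / 2) := by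
    constructor
    · show (0 : ℝ) ≤ (3 / 2 : ℂ).re
      norm_num
    · show (3 / 2 : ℂ).re ≤ 5 / 2
      norm_num
  have hmain := HadamardThreeLines.norm_le_interp_of_mem_verticalClosedStrip'
    (by norm_num : (0 : ℝ) < 5 / 2) hz32 hd hB ha hb
  have hre : (3 / 2 : ℂ).re = 3 / 2 := by norm_num
  rw [hre] at hmain
  norm_num at hmain
  have hval : E_Phi ε G H (3 / 2) =
      ∫ a, ∫ b, (qf (a - b) (ε, 0)) ^ (-(3 / 2) : ℂ) * G b * conj (G a) := by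
    unfold E_Phi
    have hint := E_fam_int ε hε G H hGm hHm M hM hG hH (3 / 2) (by norm_num) (by norm_num)
    rw [Measure.volume_eq_prod] at hint ⊢
    rw [integral_prod _ hint]
    simp only [E_w, E_G_one, hHdef]
  rw [← hval]
  have hK00 : 0 ≤ K0 := (Real.exp_pos _).le
  have hK10 : 0 ≤ K1 := by positivity
  have e1 : (K0 * (N * N)) ^ (2 / 5 : ℝ) * (K1 * N) ^ (3 / 5 : ℝ) =
      K0 ^ (2 / 5 : ℝ) * K1 ^ (3 / 5 : ℝ) * N ^ (7 / 5 : ℝ) := by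
    rw [Real.mul_rpow hK00 (mul_nonneg hN0 hN0), Real.mul_rpow hN0 hN0, Real.mul_rpow hK10 hN0]
    have e2 : N ^ (2 / 5 : ℝ) * N ^ (2 / 5 : ℝ) * N ^ (3 / 5 : ℝ) = N ^ (7 / 5 : ℝ) := by
      rw [← Real.rpow_add' hN0 (by norm_num), ← Real.rpow_add' hN0 (by norm_num)]
      norm_num
    rw [← e2]
    ring
  rw [e1] at hmain
  refine le_trans ?_ hmain
  simp only [hf, norm_mul, E_expsq]
  have : (1 : ℝ) ≤ Real.exp ((3 / 2 : ℂ).re ^ 2 - (3 / 2 : ℂ).im ^ 2) := by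
    apply Real.one_le_exp
    norm_num
  exact le_mul_of_one_le_left (norm_nonneg _) this

end Pool.Agent.Cone
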