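import Mathlib
import Pool.Agent.Work.MP_b0b133_an.EBil

set_option autoImplicit false
open MeasureTheory Complex Set
open scoped ENNReal ComplexConjugate

namespace Pool.Agent.Cone

/-- the adjoint of the extension operator -/
noncomputable def E_Ts (G : R5 → ℂ) (ξ : R4) : ℂ := ∫ a, cexp (I * (pair a ξ : ℂ)) * G a

theorem E_pair_meas : Measurable fun p : R5 × R4 => pair p.1 p.2 := by
  unfold pair
  refine Measurable.add ?_ ?_
  · exact (measurable_fst.comp measurable_fst).mul (measurable_snd.norm)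
  · exact (continuous_snd.comp continuous_fst).measurable.inner measurable_snd

theorem E_phase_norm (a : R5) (ξ : R4) : ‖cexp (I * (pair a ξ : ℂ))‖ = 1 := by
  rw [mul_comm, Complex.norm_exp_ofReal_mul_I]

theorem E_phase_norm' (a : R5) (ξ : R4) : ‖cexp (-(I * (pair a ξ : ℂ)))‖ = 1 := by
  have : -(I * (pair a ξ : ℂ)) = ((-pair a ξ : ℝ) : ℂ) * I := by push_cast; ring
  rw [this, Complex.norm_exp_ofReal_mul_I]

theorem E_phase_conj (a : R5) (ξ : R4) :
    conj (cexp (I * (pair a ξ : ℂ))) = cexp (-(I * (pair a ξ : ℂ))) := by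
  rw [← Complex.exp_conj, map_mul, Complex.conj_I, Complex.conj_ofReal]
  congr 1
  ring

instance E_sfin : SFinite sig := by unfold sig; infer_instance

theorem E_Ts_bound (G : R5 → ℂ) (ξ : R4) : ‖E_Ts G ξ‖ ≤ ∫ a, ‖G a‖ := by
  unfold E_Ts
  refine (norm_integral_le_integral_norm _).trans (le_of_eq ?_)
  refine integral_congr_ae (Filter.Eventually.of_forall fun a => ?_)
  simp only [norm_mul, E_phase_norm, one_mul]

theorem E_Ts_meas (G : R5 → ℂ) (hG : Measurable G) : StronglyMeasurable (E_Ts G) := by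
  unfold E_Ts
  refine StronglyMeasurable.integral_prod_right (f := fun (ξ : R4) (a : R5) =>
    cexp (I * (pair a ξ : ℂ)) * G a) ?_
  refine Measurable.stronglyMeasurable ?_
  refine Measurable.mul ?_ (hG.comp measurable_snd)
  exact ((Complex.measurable_ofReal.comp
    (E_pair_meas.comp (measurable_snd.prodMk measurable_fst))).const_mul I).cexp

theorem E_ext_meas (f : R4 → ℂ) (hf : AEStronglyMeasurable f sig) :
    StronglyMeasurable (coneExt f) := by
  have e : coneExt f = fun a => ∫ ξ, cexp (-(I * (pair a ξ : ℂ))) * hf.mk f ξ ∂sig := by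
    funext a
    unfold coneExt
    refine integral_congr_ae ?_
    filter_upwards [hf.ae_eq_mk] with ξ hξ
    rw [hξ]
  rw [e]
  refine StronglyMeasurable.integral_prod_right (f := fun (a : R5) (ξ : R4) =>
    cexp (-(I * (pair a ξ : ℂ))) * hf.mk f ξ) ?_
  refine Measurable.stronglyMeasurable ?_
  refine Measurable.mul ?_ (hf.stronglyMeasurable_mk.measurable.comp measurable_snd)
  exact ((Complex.measurable_ofReal.comp E_pair_meas).const_mul I).neg.cexp

theorem E_ext_bound (f : R4 → ℂ) (a : R5) : ‖coneExt f a‖ ≤ ∫ ξ, ‖f ξ‖ ∂sig := by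
  unfold coneExt
  refine (norm_integral_le_integral_norm _).trans (le_of_eq ?_)
  refine integral_congr_ae (Filter.Eventually.of_forall fun ξ => ?_)
  simp only [norm_mul, E_phase_norm', one_mul]

/-- duality between `coneExt` and `E_Ts` -/
theorem E_dual (f : R4 → ℂ) (hf : Integrable f sig) (G : R5 → ℂ) (hGi : Integrable G) :
    ∫ a, coneExt f a * conj (G a) = ∫ ξ, f ξ * conj (E_Ts G ξ) ∂sig := by
  have hint : Integrable (fun p : R5 × R4 => cexp (-(I * (pair p.1 p.2 : ℂ))) * f p.2 *
      conj (G p.1)) (volume.prod sig) := by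
    have h1 : Integrable (fun p : R5 × R4 => conj (G p.1) * f p.2) (volume.prod sig) :=
      Integrable.mul_prod (f := fun a => conj (G a)) (g := f)
        (Complex.conjCLE.toContinuousLinearMap.integrable_comp hGi) hf
    refine h1.mono ?_ (Filter.Eventually.of_forall fun p => ?_)
    · have h2 : AEStronglyMeasurable (fun p : R5 × R4 => cexp (-(I * (pair p.1 p.2 : ℂ))))
          (volume.prod sig) :=
        (((Complex.measurable_ofReal.comp E_pair_meas).const_mul I).neg.cexp).aestronglyMeasurable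
      have h3 := h2.mul h1.aestronglyMeasurable
      refine h3.congr (Filter.Eventually.of_forall fun p => ?_)
      simp only [Pi.mul_apply]
      ring
    · rw [norm_mul, norm_mul, norm_mul, E_phase_norm', one_mul, mul_comm]
  have e1 : ∫ a, coneExt f a * conj (G a) =
      ∫ a, ∫ ξ, cexp (-(I * (pair a ξ : ℂ))) * f ξ * conj (G a) ∂sig := by
    refine integral_congr_ae (Filter.Eventually.of_forall fun a => ?_)
    simp only [coneExt]
    rw [← integral_mul_const]
  have e2 : ∫ ξ, f ξ * conj (E_Ts G ξ) ∂sig =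
      ∫ ξ, (∫ a, cexp (-(I * (pair a ξ : ℂ))) * f ξ * conj (G a)) ∂sig := by
    refine integral_congr_ae (Filter.Eventually.of_forall fun ξ => ?_)
    simp only [E_Ts]
    rw [← integral_conj, ← integral_const_mul]
    refine integral_congr_ae (Filter.Eventually.of_forall fun a => ?_)
    simp only [map_mul, E_phase_conj]
    ring
  rw [e1, e2]
  exact integral_integral_swap (f := fun (a : R5) (ξ : R4) =>
    cexp (-(I * (pair a ξ : ℂ))) * f ξ * conj (G a)) hint

/-- the two facts on exponentials that are used -/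
structure E_D : Prop where
  /-- integrability -/
  int : ∀ ε : ℝ, 0 < ε → Integrable (expo 0 (ε, 0)) sig
  /-- the transform -/
  ext : ∀ (ε : ℝ), 0 < ε → ∀ c a : R5,
    coneExt (expo c (ε, 0)) a = (4 * Real.pi ^ 2 : ℝ) * (qf (a - c) (ε, 0)) ^ (-(3 / 2) : ℂ)

theorem E_expo0 (ε : ℝ) (ξ : R4) : expo 0 (ε, 0) ξ = (Real.exp (-(ε * ‖ξ‖)) : ℂ) := by
  unfold expo pair
  simp

theorem E_expo_c (c : R5) (ε : ℝ) (ξ : R4) :
    expo c (ε, 0) ξ = cexp (I * (pair c ξ : ℂ)) * (Real.exp (-(ε * ‖ξ‖)) : ℂ) := by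
  rw [← E_expo0]
  unfold expo
  rw [← Complex.exp_add]
  congr 1
  simp [pair]
  ring

/-- the regularised quadratic form -/
theorem E_quadform (hD : E_D) (ε : ℝ) (hε : 0 < ε) (G : R5 → ℂ) (hGi : Integrable G) :
    ∫ ξ, ‖E_Ts G ξ‖ ^ 2 * Real.exp (-(ε * ‖ξ‖)) ∂sig =
      4 * Real.pi ^ 2 * (∫ a, ∫ b, (qf (a - b) (ε, 0)) ^ (-(3 / 2) : ℂ) * G b * conj (G a)).re := by
  have hw : Integrable (fun ξ : R4 => (Real.exp (-(ε * ‖ξ‖)) : ℂ)) sig :=
    (hD.int ε hε).congr (Filter.Eventually.of_forall fun ξ => E_expo0 ε ξ)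
  set G' := hGi.aestronglyMeasurable.mk G with hG'
  have hGG' : G =ᵐ[volume] G' := hGi.aestronglyMeasurable.ae_eq_mk
  have hTs : E_Ts G = E_Ts G' := by
    funext ξ
    unfold E_Ts
    refine integral_congr_ae ?_
    filter_upwards [hGG'] with a ha
    rw [ha]
  have hTm : StronglyMeasurable (E_Ts G) := by
    rw [hTs]
    exact E_Ts_meas G' hGi.aestronglyMeasurable.stronglyMeasurable_mk.measurable
  set fe : R4 → ℂ := fun ξ => E_Ts G ξ * (Real.exp (-(ε * ‖ξ‖)) : ℂ) with hfe
  have hfi : Integrable fe sig := by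
    refine hw.bdd_mul hTm.aestronglyMeasurable
      (Filter.Eventually.of_forall fun ξ => E_Ts_bound G ξ)
  have hdual := E_dual fe hfi G hGi
  have hext : ∀ a, coneExt fe a = (4 * Real.pi ^ 2 : ℝ) *
      ∫ b, (qf (a - b) (ε, 0)) ^ (-(3 / 2) : ℂ) * G b := by
    intro a
    have h1 : ∀ b : R5, (4 * Real.pi ^ 2 : ℝ) * ((qf (a - b) (ε, 0)) ^ (-(3 / 2) : ℂ) * G b) =
        ∫ ξ, cexp (-(I * (pair a ξ : ℂ))) * expo b (ε, 0) ξ * G b ∂sig := by
      intro b
      rw [integral_mul_const]
      have := hD.ext ε hε b a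
      unfold coneExt at this
      rw [this]
      ring
    rw [← integral_const_mul]
    simp only [h1]
    have hint : Integrable (Function.uncurry fun (b : R5) (ξ : R4) =>
        cexp (-(I * (pair a ξ : ℂ))) * expo b (ε, 0) ξ * G b) (volume.prod sig) := by
      have h2 : Integrable (fun p : R5 × R4 => G p.1 * (Real.exp (-(ε * ‖p.2‖)) : ℂ))
          (volume.prod sig) := hGi.mul_prod hw
      refine h2.mono ?_ (Filter.Eventually.of_forall fun p => ?_)
      · have h3 : AEStronglyMeasurable (fun p : R5 × R4 => cexp (-(I * (pair a p.2 : ℂ))) *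
            cexp (I * (pair p.1 p.2 : ℂ))) (volume.prod sig) := by
          refine Measurable.aestronglyMeasurable (Measurable.mul ?_ ?_)
          · exact ((Complex.measurable_ofReal.comp (E_pair_meas.comp
              (measurable_const.prodMk measurable_snd))).const_mul I).neg.cexp
          · exact ((Complex.measurable_ofReal.comp E_pair_meas).const_mul I).cexp
        refine (h3.mul h2.aestronglyMeasurable).congr (Filter.Eventually.of_forall fun p => ?_)
        simp only [Pi.mul_apply, Function.uncurry, E_expo_c]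
        ring
      · simp only [Function.uncurry, E_expo_c]
        rw [norm_mul, norm_mul, norm_mul, norm_mul, E_phase_norm', E_phase_norm]
        apply le_of_eq
        ring
    rw [integral_integral_swap hint]
    unfold coneExt
    refine integral_congr_ae (Filter.Eventually.of_forall fun ξ => ?_)
    simp only [hfe, E_Ts]
    rw [← integral_mul_const, ← integral_const_mul]
    refine integral_congr_ae (Filter.Eventually.of_forall fun b => ?_)
    simp only [E_expo_c]
    ring
  have e1 : ∫ ξ, fe ξ * conj (E_Ts G ξ) ∂sig =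
      ((∫ ξ, ‖E_Ts G ξ‖ ^ 2 * Real.exp (-(ε * ‖ξ‖)) ∂sig : ℝ) : ℂ) := by
    rw [← integral_complex_ofReal]
    refine integral_congr_ae (Filter.Eventually.of_forall fun ξ => ?_)
    simp only [hfe]
    have := Complex.mul_conj' (E_Ts G ξ)
    push_cast
    rw [← this]
    ring
  have e2 : ∫ a, coneExt fe a * conj (G a) = ((4 * Real.pi ^ 2 : ℝ) : ℂ) *
      ∫ a, ∫ b, (qf (a - b) (ε, 0)) ^ (-(3 / 2) : ℂ) * G b * conj (G a) := by
    rw [← integral_const_mul]
    refine integral_congr_ae (Filter.Eventually.of_forall fun a => ?_)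
    simp only
    rw [hext a, integral_mul_const]
    ring
  rw [e1, e2] at hdual
  have := congrArg Complex.re hdual
  rw [Complex.re_ofReal_mul, Complex.ofReal_re] at this
  exact this.symm

end Pool.Agent.Cone
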