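import Mathlib
import Pool.Agent.Work.MP_b0b133_an.EDual

set_option autoImplicit false
open MeasureTheory Complex Set
open scoped ENNReal ComplexConjugate

namespace Pool.Agent.Cone

/-- the interpolated bilinear estimate, as a statement about a constant -/
def E_Bil (C : ℝ) : Prop := ∀ (ε : ℝ) (_ : 0 < ε) (G : R5 → ℂ), Measurable G →
    (∃ M : ℝ, ∀ a, ‖G a‖ ≤ M ∧ (M < ‖a‖ → G a = 0)) →
    ‖∫ a, ∫ b, (qf (a - b) (ε, 0)) ^ (-(3 / 2) : ℂ) * G b * conj (G a)‖ ≤
      C * (∫ a, ‖G a‖ ^ (10 / 7 : ℝ)) ^ (7 / 5 : ℝ)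

theorem E_nice_int (G : R5 → ℂ) (hG : Measurable G) (M : ℝ)
    (hM : ∀ a, ‖G a‖ ≤ M ∧ (M < ‖a‖ → G a = 0)) : Integrable G := by
  have hb : Integrable ((Metric.closedBall (0 : R5) M).indicator fun _ => M) := by
    rw [integrable_indicator_iff measurableSet_closedBall]
    exact integrableOn_const measure_closedBall_lt_top.ne
  refine hb.mono' hG.aestronglyMeasurable (Filter.Eventually.of_forall fun a => ?_)
  by_cases ha : a ∈ Metric.closedBall (0 : R5) M
  · rw [indicator_of_mem ha]; exact (hM a).1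
  · rw [indicator_of_notMem ha, (hM a).2 (by simpa using ha), norm_zero]

/-- the tested inequality -/
theorem E_test (hD : E_D) (C : ℝ) (hB : E_Bil C) (G : R5 → ℂ) (hG : Measurable G) (M : ℝ)
    (hM : ∀ a, ‖G a‖ ≤ M ∧ (M < ‖a‖ → G a = 0)) (f : R4 → ℂ) (hf : Integrable f sig)
    (hf2 : MemLp f 2 sig) :
    ‖∫ ξ, f ξ * conj (E_Ts G ξ) ∂sig‖ ≤ √(∫ ξ, ‖f ξ‖ ^ 2 ∂sig) *
      √(4 * Real.pi ^ 2 * (C * (∫ a, ‖G a‖ ^ (10 / 7 : ℝ)) ^ (7 / 5 : ℝ))) := by
  have hGi := E_nice_int G hG M hM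
  have hTm := (E_Ts_meas G hG)
  set B := ∫ a, ‖G a‖ with hBdef
  have hstep : ∀ ε : ℝ, 0 < ε → ‖∫ ξ, f ξ * conj (E_Ts G ξ) *
      (Real.exp (-(ε * ‖ξ‖)) : ℂ) ∂sig‖ ≤ √(∫ ξ, ‖f ξ‖ ^ 2 ∂sig) *
      √(4 * Real.pi ^ 2 * (C * (∫ a, ‖G a‖ ^ (10 / 7 : ℝ)) ^ (7 / 5 : ℝ))) := by
    intro ε hε
    set g : R4 → ℂ := fun ξ => conj (E_Ts G ξ) * (Real.exp (-(ε * ‖ξ‖)) : ℂ) with hg
    have hgn : ∀ ξ, ‖g ξ‖ ^ 2 = ‖E_Ts G ξ‖ ^ 2 * Real.exp (-((2 * ε) * ‖ξ‖)) := by
      intro ξ
      simp only [hg, norm_mul, RCLike.norm_conj, Complex.norm_real, Real.norm_eq_abs,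
        Real.abs_exp, mul_pow]
      rw [← Real.exp_nat_mul]
      congr 2
      push_cast
      ring
    have hexpm : Measurable fun ξ : R4 => (Real.exp (-(ε * ‖ξ‖)) : ℂ) :=
      Complex.measurable_ofReal.comp ((measurable_norm.const_mul ε).neg.exp)
    have hgm : AEStronglyMeasurable g sig :=
      ((Complex.continuous_conj.comp_stronglyMeasurable hTm).mul
        hexpm.stronglyMeasurable).aestronglyMeasurable
    have hw : Integrable (fun ξ : R4 => (Real.exp (-((2 * ε) * ‖ξ‖)))) sig := by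
      have h1 : Integrable (fun ξ : R4 => (Real.exp (-((2 * ε) * ‖ξ‖)) : ℂ)) sig :=
        (hD.int (2 * ε) (by positivity)).congr
          (Filter.Eventually.of_forall fun ξ => E_expo0 (2 * ε) ξ)
      refine h1.norm.congr (Filter.Eventually.of_forall fun ξ => ?_)
      simp only [Complex.norm_real, Real.norm_eq_abs, Real.abs_exp]
    have hg2 : MemLp g 2 sig := by
      rw [memLp_two_iff_integrable_sq_norm hgm]
      simp only [hgn]
      refine hw.bdd_mul (c := B ^ 2) (hTm.norm.pow 2).aestronglyMeasurable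
        (Filter.Eventually.of_forall fun ξ => ?_)
      rw [Real.norm_of_nonneg (by positivity)]
      exact pow_le_pow_left₀ (norm_nonneg _) (E_Ts_bound G ξ) 2
    have h1 := integral_mul_norm_le_Lp_mul_Lq (μ := sig) (f := f) (g := g)
      (Real.HolderConjugate.two_two) (by simpa using hf2) (by simpa using hg2)
    have h2 : ‖∫ ξ, f ξ * conj (E_Ts G ξ) * (Real.exp (-(ε * ‖ξ‖)) : ℂ) ∂sig‖ ≤
        ∫ ξ, ‖f ξ‖ * ‖g ξ‖ ∂sig := by
      refine (norm_integral_le_integral_norm _).trans (le_of_eq ?_)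
      refine integral_congr_ae (Filter.Eventually.of_forall fun ξ => ?_)
      simp only [hg, norm_mul]
      ring
    refine h2.trans (h1.trans ?_)
    have h3 : ∀ (h : R4 → ℂ), (∫ ξ, ‖h ξ‖ ^ (2 : ℝ) ∂sig) ^ (1 / 2 : ℝ) =
        √(∫ ξ, ‖h ξ‖ ^ 2 ∂sig) := by
      intro h
      rw [← Real.sqrt_eq_rpow]
      congr 2
      funext ξ
      exact_mod_cast Real.rpow_natCast ‖h ξ‖ 2
    rw [h3, h3]
    refine mul_le_mul_of_nonneg_left ?_ (Real.sqrt_nonneg _)
    apply Real.sqrt_le_sqrt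
    simp only [hgn]
    rw [E_quadform hD (2 * ε) (by positivity) G hGi]
    refine mul_le_mul_of_nonneg_left ?_ (by positivity)
    exact (Complex.re_le_norm _).trans (hB (2 * ε) (by positivity) G hG ⟨M, hM⟩)
  have hlim : Filter.Tendsto (fun n : ℕ => ∫ ξ, f ξ * conj (E_Ts G ξ) *
      (Real.exp (-((1 / ((n : ℝ) + 1)) * ‖ξ‖)) : ℂ) ∂sig) Filter.atTop
      (nhds (∫ ξ, f ξ * conj (E_Ts G ξ) ∂sig)) := by
    refine tendsto_integral_of_dominated_convergence (fun ξ => ‖f ξ‖ * B) ?_ ?_ ?_ ?_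
    · intro n
      refine (hf.aestronglyMeasurable.mul
        (Complex.continuous_conj.comp_stronglyMeasurable hTm).aestronglyMeasurable).mul ?_
      exact (Complex.measurable_ofReal.comp
        ((measurable_norm.const_mul _).neg.exp)).aestronglyMeasurable
    · exact hf.norm.mul_const B
    · intro n
      refine Filter.Eventually.of_forall fun ξ => ?_
      rw [norm_mul, norm_mul, RCLike.norm_conj, Complex.norm_real, Real.norm_eq_abs,
        Real.abs_exp]
      have h1 : Real.exp (-((1 / ((n : ℝ) + 1)) * ‖ξ‖)) ≤ 1 := by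
        apply Real.exp_le_one_iff.2
        have : 0 ≤ (1 / ((n : ℝ) + 1)) * ‖ξ‖ := by positivity
        linarith
      calc ‖f ξ‖ * ‖E_Ts G ξ‖ * Real.exp (-((1 / ((n : ℝ) + 1)) * ‖ξ‖)) ≤
          ‖f ξ‖ * ‖E_Ts G ξ‖ * 1 := by gcongr
        _ ≤ ‖f ξ‖ * B := by
          rw [mul_one]
          gcongr
          exact E_Ts_bound G ξ
    · refine Filter.Eventually.of_forall fun ξ => ?_
      have h1 : Filter.Tendsto (fun n : ℕ => -((1 / ((n : ℝ) + 1)) * ‖ξ‖)) Filter.atTop
          (nhds (-(0 * ‖ξ‖))) :=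
        (tendsto_one_div_add_atTop_nhds_zero_nat.mul_const _).neg
      have h2 := (Complex.continuous_ofReal.tendsto _).comp
        ((Real.continuous_exp.tendsto _).comp h1)
      have h3 := h2.const_mul (f ξ * conj (E_Ts G ξ))
      simpa using h3
  exact le_of_tendsto hlim.norm (Filter.Eventually.of_forall fun n => hstep _ (by positivity))

/-- the algebra of the duality argument -/
theorem E_alg (J S K : ℝ) (hJ : 0 ≤ J) (hS : 0 ≤ S) (hK : 0 ≤ K)
    (h : J ≤ √S * √(K * J ^ (7 / 5 : ℝ))) : J ^ (3 / 5 : ℝ) ≤ K * S := by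
  rcases hJ.eq_or_lt with h0 | h0
  · rw [← h0, Real.zero_rpow (by norm_num)]
    positivity
  · have h1 : J ^ 2 ≤ S * (K * J ^ (7 / 5 : ℝ)) := by
      have h2 := pow_le_pow_left₀ hJ h 2
      rwa [mul_pow, Real.sq_sqrt hS, Real.sq_sqrt (by positivity)] at h2
    have h3 : J ^ 2 = J ^ (3 / 5 : ℝ) * J ^ (7 / 5 : ℝ) := by
      rw [← Real.rpow_add h0, ← Real.rpow_natCast]
      norm_num
    rw [h3] at h1
    have h4 : 0 < J ^ (7 / 5 : ℝ) := Real.rpow_pos_of_pos h0 _
    nlinarith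

theorem E_strichartz (hD : E_D) (hB : ∃ C : ℝ, E_Bil C) : ∃ C : ℝ, ∀ f : R4 → ℂ,
    Integrable f sig → MemLp f 2 sig → MemLp (coneExt f) (10 / 3) volume ∧
    (∫ a, ‖coneExt f a‖ ^ (10 / 3 : ℝ)) ^ (3 / 5 : ℝ) ≤ C * ∫ ξ, ‖f ξ‖ ^ 2 ∂sig := by
  obtain ⟨C₀, hC₀⟩ := hB
  set C := max C₀ 0 with hC
  have hC0 : 0 ≤ C := le_max_right _ _
  have hB' : E_Bil C := by
    intro ε hε G hG hM
    refine (hC₀ ε hε G hG hM).trans ?_
    gcongr
    · exact le_max_left _ _
  set K := 4 * Real.pi ^ 2 * C with hK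
  have hK0 : 0 ≤ K := by positivity
  refine ⟨K, fun f hf hf2 => ?_⟩
  set S := ∫ ξ, ‖f ξ‖ ^ 2 ∂sig with hS
  have hS0 : 0 ≤ S := integral_nonneg fun ξ => by positivity
  set F := coneExt f with hF
  have hFm : StronglyMeasurable F := E_ext_meas f hf.aestronglyMeasurable
  set B := ∫ ξ, ‖f ξ‖ ∂sig with hBd
  have hB0 : 0 ≤ B := integral_nonneg fun ξ => norm_nonneg _
  have hFB : ∀ a, ‖F a‖ ≤ B := E_ext_bound f
  -- the truncated integrals
  have hJ : ∀ M : ℝ, IntegrableOn (fun a => ‖F a‖ ^ (10 / 3 : ℝ)) (Metric.closedBall 0 M) ∧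
      (∫ a in Metric.closedBall (0 : R5) M, ‖F a‖ ^ (10 / 3 : ℝ)) ^ (3 / 5 : ℝ) ≤ K * S := by
    intro M
    set G : R5 → ℂ := (Metric.closedBall (0 : R5) M).indicator
      (fun a => ((‖F a‖ ^ (4 / 3 : ℝ) : ℝ) : ℂ) * F a) with hG
    have hGm : Measurable G := by
      refine Measurable.indicator (Measurable.mul ?_ hFm.measurable) measurableSet_closedBall
      exact Complex.measurable_ofReal.comp (hFm.measurable.norm.pow_const _)
    have hGn : ∀ a, ‖G a‖ = (Metric.closedBall (0 : R5) M).indicator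
        (fun a => ‖F a‖ ^ (7 / 3 : ℝ)) a := by
      intro a
      by_cases ha : a ∈ Metric.closedBall (0 : R5) M
      · rw [hG, indicator_of_mem ha, indicator_of_mem ha, norm_mul, Complex.norm_real,
          Real.norm_of_nonneg (by positivity)]
        by_cases h0 : ‖F a‖ = 0
        · rw [h0]
          rw [Real.zero_rpow (by norm_num : (7 / 3 : ℝ) ≠ 0)]
          ring
        · have : 0 < ‖F a‖ := lt_of_le_of_ne (norm_nonneg _) (Ne.symm h0)
          nth_rewrite 2 [← Real.rpow_one ‖F a‖]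
          rw [← Real.rpow_add this]
          norm_num
      · rw [hG, indicator_of_notMem ha, indicator_of_notMem ha, norm_zero]
    have hGb : ∀ a, ‖G a‖ ≤ max M (B ^ (7 / 3 : ℝ)) ∧
        (max M (B ^ (7 / 3 : ℝ)) < ‖a‖ → G a = 0) := by
      intro a
      constructor
      · rw [hGn]
        refine le_trans ?_ (le_max_right _ _)
        by_cases ha : a ∈ Metric.closedBall (0 : R5) M
        · rw [indicator_of_mem ha]
          exact Real.rpow_le_rpow (norm_nonneg _) (hFB a) (by norm_num)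
        · rw [indicator_of_notMem ha]
          positivity
      · intro h
        have : a ∉ Metric.closedBall (0 : R5) M := by
          rw [mem_closedBall_zero_iff]
          have := (le_max_left M (B ^ (7 / 3 : ℝ))).trans_lt h
          exact not_le.2 this
        rw [hG, indicator_of_notMem this]
    have htest := E_test hD C hB' G hGm _ hGb f hf hf2
    have hint : IntegrableOn (fun a => ‖F a‖ ^ (10 / 3 : ℝ)) (Metric.closedBall 0 M) := by
      refine Measure.integrableOn_of_bounded (M := B ^ (10 / 3 : ℝ))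
        measure_closedBall_lt_top.ne (hFm.measurable.norm.pow_const _).aestronglyMeasurable ?_
      refine Filter.Eventually.of_forall fun a => ?_
      rw [Real.norm_of_nonneg (by positivity)]
      exact Real.rpow_le_rpow (norm_nonneg _) (hFB a) (by norm_num)
    refine ⟨hint, ?_⟩
    set J := ∫ a in Metric.closedBall (0 : R5) M, ‖F a‖ ^ (10 / 3 : ℝ) with hJdef
    have hJ0 : 0 ≤ J := integral_nonneg fun a => by positivity
    have e1 : ∫ a, ‖G a‖ ^ (10 / 7 : ℝ) = J := by
      rw [hJdef, ← integral_indicator measurableSet_closedBall]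
      refine integral_congr_ae (Filter.Eventually.of_forall fun a => ?_)
      simp only [hGn]
      by_cases ha : a ∈ Metric.closedBall (0 : R5) M
      · rw [indicator_of_mem ha, indicator_of_mem ha, ← Real.rpow_mul (norm_nonneg _)]
        norm_num
      · rw [indicator_of_notMem ha, indicator_of_notMem ha, Real.zero_rpow (by norm_num)]
    have e2 : ∫ ξ, f ξ * conj (E_Ts G ξ) ∂sig = (J : ℂ) := by
      rw [← E_dual f hf G (E_nice_int G hGm _ hGb), hJdef,
        ← integral_indicator measurableSet_closedBall, ← integral_complex_ofReal]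
      refine integral_congr_ae (Filter.Eventually.of_forall fun a => ?_)
      simp only
      by_cases ha : a ∈ Metric.closedBall (0 : R5) M
      · rw [indicator_of_mem ha, hG, indicator_of_mem ha, map_mul, Complex.conj_ofReal]
        have h1 : F a * conj (F a) = ((‖F a‖ ^ 2 : ℝ) : ℂ) := by
          rw [Complex.mul_conj']; push_cast; rfl
        have h2 : ‖F a‖ ^ (10 / 3 : ℝ) = ‖F a‖ ^ (4 / 3 : ℝ) * ‖F a‖ ^ 2 := by
          by_cases h0 : ‖F a‖ = 0
          · rw [h0, Real.zero_rpow (by norm_num)]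
            ring
          · have : 0 < ‖F a‖ := lt_of_le_of_ne (norm_nonneg _) (Ne.symm h0)
            rw [← Real.rpow_natCast, ← Real.rpow_add this]
            norm_num
        rw [h2]
        push_cast at h1 ⊢
        rw [← h1]
        ring
      · rw [indicator_of_notMem ha, hG, indicator_of_notMem ha]
        simp
    rw [e1, e2, Complex.norm_real, Real.norm_of_nonneg hJ0] at htest
    refine E_alg J S K hJ0 hS0 hK0 ?_
    rw [hK]
    refine htest.trans (le_of_eq ?_)
    congr 2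
    ring
  have hcov := aecover_closedBall (μ := (volume : Measure R5)) (x := (0 : R5))
    (r := fun n : ℕ => (n : ℝ)) tendsto_natCast_atTop_atTop
  have hbd : ∀ M : ℝ, ∫ a in Metric.closedBall (0 : R5) M, ‖F a‖ ^ (10 / 3 : ℝ) ≤
      (K * S) ^ (5 / 3 : ℝ) := by
    intro M
    have h0 : 0 ≤ ∫ a in Metric.closedBall (0 : R5) M, ‖F a‖ ^ (10 / 3 : ℝ) :=
      integral_nonneg fun a => by positivity
    have h1 := Real.rpow_le_rpow (by positivity) (hJ M).2 (by norm_num : (0 : ℝ) ≤ 5 / 3)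
    rw [← Real.rpow_mul h0] at h1
    norm_num at h1
    exact h1
  have hintF : Integrable (fun a => ‖F a‖ ^ (10 / 3 : ℝ)) :=
    hcov.integrable_of_integral_bounded_of_nonneg_ae ((K * S) ^ (5 / 3 : ℝ))
      (fun n => (hJ n).1) (Filter.Eventually.of_forall fun a => by positivity)
      (Filter.Eventually.of_forall fun n => hbd n)
  constructor
  · rw [← integrable_norm_rpow_iff hFm.aestronglyMeasurable (by norm_num) (by
      exact ENNReal.div_ne_top (by norm_num) (by norm_num))]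
    have : (10 / 3 : ℝ≥0∞).toReal = 10 / 3 := by
      rw [ENNReal.toReal_div]; norm_num
    rw [this]
    exact hintF
  · have hlim := hcov.integral_tendsto_of_countably_generated hintF
    have h0 : 0 ≤ ∫ a, ‖F a‖ ^ (10 / 3 : ℝ) := integral_nonneg fun a => by positivity
    have h1 : ∫ a, ‖F a‖ ^ (10 / 3 : ℝ) ≤ (K * S) ^ (5 / 3 : ℝ) :=
      le_of_tendsto hlim (Filter.Eventually.of_forall fun n => hbd n)
    have h2 := Real.rpow_le_rpow h0 h1 (by norm_num : (0 : ℝ) ≤ 3 / 5)
    rw [← Real.rpow_mul (by positivity)] at h2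
    norm_num at h2
    exact h2

end Pool.Agent.Cone
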