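import Pool.Agent.Work.MP_b0b133_an.Fb
import Pool.Agent.Work.MP_b0b133_an.Fa

/-!
# Centering
-/

set_option autoImplicit false
open MeasureTheory Complex
open scoped ENNReal ComplexConjugate

namespace Pool.Agent.Cone

theorem F1_int_w : Integrable (fun a : R5 => ‖w a‖ ^ (-5 : ℝ)) := by
  have h := mM0_univ.2
  unfold mM0 at h
  rw [withDensity_apply _ MeasurableSet.univ, Measure.restrict_univ] at h
  refine ⟨C0_continuous_dens.aestronglyMeasurable, ?_⟩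
  rw [hasFiniteIntegral_iff_ofReal (Filter.Eventually.of_forall fun a =>
    Real.rpow_nonneg (norm_nonneg _) _)]
  exact lt_top_iff_ne_top.2 h

theorem F1_dens_meas : Measurable fun ξ : R4 => ENNReal.ofReal (‖ξ‖⁻¹) :=
  (measurable_norm.inv).ennreal_ofReal

theorem F1_sig_integral (g : R4 → ℂ) : ∫ ξ, g ξ ∂sig = ∫ ξ, (‖ξ‖⁻¹ : ℝ) • g ξ := by
  unfold sig
  rw [integral_withDensity_eq_integral_toReal_smul F1_dens_meas
    (Filter.Eventually.of_forall fun _ => ENNReal.ofReal_lt_top)]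
  refine integral_congr_ae (Filter.Eventually.of_forall fun ξ => ?_)
  show (ENNReal.ofReal ‖ξ‖⁻¹).toReal • g ξ = ‖ξ‖⁻¹ • g ξ
  rw [ENNReal.toReal_ofReal (inv_nonneg.2 (norm_nonneg _))]

theorem F1_sig_integrable (g : R4 → ℂ) : Integrable g sig ↔
    Integrable (fun ξ => (‖ξ‖⁻¹ : ℝ) • g ξ) := by
  unfold sig
  rw [integrable_withDensity_iff_integrable_smul' F1_dens_meas
    (Filter.Eventually.of_forall fun _ => ENNReal.ofReal_lt_top)]
  refine integrable_congr (Filter.Eventually.of_forall fun ξ => ?_)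
  show (ENNReal.ofReal ‖ξ‖⁻¹).toReal • g ξ = ‖ξ‖⁻¹ • g ξ
  rw [ENNReal.toReal_ofReal (inv_nonneg.2 (norm_nonneg _))]

theorem F1_integrable (f : R4 → ℂ) (hf : f ∈ ExpSpan) : Integrable f sig := by
  obtain ⟨ι, hι, α, d, u, hu, rfl⟩ := Fb_form f hf
  exact integrable_finsetSum _ fun i _ => ((expo_integrable _ _ (hu i)).1.const_mul _)

theorem F1_continuous (f : R4 → ℂ) (hf : f ∈ ExpSpan) : Continuous f := by
  obtain ⟨ι, hι, α, d, u, hu, rfl⟩ := Fb_form f hf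
  unfold expo pair
  fun_prop

/-- a combination of exponentials with extension zero is zero -/
theorem F1_zero (f : R4 → ℂ) (hf : f ∈ ExpSpan) (h0 : ∀ a, coneExt f a = 0) (ξ : R4)
    (hξ : ξ ≠ 0) : f ξ = 0 := by
  set g : R4 → ℂ := fun ξ => (‖ξ‖⁻¹ : ℝ) • f ξ with hg
  have hgi : Integrable g := (F1_sig_integrable f).1 (F1_integrable f hf)
  have hF : FourierTransform.fourier g = fun _ : R4 => (0 : ℂ) := by
    funext x
    rw [Real.fourier_eq']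
    have h1 := h0 (0, (2 * Real.pi) • x)
    unfold coneExt at h1
    rw [F1_sig_integral] at h1
    rw [← h1]
    refine integral_congr_ae (Filter.Eventually.of_forall fun ξ => ?_)
    simp only [hg, pair, smul_eq_mul, zero_mul, zero_add, real_inner_smul_left, Complex.real_smul]
    rw [real_inner_comm x ξ]
    have e : (((-2 * Real.pi * inner ℝ x ξ : ℝ)) : ℂ) * I =
        -(I * ((2 * Real.pi * inner ℝ x ξ : ℝ) : ℂ)) := by
      push_cast
      ring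
    rw [e]
    ring
  have hFi : Integrable (FourierTransform.fourier g) := by
    rw [hF]
    exact integrable_zero _ _ _
  have hcont : ContinuousAt g ξ := by
    have h1 : ContinuousAt (fun ξ : R4 => ‖ξ‖⁻¹) ξ :=
      (continuous_norm.continuousAt).inv₀ (norm_ne_zero_iff.2 hξ)
    exact h1.smul (F1_continuous f hf).continuousAt
  have h2 := hgi.fourierInv_fourier_eq hFi hcont
  rw [hF, Real.fourierInv_eq'] at h2
  simp only [smul_zero, integral_zero] at h2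
  have h3 : (‖ξ‖⁻¹ : ℝ) • f ξ = 0 := h2.symm
  rcases smul_eq_zero.1 h3 with h | h
  · exact absurd h (inv_ne_zero (norm_ne_zero_iff.2 hξ))
  · exact h

theorem F1_pow (C : ℝ) (hC : 0 ≤ C) (f : R4 → ℂ) (a : R5)
    (h : ‖coneExt f a‖ ≤ C * ‖w a‖ ^ (-(3 / 2) : ℝ)) :
    ‖coneExt f a‖ ^ (10 / 3 : ℝ) ≤ C ^ (10 / 3 : ℝ) * ‖w a‖ ^ (-5 : ℝ) := by
  calc ‖coneExt f a‖ ^ (10 / 3 : ℝ) ≤ (C * ‖w a‖ ^ (-(3 / 2) : ℝ)) ^ (10 / 3 : ℝ) :=
        Real.rpow_le_rpow (norm_nonneg _) h (by norm_num)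
    _ = C ^ (10 / 3 : ℝ) * ‖w a‖ ^ (-5 : ℝ) := by
        rw [Real.mul_rpow hC (Real.rpow_nonneg (norm_nonneg _) _),
          ← Real.rpow_mul (norm_nonneg _)]
        norm_num

theorem F1_continuous_rho (f : R4 → ℂ) (hf : f ∈ ExpSpan) :
    Continuous fun a => ‖coneExt f a‖ ^ (10 / 3 : ℝ) :=
  (continuous_coneExt f hf).norm.rpow_const fun _ => Or.inr (by norm_num)

theorem F1_integrable_rho (f : R4 → ℂ) (hf : f ∈ ExpSpan) :
    Integrable fun a => ‖coneExt f a‖ ^ (10 / 3 : ℝ) := by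
  obtain ⟨C, hC, h⟩ := coneExt_bound f hf
  refine Integrable.mono' (F1_int_w.const_mul (C ^ (10 / 3 : ℝ)))
    (F1_continuous_rho f hf).aestronglyMeasurable (Filter.Eventually.of_forall fun a => ?_)
  rw [Real.norm_eq_abs, abs_of_nonneg (Real.rpow_nonneg (norm_nonneg _) _)]
  exact F1_pow C hC f a (h a)

theorem F1_pos (f : R4 → ℂ) (hf : f ∈ ExpSpan) (h0 : ∫ ξ, ‖f ξ‖ ^ 2 ∂sig ≠ 0) :
    0 < ∫ a, ‖coneExt f a‖ ^ (10 / 3 : ℝ) := by
  have hn : ∀ a, 0 ≤ ‖coneExt f a‖ ^ (10 / 3 : ℝ) := fun a =>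
    Real.rpow_nonneg (norm_nonneg _) _
  refine lt_of_le_of_ne (integral_nonneg hn) fun h => h0 ?_
  have h1 := (integral_eq_zero_iff_of_nonneg hn (F1_integrable_rho f hf)).1 h.symm
  have h2 := (Continuous.ae_eq_iff_eq (volume : Measure R5) (F1_continuous_rho f hf)
    continuous_const).1 h1
  have h3 : ∀ a, coneExt f a = 0 := fun a => by
    have h4 := congrFun h2 a
    have h5 : ‖coneExt f a‖ ^ (10 / 3 : ℝ) = 0 := h4
    have h6 := (Real.rpow_eq_zero (norm_nonneg _) (by norm_num)).1 h5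
    exact norm_eq_zero.1 h6
  have h4 : ∀ᵐ ξ ∂sig, ‖f ξ‖ ^ 2 = 0 := by
    have h5 : sig {0} = 0 := by
      have : sig ≪ (volume : Measure R4) := withDensity_absolutelyContinuous _ _
      exact this (measure_singleton 0)
    rw [ae_iff]
    refine measure_mono_null (fun ξ hξ => ?_) h5
    by_contra h6
    exact hξ (by rw [F1_zero f hf h3 ξ h6, norm_zero]; norm_num)
  rw [integral_congr_ae h4, integral_zero]

/-- change of variables, with translation -/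
theorem F1_change (v c : R5) (hv : v ∈ Fwd) (h : R5 → ℂ) :
    ∫ a, h a = ((lor v ^ (5 / 2 : ℝ) : ℝ) : ℂ) * ∫ a, h (boost v (a - c)) := by
  have h1 := integral_boost v hv h
  have h2 : ∫ a, h (boost v (a - c)) = ∫ a, h (boost v a) :=
    integral_sub_right_eq_self (fun a => h (boost v a)) c
  have hl := BO_lor_pos hv
  have h3 : (lor v ^ (5 / 2 : ℝ)) * lor v ^ (-(5 / 2) : ℝ) = 1 := by
    rw [← Real.rpow_add hl]
    norm_num
  have h4 : ((lor v ^ (5 / 2 : ℝ) : ℝ) : ℂ) * ((lor v ^ (-(5 / 2) : ℝ) : ℝ) : ℂ) = 1 := by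
    exact_mod_cast h3
  rw [h2, h1, ← mul_assoc, h4, one_mul]

/-- F1 : from Fa, Fb -/
theorem centering (f : R4 → ℂ) (hf : f ∈ ExpSpan) (h0 : ∫ ξ, ‖f ξ‖ ^ 2 ∂sig ≠ 0) (ε : ℝ)
    (hε : 0 < ε) : ∃ f' ∈ ExpSpan, ∫ ξ, ‖f' ξ‖ ^ 2 ∂sig = ∫ ξ, ‖f ξ‖ ^ 2 ∂sig ∧
    ∫ a, ‖coneExt f' a‖ ^ (10 / 3 : ℝ) = ∫ a, ‖coneExt f a‖ ^ (10 / 3 : ℝ) ∧
    ∀ j, ‖∫ a, X j a * (‖coneExt f' a‖ ^ (10 / 3 : ℝ) : ℝ)‖ ≤
      ε * ∫ a, ‖coneExt f a‖ ^ (10 / 3 : ℝ) := by
  obtain ⟨C, hC, hb⟩ := coneExt_bound f hf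
  obtain ⟨v, hv, c, hc⟩ := almost_center (fun a => ‖coneExt f a‖ ^ (10 / 3 : ℝ))
    (F1_continuous_rho f hf).measurable (fun a => Real.rpow_nonneg (norm_nonneg _) _)
    ⟨C ^ (10 / 3 : ℝ), fun a => F1_pow C hC f a (hb a)⟩ (F1_pos f hf h0) ε hε
  obtain ⟨f', hf', h1, h2⟩ := group_act f hf v c hv
  have hl := BO_lor_pos hv
  have h3 : ∀ a, lor v ^ (5 / 2 : ℝ) * ‖coneExt f' (boost v (a - c))‖ ^ (10 / 3 : ℝ) =
      ‖coneExt f a‖ ^ (10 / 3 : ℝ) := fun a => by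
    rw [h2 a, norm_mul, Complex.norm_real, Real.norm_eq_abs,
      abs_of_pos (Real.rpow_pos_of_pos hl _),
      Real.mul_rpow (Real.rpow_nonneg hl.le _) (norm_nonneg _), ← Real.rpow_mul hl.le,
      ← mul_assoc, ← Real.rpow_add hl]
    norm_num
  refine ⟨f', hf', h1, ?_, fun j => ?_⟩
  · have h4 := F1_change v c hv fun a => ((‖coneExt f' a‖ ^ (10 / 3 : ℝ) : ℝ) : ℂ)
    rw [← integral_const_mul] at h4
    have h5 : ∀ a, ((lor v ^ (5 / 2 : ℝ) : ℝ) : ℂ) *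
        ((‖coneExt f' (boost v (a - c))‖ ^ (10 / 3 : ℝ) : ℝ) : ℂ) =
        ((‖coneExt f a‖ ^ (10 / 3 : ℝ) : ℝ) : ℂ) := fun a => by
      rw [← h3 a]
      push_cast
      rfl
    simp only [h5] at h4
    rw [integral_complex_ofReal, integral_complex_ofReal] at h4
    exact_mod_cast h4
  · have h4 := F1_change v c hv fun a => X j a * ((‖coneExt f' a‖ ^ (10 / 3 : ℝ) : ℝ) : ℂ)
    rw [← integral_const_mul] at h4
    have h5 : ∀ a, ((lor v ^ (5 / 2 : ℝ) : ℝ) : ℂ) * (X j (boost v (a - c)) *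
        ((‖coneExt f' (boost v (a - c))‖ ^ (10 / 3 : ℝ) : ℝ) : ℂ)) =
        X j (boost v (a - c)) * ((‖coneExt f a‖ ^ (10 / 3 : ℝ) : ℝ) : ℂ) := fun a => by
      rw [← h3 a]
      push_cast
      ring
    simp only [h5] at h4
    rw [h4]
    exact hc j

end Pool.Agent.Cone
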