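import Pool.Agent.Work.MP_b0b133_an.K125

/-!
# Core of the argument: duality (K2), transfer to the dual function (K5)
-/

set_option autoImplicit false
set_option linter.unusedSectionVars false
set_option linter.unusedVariables false
set_option linter.style.longLine false
open MeasureTheory Complex
open scoped ENNReal ComplexConjugate

namespace Pool.Agent.Cone

section
variable {Ω : Type*} [MeasurableSpace Ω] {m : Measure Ω} [IsProbabilityMeasure m]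

theorem K_rpow_half {x y S : ℝ} (hx : 0 ≤ x) (h : x ^ (3 / 5 : ℝ) ≤ S * y) :
    x ^ (3 / 10 : ℝ) ≤ √(S * y) := by
  apply Real.le_sqrt_of_sq_le
  have : (x ^ (3 / 10 : ℝ)) ^ 2 = x ^ (3 / 5 : ℝ) := by
    rw [← Real.rpow_natCast, ← Real.rpow_mul hx]
    norm_num
  rw [this]
  exact h

theorem K_norm_add_sq_le {E : Type*} [NormedAddCommGroup E] (a b : E) {s : ℝ} (hs : 0 < s) :
    ‖a + b‖ ^ 2 ≤ (1 + s) * ‖a‖ ^ 2 + (1 + 1 / s) * ‖b‖ ^ 2 := by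
  have h1 : ‖a + b‖ ^ 2 ≤ (‖a‖ + ‖b‖) ^ 2 := pow_le_pow_left₀ (norm_nonneg _) (norm_add_le _ _) 2
  have h2 : 2 * (‖a‖ * ‖b‖) ≤ s * ‖a‖ ^ 2 + 1 / s * ‖b‖ ^ 2 := by
    have h3 : s * ‖a‖ ^ 2 + 1 / s * ‖b‖ ^ 2 - 2 * (‖a‖ * ‖b‖) =
        (s * ‖a‖ - ‖b‖) ^ 2 / s := by
      field_simp
      ring
    have h4 : 0 ≤ (s * ‖a‖ - ‖b‖) ^ 2 / s := by positivity
    linarith
  nlinarith

/-- the basic inequality with a parameter -/
theorem K2_step (D : Core m) (S : ℝ) (hS : ∀ F ∈ D.A, I3 F ^ (3 / 5 : ℝ) ≤ S * D.En F)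
    (G : Lp ℂ 2 m) (hG : ∃ C : ℝ, ∀ᵐ x ∂m, ‖G x‖ ≤ C) (n : ℕ) (s : ℝ) (hs : 0 < s)
    (hs1 : s ≤ 1) :
    ∑ l ∈ Finset.range n, cw l * ‖D.P l G‖ ^ 2 ≤
      I7 G ^ (7 / 10 : ℝ) *
        √(S * ((1 + s) * (∑ l ∈ Finset.range n, cw l * ‖D.P l G‖ ^ 2) + 2 * s)) + ‖G‖ * s := by
  set q := ∑ l ∈ Finset.range n, cw l * ‖D.P l G‖ ^ 2 with hq
  have hS0 : 0 ≤ S := zero_le_one.trans (K_one_le D hS)
  set Y : ℕ → Lp ℂ 2 m := fun l => (cw l : ℂ) • D.P l G with hYdef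
  have hY : ∀ l, Y l ∈ D.V l := fun l => (D.V l).smul_mem _ (D.hP l G)
  obtain ⟨F, hFA, hsum, hle⟩ := K_approx D Y hY n (s ^ 2) (by positivity)
  set H := F - ∑ l ∈ Finset.range n, Y l with hH
  have hPar : K_Par D H := K_Par_sub D (K_Par_of_hasSum D (D.A_par F hFA))
    (K_Par_sum D Y n fun i => K_Par_mem D (hY i))
  have hHn : ‖H‖ ≤ s := by
    have h1 := K_hasSum_norm D hPar
    have h2 : ‖H‖ ^ 2 ≤ s ^ 2 := by
      rw [← h1.tsum_eq]
      refine (h1.summable.tsum_le_tsum (fun k => ?_) hsum).trans hle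
      exact le_mul_of_one_le_left (by positivity) (K_cw_inv k)
    exact (pow_le_pow_iff_left₀ (norm_nonneg _) hs.le two_ne_zero).1 h2
  have hFY : F = ∑ l ∈ Finset.range n, Y l + H := by
    rw [hH]
    abel
  -- the pairing
  have hGY : inner ℂ G (∑ l ∈ Finset.range n, Y l) = ((q : ℝ) : ℂ) := by
    rw [inner_sum, hq, Complex.ofReal_sum]
    refine Finset.sum_congr rfl fun l _ => ?_
    rw [hYdef]
    simp only
    rw [inner_smul_right, ← K_inner_PP', inner_self_eq_norm_sq_to_K]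
    push_cast
    rfl
  have hq0 : 0 ≤ q := Finset.sum_nonneg fun l _ => mul_nonneg (K_cw_pos l).le (by positivity)
  have h1 : q ≤ ‖inner ℂ G F‖ + ‖G‖ * s := by
    have h2 : ((q : ℝ) : ℂ) = inner ℂ G F - inner ℂ G H := by
      rw [hFY, inner_add_right, hGY]
      ring
    have h3 : q = ‖((q : ℝ) : ℂ)‖ := by
      rw [Complex.norm_real, Real.norm_of_nonneg hq0]
    rw [h3, h2]
    refine (norm_sub_le _ _).trans ?_
    gcongr
    exact (norm_inner_le_norm _ _).trans (mul_le_mul_of_nonneg_left hHn (norm_nonneg _))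
  -- the energy
  have hPY : ∀ k, D.P k (∑ l ∈ Finset.range n, Y l) =
      if k ∈ Finset.range n then Y k else 0 := by
    intro k
    rw [map_sum]
    split_ifs with hk
    · rw [Finset.sum_eq_single_of_mem k hk, K_P_self D (hY k)]
      intro l _ hl
      exact K_P_other D hl (hY l)
    · refine Finset.sum_eq_zero fun l hl => ?_
      exact K_P_other D (by rintro rfl; exact hk hl) (hY l)
  have hEY : HasSum (fun k => (cw k)⁻¹ * ‖D.P k (∑ l ∈ Finset.range n, Y l)‖ ^ 2) q := by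
    have h2 : ∀ k ∉ Finset.range n,
        (cw k)⁻¹ * ‖D.P k (∑ l ∈ Finset.range n, Y l)‖ ^ 2 = 0 := by
      intro k hk
      rw [hPY, if_neg hk]
      simp
    have h3 : HasSum (fun k => (cw k)⁻¹ * ‖D.P k (∑ l ∈ Finset.range n, Y l)‖ ^ 2)
        (∑ k ∈ Finset.range n, (cw k)⁻¹ * ‖D.P k (∑ l ∈ Finset.range n, Y l)‖ ^ 2) :=
      hasSum_sum_of_ne_finset_zero h2
    have h4 : ∑ k ∈ Finset.range n, (cw k)⁻¹ * ‖D.P k (∑ l ∈ Finset.range n, Y l)‖ ^ 2 = q := by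
      rw [hq]
      refine Finset.sum_congr rfl fun k hk => ?_
      rw [hPY, if_pos hk, hYdef]
      simp only
      rw [norm_smul, Complex.norm_real, Real.norm_of_nonneg (K_cw_pos k).le]
      have := (K_cw_pos k).ne'
      field_simp
    rwa [h4] at h3
  have hE : D.En F ≤ (1 + s) * q + 2 * s := by
    have hterm : ∀ k, (cw k)⁻¹ * ‖D.P k F‖ ^ 2 ≤
        (1 + s) * ((cw k)⁻¹ * ‖D.P k (∑ l ∈ Finset.range n, Y l)‖ ^ 2) +
          (1 + 1 / s) * ((cw k)⁻¹ * ‖D.P k H‖ ^ 2) := by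
      intro k
      have h2 := K_norm_add_sq_le (D.P k (∑ l ∈ Finset.range n, Y l)) (D.P k H) hs
      have h3 : D.P k F = D.P k (∑ l ∈ Finset.range n, Y l) + D.P k H := by
        rw [← map_add, ← hFY]
      rw [h3]
      have h4 := mul_le_mul_of_nonneg_left h2 (inv_nonneg.2 (K_cw_pos k).le)
      linarith
    have hs2 := (hEY.summable.mul_left (1 + s)).add (hsum.mul_left (1 + 1 / s))
    have h5 := (D.A_sum F hFA).tsum_le_tsum hterm hs2
    rw [Summable.tsum_add (hEY.summable.mul_left (1 + s)) (hsum.mul_left (1 + 1 / s)),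
      tsum_mul_left, tsum_mul_left, hEY.tsum_eq] at h5
    have h6 : (1 + 1 / s) * ∑' k, (cw k)⁻¹ * ‖D.P k H‖ ^ 2 ≤ (1 + 1 / s) * s ^ 2 :=
      mul_le_mul_of_nonneg_left hle (by positivity)
    have h7 : (1 + 1 / s) * s ^ 2 = s ^ 2 + s := by
      field_simp
    have h8 : s ^ 2 ≤ s := by nlinarith
    unfold Core.En
    linarith
  have h9 := K_holder hG (D.A_bdd F hFA)
  have h10 := K_rpow_half (K_I3_nonneg F) (hS F hFA)
  have h11 : √(S * D.En F) ≤ √(S * ((1 + s) * q + 2 * s)) :=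
    Real.sqrt_le_sqrt (mul_le_mul_of_nonneg_left hE hS0)
  have h12 : I7 G ^ (7 / 10 : ℝ) * I3 F ^ (3 / 10 : ℝ) ≤
      I7 G ^ (7 / 10 : ℝ) * √(S * ((1 + s) * q + 2 * s)) :=
    mul_le_mul_of_nonneg_left (h10.trans h11) (Real.rpow_nonneg (K_I7_nonneg G) _)
  linarith

theorem K2_range (D : Core m) (S : ℝ) (hS : ∀ F ∈ D.A, I3 F ^ (3 / 5 : ℝ) ≤ S * D.En F)
    (G : Lp ℂ 2 m) (hG : ∃ C : ℝ, ∀ᵐ x ∂m, ‖G x‖ ≤ C) (n : ℕ) :
    ∑ l ∈ Finset.range n, cw l * ‖D.P l G‖ ^ 2 ≤ S * I7 G ^ (7 / 5 : ℝ) := by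
  set q := ∑ l ∈ Finset.range n, cw l * ‖D.P l G‖ ^ 2 with hq
  have hS0 : 0 ≤ S := zero_le_one.trans (K_one_le D hS)
  have hI0 := K_I7_nonneg G
  have hq0 : 0 ≤ q := Finset.sum_nonneg fun l _ => mul_nonneg (K_cw_pos l).le (by positivity)
  have h1 : q ≤ I7 G ^ (7 / 10 : ℝ) * √(S * q) := by
    have hlim : Filter.Tendsto (fun s : ℝ => I7 G ^ (7 / 10 : ℝ) *
        √(S * ((1 + s) * q + 2 * s)) + ‖G‖ * s) (nhdsWithin 0 (Set.Ioi 0))
        (nhds (I7 G ^ (7 / 10 : ℝ) * √(S * ((1 + 0) * q + 2 * 0)) + ‖G‖ * 0)) := by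
      have hc : Continuous fun s : ℝ => I7 G ^ (7 / 10 : ℝ) *
        √(S * ((1 + s) * q + 2 * s)) + ‖G‖ * s := by
        continuity
      exact (hc.tendsto 0).mono_left nhdsWithin_le_nhds
    have h2 : (I7 G ^ (7 / 10 : ℝ) * √(S * ((1 + 0) * q + 2 * 0)) + ‖G‖ * 0) =
        I7 G ^ (7 / 10 : ℝ) * √(S * q) := by
      simp
    rw [h2] at hlim
    refine ge_of_tendsto hlim ?_
    have h3 : Set.Ioo (0:ℝ) 1 ∈ nhdsWithin (0:ℝ) (Set.Ioi 0) := Ioo_mem_nhdsGT one_pos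
    filter_upwards [h3] with s hs
    exact K2_step D S hS G hG n s hs.1 hs.2.le
  have h4 : (I7 G ^ (7 / 10 : ℝ)) ^ 2 = I7 G ^ (7 / 5 : ℝ) := by
    rw [← Real.rpow_natCast, ← Real.rpow_mul hI0]
    norm_num
  rcases hq0.eq_or_lt with h0 | h0
  · rw [← h0]
    exact mul_nonneg hS0 (Real.rpow_nonneg hI0 _)
  · have h5 : q ^ 2 ≤ (I7 G ^ (7 / 10 : ℝ) * √(S * q)) ^ 2 := pow_le_pow_left₀ hq0 h1 2
    rw [mul_pow, h4, Real.sq_sqrt (mul_nonneg hS0 hq0)] at h5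
    have h6 : q * q ≤ (S * I7 G ^ (7 / 5 : ℝ)) * q := by nlinarith
    exact le_of_mul_le_mul_right h6 h0

/-- K2 : duality -/
theorem Core.Qn_le (D : Core m) (S : ℝ) (hS : ∀ F ∈ D.A, I3 F ^ (3 / 5 : ℝ) ≤ S * D.En F)
    (G : Lp ℂ 2 m) (hG : ∃ C : ℝ, ∀ᵐ x ∂m, ‖G x‖ ≤ C) :
    D.Qn G ≤ S * I7 G ^ (7 / 5 : ℝ) :=
  Real.tsum_le_of_sum_range_le (fun k => mul_nonneg (K_cw_pos k).le (by positivity))
    (K2_range D S hS G hG)

/-! ## K5 -/

/-- Cauchy-Schwarz for the pairing of two sequences of vectors -/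
theorem K_inner_le (D : Core m) (G F : Lp ℂ 2 m) (hF : F ∈ D.A) :
    ‖inner ℂ G F‖ ^ 2 ≤ D.Qn G * D.En F := by
  have hPar := K_Par_of_hasSum D (D.A_par F hF)
  have h1 := K_hasSum_inner D G hPar
  have hQ := K_Qn_summable D G
  have hE := D.A_sum F hF
  -- finite sums
  have h2 : ∀ n, ‖∑ l ∈ Finset.range n, inner ℂ (D.P l G) (D.P l F)‖ ^ 2 ≤ D.Qn G * D.En F := by
    intro n
    have h3 : ‖∑ l ∈ Finset.range n, inner ℂ (D.P l G) (D.P l F)‖ ≤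
        ∑ l ∈ Finset.range n, (√(cw l) * ‖D.P l G‖) * (√(cw l)⁻¹ * ‖D.P l F‖) := by
      refine (norm_sum_le _ _).trans (Finset.sum_le_sum fun l _ => ?_)
      refine (norm_inner_le_norm _ _).trans (le_of_eq ?_)
      have : √(cw l) * √(cw l)⁻¹ = 1 := by
        rw [← Real.sqrt_mul (K_cw_pos l).le, mul_inv_cancel₀ (K_cw_pos l).ne', Real.sqrt_one]
      calc ‖D.P l G‖ * ‖D.P l F‖ = (√(cw l) * √(cw l)⁻¹) * (‖D.P l G‖ * ‖D.P l F‖) := by
            rw [this, one_mul]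
        _ = _ := by ring
    have h4 := Finset.sum_mul_sq_le_sq_mul_sq (Finset.range n) (fun l => √(cw l) * ‖D.P l G‖)
      (fun l => √(cw l)⁻¹ * ‖D.P l F‖)
    have h5 : ∑ l ∈ Finset.range n, (√(cw l) * ‖D.P l G‖) ^ 2 ≤ D.Qn G := by
      have : ∀ l, (√(cw l) * ‖D.P l G‖) ^ 2 = cw l * ‖D.P l G‖ ^ 2 := fun l => by
        rw [mul_pow, Real.sq_sqrt (K_cw_pos l).le]
      simp only [this]
      exact hQ.sum_le_tsum _ fun l _ => mul_nonneg (K_cw_pos l).le (by positivity)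
    have h6 : ∑ l ∈ Finset.range n, (√(cw l)⁻¹ * ‖D.P l F‖) ^ 2 ≤ D.En F := by
      have : ∀ l, (√(cw l)⁻¹ * ‖D.P l F‖) ^ 2 = (cw l)⁻¹ * ‖D.P l F‖ ^ 2 := fun l => by
        rw [mul_pow, Real.sq_sqrt (inv_nonneg.2 (K_cw_pos l).le)]
      simp only [this]
      exact hE.sum_le_tsum _ fun l _ =>
        mul_nonneg (inv_nonneg.2 (K_cw_pos l).le) (by positivity)
    calc _ ≤ (∑ l ∈ Finset.range n, (√(cw l) * ‖D.P l G‖) * (√(cw l)⁻¹ * ‖D.P l F‖)) ^ 2 :=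
          pow_le_pow_left₀ (norm_nonneg _) h3 2
      _ ≤ _ := h4
      _ ≤ D.Qn G * D.En F := mul_le_mul h5 h6 (Finset.sum_nonneg fun l _ => sq_nonneg _)
          (K_Qn_nonneg D G)
  have h7 : Filter.Tendsto (fun n => ‖∑ l ∈ Finset.range n, inner ℂ (D.P l G) (D.P l F)‖ ^ 2)
      Filter.atTop (nhds (‖inner ℂ G F‖ ^ 2)) := (h1.tendsto_sum_nat.norm).pow 2
  exact le_of_tendsto' h7 h2

/-- K5 : from `F` to `G = |F|^{4/3} F` -/
theorem Core.transfer (D : Core m) (S : ℝ)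
    (hS : ∀ F ∈ D.A, I3 F ^ (3 / 5 : ℝ) ≤ S * D.En F)
    (hQ : ∀ G : Lp ℂ 2 m, (∃ C : ℝ, ∀ᵐ x ∂m, ‖G x‖ ≤ C) → D.Qn G ≤ S * I7 G ^ (7 / 5 : ℝ))
    (F : Lp ℂ 2 m) (hF : F ∈ D.A) (hE : D.En F = 1) (δ : ℝ) (hδ : 0 < δ)
    (h : S - δ ≤ I3 F ^ (3 / 5 : ℝ)) :
    ∃ G : Lp ℂ 2 m, (∃ C : ℝ, ∀ᵐ x ∂m, ‖G x‖ ≤ C) ∧ I7 G = 1 ∧ S - δ ≤ D.Qn G ∧
      (∀ j, ∫ x, D.X j x * (‖G x‖ ^ (10 / 7 : ℝ) : ℝ) ∂m =
        ((I3 F)⁻¹ : ℝ) * ∫ x, D.X j x * (‖F x‖ ^ (10 / 3 : ℝ) : ℝ) ∂m) ∧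
      (Summable fun l => |cw l * ‖D.P l G‖ ^ 2 - I3 F ^ (3 / 5 : ℝ) * ((cw l)⁻¹ * ‖D.P l F‖ ^ 2)|) ∧
      ∑' l, |cw l * ‖D.P l G‖ ^ 2 - I3 F ^ (3 / 5 : ℝ) * ((cw l)⁻¹ * ‖D.P l F‖ ^ 2)| ≤
        2 * √(S * δ) := by
  have hS1 : 1 ≤ S := K_one_le D hS
  have hS0 : 0 ≤ S := zero_le_one.trans hS1
  obtain ⟨C, hC⟩ := D.A_bdd F hF
  have hI3 : 0 < I3 F := by
    rcases (K_I3_nonneg F).eq_or_lt with h0 | h0
    · exfalso
      have h1 : F = 0 := by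
        have h2 : (fun x => ‖F x‖ ^ (10 / 3 : ℝ)) =ᵐ[m] 0 :=
          (integral_eq_zero_iff_of_nonneg (fun x => Real.rpow_nonneg (norm_nonneg _) _)
            (K_integrable_rpow ⟨C, hC⟩ (by norm_num))).1 h0.symm
        rw [Lp.eq_zero_iff_ae_eq_zero]
        filter_upwards [h2] with x hx
        have h3 : ‖F x‖ ^ (10 / 3 : ℝ) = 0 := hx
        rw [Real.rpow_eq_zero (norm_nonneg _) (by norm_num)] at h3
        simpa using h3
      rw [h1] at hE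
      have h2 : D.En (0 : Lp ℂ 2 m) = 0 := by
        unfold Core.En
        simp
      rw [h2] at hE
      norm_num at hE
    · exact h0
  set I := I3 F with hI
  set N := I ^ (3 / 5 : ℝ) with hN
  have hN0 : 0 < N := Real.rpow_pos_of_pos hI3 _
  -- the dual function
  set g : Ω → ℂ := fun x => ((I ^ (-(7 / 10) : ℝ) * ‖F x‖ ^ (4 / 3 : ℝ) : ℝ) : ℂ) * F x with hg
  have hgm : AEStronglyMeasurable g m := by
    have h1 : AEStronglyMeasurable (fun x => F x) m := Lp.aestronglyMeasurable F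
    have h2 : AEMeasurable (fun x => ‖F x‖ ^ (4 / 3 : ℝ)) m := h1.norm.aemeasurable.pow_const _
    have h3 : AEMeasurable (fun x => ((I ^ (-(7 / 10) : ℝ) * ‖F x‖ ^ (4 / 3 : ℝ) : ℝ) : ℂ)) m :=
      Complex.measurable_ofReal.comp_aemeasurable (h2.const_mul _)
    exact h3.aestronglyMeasurable.mul h1
  have hgn : ∀ x, ‖g x‖ = I ^ (-(7 / 10) : ℝ) * ‖F x‖ ^ (7 / 3 : ℝ) := by
    intro x
    rw [hg]
    simp only
    rw [norm_mul, Complex.norm_real, Real.norm_of_nonneg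
      (mul_nonneg (Real.rpow_nonneg hI3.le _) (Real.rpow_nonneg (norm_nonneg _) _)), mul_assoc]
    congr 1
    conv_lhs => rw [← Real.rpow_one ‖F x‖]
    rcases (norm_nonneg (F x)).eq_or_lt with h0 | h0
    · rw [← h0]
      rw [Real.rpow_one, Real.zero_rpow (by norm_num), Real.zero_rpow (by norm_num), zero_mul]
    · rw [Real.rpow_one, ← Real.rpow_add_one h0.ne']
      norm_num
  have hgb : ∀ᵐ x ∂m, ‖g x‖ ≤ I ^ (-(7 / 10) : ℝ) * (max C 0) ^ (7 / 3 : ℝ) := by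
    filter_upwards [hC] with x hx
    rw [hgn]
    refine mul_le_mul_of_nonneg_left ?_ (Real.rpow_nonneg hI3.le _)
    exact Real.rpow_le_rpow (norm_nonneg _) (hx.trans (le_max_left _ _)) (by norm_num)
  have hgL : MemLp g 2 m := MemLp.of_bound hgm _ hgb
  set G : Lp ℂ 2 m := hgL.toLp g with hGdef
  have hGg : (G : Ω → ℂ) =ᵐ[m] g := hgL.coeFn_toLp
  have hGb : ∃ C' : ℝ, ∀ᵐ x ∂m, ‖G x‖ ≤ C' := by
    refine ⟨I ^ (-(7 / 10) : ℝ) * (max C 0) ^ (7 / 3 : ℝ), ?_⟩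
    filter_upwards [hGg, hgb] with x hx1 hx2
    rw [hx1]
    exact hx2
  have hpow : ∀ᵐ x ∂m, ‖G x‖ ^ (10 / 7 : ℝ) = I⁻¹ * ‖F x‖ ^ (10 / 3 : ℝ) := by
    filter_upwards [hGg] with x hx
    rw [hx, hgn, Real.mul_rpow (Real.rpow_nonneg hI3.le _) (Real.rpow_nonneg (norm_nonneg _) _),
      ← Real.rpow_mul hI3.le, ← Real.rpow_mul (norm_nonneg _)]
    norm_num
    left
    exact Real.rpow_neg_one I
  have hI7 : I7 G = 1 := by
    unfold I7
    rw [integral_congr_ae hpow, integral_const_mul]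
    exact inv_mul_cancel₀ hI3.ne'
  -- the pairing
  have hpair : inner ℂ G F = ((I ^ (3 / 10 : ℝ) : ℝ) : ℂ) := by
    rw [MeasureTheory.L2.inner_def]
    have h1 : ∀ᵐ x ∂m, inner ℂ (G x) (F x) =
        ((I ^ (-(7 / 10) : ℝ) * ‖F x‖ ^ (10 / 3 : ℝ) : ℝ) : ℂ) := by
      filter_upwards [hGg] with x hx
      rw [hx, hg]
      simp only
      rw [← smul_eq_mul, inner_smul_left, inner_self_eq_norm_sq_to_K]
      rcases (norm_nonneg (F x)).eq_or_lt with h0 | h0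
      · rw [← h0]
        rw [Real.zero_rpow (by norm_num), Real.zero_rpow (by norm_num)]
        simp
      · have h2 : ‖F x‖ ^ (10 / 3 : ℝ) = ‖F x‖ ^ (4 / 3 : ℝ) * ‖F x‖ ^ 2 := by
          rw [← Real.rpow_natCast, ← Real.rpow_add h0]
          norm_num
        rw [h2]
        simp only [Complex.conj_ofReal]
        push_cast
        simp only [Complex.coe_algebraMap]
        ring
    rw [integral_congr_ae h1, integral_complex_ofReal, integral_const_mul]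
    congr 1
    have h3 : ∫ x, ‖F x‖ ^ (10 / 3 : ℝ) ∂m = I := rfl
    rw [h3, ← Real.rpow_add_one hI3.ne']
    norm_num
  have hNs : (I ^ (3 / 10 : ℝ)) ^ 2 = N := by
    rw [hN, ← Real.rpow_natCast, ← Real.rpow_mul hI3.le]
    norm_num
  have hpairn : ‖inner ℂ G F‖ ^ 2 = N := by
    rw [hpair, Complex.norm_real, Real.norm_of_nonneg (Real.rpow_nonneg hI3.le _), hNs]
  have hQN : N ≤ D.Qn G := by
    have := K_inner_le D G F hF
    rw [hE, mul_one, hpairn] at this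
    exact this
  have hQS : D.Qn G ≤ S := by
    have := hQ G hGb
    rwa [hI7, Real.one_rpow, mul_one] at this
  have hNS : N ≤ S := hQN.trans hQS
  -- the sequences
  have hQs := K_Qn_summable D G
  have hEs := D.A_sum F hF
  have hEs' : Summable fun l => N * ((cw l)⁻¹ * ‖D.P l F‖ ^ 2) := hEs.mul_left N
  have hdiff : Summable fun l => cw l * ‖D.P l G‖ ^ 2 - N * ((cw l)⁻¹ * ‖D.P l F‖ ^ 2) :=
    hQs.sub hEs'
  refine ⟨G, hGb, hI7, h.trans hQN, ?_, hdiff.abs, ?_⟩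
  · intro j
    rw [← integral_const_mul]
    refine integral_congr_ae ?_
    filter_upwards [hpow] with x hx
    rw [hx]
    push_cast
    ring
  · -- vectors
    set a : ℕ → Lp ℂ 2 m := fun l => ((√(cw l) : ℝ) : ℂ) • D.P l G with ha
    set b : ℕ → Lp ℂ 2 m := fun l => ((√N * √(cw l)⁻¹ : ℝ) : ℂ) • D.P l F with hb
    have ha2 : ∀ l, ‖a l‖ ^ 2 = cw l * ‖D.P l G‖ ^ 2 := by
      intro l
      rw [ha]
      simp only
      rw [norm_smul, Complex.norm_real, Real.norm_of_nonneg (Real.sqrt_nonneg _), mul_pow,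
        Real.sq_sqrt (K_cw_pos l).le]
    have hb2 : ∀ l, ‖b l‖ ^ 2 = N * ((cw l)⁻¹ * ‖D.P l F‖ ^ 2) := by
      intro l
      rw [hb]
      simp only
      rw [norm_smul, Complex.norm_real, Real.norm_of_nonneg
        (mul_nonneg (Real.sqrt_nonneg _) (Real.sqrt_nonneg _)), mul_pow, mul_pow,
        Real.sq_sqrt (inv_nonneg.2 (K_cw_pos l).le), Real.sq_sqrt hN0.le]
      ring
    have hab : ∀ l, ‖a l - b l‖ ^ 2 = cw l * ‖D.P l G‖ ^ 2 +
        N * ((cw l)⁻¹ * ‖D.P l F‖ ^ 2) - 2 * (√N * (inner ℂ (D.P l G) (D.P l F)).re) := by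
      intro l
      rw [@norm_sub_sq ℂ, ha2, hb2, ha, hb]
      simp only
      rw [inner_smul_left, inner_smul_right, Complex.conj_ofReal]
      have h1 : (((√(cw l) : ℝ) : ℂ) * (((√N * √(cw l)⁻¹ : ℝ) : ℂ) *
          inner ℂ (D.P l G) (D.P l F))) = ((√N : ℝ) : ℂ) * inner ℂ (D.P l G) (D.P l F) := by
        have : √(cw l) * √(cw l)⁻¹ = 1 := by
          rw [← Real.sqrt_mul (K_cw_pos l).le, mul_inv_cancel₀ (K_cw_pos l).ne', Real.sqrt_one]
        have h2 : ((√(cw l) : ℝ) : ℂ) * ((√(cw l)⁻¹ : ℝ) : ℂ) = 1 := by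
          exact_mod_cast this
        push_cast
        calc _ = (((√(cw l) : ℝ) : ℂ) * ((√(cw l)⁻¹ : ℝ) : ℂ)) * ((√N : ℝ) : ℂ) *
              inner ℂ (D.P l G) (D.P l F) := by ring
          _ = _ := by rw [h2, one_mul]
      rw [h1]
      have h3 : RCLike.re (((√N : ℝ) : ℂ) * inner ℂ (D.P l G) (D.P l F)) =
          √N * (inner ℂ (D.P l G) (D.P l F)).re := by
        simp
      rw [h3]
      ring
    have hPar := K_Par_of_hasSum D (D.A_par F hF)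
    have hin := K_hasSum_inner D G hPar
    have hinre : HasSum (fun l => (inner ℂ (D.P l G) (D.P l F)).re) (I ^ (3 / 10 : ℝ)) := by
      have h1 := Complex.hasSum_re hin
      rw [hpair, Complex.ofReal_re] at h1
      exact h1
    have hsqN : √N = I ^ (3 / 10 : ℝ) := by
      rw [← hNs, Real.sqrt_sq (Real.rpow_nonneg hI3.le _)]
    have hEt : ∑' l, (cw l)⁻¹ * ‖D.P l F‖ ^ 2 = 1 := hE
    have hQt : ∑' l, cw l * ‖D.P l G‖ ^ 2 = D.Qn G := rfl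
    have habs : HasSum (fun l => ‖a l - b l‖ ^ 2) (D.Qn G - N) := by
      have h1 := (hQs.hasSum.add hEs'.hasSum).sub ((hinre.mul_left (√N)).mul_left 2)
      rw [tsum_mul_left, hEt, hQt] at h1
      simp only [hab]
      have : I ^ (3 / 10 : ℝ) * I ^ (3 / 10 : ℝ) = N := by rw [← hNs]; ring
      have h2 : D.Qn G + N * 1 - 2 * (√N * I ^ (3 / 10 : ℝ)) = D.Qn G - N := by
        rw [hsqN, this]
        ring
      rw [h2] at h1
      exact h1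
    have hNδ : D.Qn G - N ≤ δ := by linarith
    have hsumab : HasSum (fun l => ‖a l‖ ^ 2 + ‖b l‖ ^ 2) (D.Qn G + N) := by
      have h1 := hQs.hasSum.add hEs'.hasSum
      rw [tsum_mul_left, hEt, hQt, mul_one] at h1
      simpa only [ha2, hb2] using h1
    refine Real.tsum_le_of_sum_range_le (fun l => abs_nonneg _) fun n => ?_
    have hterm : ∀ l, |cw l * ‖D.P l G‖ ^ 2 - N * ((cw l)⁻¹ * ‖D.P l F‖ ^ 2)| ≤
        ‖a l - b l‖ * (‖a l‖ + ‖b l‖) := by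
      intro l
      rw [← ha2, ← hb2]
      have h1 : ‖a l‖ ^ 2 - ‖b l‖ ^ 2 = (‖a l‖ - ‖b l‖) * (‖a l‖ + ‖b l‖) := by ring
      rw [h1, abs_mul, abs_of_nonneg (add_nonneg (norm_nonneg _) (norm_nonneg _))]
      exact mul_le_mul_of_nonneg_right (abs_norm_sub_norm_le _ _)
        (add_nonneg (norm_nonneg _) (norm_nonneg _))
    have h1 : ∑ l ∈ Finset.range n, |cw l * ‖D.P l G‖ ^ 2 - N * ((cw l)⁻¹ * ‖D.P l F‖ ^ 2)| ≤
        ∑ l ∈ Finset.range n, ‖a l - b l‖ * (‖a l‖ + ‖b l‖) :=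
      Finset.sum_le_sum fun l _ => hterm l
    have h2 := Finset.sum_mul_sq_le_sq_mul_sq (Finset.range n) (fun l => ‖a l - b l‖)
      (fun l => ‖a l‖ + ‖b l‖)
    have h3 : ∑ l ∈ Finset.range n, ‖a l - b l‖ ^ 2 ≤ δ :=
      (sum_le_hasSum _ (fun l _ => sq_nonneg _) habs).trans hNδ
    have h4 : ∑ l ∈ Finset.range n, (‖a l‖ + ‖b l‖) ^ 2 ≤ 4 * S := by
      have h5 : ∑ l ∈ Finset.range n, (‖a l‖ + ‖b l‖) ^ 2 ≤
          ∑ l ∈ Finset.range n, 2 * (‖a l‖ ^ 2 + ‖b l‖ ^ 2) := by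
        refine Finset.sum_le_sum fun l _ => ?_
        nlinarith [sq_nonneg (‖a l‖ - ‖b l‖)]
      rw [← Finset.mul_sum] at h5
      have h6 := sum_le_hasSum (Finset.range n)
        (fun l _ => add_nonneg (sq_nonneg ‖a l‖) (sq_nonneg ‖b l‖)) hsumab
      linarith
    have h7 : 0 ≤ ∑ l ∈ Finset.range n, ‖a l - b l‖ * (‖a l‖ + ‖b l‖) :=
      Finset.sum_nonneg fun l _ => mul_nonneg (norm_nonneg _)
        (add_nonneg (norm_nonneg _) (norm_nonneg _))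
    have h8 : (∑ l ∈ Finset.range n, ‖a l - b l‖ * (‖a l‖ + ‖b l‖)) ^ 2 ≤ δ * (4 * S) :=
      h2.trans (mul_le_mul h3 h4 (Finset.sum_nonneg fun l _ => sq_nonneg _) hδ.le)
    have h9 : ∑ l ∈ Finset.range n, ‖a l - b l‖ * (‖a l‖ + ‖b l‖) ≤ √(δ * (4 * S)) :=
      Real.le_sqrt_of_sq_le h8
    have h10 : √(δ * (4 * S)) = 2 * √(S * δ) := by
      have : δ * (4 * S) = 2 ^ 2 * (S * δ) := by ring
      rw [this, Real.sqrt_mul (by norm_num), Real.sqrt_sq (by norm_num)]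
    rw [h10] at h9
    exact h1.trans h9

end

end Pool.Agent.Cone
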