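import Pool.Agent.Work.MP_b0b133_an.SecVar
import Pool.Agent.Work.MP_b0b133_an.CoreDefs

/-!
# Second variation of the dual quotient (module K4)
-/

set_option autoImplicit false
open MeasureTheory Complex
open scoped ENNReal ComplexConjugate

namespace Pool.Agent.Cone

section one

variable {Ω : Type*} [MeasurableSpace Ω] {m : Measure Ω}

theorem K4_int {ρ : Ω → ℝ} (hρi : Integrable ρ m) {f : Ω → ℝ} (hf : AEStronglyMeasurable f m)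
    {C : ℝ} (hC : ∀ x, ‖f x‖ ≤ C) : Integrable (fun x => f x * ρ x) m :=
  hρi.bdd_mul hf (Filter.Eventually.of_forall hC)

/-- Upper bound for one sign. -/
theorem K4_sign {ρ : Ω → ℝ} (hρ0 : ∀ x, 0 ≤ ρ x) (hρi : Integrable ρ m)
    (hρ1 : ∫ x, ρ x ∂m = 1) {h : Ω → ℂ} (hm : AEStronglyMeasurable h m)
    (hb : ∀ x, ‖h x‖ ≤ 1) {ε : ℝ} (hε : |ε| ≤ 1 / 2) :
    ∫ x, ‖1 + ε * h x‖ ^ (10 / 7 : ℝ) * ρ x ∂m ≤
      1 + (10 / 7 * ε * ∫ x, (h x).re * ρ x ∂m) +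
        ε ^ 2 * (5 / 7 * (∫ x, ‖h x‖ ^ 2 * ρ x ∂m) - 20 / 49 * ∫ x, (h x).re ^ 2 * ρ x ∂m) +
        11 / 10 * |ε| ^ 3 := by
  have hre : AEStronglyMeasurable (fun x => (h x).re) m :=
    Complex.continuous_re.comp_aestronglyMeasurable hm
  have hn : AEStronglyMeasurable (fun x => ‖h x‖) m := hm.norm
  have hreb : ∀ x, ‖(h x).re‖ ≤ 1 := fun x =>
    (Real.norm_eq_abs _ ▸ Complex.abs_re_le_norm (h x)).trans (hb x)
  have i1 : Integrable (fun x => (h x).re * ρ x) m := K4_int hρi hre hreb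
  have i2 : Integrable (fun x => ‖h x‖ ^ 2 * ρ x) m := by
    refine K4_int hρi (hn.pow 2) (C := 1) fun x => ?_
    rw [norm_pow, norm_norm]
    exact pow_le_one₀ (norm_nonneg _) (hb x)
  have i3 : Integrable (fun x => (h x).re ^ 2 * ρ x) m := by
    refine K4_int hρi (hre.pow 2) (C := 1) fun x => ?_
    rw [norm_pow]
    exact pow_le_one₀ (norm_nonneg _) (hreb x)
  have i0 : Integrable (fun x => ‖1 + ε * h x‖ ^ (10 / 7 : ℝ) * ρ x) m := by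
    refine K4_int hρi ?_ (C := 2 ^ (10 / 7 : ℝ)) fun x => ?_
    · exact ((aestronglyMeasurable_const.add (aestronglyMeasurable_const.mul hm)).norm.aemeasurable.pow_const
        _).aestronglyMeasurable
    · rw [Real.norm_of_nonneg (Real.rpow_nonneg (norm_nonneg _) _)]
      refine Real.rpow_le_rpow (norm_nonneg _) ?_ (by norm_num)
      calc ‖1 + ε * h x‖ ≤ ‖(1 : ℂ)‖ + ‖(ε : ℂ) * h x‖ := norm_add_le _ _
        _ ≤ 1 + 1 / 2 * 1 := by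
          rw [norm_one, norm_mul, Complex.norm_real, Real.norm_eq_abs]
          gcongr
          exact hb x
        _ ≤ 2 := by norm_num
  have key : ∀ x, ‖1 + ε * h x‖ ^ (10 / 7 : ℝ) * ρ x ≤
      ρ x + 10 / 7 * ε * ((h x).re * ρ x) + ε ^ 2 * (5 / 7 * (‖h x‖ ^ 2 * ρ x) -
        20 / 49 * ((h x).re ^ 2 * ρ x)) + 11 / 10 * |ε| ^ 3 * ρ x := by
    intro x
    have hz : ‖(ε : ℂ) * h x‖ ≤ 1 / 2 := by
      rw [norm_mul, Complex.norm_real, Real.norm_eq_abs]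
      calc |ε| * ‖h x‖ ≤ 1 / 2 * 1 := by gcongr; exact hb x
        _ = 1 / 2 := by norm_num
    have h1 := sec_pt hz
    have e1 : ((ε : ℂ) * h x).re = ε * (h x).re := Complex.re_ofReal_mul _ _
    have e2 : ‖(ε : ℂ) * h x‖ = |ε| * ‖h x‖ := by
      rw [norm_mul, Complex.norm_real, Real.norm_eq_abs]
    rw [e1, e2] at h1
    have e3 : (|ε| * ‖h x‖) ^ 2 = ε ^ 2 * ‖h x‖ ^ 2 := by rw [mul_pow, sq_abs]
    have h3 : (|ε| * ‖h x‖) ^ 3 ≤ |ε| ^ 3 := by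
      rw [mul_pow]
      calc |ε| ^ 3 * ‖h x‖ ^ 3 ≤ |ε| ^ 3 * 1 := by
            gcongr
            exact pow_le_one₀ (norm_nonneg _) (hb x)
        _ = |ε| ^ 3 := mul_one _
    rw [e3] at h1
    have h4 : ‖1 + ε * h x‖ ^ (10 / 7 : ℝ) ≤ 1 + 10 / 7 * (ε * (h x).re) +
        5 / 7 * (ε ^ 2 * ‖h x‖ ^ 2) - 20 / 49 * (ε * (h x).re) ^ 2 + 11 / 10 * |ε| ^ 3 := by
      linarith
    have h5 := mul_le_mul_of_nonneg_right h4 (hρ0 x)
    refine h5.trans (le_of_eq ?_)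
    ring
  have hint : Integrable (fun x => ρ x + 10 / 7 * ε * ((h x).re * ρ x) + ε ^ 2 *
      (5 / 7 * (‖h x‖ ^ 2 * ρ x) - 20 / 49 * ((h x).re ^ 2 * ρ x)) + 11 / 10 * |ε| ^ 3 * ρ x) m :=
    ((hρi.add (i1.const_mul _)).add (((i2.const_mul _).sub (i3.const_mul _)).const_mul _)).add
      (hρi.const_mul _)
  refine (integral_mono i0 hint key).trans (le_of_eq ?_)
  have a1 : Integrable (fun x => ρ x + 10 / 7 * ε * ((h x).re * ρ x)) m := hρi.add (i1.const_mul _)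
  have a2 : Integrable (fun x => ε ^ 2 * (5 / 7 * (‖h x‖ ^ 2 * ρ x) -
      20 / 49 * ((h x).re ^ 2 * ρ x))) m := ((i2.const_mul _).sub (i3.const_mul _)).const_mul _
  have b1 : ∫ x, (ρ x + 10 / 7 * ε * ((h x).re * ρ x) + ε ^ 2 * (5 / 7 * (‖h x‖ ^ 2 * ρ x) -
      20 / 49 * ((h x).re ^ 2 * ρ x)) + 11 / 10 * |ε| ^ 3 * ρ x) ∂m =
      (∫ x, (ρ x + 10 / 7 * ε * ((h x).re * ρ x) + ε ^ 2 * (5 / 7 * (‖h x‖ ^ 2 * ρ x) -
      20 / 49 * ((h x).re ^ 2 * ρ x))) ∂m) + ∫ x, 11 / 10 * |ε| ^ 3 * ρ x ∂m :=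
    integral_add (a1.add a2) (hρi.const_mul _)
  have b2 : ∫ x, (ρ x + 10 / 7 * ε * ((h x).re * ρ x) + ε ^ 2 * (5 / 7 * (‖h x‖ ^ 2 * ρ x) -
      20 / 49 * ((h x).re ^ 2 * ρ x))) ∂m = (∫ x, (ρ x + 10 / 7 * ε * ((h x).re * ρ x)) ∂m) +
      ∫ x, ε ^ 2 * (5 / 7 * (‖h x‖ ^ 2 * ρ x) - 20 / 49 * ((h x).re ^ 2 * ρ x)) ∂m :=
    integral_add a1 a2
  have b3 : ∫ x, (ρ x + 10 / 7 * ε * ((h x).re * ρ x)) ∂m =
      (∫ x, ρ x ∂m) + ∫ x, 10 / 7 * ε * ((h x).re * ρ x) ∂m :=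
    integral_add hρi (i1.const_mul _)
  have b4 : ∫ x, (5 / 7 * (‖h x‖ ^ 2 * ρ x) - 20 / 49 * ((h x).re ^ 2 * ρ x)) ∂m =
      (∫ x, 5 / 7 * (‖h x‖ ^ 2 * ρ x) ∂m) - ∫ x, 20 / 49 * ((h x).re ^ 2 * ρ x) ∂m :=
    integral_sub (i2.const_mul _) (i3.const_mul _)
  rw [b1, b2, b3, integral_const_mul, integral_const_mul, integral_const_mul, b4,
    integral_const_mul, integral_const_mul, hρ1, mul_one]

/-- Both signs. -/
theorem K4_one {ρ : Ω → ℝ} (hρ0 : ∀ x, 0 ≤ ρ x) (hρi : Integrable ρ m)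
    (hρ1 : ∫ x, ρ x ∂m = 1) {h : Ω → ℂ} (hm : AEStronglyMeasurable h m)
    (hb : ∀ x, ‖h x‖ ≤ 1) {η : ℝ} (hη : |∫ x, (h x).re * ρ x ∂m| ≤ η) {ε : ℝ} (h0 : 0 < ε)
    (h1 : ε ≤ 1 / 2) :
    (∫ x, ‖1 + (ε : ℂ) * h x‖ ^ (10 / 7 : ℝ) * ρ x ∂m) ^ (7 / 5 : ℝ) +
      (∫ x, ‖1 + ((-ε : ℝ) : ℂ) * h x‖ ^ (10 / 7 : ℝ) * ρ x ∂m) ^ (7 / 5 : ℝ) ≤
      2 + 2 * ε ^ 2 * ((∫ x, ‖h x‖ ^ 2 * ρ x ∂m) - 4 / 7 * ∫ x, (h x).re ^ 2 * ρ x ∂m) +
        5 * ε ^ 3 + 4 * ε ^ 2 * η ^ 2 := by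
  have hre : AEStronglyMeasurable (fun x => (h x).re) m :=
    Complex.continuous_re.comp_aestronglyMeasurable hm
  have hreb : ∀ x, ‖(h x).re‖ ≤ 1 := fun x =>
    (Real.norm_eq_abs _ ▸ Complex.abs_re_le_norm (h x)).trans (hb x)
  have i2 : Integrable (fun x => ‖h x‖ ^ 2 * ρ x) m := by
    refine K4_int hρi (hm.norm.pow 2) (C := 1) fun x => ?_
    rw [norm_pow, norm_norm]
    exact pow_le_one₀ (norm_nonneg _) (hb x)
  have i3 : Integrable (fun x => (h x).re ^ 2 * ρ x) m := by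
    refine K4_int hρi (hre.pow 2) (C := 1) fun x => ?_
    rw [norm_pow]
    exact pow_le_one₀ (norm_nonneg _) (hreb x)
  have hp := K4_sign hρ0 hρi hρ1 hm hb (ε := ε) (by rw [abs_of_pos h0]; exact h1)
  have hn := K4_sign hρ0 hρi hρ1 hm hb (ε := -ε) (by rw [abs_neg, abs_of_pos h0]; exact h1)
  rw [abs_of_pos h0] at hp
  rw [abs_neg, abs_of_pos h0] at hn
  set m1 := ∫ x, (h x).re * ρ x ∂m
  set n2 := ∫ x, ‖h x‖ ^ 2 * ρ x ∂m with hn2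
  set r2 := ∫ x, (h x).re ^ 2 * ρ x ∂m with hr2
  have hr0 : 0 ≤ r2 := integral_nonneg fun x => mul_nonneg (sq_nonneg _) (hρ0 x)
  have hrn : r2 ≤ n2 := by
    refine integral_mono i3 i2 fun x => ?_
    refine mul_le_mul_of_nonneg_right ?_ (hρ0 x)
    rw [← sq_abs]
    exact pow_le_pow_left₀ (abs_nonneg _) (Complex.abs_re_le_norm _) 2
  have hn1 : n2 ≤ 1 := by
    rw [← hρ1]
    refine integral_mono i2 hρi fun x => ?_
    calc ‖h x‖ ^ 2 * ρ x ≤ 1 * ρ x :=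
          mul_le_mul_of_nonneg_right (pow_le_one₀ (norm_nonneg _) (hb x)) (hρ0 x)
      _ = ρ x := one_mul _
  set p1 := ∫ x, ‖1 + (ε : ℂ) * h x‖ ^ (10 / 7 : ℝ) * ρ x ∂m
  set p2 := ∫ x, ‖1 + ((-ε : ℝ) : ℂ) * h x‖ ^ (10 / 7 : ℝ) * ρ x ∂m
  have hp1 : 0 ≤ p1 := integral_nonneg fun x => mul_nonneg (Real.rpow_nonneg (norm_nonneg _) _)
    (hρ0 x)
  have hp2 : 0 ≤ p2 := integral_nonneg fun x => mul_nonneg (Real.rpow_nonneg (norm_nonneg _) _)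
    (hρ0 x)
  set A := 5 / 7 * n2 - 20 / 49 * r2 with hA
  have hA0 : 0 ≤ A := by rw [hA]; linarith
  have hA1 : A ≤ 5 / 7 := by rw [hA]; linarith
  set B := ε ^ 2 * A + 11 / 10 * ε ^ 3 with hB
  have hε3 : 0 < ε ^ 3 := by positivity
  have hε23 : ε ^ 3 ≤ 1 / 2 * ε ^ 2 := by nlinarith [sq_nonneg ε]
  have hB0 : 0 ≤ B := by positivity
  have hB1 : B ≤ 127 / 100 * ε ^ 2 := by
    have : ε ^ 2 * A ≤ ε ^ 2 * (5 / 7) := mul_le_mul_of_nonneg_left hA1 (sq_nonneg _)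
    rw [hB]
    nlinarith
  have hB2 : B ^ 2 ≤ 81 / 100 * ε ^ 3 := by
    have h5 : B ^ 2 ≤ (127 / 100 * ε ^ 2) ^ 2 := pow_le_pow_left₀ hB0 hB1 2
    nlinarith [mul_pos hε3 h0]
  set u := 10 / 7 * ε * m1 with hu
  have hu2 : u ^ 2 ≤ 205 / 100 * (ε ^ 2 * η ^ 2) := by
    have h6 : m1 ^ 2 ≤ η ^ 2 := sq_le_sq' (by linarith [(abs_le.1 hη).1]) (abs_le.1 hη).2
    have h7 : ε ^ 2 * m1 ^ 2 ≤ ε ^ 2 * η ^ 2 := mul_le_mul_of_nonneg_left h6 (sq_nonneg _)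
    have h8 : 0 ≤ ε ^ 2 * η ^ 2 := by positivity
    have e9 : u ^ 2 = 100 / 49 * (ε ^ 2 * m1 ^ 2) := by rw [hu]; ring
    rw [e9]
    nlinarith
  have hp' : p1 ≤ 1 + (u + B) := by rw [hB]; linarith
  have hn' : p2 ≤ 1 + (-u + B) := by
    have e1 : (-ε) ^ 2 = ε ^ 2 := by ring
    have e2 : 10 / 7 * -ε * m1 = -u := by rw [hu]; ring
    rw [e1, e2] at hn
    rw [hB]
    linarith
  have q1 : p1 ^ (7 / 5 : ℝ) ≤ 1 + 7 / 5 * (u + B) + 2 / 5 * (u + B) ^ 2 := by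
    have h9 := Real.rpow_le_rpow hp1 hp' (by norm_num : (0 : ℝ) ≤ 7 / 5)
    refine h9.trans ((rpow75_le (hp1.trans hp')).trans (le_of_eq ?_))
    ring
  have q2 : p2 ^ (7 / 5 : ℝ) ≤ 1 + 7 / 5 * (-u + B) + 2 / 5 * (-u + B) ^ 2 := by
    have h9 := Real.rpow_le_rpow hp2 hn' (by norm_num : (0 : ℝ) ≤ 7 / 5)
    refine h9.trans ((rpow75_le (hp2.trans hn')).trans (le_of_eq ?_))
    ring
  have e10 : 14 / 5 * B = 2 * ε ^ 2 * (n2 - 4 / 7 * r2) + 154 / 50 * ε ^ 3 := by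
    rw [hB, hA]; ring
  nlinarith

end one

/-! ### The dual quadratic form -/

namespace Core

variable {Ω : Type*} [MeasurableSpace Ω] {m : Measure Ω} [IsProbabilityMeasure m]

theorem K4_bessel (D : Core m) (G : Lp ℂ 2 m) (s : Finset ℕ) :
    ∑ l ∈ s, ‖D.P l G‖ ^ 2 ≤ ‖G‖ ^ 2 := by
  set Z := ∑ l ∈ s, D.P l G with hZ
  have h1 : ∀ l, inner ℂ (D.P l G) G = ((‖D.P l G‖ ^ 2 : ℝ) : ℂ) := by
    intro l
    rw [← D.hP' l G (D.P l G) (D.hP l G), inner_self_eq_norm_sq_to_K]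
    push_cast
    rfl
  have h2 : inner ℂ Z G = ((∑ l ∈ s, ‖D.P l G‖ ^ 2 : ℝ) : ℂ) := by
    rw [hZ, sum_inner]
    push_cast
    refine Finset.sum_congr rfl fun l _ => ?_
    rw [h1]
    push_cast
    rfl
  have h3 : inner ℂ Z Z = ((∑ l ∈ s, ‖D.P l G‖ ^ 2 : ℝ) : ℂ) := by
    rw [hZ, sum_inner]
    push_cast
    refine Finset.sum_congr rfl fun l hl => ?_
    rw [inner_sum, Finset.sum_eq_single l]
    · rw [inner_self_eq_norm_sq_to_K]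
      rfl
    · intro k _ hkl
      exact D.orth l k (Ne.symm hkl) _ (D.hP l G) _ (D.hP k G)
    · intro h; exact absurd hl h
  have h4 : ‖Z‖ ^ 2 = ∑ l ∈ s, ‖D.P l G‖ ^ 2 := by
    rw [norm_sq_eq_re_inner (𝕜 := ℂ) Z, h3]
    exact Complex.ofReal_re _
  have h5 : ∑ l ∈ s, ‖D.P l G‖ ^ 2 ≤ ‖Z‖ * ‖G‖ := by
    have h6 := norm_inner_le_norm (𝕜 := ℂ) Z G
    rw [h2, Complex.norm_real, Real.norm_eq_abs] at h6
    exact (le_abs_self _).trans h6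
  rw [← h4] at h5 ⊢
  have h7 : 0 ≤ ‖Z‖ := norm_nonneg _
  have h8 : 0 ≤ ‖G‖ := norm_nonneg _
  rcases h7.eq_or_lt with h9 | h9
  · rw [← h9, zero_pow two_ne_zero]; positivity
  · have : ‖Z‖ ≤ ‖G‖ := by nlinarith
    exact pow_le_pow_left₀ h7 this 2

theorem K4_cw_nonneg (l : ℕ) : 0 ≤ cw l := by unfold cw; positivity

theorem K4_cw_le_one (l : ℕ) : cw l ≤ 1 := by
  unfold cw
  rw [div_le_one (by positivity)]
  have : (0 : ℝ) ≤ l := Nat.cast_nonneg l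
  linarith

theorem K4_summable (D : Core m) (G : Lp ℂ 2 m) : Summable fun l => cw l * ‖D.P l G‖ ^ 2 := by
  have h1 : Summable fun l => ‖D.P l G‖ ^ 2 :=
    summable_of_sum_le (fun l => by positivity) (D.K4_bessel G)
  refine Summable.of_nonneg_of_le (fun l => mul_nonneg (K4_cw_nonneg l) (by positivity))
    (fun l => ?_) h1
  calc cw l * ‖D.P l G‖ ^ 2 ≤ 1 * ‖D.P l G‖ ^ 2 :=
        mul_le_mul_of_nonneg_right (K4_cw_le_one l) (by positivity)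
    _ = _ := one_mul _

theorem K4_parallelogram (D : Core m) (G H : Lp ℂ 2 m) :
    D.Qn (G + H) + D.Qn (G - H) = 2 * D.Qn G + 2 * D.Qn H := by
  unfold Qn
  rw [← (D.K4_summable (G + H)).tsum_add (D.K4_summable (G - H)), ← tsum_mul_left,
    ← tsum_mul_left, ← ((D.K4_summable G).mul_left 2).tsum_add ((D.K4_summable H).mul_left 2)]
  refine tsum_congr fun l => ?_
  rw [map_add, map_sub]
  have h := parallelogram_law_with_norm ℂ (D.P l G) (D.P l H)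
  have e : ‖D.P l G + D.P l H‖ ^ 2 + ‖D.P l G - D.P l H‖ ^ 2 =
      2 * (‖D.P l G‖ ^ 2 + ‖D.P l H‖ ^ 2) := by nlinarith [h]
  linear_combination cw l * e

theorem K4_smul (D : Core m) (c : ℂ) (G : Lp ℂ 2 m) : D.Qn (c • G) = ‖c‖ ^ 2 * D.Qn G := by
  unfold Qn
  rw [← tsum_mul_left]
  refine tsum_congr fun l => ?_
  rw [map_smul, norm_smul]
  ring

/-- Second variation for one multiplier. -/
theorem K4_mult (D : Core m) {S : ℝ} (hS : 0 ≤ S)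
    (hQ : ∀ G : Lp ℂ 2 m, (∃ C : ℝ, ∀ᵐ x ∂m, ‖G x‖ ≤ C) → D.Qn G ≤ S * I7 G ^ (7 / 5 : ℝ))
    {δ : ℝ} {G : Lp ℂ 2 m} (hGb : ∃ C : ℝ, ∀ᵐ x ∂m, ‖G x‖ ≤ C)
    (hρi : Integrable (fun x => ‖G x‖ ^ (10 / 7 : ℝ)) m) (hG1 : I7 G = 1)
    (hGS : S - δ ≤ D.Qn G) {h : Ω → ℂ} (hm : Measurable h) (hb : ∀ x, ‖h x‖ ≤ 1)
    (hη : |∫ x, (h x).re * ‖G x‖ ^ (10 / 7 : ℝ) ∂m| ≤ δ) {H : Lp ℂ 2 m}
    (hH : ∀ᵐ x ∂m, H x = h x * G x) {ε : ℝ} (h0 : 0 < ε) (h1 : ε ≤ 1 / 2) :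
    D.Qn H ≤ S * ((∫ x, ‖h x‖ ^ 2 * ‖G x‖ ^ (10 / 7 : ℝ) ∂m) -
      4 / 7 * ∫ x, (h x).re ^ 2 * ‖G x‖ ^ (10 / 7 : ℝ) ∂m) +
      (S * (5 / 2 * ε + 2 * δ ^ 2) + δ / ε ^ 2) := by
  have hρ0 : ∀ x, 0 ≤ ‖G x‖ ^ (10 / 7 : ℝ) := fun x => Real.rpow_nonneg (norm_nonneg _) _
  have hone := K4_one hρ0 hρi hG1 hm.aestronglyMeasurable hb hη h0 h1
  obtain ⟨C, hC⟩ := hGb
  have hplus : ∀ᵐ x ∂m, (G + (ε : ℂ) • H) x = (1 + (ε : ℂ) * h x) * G x := by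
    filter_upwards [Lp.coeFn_add G ((ε : ℂ) • H), Lp.coeFn_smul (ε : ℂ) H, hH] with x e1 e2 e3
    rw [e1, Pi.add_apply, e2, Pi.smul_apply, e3, smul_eq_mul]
    ring
  have hminus : ∀ᵐ x ∂m, (G - (ε : ℂ) • H) x = (1 + ((-ε : ℝ) : ℂ) * h x) * G x := by
    filter_upwards [Lp.coeFn_sub G ((ε : ℂ) • H), Lp.coeFn_smul (ε : ℂ) H, hH] with x e1 e2 e3
    rw [e1, Pi.sub_apply, e2, Pi.smul_apply, e3, smul_eq_mul]
    push_cast
    ring
  have hbd : ∀ (s : ℝ), |s| ≤ 1 / 2 → ∀ x, ‖1 + (s : ℂ) * h x‖ ≤ 2 := by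
    intro s hs x
    calc ‖1 + (s : ℂ) * h x‖ ≤ ‖(1 : ℂ)‖ + ‖(s : ℂ) * h x‖ := norm_add_le _ _
      _ ≤ 1 + 1 / 2 * 1 := by
        rw [norm_one, norm_mul, Complex.norm_real, Real.norm_eq_abs]
        gcongr
        exact hb x
      _ ≤ 2 := by norm_num
  have habs : |ε| ≤ 1 / 2 := by rw [abs_of_pos h0]; exact h1
  have habs' : |-ε| ≤ 1 / 2 := by rw [abs_neg]; exact habs
  have bplus : ∃ C : ℝ, ∀ᵐ x ∂m, ‖(G + (ε : ℂ) • H) x‖ ≤ C := by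
    refine ⟨2 * C, ?_⟩
    filter_upwards [hplus, hC] with x e1 e2
    rw [e1, norm_mul]
    exact mul_le_mul (hbd ε habs x) e2 (norm_nonneg _) (by norm_num)
  have bminus : ∃ C : ℝ, ∀ᵐ x ∂m, ‖(G - (ε : ℂ) • H) x‖ ≤ C := by
    refine ⟨2 * C, ?_⟩
    filter_upwards [hminus, hC] with x e1 e2
    rw [e1, norm_mul]
    exact mul_le_mul (hbd (-ε) habs' x) e2 (norm_nonneg _) (by norm_num)
  have iplus : I7 (G + (ε : ℂ) • H) =
      ∫ x, ‖1 + (ε : ℂ) * h x‖ ^ (10 / 7 : ℝ) * ‖G x‖ ^ (10 / 7 : ℝ) ∂m := by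
    unfold I7
    refine integral_congr_ae ?_
    filter_upwards [hplus] with x e1
    rw [e1, norm_mul, Real.mul_rpow (norm_nonneg _) (norm_nonneg _)]
  have iminus : I7 (G - (ε : ℂ) • H) =
      ∫ x, ‖1 + ((-ε : ℝ) : ℂ) * h x‖ ^ (10 / 7 : ℝ) * ‖G x‖ ^ (10 / 7 : ℝ) ∂m := by
    unfold I7
    refine integral_congr_ae ?_
    filter_upwards [hminus] with x e1
    rw [e1, norm_mul, Real.mul_rpow (norm_nonneg _) (norm_nonneg _)]
  have q1 := hQ _ bplus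
  have q2 := hQ _ bminus
  rw [iplus] at q1
  rw [iminus] at q2
  have hpar := D.K4_parallelogram G ((ε : ℂ) • H)
  rw [D.K4_smul, Complex.norm_real, Real.norm_eq_abs, abs_of_pos h0] at hpar
  have h3 := mul_le_mul_of_nonneg_left hone hS
  set n2 := ∫ x, ‖h x‖ ^ 2 * ‖G x‖ ^ (10 / 7 : ℝ) ∂m
  set r2 := ∫ x, (h x).re ^ 2 * ‖G x‖ ^ (10 / 7 : ℝ) ∂m
  have h4 : 2 * ε ^ 2 * D.Qn H ≤ 2 * ε ^ 2 * (S * (n2 - 4 / 7 * r2) +
      (S * (5 / 2 * ε + 2 * δ ^ 2) + δ / ε ^ 2)) := by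
    have e4 : 2 * ε ^ 2 * (S * (n2 - 4 / 7 * r2) + (S * (5 / 2 * ε + 2 * δ ^ 2) + δ / ε ^ 2)) =
        S * (2 * ε ^ 2 * (n2 - 4 / 7 * r2) + 5 * ε ^ 3 + 4 * ε ^ 2 * δ ^ 2) + 2 * δ := by
      field_simp
      ring
    rw [e4]
    nlinarith
  exact le_of_mul_le_mul_left h4 (by positivity)

theorem K4_I7_int {G : Lp ℂ 2 m} (hGb : ∃ C : ℝ, ∀ᵐ x ∂m, ‖G x‖ ≤ C) :
    Integrable (fun x => ‖G x‖ ^ (10 / 7 : ℝ)) m := by
  obtain ⟨C, hC⟩ := hGb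
  refine Integrable.of_bound
    ((Lp.aestronglyMeasurable G).norm.aemeasurable.pow_const _).aestronglyMeasurable
    (C ^ (10 / 7 : ℝ)) ?_
  filter_upwards [hC] with x hx
  rw [Real.norm_of_nonneg (Real.rpow_nonneg (norm_nonneg _) _)]
  exact Real.rpow_le_rpow (norm_nonneg _) hx (by norm_num)

/-- K4 : second variation -/
theorem second_var (D : Core m) (S : ℝ) (hS : 0 ≤ S)
    (hQ : ∀ G : Lp ℂ 2 m, (∃ C : ℝ, ∀ᵐ x ∂m, ‖G x‖ ≤ C) → D.Qn G ≤ S * I7 G ^ (7 / 5 : ℝ)) :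
    ∃ err : ℝ → ℝ, Filter.Tendsto err (nhdsWithin 0 (Set.Ioi 0)) (nhds 0) ∧
      ∀ δ : ℝ, 0 < δ → δ ≤ 1 → ∀ G : Lp ℂ 2 m, (∃ C : ℝ, ∀ᵐ x ∂m, ‖G x‖ ≤ C) →
      I7 G = 1 → S - δ ≤ D.Qn G →
      (∀ j, ‖∫ x, D.X j x * (‖G x‖ ^ (10 / 7 : ℝ) : ℝ) ∂m‖ ≤ δ) →
      ∀ G1 G2 : Fin 5 → Lp ℂ 2 m, (∀ j, ∀ᵐ x ∂m, G1 j x = conj (D.X j x) * G x) →
      (∀ j, ∀ᵐ x ∂m, G2 j x = D.X j x * G x) → ∀ a b : ℝ, |a| ≤ 1 → |b| ≤ 1 →
      (a + b) ^ 2 / 2 * ∑ j, D.Qn (G1 j) + (a - b) ^ 2 / 2 * ∑ j, D.Qn (G2 j) ≤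
        S * (3 / 7 * a ^ 2 + b ^ 2) + err δ := by
  refine ⟨fun δ => 10 * (S * (5 / 2 * (√(√δ) / 2) + 2 * δ ^ 2) + 4 * √δ), ?_, ?_⟩
  · have hc : Continuous fun δ : ℝ => 10 * (S * (5 / 2 * (√(√δ) / 2) + 2 * δ ^ 2) + 4 * √δ) := by
      fun_prop
    have h1 := (hc.tendsto 0).mono_left (nhdsWithin_le_nhds (s := Set.Ioi (0 : ℝ)))
    simpa using h1
  intro δ hδ0 hδ1 G hGb hG1 hGS hcen G1 G2 hg1 hg2 a b ha hb
  have hρi := K4_I7_int hGb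
  have hρ0 : ∀ x, 0 ≤ ‖G x‖ ^ (10 / 7 : ℝ) := fun x => Real.rpow_nonneg (norm_nonneg _) _
  have hXn : ∀ j x, ‖D.X j x‖ ≤ 1 := by
    intro j x
    have h1 : ‖D.X j x‖ ^ 2 ≤ 1 := by
      rw [← D.hX1 x]
      exact Finset.single_le_sum (f := fun j => ‖D.X j x‖ ^ 2) (fun _ _ => by positivity)
        (Finset.mem_univ j)
    nlinarith [norm_nonneg (D.X j x)]
  have hns : ∀ j x, ‖D.X j x‖ ^ 2 = (D.X j x).re ^ 2 + (D.X j x).im ^ 2 := by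
    intro j x
    rw [← Complex.normSq_eq_norm_sq, Complex.normSq_apply]
    ring
  have iX : ∀ j, Integrable (fun x => ‖D.X j x‖ ^ 2 * ‖G x‖ ^ (10 / 7 : ℝ)) m := by
    intro j
    refine K4_int hρi ((D.hXm j).norm.pow_const 2).aestronglyMeasurable (C := 1) fun x => ?_
    rw [norm_pow, norm_norm]
    exact pow_le_one₀ (norm_nonneg _) (hXn j x)
  have iXc : ∀ j, Integrable (fun x => D.X j x * (‖G x‖ ^ (10 / 7 : ℝ) : ℝ)) m := by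
    intro j
    exact hρi.ofReal.bdd_mul (D.hXm j).aestronglyMeasurable
      (Filter.Eventually.of_forall (hXn j))
  have hre : ∀ j, |∫ x, (D.X j x).re * ‖G x‖ ^ (10 / 7 : ℝ) ∂m| ≤ δ := by
    intro j
    have e : ∫ x, (D.X j x).re * ‖G x‖ ^ (10 / 7 : ℝ) ∂m =
        (∫ x, D.X j x * (‖G x‖ ^ (10 / 7 : ℝ) : ℝ) ∂m).re := by
      rw [← RCLike.re_eq_complex_re, ← integral_re (iXc j)]
      refine integral_congr_ae (Filter.Eventually.of_forall fun x => ?_)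
      simp only [RCLike.re_eq_complex_re, Complex.re_mul_ofReal]
    rw [e]
    exact (Complex.abs_re_le_norm _).trans (hcen j)
  have him : ∀ j, |∫ x, (D.X j x).im * ‖G x‖ ^ (10 / 7 : ℝ) ∂m| ≤ δ := by
    intro j
    have e : ∫ x, (D.X j x).im * ‖G x‖ ^ (10 / 7 : ℝ) ∂m =
        (∫ x, D.X j x * (‖G x‖ ^ (10 / 7 : ℝ) : ℝ) ∂m).im := by
      rw [← RCLike.im_eq_complex_im, ← integral_im (iXc j)]
      refine integral_congr_ae (Filter.Eventually.of_forall fun x => ?_)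
      simp only [RCLike.im_eq_complex_im, Complex.im_mul_ofReal]
    rw [e]
    exact (Complex.abs_im_le_norm _).trans (hcen j)
  set ε := √(√δ) / 2 with hε
  have hs0 : 0 < √δ := Real.sqrt_pos.2 hδ0
  have hs1 : √δ ≤ 1 := Real.sqrt_le_one.2 hδ1
  have hss0 : 0 < √(√δ) := Real.sqrt_pos.2 hs0
  have hss1 : √(√δ) ≤ 1 := Real.sqrt_le_one.2 hs1
  have hε0 : 0 < ε := by positivity
  have hε1 : ε ≤ 1 / 2 := by rw [hε]; linarith
  have hε2 : δ / ε ^ 2 = 4 * √δ := by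
    have e1 : ε ^ 2 = √δ / 4 := by
      rw [hε, div_pow, Real.sq_sqrt hs0.le]; norm_num
    rw [e1, div_eq_iff (by positivity)]
    have e2 : δ = √δ * √δ := (Real.mul_self_sqrt hδ0.le).symm
    nlinarith
  have ha2 : a ^ 2 ≤ 1 := by nlinarith [abs_le.1 ha]
  have hb2 : b ^ 2 ≤ 1 := by nlinarith [abs_le.1 hb]
  -- the two multipliers for `j`
  have key : ∀ j, (a + b) ^ 2 / 2 * D.Qn (G1 j) + (a - b) ^ 2 / 2 * D.Qn (G2 j) ≤
      S * (3 / 7 * a ^ 2 + b ^ 2) * (∫ x, ‖D.X j x‖ ^ 2 * ‖G x‖ ^ (10 / 7 : ℝ) ∂m) +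
        2 * (S * (5 / 2 * ε + 2 * δ ^ 2) + δ / ε ^ 2) := by
    intro j
    set α : ℂ := (((a + b) / 2 : ℝ) : ℂ) with hα
    set β : ℂ := (((a - b) / 2 : ℝ) : ℂ) with hβ
    set h : Ω → ℂ := fun x => α * conj (D.X j x) + β * D.X j x with hh
    set h' : Ω → ℂ := fun x => -I * (α * conj (D.X j x) - β * D.X j x) with hh'
    have hre1 : ∀ x, (h x).re = a * (D.X j x).re := by
      intro x
      simp only [hh, hα, hβ, Complex.add_re, Complex.re_ofReal_mul, Complex.conj_re]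
      ring
    have him1 : ∀ x, (h x).im = -(b * (D.X j x).im) := by
      intro x
      simp only [hh, hα, hβ, Complex.add_im, Complex.im_ofReal_mul, Complex.conj_im]
      ring
    have hre2 : ∀ x, (h' x).re = -(a * (D.X j x).im) := by
      intro x
      simp only [hh', hα, hβ, neg_mul, Complex.neg_re, Complex.I_mul_re, Complex.sub_im,
        Complex.im_ofReal_mul, Complex.conj_im]
      ring
    have him2 : ∀ x, (h' x).im = -(b * (D.X j x).re) := by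
      intro x
      simp only [hh', hα, hβ, neg_mul, Complex.neg_im, Complex.I_mul_im, Complex.sub_re,
        Complex.re_ofReal_mul, Complex.conj_re]
      ring
    have hn1 : ∀ x, ‖h x‖ ^ 2 = a ^ 2 * (D.X j x).re ^ 2 + b ^ 2 * (D.X j x).im ^ 2 := by
      intro x
      rw [← Complex.normSq_eq_norm_sq, Complex.normSq_apply, hre1, him1]
      ring
    have hn2 : ∀ x, ‖h' x‖ ^ 2 = a ^ 2 * (D.X j x).im ^ 2 + b ^ 2 * (D.X j x).re ^ 2 := by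
      intro x
      rw [← Complex.normSq_eq_norm_sq, Complex.normSq_apply, hre2, him2]
      ring
    have hXx : ∀ x, (D.X j x).re ^ 2 + (D.X j x).im ^ 2 ≤ 1 := by
      intro x
      rw [← hns]
      exact pow_le_one₀ (norm_nonneg _) (hXn j x)
    have hb1 : ∀ x, ‖h x‖ ≤ 1 := by
      intro x
      have e1 : ‖h x‖ ^ 2 ≤ 1 := by
        rw [hn1]
        nlinarith [hXx x, sq_nonneg (D.X j x).re, sq_nonneg (D.X j x).im]
      nlinarith [norm_nonneg (h x)]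
    have hb2' : ∀ x, ‖h' x‖ ≤ 1 := by
      intro x
      have e1 : ‖h' x‖ ^ 2 ≤ 1 := by
        rw [hn2]
        nlinarith [hXx x, sq_nonneg (D.X j x).re, sq_nonneg (D.X j x).im]
      nlinarith [norm_nonneg (h' x)]
    have hmc : Measurable fun x => conj (D.X j x) :=
      Complex.continuous_conj.measurable.comp (D.hXm j)
    have hm1 : Measurable h := (hmc.const_mul α).add ((D.hXm j).const_mul β)
    have hm2 : Measurable h' := ((hmc.const_mul α).sub ((D.hXm j).const_mul β)).const_mul (-I)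
    have hη1 : |∫ x, (h x).re * ‖G x‖ ^ (10 / 7 : ℝ) ∂m| ≤ δ := by
      have e : ∫ x, (h x).re * ‖G x‖ ^ (10 / 7 : ℝ) ∂m =
          a * ∫ x, (D.X j x).re * ‖G x‖ ^ (10 / 7 : ℝ) ∂m := by
        rw [← integral_const_mul]
        refine integral_congr_ae (Filter.Eventually.of_forall fun x => ?_)
        simp only [hre1]; ring
      rw [e, abs_mul]
      calc |a| * |∫ x, (D.X j x).re * ‖G x‖ ^ (10 / 7 : ℝ) ∂m| ≤ 1 * δ :=
            mul_le_mul ha (hre j) (abs_nonneg _) zero_le_one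
        _ = δ := one_mul δ
    have hη2 : |∫ x, (h' x).re * ‖G x‖ ^ (10 / 7 : ℝ) ∂m| ≤ δ := by
      have e : ∫ x, (h' x).re * ‖G x‖ ^ (10 / 7 : ℝ) ∂m =
          -(a * ∫ x, (D.X j x).im * ‖G x‖ ^ (10 / 7 : ℝ) ∂m) := by
        rw [← integral_const_mul, ← integral_neg]
        refine integral_congr_ae (Filter.Eventually.of_forall fun x => ?_)
        simp only [hre2]; ring
      rw [e, abs_neg, abs_mul]
      calc |a| * |∫ x, (D.X j x).im * ‖G x‖ ^ (10 / 7 : ℝ) ∂m| ≤ 1 * δ :=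
            mul_le_mul ha (him j) (abs_nonneg _) zero_le_one
        _ = δ := one_mul δ
    have hH1 : ∀ᵐ x ∂m, (α • G1 j + β • G2 j : Lp ℂ 2 m) x = h x * G x := by
      filter_upwards [Lp.coeFn_add (α • G1 j) (β • G2 j), Lp.coeFn_smul α (G1 j),
        Lp.coeFn_smul β (G2 j), hg1 j, hg2 j] with x e1 e2 e3 e4 e5
      rw [e1, Pi.add_apply, e2, e3, Pi.smul_apply, Pi.smul_apply, e4, e5, smul_eq_mul,
        smul_eq_mul, hh]
      ring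
    have hH2 : ∀ᵐ x ∂m, ((-I) • (α • G1 j - β • G2 j) : Lp ℂ 2 m) x = h' x * G x := by
      filter_upwards [Lp.coeFn_smul (-I) (α • G1 j - β • G2 j),
        Lp.coeFn_sub (α • G1 j) (β • G2 j), Lp.coeFn_smul α (G1 j),
        Lp.coeFn_smul β (G2 j), hg1 j, hg2 j] with x e0 e1 e2 e3 e4 e5
      rw [e0, Pi.smul_apply, e1, Pi.sub_apply, e2, e3, Pi.smul_apply, Pi.smul_apply, e4, e5,
        smul_eq_mul, smul_eq_mul, smul_eq_mul, hh']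
      ring
    have k1 := D.K4_mult hS hQ hGb hρi hG1 hGS hm1 hb1 hη1 hH1 hε0 hε1
    have k2 := D.K4_mult hS hQ hGb hρi hG1 hGS hm2 hb2' hη2 hH2 hε0 hε1
    have hI : ‖-I‖ = 1 := by rw [norm_neg, Complex.norm_I]
    rw [D.K4_smul (-I), hI, one_pow, one_mul] at k2
    have hpar := D.K4_parallelogram (α • G1 j) (β • G2 j)
    rw [D.K4_smul, D.K4_smul, hα, hβ, Complex.norm_real, Complex.norm_real, Real.norm_eq_abs,
      Real.norm_eq_abs, sq_abs, sq_abs, ← hα, ← hβ] at hpar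
    -- integrals
    have j1 : Integrable (fun x => ‖h x‖ ^ 2 * ‖G x‖ ^ (10 / 7 : ℝ)) m := by
      refine K4_int hρi (hm1.norm.pow_const 2).aestronglyMeasurable (C := 1) fun x => ?_
      rw [norm_pow, norm_norm]
      exact pow_le_one₀ (norm_nonneg _) (hb1 x)
    have j2 : Integrable (fun x => ‖h' x‖ ^ 2 * ‖G x‖ ^ (10 / 7 : ℝ)) m := by
      refine K4_int hρi (hm2.norm.pow_const 2).aestronglyMeasurable (C := 1) fun x => ?_
      rw [norm_pow, norm_norm]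
      exact pow_le_one₀ (norm_nonneg _) (hb2' x)
    have j3 : Integrable (fun x => (h x).re ^ 2 * ‖G x‖ ^ (10 / 7 : ℝ)) m := by
      refine K4_int hρi ((Complex.measurable_re.comp hm1).pow_const 2).aestronglyMeasurable
        (C := 1) fun x => ?_
      rw [norm_pow]
      exact pow_le_one₀ (norm_nonneg _)
        ((Real.norm_eq_abs _ ▸ Complex.abs_re_le_norm (h x)).trans (hb1 x))
    have j4 : Integrable (fun x => (h' x).re ^ 2 * ‖G x‖ ^ (10 / 7 : ℝ)) m := by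
      refine K4_int hρi ((Complex.measurable_re.comp hm2).pow_const 2).aestronglyMeasurable
        (C := 1) fun x => ?_
      rw [norm_pow]
      exact pow_le_one₀ (norm_nonneg _)
        ((Real.norm_eq_abs _ ▸ Complex.abs_re_le_norm (h' x)).trans (hb2' x))
    have s1 : (∫ x, ‖h x‖ ^ 2 * ‖G x‖ ^ (10 / 7 : ℝ) ∂m) +
        ∫ x, ‖h' x‖ ^ 2 * ‖G x‖ ^ (10 / 7 : ℝ) ∂m =
        (a ^ 2 + b ^ 2) * ∫ x, ‖D.X j x‖ ^ 2 * ‖G x‖ ^ (10 / 7 : ℝ) ∂m := by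
      rw [← integral_add j1 j2, ← integral_const_mul]
      refine integral_congr_ae (Filter.Eventually.of_forall fun x => ?_)
      simp only [hn1, hn2, hns]
      ring
    have s2 : (∫ x, (h x).re ^ 2 * ‖G x‖ ^ (10 / 7 : ℝ) ∂m) +
        ∫ x, (h' x).re ^ 2 * ‖G x‖ ^ (10 / 7 : ℝ) ∂m =
        a ^ 2 * ∫ x, ‖D.X j x‖ ^ 2 * ‖G x‖ ^ (10 / 7 : ℝ) ∂m := by
      rw [← integral_add j3 j4, ← integral_const_mul]
      refine integral_congr_ae (Filter.Eventually.of_forall fun x => ?_)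
      simp only [hre1, hre2, hns]
      ring
    set N := ∫ x, ‖D.X j x‖ ^ 2 * ‖G x‖ ^ (10 / 7 : ℝ) ∂m
    set E := S * (5 / 2 * ε + 2 * δ ^ 2) + δ / ε ^ 2
    have k3 : D.Qn (α • G1 j + β • G2 j) + D.Qn (α • G1 j - β • G2 j) ≤
        S * ((a ^ 2 + b ^ 2) * N - 4 / 7 * (a ^ 2 * N)) + 2 * E := by
      rw [← s1, ← s2]
      refine (add_le_add k1 k2).trans (le_of_eq ?_)
      ring
    rw [hpar] at k3
    refine le_trans (le_of_eq ?_) (k3.trans (le_of_eq ?_))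
    · ring
    · ring
  have hsum : ∑ j, ∫ x, ‖D.X j x‖ ^ 2 * ‖G x‖ ^ (10 / 7 : ℝ) ∂m = 1 := by
    rw [← integral_finsetSum _ fun j _ => iX j]
    rw [← hG1]
    unfold I7
    refine integral_congr_ae (Filter.Eventually.of_forall fun x => ?_)
    simp only
    rw [← Finset.sum_mul, D.hX1, one_mul]
  have hfin := Finset.sum_le_sum fun (j : Fin 5) (_ : j ∈ Finset.univ) => key j
  rw [Finset.sum_add_distrib, Finset.sum_add_distrib, ← Finset.mul_sum, ← Finset.mul_sum,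
    ← Finset.mul_sum, hsum, Finset.sum_const, Finset.card_univ, Fintype.card_fin, mul_one,
    nsmul_eq_mul] at hfin
  refine hfin.trans (le_of_eq ?_)
  rw [hε2]
  push_cast
  ring

end Core

end Pool.Agent.Cone
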