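import Pool.Agent.Work.MP_b0b133_an.Num1

/-!
# The pointwise inequality and the final inequality
-/

namespace Pool.Agent.Cone

theorem le_of_cube_le {x y : ℝ} (hy : 0 ≤ y) (h : x ^ 3 ≤ y ^ 3) : x ≤ y := by
  by_contra h1
  push Not at h1
  have : y ^ 3 < x ^ 3 := pow_lt_pow_left₀ h1 hy (by norm_num)
  linarith

theorem rpow_third_pow {r : ℝ} (hr : 0 ≤ r) (n : ℕ) : (r ^ (1 / 3 : ℝ)) ^ n = r ^ ((n : ℝ) / 3) := by
  rw [← Real.rpow_natCast, ← Real.rpow_mul hr]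
  congr 1
  ring

theorem rpow_third_cube {r : ℝ} (hr : 0 ≤ r) : (r ^ (1 / 3 : ℝ)) ^ 3 = r := by
  rw [rpow_third_pow hr]
  norm_num

theorem rpow_third_six {r : ℝ} (hr : 0 ≤ r) : (r ^ (1 / 3 : ℝ)) ^ 6 = r ^ 2 := by
  have := rpow_third_cube hr
  calc (r ^ (1 / 3 : ℝ)) ^ 6 = ((r ^ (1 / 3 : ℝ)) ^ 3) ^ 2 := by ring
    _ = r ^ 2 := by rw [this]

/-- The pointwise inequality for positive `b`. -/
theorem pt_real {r : ℝ} (hr : 0 ≤ r) :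
    (1 + r) ^ (10 / 3 : ℝ) ≤ 1 + 10 / 3 * r + 46 / 9 * r ^ 2 + 29 / 25 * r ^ (10 / 3 : ℝ) := by
  have hx : 0 ≤ r ^ (1 / 3 : ℝ) := Real.rpow_nonneg hr _
  have h := poly1 hx
  rw [rpow_third_cube hr, rpow_third_six hr, rpow_third_pow hr] at h
  have h10 : 0 ≤ r ^ (10 / 3 : ℝ) := Real.rpow_nonneg hr _
  refine le_of_cube_le (by positivity) ?_
  rw [← Real.rpow_natCast, ← Real.rpow_mul (by positivity)]
  have e : (10 / 3 : ℝ) * ((3 : ℕ) : ℝ) = ((10 : ℕ) : ℝ) := by norm_num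
  rw [e, Real.rpow_natCast]
  have e2 : (((10 : ℕ) : ℝ) / 3) = 10 / 3 := by norm_num
  rw [e2] at h
  exact h

/-- The difference of the two sides, as a function of `m = |1 + b|²`. -/
noncomputable def hf (r m : ℝ) : ℝ :=
  5 / 9 * (m - (1 + r ^ 2)) ^ 2 + 5 / 3 * (m - (1 + r ^ 2)) +
    (1 + 26 / 9 * r ^ 2 + 29 / 25 * r ^ (10 / 3 : ℝ)) - m ^ (5 / 3 : ℝ)

theorem hf_deriv (r : ℝ) {m : ℝ} (hm : 0 < m) :
    HasDerivAt (hf r) (10 / 9 * (m - (1 + r ^ 2)) + 5 / 3 - 5 / 3 * m ^ (2 / 3 : ℝ)) m := by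
  unfold hf
  have h1 : HasDerivAt (fun m : ℝ => m - (1 + r ^ 2)) 1 m := (hasDerivAt_id m).sub_const _
  have h2 : HasDerivAt (fun m : ℝ => m ^ (5 / 3 : ℝ)) (5 / 3 * m ^ (5 / 3 - 1 : ℝ)) m :=
    Real.hasDerivAt_rpow_const (Or.inl hm.ne')
  have h3 := ((((h1.pow 2).const_mul (5 / 9)).add (h1.const_mul (5 / 3))).add_const
    (1 + 26 / 9 * r ^ 2 + 29 / 25 * r ^ (10 / 3 : ℝ))).sub h2
  have e : (5 / 3 - 1 : ℝ) = 2 / 3 := by norm_num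
  rw [e] at h3
  refine h3.congr_deriv ?_
  push_cast
  ring

theorem deriv_ineq {r x : ℝ} (hr : 0 ≤ r) (h1 : 1 ≤ x) (h2 : x ≤ (1 + r) ^ 2) :
    10 / 9 * (x - (1 + r ^ 2)) + 5 / 3 - 5 / 3 * x ^ (2 / 3 : ℝ) ≤ 0 := by
  have hx0 : 0 ≤ x := by linarith
  obtain ⟨z, hz1, hz⟩ : ∃ z : ℝ, 1 ≤ z ∧ z ^ 6 = x := by
    refine ⟨x ^ (1 / 6 : ℝ), Real.one_le_rpow h1 (by norm_num), ?_⟩
    rw [← Real.rpow_natCast, ← Real.rpow_mul hx0]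
    norm_num
  have e : x ^ (2 / 3 : ℝ) = z ^ 4 := by
    rw [← hz, ← Real.rpow_natCast, ← Real.rpow_natCast, ← Real.rpow_mul (by linarith)]
    congr 1
    norm_num
  rw [e, ← hz]
  have h3 : z ^ 3 ≤ 1 + r := by
    have : (z ^ 3) ^ 2 ≤ (1 + r) ^ 2 := by
      calc (z ^ 3) ^ 2 = z ^ 6 := by ring
        _ ≤ _ := by rw [hz]; exact h2
    exact le_of_sq_le_sq this (by linarith)
  have h4 : 1 ≤ z ^ 3 := one_le_pow₀ hz1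
  have h5 : (z ^ 3 - 1) ^ 2 ≤ r ^ 2 := by nlinarith
  have h6 : 0 ≤ (z - 1) ^ 2 * (3 * z ^ 2 + 2 * z + 1) := by positivity
  nlinarith

theorem hf_anti {r m : ℝ} (hr : 0 ≤ r) (h1 : 1 ≤ m) (h2 : m ≤ (1 + r) ^ 2) :
    hf r ((1 + r) ^ 2) ≤ hf r m := by
  have ha : AntitoneOn (hf r) (Set.Icc 1 ((1 + r) ^ 2)) := by
    refine antitoneOn_of_deriv_nonpos (convex_Icc _ _) ?_ ?_ ?_
    · intro x hx
      exact (hf_deriv r (by linarith [hx.1])).continuousAt.continuousWithinAt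
    · intro x hx
      rw [interior_Icc] at hx
      exact (hf_deriv r (by linarith [hx.1])).differentiableAt.differentiableWithinAt
    · intro x hx
      rw [interior_Icc] at hx
      rw [(hf_deriv r (by linarith [hx.1])).deriv]
      exact deriv_ineq hr hx.1.le hx.2.le
  exact ha ⟨h1, h2⟩ ⟨h1.trans h2, le_rfl⟩ h2

theorem hf_nonneg_of_one_le {r m : ℝ} (hr : 0 ≤ r) (h1 : 1 ≤ m) (h2 : m ≤ (1 + r) ^ 2) :
    0 ≤ hf r m := by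
  refine le_trans ?_ (hf_anti hr h1 h2)
  have h := pt_real hr
  have e : ((1 + r) ^ 2) ^ (5 / 3 : ℝ) = (1 + r) ^ (10 / 3 : ℝ) := by
    rw [← Real.rpow_natCast, ← Real.rpow_mul (by linarith)]
    congr 1
    norm_num
  unfold hf
  rw [e]
  nlinarith

/-- `(1 - δ) ^ (5/3) ≤ 1 - 5/3 δ + 5/9 δ² + 1/9 δ³` on `[0, 1]`. -/
theorem rpow_le_taylor {m : ℝ} (h0 : 0 ≤ m) (h1 : m ≤ 1) :
    m ^ (5 / 3 : ℝ) ≤ 1 - 5 / 3 * (1 - m) + 5 / 9 * (1 - m) ^ 2 + 1 / 9 * (1 - m) ^ 3 := by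
  obtain ⟨y, hy0, hy⟩ : ∃ y : ℝ, 0 ≤ y ∧ y ^ 3 = m :=
    ⟨m ^ (1 / 3 : ℝ), Real.rpow_nonneg h0 _, rpow_third_cube h0⟩
  have hy1 : y ≤ 1 := by
    by_contra h
    push Not at h
    have : 1 < y ^ 3 := one_lt_pow₀ h (by norm_num)
    linarith
  have e : m ^ (5 / 3 : ℝ) = y ^ 5 := by
    rw [← hy, ← Real.rpow_natCast, ← Real.rpow_natCast, ← Real.rpow_mul hy0]
    congr 1
    norm_num
  rw [e, ← hy]
  have key : 1 - 5 / 3 * (1 - y ^ 3) + 5 / 9 * (1 - y ^ 3) ^ 2 + 1 / 9 * (1 - y ^ 3) ^ 3 - y ^ 5 =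
      1 / 9 * (y ^ 3 * ((1 - y) ^ 3 * (2 + 6 * y + 3 * y ^ 2 + y ^ 3))) := by
    ring
  have h3 : 0 ≤ (1 - y) ^ 3 := pow_nonneg (by linarith) 3
  have h4 : 0 ≤ 1 / 9 * (y ^ 3 * ((1 - y) ^ 3 * (2 + 6 * y + 3 * y ^ 2 + y ^ 3))) := by
    positivity
  linarith

theorem hf_nonneg_of_le_one {r m : ℝ} (hr : 0 ≤ r) (h0 : 0 ≤ m) (h1 : m ≤ 1)
    (h2 : (1 - r) ^ 2 ≤ m) : 0 ≤ hf r m := by
  have ht := rpow_le_taylor h0 h1
  have ha : 0 ≤ r ^ (10 / 3 : ℝ) := Real.rpow_nonneg hr _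
  unfold hf
  obtain ⟨δ, rfl⟩ : ∃ δ, m = 1 - δ := ⟨1 - m, by ring⟩
  have hδ0 : 0 ≤ δ := by linarith
  have hδ1 : δ ≤ 2 * r := by nlinarith
  have hδ2 : δ ^ 2 ≤ 4 * r ^ 2 := by nlinarith
  have hδ3 : δ ^ 3 ≤ 4 * (δ * r ^ 2) := by nlinarith
  have hδ4 : 0 ≤ δ * r ^ 2 := by positivity
  have h5 : (1 - δ) ^ (5 / 3 : ℝ) ≤ 1 - 5 / 3 * δ + 5 / 9 * δ ^ 2 + 1 / 9 * δ ^ 3 := by
    refine ht.trans (le_of_eq ?_)
    ring
  nlinarith [sq_nonneg r, sq_nonneg (r ^ 2)]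

theorem hf_nonneg {r m : ℝ} (hr : 0 ≤ r) (h0 : 0 ≤ m) (h1 : (1 - r) ^ 2 ≤ m)
    (h2 : m ≤ (1 + r) ^ 2) : 0 ≤ hf r m := by
  rcases le_total m 1 with h | h
  · exact hf_nonneg_of_le_one hr h0 h h1
  · exact hf_nonneg_of_one_le hr h h2

/-- The pointwise inequality. -/
theorem num_pt (b : ℂ) : ‖1 + b‖ ^ (10 / 3 : ℝ) ≤
    1 + 10 / 3 * b.re + 10 / 9 * (b ^ 2).re + 4 * ‖b‖ ^ 2 + 29 / 25 * ‖b‖ ^ (10 / 3 : ℝ) := by
  have hr : 0 ≤ ‖b‖ := norm_nonneg b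
  have hb : ‖b‖ ^ 2 = b.re ^ 2 + b.im ^ 2 := by
    rw [← Complex.normSq_eq_norm_sq, Complex.normSq_apply]; ring
  have hm : ‖1 + b‖ ^ 2 = 1 + 2 * b.re + ‖b‖ ^ 2 := by
    rw [← Complex.normSq_eq_norm_sq, Complex.normSq_apply, hb]
    simp only [Complex.add_re, Complex.add_im, Complex.one_re, Complex.one_im]
    ring
  have hre : |b.re| ≤ ‖b‖ := Complex.abs_re_le_norm b
  have hre' := abs_le.1 hre
  have h := hf_nonneg (m := ‖1 + b‖ ^ 2) hr (by positivity) (by rw [hm]; nlinarith)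
    (by rw [hm]; nlinarith)
  have e : (‖1 + b‖ ^ 2) ^ (5 / 3 : ℝ) = ‖1 + b‖ ^ (10 / 3 : ℝ) := by
    rw [← Real.rpow_natCast, ← Real.rpow_mul (norm_nonneg _)]
    congr 1
    norm_num
  have e2 : (b ^ 2).re = 2 * b.re ^ 2 - ‖b‖ ^ 2 := by
    rw [hb, pow_two, Complex.mul_re]; ring
  unfold hf at h
  rw [e] at h
  have e3 : ‖1 + b‖ ^ 2 - (1 + ‖b‖ ^ 2) = 2 * b.re := by rw [hm]; ring
  rw [e3] at h
  rw [e2]
  linarith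

/-- The final inequality in one variable. -/
theorem num_final {t : ℝ} (h0 : 0 ≤ t) (h1 : t ≤ 3 / 7) :
    (1 - t) ^ (5 / 3 : ℝ) + 4 * (1 - t) ^ (2 / 3 : ℝ) * (2681 / 10000 * t) ≤
      1 - 29 / 25 * t ^ (5 / 3 : ℝ) := by
  have hx0 : 0 ≤ t ^ (1 / 3 : ℝ) := Real.rpow_nonneg h0 _
  have hx3 := rpow_third_cube h0
  set x := t ^ (1 / 3 : ℝ) with hx
  have hx1 : 128 * x ≤ 97 := by
    have : x ≤ 97 / 128 := by
      refine le_of_cube_le (by norm_num) ?_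
      rw [hx3]
      refine h1.trans ?_
      norm_num
    linarith
  have hp := poly3 hx0 hx1
  have e5 : t ^ (5 / 3 : ℝ) = x ^ 5 := by
    rw [hx, rpow_third_pow h0]
    norm_num
  rw [e5]
  have h1t : 0 ≤ 1 - t := by linarith
  have ey : (1 - t) ^ (5 / 3 : ℝ) = (1 - t) ^ (2 / 3 : ℝ) * (1 - t) := by
    have : (5 / 3 : ℝ) = 2 / 3 + 1 := by norm_num
    rw [this, Real.rpow_add_one' h1t (by norm_num)]
  have hy : 0 ≤ (1 - t) ^ (2 / 3 : ℝ) := Real.rpow_nonneg h1t _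
  have e1 : (1 - t) ^ (5 / 3 : ℝ) + 4 * (1 - t) ^ (2 / 3 : ℝ) * (2681 / 10000 * t) =
      (1 - t) ^ (2 / 3 : ℝ) * (1 + 181 / 2500 * t) := by
    rw [ey]; ring
  rw [e1]
  have hx5 : x ^ 5 ≤ 1 / 2 := by
    have hx' : x ≤ 97 / 128 := by linarith
    calc x ^ 5 ≤ (97 / 128) ^ 5 := pow_le_pow_left₀ hx0 hx' 5
      _ ≤ 1 / 2 := by norm_num
  refine le_of_cube_le (by linarith) ?_
  have e6 : ((1 - t) ^ (2 / 3 : ℝ)) ^ 3 = (1 - t) ^ 2 := by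
    rw [← Real.rpow_natCast, ← Real.rpow_mul h1t]
    have : (2 / 3 : ℝ) * ((3 : ℕ) : ℝ) = ((2 : ℕ) : ℝ) := by norm_num
    rw [this, Real.rpow_natCast]
  rw [mul_pow, e6, ← hx3]
  exact hp

/-- The linear programming step for one frequency. -/
theorem num_lp (l : ℕ) (hl : 1 ≤ l) :
    3 / (2 * (l : ℝ) + 3) ≤ 2681 / 10000 -
      2681 / 1000 * ((l : ℝ) / (2 * l + 5) - 4 / 5 * ((l : ℝ) / (2 * l + 1))) := by
  have h : (1 : ℝ) ≤ l := by exact_mod_cast hl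
  rw [← sub_nonneg]
  have e : 2681 / 10000 - 2681 / 1000 * ((l : ℝ) / (2 * l + 5) - 4 / 5 * ((l : ℝ) / (2 * l + 1))) -
      3 / (2 * (l : ℝ) + 3) =
      (2681 / 10000 * ((2 * l + 5) * (2 * l + 1) * (2 * l + 3)) -
        2681 / 1000 * (l * (2 * l + 1) * (2 * l + 3) - 4 / 5 * (l * (2 * l + 5) * (2 * l + 3))) -
        3 * ((2 * l + 5) * (2 * l + 1))) / ((2 * l + 5) * (2 * l + 1) * (2 * l + 3)) := by
    field_simp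
  rw [e]
  refine div_nonneg ?_ (by positivity)
  nlinarith [mul_nonneg (sub_nonneg.2 h) (sub_nonneg.2 h)]

/-- The conclusion from the numbers. -/
theorem num_end {S t w s₁ s₂ : ℝ} (ht0 : 0 ≤ t) (ht1 : t ≤ 1) (hs2' : 0 ≤ s₂) (h12 : s₂ ≤ s₁)
    (h1t : t / 3 ≤ s₁) (hlin : w ≤ 2681 / 10000 * t - 2681 / 1000 * (s₂ - 4 / 5 * s₁))
    (hdet : 4 * s₁ ≤ s₂ * (5 - 7 * s₁))
    (hfin : S ^ (5 / 3 : ℝ) * (1 - 29 / 25 * t ^ (5 / 3 : ℝ)) ≤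
      (1 - t) ^ (5 / 3 : ℝ) + 4 * (1 - t) ^ (2 / 3 : ℝ) * w) : S ≤ 1 := by
  have hs1 : 0 ≤ s₁ := by linarith [div_nonneg ht0 (by norm_num : (0 : ℝ) ≤ 3)]
  have hs7 : s₁ ≤ 1 / 7 := by
    by_contra h
    push Not at h
    rcases le_total (5 - 7 * s₁) 0 with h5 | h5
    · nlinarith [mul_nonneg hs2' (neg_nonneg.2 h5)]
    · nlinarith [mul_nonneg (sub_nonneg.2 h12) h5]
  have ht : t ≤ 3 / 7 := by linarith
  have hs2 : 4 / 5 * s₁ ≤ s₂ := by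
    nlinarith [mul_nonneg hs2' hs1]
  have hw : w ≤ 2681 / 10000 * t := by linarith
  have hy : 0 ≤ (1 - t) ^ (2 / 3 : ℝ) := Real.rpow_nonneg (by linarith) _
  have h1 := num_final ht0 ht
  have h2 : (1 - t) ^ (5 / 3 : ℝ) + 4 * (1 - t) ^ (2 / 3 : ℝ) * w ≤
      (1 - t) ^ (5 / 3 : ℝ) + 4 * (1 - t) ^ (2 / 3 : ℝ) * (2681 / 10000 * t) := by
    gcongr
  have h3 : S ^ (5 / 3 : ℝ) * (1 - 29 / 25 * t ^ (5 / 3 : ℝ)) ≤
      1 * (1 - 29 / 25 * t ^ (5 / 3 : ℝ)) := by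
    rw [one_mul]
    exact hfin.trans (h2.trans h1)
  have h4 : t ^ (5 / 3 : ℝ) ≤ 3 / 7 := by
    calc t ^ (5 / 3 : ℝ) ≤ t ^ (1 : ℝ) :=
          Real.rpow_le_rpow_of_exponent_ge' ht0 ht1 (by norm_num) (by norm_num)
      _ = t := Real.rpow_one t
      _ ≤ 3 / 7 := ht
  have h5 : 0 < 1 - 29 / 25 * t ^ (5 / 3 : ℝ) := by linarith
  have h6 : S ^ (5 / 3 : ℝ) ≤ 1 := le_of_mul_le_mul_right h3 h5
  by_contra h
  push Not at h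
  have : 1 < S ^ (5 / 3 : ℝ) := Real.one_lt_rpow h (by norm_num)
  linarith

end Pool.Agent.Cone
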