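import Pool.Agent.Work.MP_b0b133_an.K3
import Pool.Agent.Work.MP_b0b133_an.Num2

/-!
# Module K6 : the estimate on the side of `F`
-/

set_option autoImplicit false
open MeasureTheory Complex
open scoped ENNReal ComplexConjugate

namespace Pool.Agent.Cone

variable {Ω : Type*} [MeasurableSpace Ω] {m : Measure Ω} [IsProbabilityMeasure m]

/-! ### The bilinear form `∫ Y Z` -/

omit [IsProbabilityMeasure m] in
theorem K6_inner_star (Y Z : Lp ℂ 2 m) : inner ℂ (star Y) Z = ∫ x, Y x * Z x ∂m := by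
  rw [K3_inner_eq]
  refine integral_congr_ae ?_
  filter_upwards [Lp.coeFn_star Y] with x hx
  rw [hx]
  simp

theorem K6_norm_one (D : Core m) : ‖D.one‖ = 1 := by
  have h : inner ℂ D.one D.one = (1 : ℂ) := by
    rw [K3_inner_eq]
    have : ∀ᵐ x ∂m, conj (D.one x) * D.one x = 1 := by
      filter_upwards [D.one_ae] with x hx
      rw [hx]
      simp
    rw [integral_congr_ae this]
    simp
  rw [inner_self_eq_norm_sq_to_K] at h
  have h' : ((‖D.one‖ ^ 2 : ℝ) : ℂ) = ((1 : ℝ) : ℂ) := by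
    rw [Complex.ofReal_one, ← h]
    push_cast
    rfl
  have h2 : ‖D.one‖ ^ 2 = 1 := Complex.ofReal_injective h'
  nlinarith [norm_nonneg D.one]

theorem K6_one_mem (D : Core m) : D.one ∈ D.V 0 := by
  rw [D.V0]
  exact Submodule.mem_span_singleton_self _

theorem K6_inner_one (D : Core m) (F : Lp ℂ 2 m) : inner ℂ D.one F = ∫ x, F x ∂m := by
  rw [K3_inner_eq]
  refine integral_congr_ae ?_
  filter_upwards [D.one_ae] with x hx
  rw [hx]
  simp

/-- finite sums converge -/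
theorem K6_tendsto (D : Core m) (F : Lp ℂ 2 m) (hF : HasSum (fun l => ‖D.P l F‖ ^ 2) (‖F‖ ^ 2)) :
    Filter.Tendsto (fun n => ∑ l ∈ Finset.range n, D.P l F) Filter.atTop (nhds F) := by
  rw [tendsto_iff_norm_sub_tendsto_zero]
  have h1 : Filter.Tendsto (fun n => ‖F‖ ^ 2 - ∑ l ∈ Finset.range n, ‖D.P l F‖ ^ 2)
      Filter.atTop (nhds 0) := by
    have h := (tendsto_const_nhds (x := ‖F‖ ^ 2)).sub hF.tendsto_sum_nat
    rwa [sub_self] at h
  have h2 : Filter.Tendsto (fun n => √(‖F‖ ^ 2 - ∑ l ∈ Finset.range n, ‖D.P l F‖ ^ 2))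
      Filter.atTop (nhds 0) := by
    have h := (Real.continuous_sqrt.tendsto 0).comp h1
    rwa [Real.sqrt_zero] at h
  refine h2.congr fun n => ?_
  rw [← K3_norm_sub_sq, Real.sqrt_sq (norm_nonneg _), norm_sub_rev]

/-- `∫ F² = 0` when `P 0 F = 0` -/
theorem K6_integral_sq (D : Core m) (F : Lp ℂ 2 m) (h0 : D.P 0 F = 0)
    (hF : HasSum (fun l => ‖D.P l F‖ ^ 2) (‖F‖ ^ 2)) : ∫ x, F x * F x ∂m = 0 := by
  have h1 : ∀ l k, inner ℂ (star (D.P l F)) (D.P k F) = (0 : ℂ) := fun l k => by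
    rw [K6_inner_star]
    rcases Nat.eq_zero_or_pos l with hl | hl
    · subst hl
      have h : ∀ᵐ x ∂m, D.P 0 F x * D.P k F x = 0 := by
        rw [h0]
        filter_upwards [Lp.coeFn_zero ℂ 2 m] with x hx
        rw [hx]
        simp
      rw [integral_congr_ae h]
      simp
    · exact D.bil l k hl _ (D.hP l F) _ (D.hP k F)
  have hlim := K6_tendsto D F hF
  have key : ∀ Z : Lp ℂ 2 m, (∀ k, inner ℂ Z (D.P k F) = (0 : ℂ)) → inner ℂ Z F = (0 : ℂ) :=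
    fun Z hZ => by
    have h2 : Filter.Tendsto (fun n => (inner ℂ Z (∑ l ∈ Finset.range n, D.P l F) : ℂ))
        Filter.atTop (nhds (inner ℂ Z F)) :=
      ((continuous_const.inner continuous_id).tendsto F).comp hlim
    refine tendsto_nhds_unique h2 ?_
    refine tendsto_const_nhds.congr fun n => ?_
    rw [inner_sum, Finset.sum_eq_zero fun k _ => hZ k]
  have h3 : ∀ l, inner ℂ (star F) (D.P l F) = (0 : ℂ) := fun l => by
    have h4 := key (star (D.P l F)) (h1 l)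
    rw [K6_inner_star] at h4 ⊢
    rw [← h4]
    refine integral_congr_ae (Filter.Eventually.of_forall fun x => ?_)
    exact mul_comm _ _
  rw [← K6_inner_star]
  exact key _ h3

/-! ### Integrability -/

theorem K6_int_rpow (F : Lp ℂ 2 m) (hF : ∃ C : ℝ, ∀ᵐ x ∂m, ‖F x‖ ≤ C) (p : ℝ) (hp : 0 ≤ p) :
    Integrable (fun x => ‖F x‖ ^ p) m := by
  obtain ⟨C, hC⟩ := hF
  refine Integrable.of_bound ?_ (C ^ p) ?_
  · exact ((Real.continuous_rpow_const hp).measurable.comp_aemeasurable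
      (Lp.aestronglyMeasurable F).norm.aemeasurable).aestronglyMeasurable
  · filter_upwards [hC] with x hx
    rw [Real.norm_eq_abs, abs_of_nonneg (by positivity)]
    exact Real.rpow_le_rpow (norm_nonneg _) hx hp

theorem K6_int (F : Lp ℂ 2 m) : Integrable (fun x => F x) m :=
  (Lp.memLp F).integrable (by norm_num)

omit [IsProbabilityMeasure m] in
theorem K6_int_sq (F : Lp ℂ 2 m) : Integrable (fun x => F x * F x) m := by
  have h := K3_integrable (star F) F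
  refine h.congr ?_
  filter_upwards [Lp.coeFn_star F] with x hx
  rw [hx]
  simp

omit [IsProbabilityMeasure m] in
theorem K6_norm_sq (F : Lp ℂ 2 m) : ∫ x, ‖F x‖ ^ 2 ∂m = ‖F‖ ^ 2 := by
  have h : inner ℂ F F = ((‖F‖ ^ 2 : ℝ) : ℂ) := by
    rw [inner_self_eq_norm_sq_to_K]
    push_cast
    rfl
  rw [K3_inner_eq] at h
  have h2 : ∫ x, conj (F x) * F x ∂m = ((∫ x, ‖F x‖ ^ 2 ∂m : ℝ) : ℂ) := by
    rw [← integral_complex_ofReal]
    refine integral_congr_ae (Filter.Eventually.of_forall fun x => ?_)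
    show conj (F x) * F x = ((‖F x‖ ^ 2 : ℝ) : ℂ)
    rw [mul_comm, Complex.mul_conj, Complex.normSq_eq_norm_sq]
  rw [h2] at h
  exact Complex.ofReal_injective h

omit [IsProbabilityMeasure m] in
theorem K6_int_norm_sq (F : Lp ℂ 2 m) : Integrable (fun x => ‖F x‖ ^ 2) m :=
  (memLp_two_iff_integrable_sq_norm (Lp.aestronglyMeasurable F)).1 (Lp.memLp F)

/-- the pointwise inequality, scaled -/
theorem K6_pt (a r : ℂ) (ha : a ≠ 0) : ‖a + r‖ ^ (10 / 3 : ℝ) ≤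
    ‖a‖ ^ (10 / 3 : ℝ) * (1 + 10 / 3 * (r / a).re + 10 / 9 * (r * r / a ^ 2).re) +
      4 * ‖a‖ ^ (4 / 3 : ℝ) * ‖r‖ ^ 2 + 29 / 25 * ‖r‖ ^ (10 / 3 : ℝ) := by
  have hn : 0 < ‖a‖ := norm_pos_iff.2 ha
  have h := num_pt (r / a)
  have e1 : ‖a + r‖ ^ (10 / 3 : ℝ) = ‖a‖ ^ (10 / 3 : ℝ) * ‖1 + r / a‖ ^ (10 / 3 : ℝ) := by
    rw [← Real.mul_rpow hn.le (norm_nonneg _), ← norm_mul]
    congr 2
    field_simp
  have e2 : ‖a‖ ^ (10 / 3 : ℝ) * ‖r / a‖ ^ 2 = ‖a‖ ^ (4 / 3 : ℝ) * ‖r‖ ^ 2 := by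
    rw [norm_div, div_pow]
    have : ‖a‖ ^ (10 / 3 : ℝ) = ‖a‖ ^ (4 / 3 : ℝ) * ‖a‖ ^ 2 := by
      rw [← Real.rpow_natCast, ← Real.rpow_add hn]
      norm_num
    rw [this]
    field_simp
  have e3 : ‖a‖ ^ (10 / 3 : ℝ) * ‖r / a‖ ^ (10 / 3 : ℝ) = ‖r‖ ^ (10 / 3 : ℝ) := by
    rw [← Real.mul_rpow hn.le (norm_nonneg _), norm_div]
    congr 1
    field_simp
  have e4 : (r / a) ^ 2 = r * r / a ^ 2 := by
    rw [div_pow, sq r]
  rw [e4] at h
  have hp : 0 ≤ ‖a‖ ^ (10 / 3 : ℝ) := by positivity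
  have h2 := mul_le_mul_of_nonneg_left h hp
  rw [e1]
  refine h2.trans (le_of_eq ?_)
  rw [mul_assoc 4, ← e2, ← e3]
  ring

theorem K6_R (D : Core m) (F : Lp ℂ 2 m) (hF : F ∈ D.A) :
    ∃ (a : ℂ) (R : Lp ℂ 2 m), R ∈ D.A ∧ F = a • D.one + R ∧ D.P 0 F = a • D.one ∧
      D.P 0 R = 0 ∧ (∀ l, l ≠ 0 → D.P l R = D.P l F) := by
  have h1 : D.P 0 F ∈ Submodule.span ℂ {D.one} := by
    rw [← D.V0]
    exact D.hP 0 F
  obtain ⟨a, ha⟩ := Submodule.mem_span_singleton.1 h1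
  refine ⟨a, F - a • D.one, D.A.sub_mem hF (D.A.smul_mem a D.oneA), by abel, ha.symm, ?_, ?_⟩
  · rw [map_sub, map_smul, K3_P_of_mem D 0 _ (K6_one_mem D), ← ha, sub_self]
  · intro l hl
    rw [map_sub, map_smul, K3_P_of_mem_ne D l 0 hl _ (K6_one_mem D), smul_zero, sub_zero]

/-- K6 : the `F` side -/
theorem Core.fside (D : Core m) (S : ℝ) (hS : ∀ F ∈ D.A, I3 F ^ (3 / 5 : ℝ) ≤ S * D.En F)
    (F : Lp ℂ 2 m) (hF : F ∈ D.A) (hE : D.En F = 1) :
    I3 F ≤ (‖D.P 0 F‖ ^ 2) ^ (5 / 3 : ℝ) +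
      4 * (‖D.P 0 F‖ ^ 2) ^ (2 / 3 : ℝ) * (‖F‖ ^ 2 - ‖D.P 0 F‖ ^ 2) +
      29 / 25 * (S * (1 - ‖D.P 0 F‖ ^ 2)) ^ (5 / 3 : ℝ) := by
  obtain ⟨a, R, hR, hFR, hP0, hR0, hRl⟩ := K6_R D F hF
  have hone := K6_norm_one D
  have hq : ‖D.P 0 F‖ = ‖a‖ := by rw [hP0, norm_smul, hone, mul_one]
  have hcw0 : cw 0 = 1 := by
    unfold cw
    norm_num
  -- energy of `R`
  have hER : D.En R = 1 - ‖a‖ ^ 2 := by
    have h1 : D.En F = (cw 0)⁻¹ * ‖D.P 0 F‖ ^ 2 + ∑' l, (cw (l + 1))⁻¹ * ‖D.P (l + 1) F‖ ^ 2 :=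
      (D.A_sum F hF).tsum_eq_zero_add
    have h2 : D.En R = (cw 0)⁻¹ * ‖D.P 0 R‖ ^ 2 + ∑' l, (cw (l + 1))⁻¹ * ‖D.P (l + 1) R‖ ^ 2 :=
      (D.A_sum R hR).tsum_eq_zero_add
    have h3 : ∀ l, D.P (l + 1) R = D.P (l + 1) F := fun l => hRl (l + 1) (Nat.succ_ne_zero l)
    simp only [h3] at h2
    rw [h2, hR0, norm_zero]
    rw [hE, hcw0, hq] at h1
    linarith
  -- orthogonality
  have hoR : inner ℂ D.one R = (0 : ℂ) := by
    rw [← D.hP' 0 R _ (K6_one_mem D), hR0, inner_zero_right]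
  have hintR : ∫ x, R x ∂m = 0 := by rw [← K6_inner_one, hoR]
  have hintR2 : ∫ x, R x * R x ∂m = 0 := K6_integral_sq D R hR0 (D.A_par R hR)
  have hnR : ‖F‖ ^ 2 = ‖a‖ ^ 2 + ‖R‖ ^ 2 := by
    have h1 : inner ℂ (a • D.one) R = (0 : ℂ) := by rw [inner_smul_left, hoR, mul_zero]
    have h2 := @norm_add_sq ℂ _ _ _ _ (a • D.one) R
    rw [← hFR, h1, norm_smul, hone] at h2
    simpa using h2
  -- the value of `S`
  have hIR0 : 0 ≤ I3 R := integral_nonneg fun x => by positivity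
  have hIR : I3 R ≤ (S * (1 - ‖a‖ ^ 2)) ^ (5 / 3 : ℝ) := by
    have h1 := hS R hR
    rw [hER] at h1
    have h2 : I3 R = (I3 R ^ (3 / 5 : ℝ)) ^ (5 / 3 : ℝ) := by
      rw [← Real.rpow_mul hIR0]
      norm_num
    rw [h2]
    exact Real.rpow_le_rpow (by positivity) h1 (by norm_num)
  have hae : ∀ᵐ x ∂m, F x = a + R x := by
    have h1 : F =ᵐ[m] (a • D.one + R : Lp ℂ 2 m) := by rw [← hFR]
    filter_upwards [h1, Lp.coeFn_add (a • D.one) R, Lp.coeFn_smul a D.one, D.one_ae] with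
      x h1 h2 h3 h4
    rw [h1, h2, Pi.add_apply, h3, Pi.smul_apply, h4]
    simp
  rw [hq]
  by_cases ha : a = 0
  · have h1 : I3 F = I3 R := by
      unfold I3
      refine integral_congr_ae ?_
      filter_upwards [hae] with x hx
      rw [hx, ha, zero_add]
    rw [h1, ha, norm_zero]
    rw [ha, norm_zero] at hIR
    have h2 : ((0 : ℝ) ^ 2) ^ (5 / 3 : ℝ) = 0 := by
      rw [zero_pow two_ne_zero]
      exact Real.zero_rpow (by norm_num)
    have h3 : ((0 : ℝ) ^ 2) ^ (2 / 3 : ℝ) = 0 := by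
      rw [zero_pow two_ne_zero]
      exact Real.zero_rpow (by norm_num)
    rw [h2, h3]
    linarith
  · have hn : 0 < ‖a‖ := norm_pos_iff.2 ha
    have hb := D.A_bdd R hR
    have i1 : Integrable (fun x => (R x / a).re) m := ((K6_int R).div_const a).re
    have i2 : Integrable (fun x => (R x * R x / a ^ 2).re) m :=
      ((K6_int_sq R).div_const (a ^ 2)).re
    have i3 : Integrable (fun x => ‖R x‖ ^ 2) m := K6_int_norm_sq R
    have i4 : Integrable (fun x => ‖R x‖ ^ (10 / 3 : ℝ)) m := K6_int_rpow R hb _ (by norm_num)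
    have i5 : Integrable (fun x => ‖a‖ ^ (10 / 3 : ℝ) * (1 + 10 / 3 * (R x / a).re +
        10 / 9 * (R x * R x / a ^ 2).re)) m :=
      (((integrable_const _).add (i1.const_mul _)).add (i2.const_mul _)).const_mul _
    have i6 : Integrable (fun x => ‖a‖ ^ (10 / 3 : ℝ) * (1 + 10 / 3 * (R x / a).re +
        10 / 9 * (R x * R x / a ^ 2).re) + 4 * ‖a‖ ^ (4 / 3 : ℝ) * ‖R x‖ ^ 2) m :=
      i5.add (i3.const_mul _)
    have hle : I3 F ≤ ∫ x, (‖a‖ ^ (10 / 3 : ℝ) * (1 + 10 / 3 * (R x / a).re +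
        10 / 9 * (R x * R x / a ^ 2).re) + 4 * ‖a‖ ^ (4 / 3 : ℝ) * ‖R x‖ ^ 2 +
        29 / 25 * ‖R x‖ ^ (10 / 3 : ℝ)) ∂m := by
      unfold I3
      refine integral_mono_ae (K6_int_rpow F (D.A_bdd F hF) _ (by norm_num))
        (i6.add (i4.const_mul _)) ?_
      filter_upwards [hae] with x hx
      rw [hx]
      exact K6_pt a (R x) ha
    refine hle.trans ?_
    have v1 : ∫ x, (R x / a).re ∂m = 0 := by
      have h1 : ∫ x, (R x / a).re ∂m = (∫ x, R x / a ∂m).re :=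
        integral_re (𝕜 := ℂ) ((K6_int R).div_const a)
      rw [h1, integral_div, hintR]
      simp
    have v2 : ∫ x, (R x * R x / a ^ 2).re ∂m = 0 := by
      have h1 : ∫ x, (R x * R x / a ^ 2).re ∂m = (∫ x, R x * R x / a ^ 2 ∂m).re :=
        integral_re (𝕜 := ℂ) ((K6_int_sq R).div_const (a ^ 2))
      rw [h1, integral_div, hintR2]
      simp
    have i7 : Integrable (fun x => 1 + 10 / 3 * (R x / a).re) m :=
      (integrable_const _).add (i1.const_mul _)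
    have v3 : ∫ x, (1 + 10 / 3 * (R x / a).re + 10 / 9 * (R x * R x / a ^ 2).re) ∂m = 1 := by
      rw [integral_add i7 (i2.const_mul _), integral_add (integrable_const _) (i1.const_mul _),
        integral_const_mul, integral_const_mul, v1, v2]
      simp
    rw [integral_add i6 (i4.const_mul _), integral_add i5 (i3.const_mul _), integral_const_mul,
      integral_const_mul, integral_const_mul, v3, K6_norm_sq]
    have e1 : (‖a‖ ^ 2) ^ (5 / 3 : ℝ) = ‖a‖ ^ (10 / 3 : ℝ) := by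
      rw [← Real.rpow_natCast, ← Real.rpow_mul hn.le]
      norm_num
    have e2 : (‖a‖ ^ 2) ^ (2 / 3 : ℝ) = ‖a‖ ^ (4 / 3 : ℝ) := by
      rw [← Real.rpow_natCast, ← Real.rpow_mul hn.le]
      norm_num
    have e3 : ∫ x, ‖R x‖ ^ (10 / 3 : ℝ) ∂m = I3 R := rfl
    rw [e1, e2, e3, hnR]
    have e4 : ‖a‖ ^ 2 + ‖R‖ ^ 2 - ‖a‖ ^ 2 = ‖R‖ ^ 2 := by ring
    rw [e4, mul_one]
    linarith

end Pool.Agent.Cone
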