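import Pool.Agent.Work.MP_b0b133_an.K3
import Pool.Agent.Work.MP_b0b133_an.K4
import Pool.Agent.Work.MP_b0b133_an.K6
import Pool.Agent.Work.MP_b0b133_an.K25
import Pool.Agent.Work.MP_b0b133_an.Num2

/-!
# Assembly of the abstract core
-/

set_option autoImplicit false
open MeasureTheory Complex Filter
open scoped ENNReal ComplexConjugate Topology

namespace Pool.Agent.Cone

theorem K7_quad {X Y : ℝ} (h : ∀ a b : ℝ, |a| ≤ 1 → |b| ≤ 1 →
    (a + b) ^ 2 / 2 * X + (a - b) ^ 2 / 2 * Y ≤ 3 / 7 * a ^ 2 + b ^ 2) :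
    4 ≤ (5 - 7 * X) * (5 - 7 * Y) := by
  have h1 := h 1 0 (by simp) (by simp)
  set q : ℝ := 1 - (X + Y) / 2 with hq
  have hq0 : 0 < q := by rw [hq]; linarith
  set r : ℝ := X - Y with hr
  set M : ℝ := 2 * q + |r| with hM
  have hM0 : 0 < M := by have := abs_nonneg r; rw [hM]; linarith
  have h2 := h (2 * q / M) (r / M)
    (by rw [abs_of_nonneg (by positivity), div_le_one hM0]; have := abs_nonneg r; linarith)
    (by rw [abs_div, abs_of_pos hM0, div_le_one hM0]; linarith)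
  have h3 : (2 * q / M + r / M) ^ 2 / 2 * X + (2 * q / M - r / M) ^ 2 / 2 * Y -
      (3 / 7 * (2 * q / M) ^ 2 + (r / M) ^ 2) =
      -(q * (4 * (3 / 7 - (X + Y) / 2) * q - r ^ 2)) / M ^ 2 := by
    field_simp
    rw [hq, hr]
    ring
  have h4 : 0 ≤ (q * (4 * (3 / 7 - (X + Y) / 2) * q - r ^ 2)) / M ^ 2 := by
    have := sub_nonpos.2 h2
    rw [h3, neg_div] at this
    linarith
  have h5 : 0 ≤ q * (4 * (3 / 7 - (X + Y) / 2) * q - r ^ 2) := by
    by_contra hc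
    push Not at hc
    have := div_neg_of_neg_of_pos hc (pow_pos hM0 2)
    linarith
  have h6 : 0 ≤ 4 * (3 / 7 - (X + Y) / 2) * q - r ^ 2 := nonneg_of_mul_nonneg_right h5 hq0
  rw [hq, hr] at h6
  nlinarith [h6]

theorem K7_det {s₁ s₂ : ℝ} (h : ∀ a b : ℝ, |a| ≤ 1 → |b| ≤ 1 →
    (a + b) ^ 2 / 2 * s₁ + (a - b) ^ 2 / 2 * (3 / 5 - s₂ / 5) ≤ 3 / 7 * a ^ 2 + b ^ 2) :
    4 * s₁ ≤ s₂ * (5 - 7 * s₁) := by
  have := K7_quad h
  nlinarith [this]

variable {Ω : Type*} [MeasurableSpace Ω] {m : Measure Ω} [IsProbabilityMeasure m]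

theorem K7_cw_pos (l : ℕ) : 0 < cw l := by unfold cw; positivity

theorem K7_cw_zero : cw 0 = 1 := by unfold cw; norm_num

/-- products with bounded multipliers -/
theorem K7_mul (φ : Ω → ℂ) (hφ : Measurable φ) (h1 : ∀ x, ‖φ x‖ ≤ 1) (G : Lp ℂ 2 m) :
    ∃ G' : Lp ℂ 2 m, ∀ᵐ x ∂m, G' x = φ x * G x := by
  have h : MemLp (fun x => φ x * G x) 2 m :=
    (Lp.memLp G).mono (hφ.aestronglyMeasurable.mul (Lp.aestronglyMeasurable G))
      (Eventually.of_forall fun x => by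
        rw [norm_mul]; exact mul_le_of_le_one_left (norm_nonneg _) (h1 x))
  exact ⟨h.toLp _, h.coeFn_toLp⟩

theorem K7_X_le (D : Core m) (j : Fin 5) (x : Ω) : ‖D.X j x‖ ≤ 1 := by
  have h := D.hX1 x
  have h2 : ‖D.X j x‖ ^ 2 ≤ 1 := by
    rw [← h]
    exact Finset.single_le_sum (f := fun j => ‖D.X j x‖ ^ 2) (fun i _ => sq_nonneg _)
      (Finset.mem_univ j)
  nlinarith [norm_nonneg (D.X j x)]

/-- the second variation property -/
def K7_SV (D : Core m) (S : ℝ) (err : ℝ → ℝ) : Prop :=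
  ∀ δ : ℝ, 0 < δ → δ ≤ 1 → ∀ G : Lp ℂ 2 m, (∃ C : ℝ, ∀ᵐ x ∂m, ‖G x‖ ≤ C) →
      I7 G = 1 → S - δ ≤ D.Qn G →
      (∀ j, ‖∫ x, D.X j x * (‖G x‖ ^ (10 / 7 : ℝ) : ℝ) ∂m‖ ≤ δ) →
      ∀ G1 G2 : Fin 5 → Lp ℂ 2 m, (∀ j, ∀ᵐ x ∂m, G1 j x = conj (D.X j x) * G x) →
      (∀ j, ∀ᵐ x ∂m, G2 j x = D.X j x * G x) → ∀ a b : ℝ, |a| ≤ 1 → |b| ≤ 1 →
      (a + b) ^ 2 / 2 * ∑ j, D.Qn (G1 j) + (a - b) ^ 2 / 2 * ∑ j, D.Qn (G2 j) ≤
        S * (3 / 7 * a ^ 2 + b ^ 2) + err δ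

theorem K7_data (D : Core m) (S : ℝ) (hS1 : 1 ≤ S)
    (hS : ∀ F ∈ D.A, I3 F ^ (3 / 5 : ℝ) ≤ S * D.En F)
    (hQ : ∀ G : Lp ℂ 2 m, (∃ C : ℝ, ∀ᵐ x ∂m, ‖G x‖ ≤ C) → D.Qn G ≤ S * I7 G ^ (7 / 5 : ℝ))
    (err : ℝ → ℝ) (herr : K7_SV D S err) (δ : ℝ) (hδ0 : 0 < δ) (hδ1 : δ ≤ 1 / 2)
    (F : Lp ℂ 2 m) (hF : F ∈ D.A) (hE : D.En F = 1) (hN : S - δ ≤ I3 F ^ (3 / 5 : ℝ))
    (hmom : ∀ j, ‖∫ x, D.X j x * (‖F x‖ ^ (10 / 3 : ℝ) : ℝ) ∂m‖ ≤ δ * I3 F) :
    ∃ t w s₁ s₂ N : ℝ, 0 ≤ t ∧ t ≤ 1 ∧ 0 ≤ w ∧ w ≤ 1 ∧ 0 ≤ s₂ ∧ s₂ ≤ s₁ ∧ s₁ ≤ 1 ∧ t / 3 ≤ s₁ ∧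
      w ≤ 2681 / 10000 * t - 2681 / 1000 * (s₂ - 4 / 5 * s₁) ∧
      S - δ ≤ N ∧ N ≤ S ∧
      (∀ a b : ℝ, |a| ≤ 1 → |b| ≤ 1 →
        (a + b) ^ 2 / 2 * (N * s₁ - 2 * √(S * δ)) + (a - b) ^ 2 / 2 *
          (3 / 5 * (S - δ) - 1 / 5 * (N * s₂ + 2 * √(S * δ))) ≤
          S * (3 / 7 * a ^ 2 + b ^ 2) + err δ) ∧
      N ^ (5 / 3 : ℝ) ≤ (1 - t) ^ (5 / 3 : ℝ) + 4 * (1 - t) ^ (2 / 3 : ℝ) * w +
        29 / 25 * (S * t) ^ (5 / 3 : ℝ) := by
  obtain ⟨G, hGb, hG7, hGQ, hGm, hGs, hGt⟩ := D.transfer S hS hQ F hF hE δ hδ0 hN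
  have hI3 : 0 ≤ I3 F := integral_nonneg fun x => by positivity
  set N : ℝ := I3 F ^ (3 / 5 : ℝ) with hNdef
  have hN0 : 0 < N := by linarith
  have hI3p : 0 < I3 F := by
    rcases hI3.lt_or_eq with h | h
    · exact h
    · rw [hNdef, ← h, Real.zero_rpow (by norm_num)] at hN0
      exact absurd hN0 (lt_irrefl 0)
  have hNS : N ≤ S := by have := hS F hF; rw [hE, mul_one] at this; exact this
  -- the numbers `p_l`
  set p : ℕ → ℝ := fun l => (cw l)⁻¹ * ‖D.P l F‖ ^ 2 with hp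
  have hp0 : ∀ l, 0 ≤ p l := fun l => mul_nonneg (inv_nonneg.2 (K7_cw_pos l).le) (sq_nonneg _)
  have hps : Summable p := D.A_sum F hF
  have hp1 : ∑' l, p l = 1 := hE
  have hsplit : ∀ g : ℕ → ℝ, (∀ l, 0 ≤ g l) → (∀ l, g l ≤ 1) →
      (Summable fun l => p l * g l) ∧ (Summable fun l => p (l + 1) * g (l + 1)) ∧
      ∑' l, p l * g l = p 0 * g 0 + ∑' l, p (l + 1) * g (l + 1) := by
    intro g hg0 hg1
    have h1 : Summable fun l => p l * g l :=
      Summable.of_nonneg_of_le (fun l => mul_nonneg (hp0 l) (hg0 l))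
        (fun l => mul_le_of_le_one_right (hp0 l) (hg1 l)) hps
    exact ⟨h1, (summable_nat_add_iff 1).2 h1, h1.tsum_eq_zero_add⟩
  set g1 : ℕ → ℝ := fun l => (l : ℝ) / (2 * l + 1) with hg1
  set g2 : ℕ → ℝ := fun l => (l : ℝ) / (2 * l + 5) with hg2
  have g1a : ∀ l, 0 ≤ g1 l := fun l => by simp only [hg1]; positivity
  have g2a : ∀ l, 0 ≤ g2 l := fun l => by simp only [hg2]; positivity
  have g1b : ∀ l, g1 l ≤ 1 / 2 := fun l => by
    simp only [hg1]; rw [div_le_div_iff₀ (by positivity) (by norm_num)]; linarith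
  have g2b : ∀ l, g2 l ≤ g1 l := fun l => by
    simp only [hg1, hg2]; gcongr; norm_num
  have hcw : ∀ l, cw l ≤ 1 := fun l => by
    unfold cw; rw [div_le_one (by positivity)]; have : (0 : ℝ) ≤ l := Nat.cast_nonneg l; linarith
  obtain ⟨a1, a2, a3⟩ := hsplit g1 g1a (fun l => (g1b l).trans (by norm_num))
  obtain ⟨b1, b2, b3⟩ := hsplit g2 g2a (fun l => (g2b l).trans ((g1b l).trans (by norm_num)))
  obtain ⟨c1, c2, c3⟩ := hsplit cw (fun l => (K7_cw_pos l).le) hcw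
  obtain ⟨d1, d2, d3⟩ := hsplit (fun _ => 1) (fun _ => zero_le_one) (fun _ => le_rfl)
  simp only [mul_one] at d1 d2 d3
  have hg10 : g1 0 = 0 := by simp [hg1]
  have hg20 : g2 0 = 0 := by simp [hg2]
  rw [hg10, mul_zero, zero_add] at a3
  rw [hg20, mul_zero, zero_add] at b3
  rw [K7_cw_zero, mul_one] at c3
  rw [hp1] at d3
  have hpcw : ∀ l, p l * cw l = ‖D.P l F‖ ^ 2 := fun l => by
    have := (K7_cw_pos l).ne'
    simp only [hp]; field_simp
  have hp00 : p 0 = ‖D.P 0 F‖ ^ 2 := by have := hpcw 0; rwa [K7_cw_zero, mul_one] at this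
  have hF2 : ‖F‖ ^ 2 = ∑' l, p l * cw l := by
    rw [← (D.A_par F hF).tsum_eq]; exact tsum_congr fun l => (hpcw l).symm
  -- `t`, `w`
  set t : ℝ := ∑' l, p (l + 1) with ht
  set wv : ℝ := ∑' l, p (l + 1) * cw (l + 1) with hw
  set s₁ : ℝ := ∑' l, p (l + 1) * g1 (l + 1) with hs1
  set s₂ : ℝ := ∑' l, p (l + 1) * g2 (l + 1) with hs2
  have ht0 : 0 ≤ t := tsum_nonneg fun l => hp0 _
  have hp0t : p 0 = 1 - t := by linarith
  have ht1 : t ≤ 1 := by have := hp0 0; linarith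
  have hw0 : 0 ≤ wv := tsum_nonneg fun l => mul_nonneg (hp0 _) (K7_cw_pos _).le
  have hwt : wv ≤ t := c2.tsum_le_tsum (fun l => mul_le_of_le_one_right (hp0 _) (hcw _)) d2
  have hs20 : 0 ≤ s₂ := tsum_nonneg fun l => mul_nonneg (hp0 _) (g2a _)
  have hs21 : s₂ ≤ s₁ := b2.tsum_le_tsum (fun l => mul_le_mul_of_nonneg_left (g2b _) (hp0 _)) a2
  have hs1t : s₁ ≤ t := a2.tsum_le_tsum (fun l => mul_le_of_le_one_right (hp0 _)
    ((g1b _).trans (by norm_num))) d2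
  have hts : t / 3 ≤ s₁ := by
    have h1 : ∑' l, p (l + 1) * (1 / 3) ≤ s₁ := by
      refine (d2.mul_right _).tsum_le_tsum (fun l => mul_le_mul_of_nonneg_left ?_ (hp0 _)) a2
      simp only [hg1]
      rw [div_le_div_iff₀ (by norm_num) (by positivity)]
      push_cast
      have : (0 : ℝ) ≤ l := Nat.cast_nonneg l
      linarith
    rw [tsum_mul_right] at h1
    linarith
  have hlin : wv ≤ 2681 / 10000 * t - 2681 / 1000 * (s₂ - 4 / 5 * s₁) := by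
    have h1 : Summable fun l => p (l + 1) * (2681 / 10000 -
        2681 / 1000 * (g2 (l + 1) - 4 / 5 * g1 (l + 1))) := by
      have := (d2.mul_left (2681 / 10000)).sub ((b2.sub (a2.mul_left (4 / 5))).mul_left (2681 / 1000))
      refine this.congr fun l => ?_
      ring
    have h2 : ∑' l, p (l + 1) * (2681 / 10000 -
        2681 / 1000 * (g2 (l + 1) - 4 / 5 * g1 (l + 1))) =
        2681 / 10000 * t - 2681 / 1000 * (s₂ - 4 / 5 * s₁) := by
      rw [ht, hs2, hs1, ← tsum_mul_left, ← tsum_mul_left, ← b2.tsum_sub (a2.mul_left _),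
        ← tsum_mul_left, ← (d2.mul_left _).tsum_sub ((b2.sub (a2.mul_left _)).mul_left _)]
      exact tsum_congr fun l => by ring
    rw [← h2]
    refine c2.tsum_le_tsum (fun l => mul_le_mul_of_nonneg_left ?_ (hp0 _)) h1
    have := num_lp (l + 1) (by omega)
    unfold cw
    simp only [hg1, hg2]
    exact this
  refine ⟨t, wv, s₁, s₂, N, ht0, ht1, hw0, hwt.trans ht1, hs20, hs21, hs1t.trans ht1, hts, hlin,
    hN, hNS, ?_, ?_⟩
  · -- the second variation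
    intro a b ha hb
    have hX : ∀ j, Measurable fun x => conj (D.X j x) := fun j =>
      Complex.continuous_conj.measurable.comp (D.hXm j)
    choose G1 hG1 using fun j => K7_mul (fun x => conj (D.X j x)) (hX j)
      (fun x => by rw [RCLike.norm_conj]; exact K7_X_le D j x) G
    choose G2 hG2 using fun j => K7_mul (D.X j) (D.hXm j) (K7_X_le D j) G
    have hm : ∀ j, ‖∫ x, D.X j x * (‖G x‖ ^ (10 / 7 : ℝ) : ℝ) ∂m‖ ≤ δ := by
      intro j
      rw [hGm j, norm_mul, Complex.norm_real, norm_inv, Real.norm_of_nonneg hI3]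
      rw [inv_mul_le_iff₀ hI3p, mul_comm]
      exact hmom j
    have key := herr δ hδ0 (by linarith) G hGb hG7 hGQ hm G1 G2 hG1 hG2 a b ha hb
    have k1 := D.ladder_dn G G1 hG1
    have k2 := D.ladder_up G G2 hG2
    -- compare the sums for `G` with those for `F`
    set r : ℕ → ℝ := fun l => cw l * ‖D.P l G‖ ^ 2 with hr
    have hr0 : ∀ l, 0 ≤ r l := fun l => mul_nonneg (K7_cw_pos l).le (sq_nonneg _)
    have hd : Summable fun l => |r l - N * p l| := hGs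
    have hd' : ∑' l, |r l - N * p l| ≤ 2 * √(S * δ) := hGt
    have hrs : Summable r := by
      have h1 : Summable fun l => r l - N * p l := hd.of_abs
      have := h1.add (hps.mul_left N)
      refine this.congr fun l => ?_
      ring
    have comp : ∀ g : ℕ → ℝ, (∀ l, 0 ≤ g l) → (∀ l, g l ≤ 1) →
        |∑' l, r l * g l - N * ∑' l, p l * g l| ≤ 2 * √(S * δ) := by
      intro g hg0 hg1'
      have e1 : Summable fun l => r l * g l :=
        Summable.of_nonneg_of_le (fun l => mul_nonneg (hr0 l) (hg0 l))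
          (fun l => mul_le_of_le_one_right (hr0 l) (hg1' l)) hrs
      have e2 := (hsplit g hg0 hg1').1
      have e3 : Summable fun l => |(r l - N * p l) * g l| := by
        refine Summable.of_nonneg_of_le (fun l => abs_nonneg _) (fun l => ?_) hd
        rw [abs_mul, abs_of_nonneg (hg0 l)]
        exact mul_le_of_le_one_right (abs_nonneg _) (hg1' l)
      have e4 : ∑' l, r l * g l - N * ∑' l, p l * g l = ∑' l, (r l - N * p l) * g l := by
        rw [← tsum_mul_left, ← e1.tsum_sub (e2.mul_left N)]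
        exact tsum_congr fun l => by ring
      rw [e4]
      calc |∑' l, (r l - N * p l) * g l| ≤ ∑' l, |(r l - N * p l) * g l| := by
            have := norm_tsum_le_tsum_norm (f := fun l => (r l - N * p l) * g l) e3
            simpa [Real.norm_eq_abs] using this
        _ ≤ ∑' l, |r l - N * p l| := e3.tsum_le_tsum (fun l => by
            rw [abs_mul, abs_of_nonneg (hg0 l)]
            exact mul_le_of_le_one_right (abs_nonneg _) (hg1' l)) hd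
        _ ≤ _ := hd'
    have m1 := comp g1 g1a (fun l => (g1b l).trans (by norm_num))
    have m2 := comp g2 g2a (fun l => (g2b l).trans ((g1b l).trans (by norm_num)))
    rw [a3] at m1
    rw [b3] at m2
    have k1' : N * s₁ - 2 * √(S * δ) ≤ ∑ j, D.Qn (G1 j) := by
      refine le_trans ?_ k1
      have : ∑' l : ℕ, cw l * ‖D.P l G‖ ^ 2 * (l / (2 * l + 1)) = ∑' l, r l * g1 l := rfl
      rw [this]
      have := (abs_le.1 m1).1
      linarith
    have k2' : 3 / 5 * (S - δ) - 1 / 5 * (N * s₂ + 2 * √(S * δ)) ≤ ∑ j, D.Qn (G2 j) := by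
      refine le_trans ?_ k2
      have e1 : Summable fun l => r l * g2 l :=
        Summable.of_nonneg_of_le (fun l => mul_nonneg (hr0 l) (g2a l))
          (fun l => mul_le_of_le_one_right (hr0 l)
            ((g2b l).trans ((g1b l).trans (by norm_num)))) hrs
      have e2 : ∑' l : ℕ, cw l * ‖D.P l G‖ ^ 2 * ((l + 3) / (2 * l + 5)) =
          3 / 5 * ∑' l, r l - 1 / 5 * ∑' l, r l * g2 l := by
        rw [← tsum_mul_left, ← tsum_mul_left, ← (hrs.mul_left _).tsum_sub (e1.mul_left _)]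
        refine tsum_congr fun l => ?_
        simp only [hr, hg2]
        field_simp
        ring
      have e3 : ∑' l, r l = D.Qn G := rfl
      rw [e2, e3]
      have := (abs_le.1 m2).2
      linarith
    have u1 : 0 ≤ (a + b) ^ 2 / 2 := by positivity
    have u2 : 0 ≤ (a - b) ^ 2 / 2 := by positivity
    calc _ ≤ (a + b) ^ 2 / 2 * ∑ j, D.Qn (G1 j) + (a - b) ^ 2 / 2 * ∑ j, D.Qn (G2 j) :=
          add_le_add (mul_le_mul_of_nonneg_left k1' u1) (mul_le_mul_of_nonneg_left k2' u2)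
      _ ≤ _ := key
  · have h := D.fside S hS F hF hE
    have e1 : N ^ (5 / 3 : ℝ) = I3 F := by
      rw [hNdef, ← Real.rpow_mul hI3]; norm_num
    rw [e1]
    rw [← hp00, hF2, c3, hp0t] at h
    have e2 : 1 - (1 - t) = t := by ring
    rw [e2] at h
    have e3 : (1 - t) + wv - (1 - t) = wv := by ring
    rw [e3] at h
    exact h

theorem Core.main (D : Core m) (F : Lp ℂ 2 m) (hF : F ∈ D.A) :
    I3 F ^ (3 / 5 : ℝ) ≤ D.En F := by
  obtain ⟨S, hS1, hS, hSn⟩ := D.exists_S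
  have hQ := D.Qn_le S hS
  obtain ⟨err, herr, hsv⟩ := D.second_var S (by linarith) hQ
  have hE0 : 0 ≤ D.En F := tsum_nonneg fun l =>
    mul_nonneg (inv_nonneg.2 (K7_cw_pos l).le) (sq_nonneg _)
  suffices hS' : S ≤ 1 by
    calc I3 F ^ (3 / 5 : ℝ) ≤ S * D.En F := hS F hF
      _ ≤ 1 * D.En F := mul_le_mul_of_nonneg_right hS' hE0
      _ = D.En F := one_mul _
  -- a sequence
  set δ : ℕ → ℝ := fun n => 1 / ((n : ℝ) + 2) with hδ
  have hδ0 : ∀ n, 0 < δ n := fun n => by simp only [hδ]; positivity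
  have hδ1 : ∀ n, δ n ≤ 1 / 2 := fun n => by
    simp only [hδ]
    rw [div_le_div_iff₀ (by positivity) (by norm_num)]
    have : (0 : ℝ) ≤ n := Nat.cast_nonneg n
    linarith
  have hδt : Tendsto δ atTop (𝓝 0) := by
    have := tendsto_one_div_add_atTop_nhds_zero_nat (𝕜 := ℝ)
    have h2 := (tendsto_add_atTop_iff_nat 1).2 this
    refine h2.congr fun n => ?_
    simp only [hδ]
    push_cast
    ring
  have hdata : ∀ n, ∃ t w s₁ s₂ N : ℝ, 0 ≤ t ∧ t ≤ 1 ∧ 0 ≤ w ∧ w ≤ 1 ∧ 0 ≤ s₂ ∧ s₂ ≤ s₁ ∧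
      s₁ ≤ 1 ∧ t / 3 ≤ s₁ ∧
      w ≤ 2681 / 10000 * t - 2681 / 1000 * (s₂ - 4 / 5 * s₁) ∧
      S - δ n ≤ N ∧ N ≤ S ∧
      (∀ a b : ℝ, |a| ≤ 1 → |b| ≤ 1 →
        (a + b) ^ 2 / 2 * (N * s₁ - 2 * √(S * δ n)) + (a - b) ^ 2 / 2 *
          (3 / 5 * (S - δ n) - 1 / 5 * (N * s₂ + 2 * √(S * δ n))) ≤
          S * (3 / 7 * a ^ 2 + b ^ 2) + err (δ n)) ∧
      N ^ (5 / 3 : ℝ) ≤ (1 - t) ^ (5 / 3 : ℝ) + 4 * (1 - t) ^ (2 / 3 : ℝ) * w +
        29 / 25 * (S * t) ^ (5 / 3 : ℝ) := by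
    intro n
    obtain ⟨Fn, h1, h2, h3, h4⟩ := hSn (δ n) (hδ0 n)
    exact K7_data D S hS1 hS hQ err hsv (δ n) (hδ0 n) (hδ1 n) Fn h1 h2 h3 h4
  choose t w s₁ s₂ N ht0 ht1 hw0 hw1 hs20 hs21 hs11 hts hlin hN1 hN2 hdet hfin using hdata
  have hNt : Tendsto N atTop (𝓝 S) := by
    refine tendsto_of_tendsto_of_tendsto_of_le_of_le (g := fun n => S - δ n) (h := fun _ => S) ?_
      tendsto_const_nhds hN1 hN2
    simpa using tendsto_const_nhds.sub hδt
  -- extraction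
  have hcomp : IsCompact (Set.Icc (0 : ℝ × ℝ × ℝ × ℝ) 1) := isCompact_Icc
  obtain ⟨⟨t', w', s₁', s₂'⟩, -, φ, hφ, hlim⟩ := hcomp.tendsto_subseq
    (x := fun n => (t n, w n, s₁ n, s₂ n)) (fun n => by
      refine ⟨⟨ht0 n, hw0 n, (hs20 n).trans (hs21 n), hs20 n⟩, ⟨ht1 n, hw1 n, hs11 n, ?_⟩⟩
      exact (hs21 n).trans (hs11 n))
  have l1 : Tendsto (fun n => t (φ n)) atTop (𝓝 t') := hlim.fst_nhds
  have l2 : Tendsto (fun n => w (φ n)) atTop (𝓝 w') := hlim.snd_nhds.fst_nhds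
  have l3 : Tendsto (fun n => s₁ (φ n)) atTop (𝓝 s₁') := hlim.snd_nhds.snd_nhds.fst_nhds
  have l4 : Tendsto (fun n => s₂ (φ n)) atTop (𝓝 s₂') := hlim.snd_nhds.snd_nhds.snd_nhds
  have l5 : Tendsto (fun n => N (φ n)) atTop (𝓝 S) := hNt.comp hφ.tendsto_atTop
  have l6 : Tendsto (fun n => δ (φ n)) atTop (𝓝 0) := hδt.comp hφ.tendsto_atTop
  have l7 : Tendsto (fun n => err (δ (φ n))) atTop (𝓝 0) :=
    herr.comp (tendsto_nhdsWithin_iff.2 ⟨l6, Eventually.of_forall fun n => hδ0 _⟩)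
  have l8 : Tendsto (fun n => √(S * δ (φ n))) atTop (𝓝 0) := by
    have : Tendsto (fun n => √(S * δ (φ n))) atTop (𝓝 √(S * 0)) :=
      (Real.continuous_sqrt.tendsto _).comp (tendsto_const_nhds.mul l6)
    simpa using this
  have hSp : 0 < S := by linarith
  refine num_end (t := t') (w := w') (s₁ := s₁') (s₂ := s₂')
    (ge_of_tendsto' l1 fun n => ht0 _) (le_of_tendsto' l1 fun n => ht1 _)
    (ge_of_tendsto' l4 fun n => hs20 _) (le_of_tendsto_of_tendsto' l4 l3 fun n => hs21 _)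
    (le_of_tendsto_of_tendsto' (l1.div_const 3) l3 fun n => hts _)
    (le_of_tendsto_of_tendsto' l2 ((l1.const_mul _).sub ((l4.sub (l3.const_mul _)).const_mul _))
      fun n => hlin _) (K7_det fun a b ha hb => ?_) ?_
  · have h1 : Tendsto (fun n => (a + b) ^ 2 / 2 * (N (φ n) * s₁ (φ n) - 2 * √(S * δ (φ n))) +
        (a - b) ^ 2 / 2 * (3 / 5 * (S - δ (φ n)) -
          1 / 5 * (N (φ n) * s₂ (φ n) + 2 * √(S * δ (φ n))))) atTop
        (𝓝 ((a + b) ^ 2 / 2 * (S * s₁' - 2 * 0) +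
        (a - b) ^ 2 / 2 * (3 / 5 * (S - 0) - 1 / 5 * (S * s₂' + 2 * 0)))) :=
      (((l5.mul l3).sub (l8.const_mul 2)).const_mul _).add
        ((((tendsto_const_nhds.sub l6).const_mul _).sub
          (((l5.mul l4).add (l8.const_mul 2)).const_mul _)).const_mul _)
    have h2 : Tendsto (fun n => S * (3 / 7 * a ^ 2 + b ^ 2) + err (δ (φ n))) atTop
        (𝓝 (S * (3 / 7 * a ^ 2 + b ^ 2) + 0)) := tendsto_const_nhds.add l7
    have h3 := le_of_tendsto_of_tendsto' h1 h2 fun n => hdet (φ n) a b ha hb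
    have h4 : S * ((a + b) ^ 2 / 2 * s₁' + (a - b) ^ 2 / 2 * (3 / 5 - s₂' / 5)) ≤
        S * (3 / 7 * a ^ 2 + b ^ 2) := by
      linarith
    exact le_of_mul_le_mul_left h4 hSp
  · have hr : ∀ {u : ℕ → ℝ} {x : ℝ} (e : ℝ), 0 < e → Tendsto u atTop (𝓝 x) →
        Tendsto (fun n => u n ^ e) atTop (𝓝 (x ^ e)) := fun {u x} e he h =>
      h.rpow_const (Or.inr he.le)
    have h1 := hr (5 / 3) (by norm_num) l5
    have h2 := ((hr (5 / 3) (by norm_num) (tendsto_const_nhds.sub l1 : Tendsto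
      (fun n => 1 - t (φ n)) atTop (𝓝 (1 - t')))).add
      (((hr (2 / 3) (by norm_num) (tendsto_const_nhds.sub l1 : Tendsto
      (fun n => 1 - t (φ n)) atTop (𝓝 (1 - t')))).const_mul 4).mul l2)).add
      ((hr (5 / 3) (by norm_num) (l1.const_mul S)).const_mul (29 / 25))
    have h3 := le_of_tendsto_of_tendsto' h1 h2 fun n => hfin (φ n)
    have ht' : 0 ≤ t' := ge_of_tendsto' l1 fun n => ht0 _
    rw [Real.mul_rpow hSp.le ht'] at h3
    linarith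

end Pool.Agent.Cone
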