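import Pool.Agent.Work.MP_b0b133_an.U5
import Pool.Agent.Work.MP_b0b133_an.K7
import Pool.Agent.Work.MP_b0b133_an.F1c
import Pool.Agent.Work.MP_b0b133_an.E

/-!
# Final assembly: the exponential `e^{-|ξ|}` is a maximizer on the half-cone in dimension `4`
-/

set_option autoImplicit false
open MeasureTheory Complex
open scoped ENNReal ComplexConjugate

namespace Pool.Agent.Cone

/-! ## Elementary facts on the extension operator -/

theorem Z_expSpan_mem (f : R4 → ℂ) (hf : f ∈ ExpSpan) : Integrable f sig ∧ MemLp f 2 sig := by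
  unfold ExpSpan at hf
  induction hf using Submodule.span_induction with
  | mem f h =>
    obtain ⟨c, v, hv, rfl⟩ := h
    exact expo_integrable c v hv
  | zero => exact ⟨integrable_zero _ _ _, MemLp.zero⟩
  | add f g _ _ h1 h2 => exact ⟨h1.1.add h2.1, h1.2.add h2.2⟩
  | smul r f _ h => exact ⟨h.1.smul r, h.2.const_smul r⟩

theorem Z_continuous_pair (a : R5) : Continuous fun ξ : R4 => pair a ξ := by
  unfold pair
  fun_prop

theorem Z_integrable (f : R4 → ℂ) (hf : Integrable f sig) (a : R5) :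
    Integrable (fun ξ => cexp (-(I * (pair a ξ : ℂ))) * f ξ) sig := by
  refine hf.bdd_mul (c := 1) ?_ ?_
  · have h := Z_continuous_pair a
    have h2 : Continuous fun ξ : R4 => cexp (-(I * (pair a ξ : ℂ))) := by fun_prop
    exact h2.aestronglyMeasurable
  · refine Filter.Eventually.of_forall fun ξ => ?_
    rw [Complex.norm_exp]
    simp

theorem Z_coneExt_add (f g : R4 → ℂ) (hf : Integrable f sig) (hg : Integrable g sig) (a : R5) :
    coneExt (f + g) a = coneExt f a + coneExt g a := by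
  unfold coneExt
  rw [← integral_add (Z_integrable f hf a) (Z_integrable g hg a)]
  refine integral_congr_ae (Filter.Eventually.of_forall fun ξ => ?_)
  simp only [Pi.add_apply]
  ring

theorem Z_coneExt_smul (r : ℂ) (f : R4 → ℂ) (a : R5) :
    coneExt (r • f) a = r * coneExt f a := by
  unfold coneExt
  rw [← integral_const_mul]
  refine integral_congr_ae (Filter.Eventually.of_forall fun ξ => ?_)
  simp only [Pi.smul_apply, smul_eq_mul]
  ring

theorem Z_coneExt_congr (f g : R4 → ℂ) (h : f =ᵐ[sig] g) : coneExt f = coneExt g := by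
  funext a
  unfold coneExt
  refine integral_congr_ae ?_
  filter_upwards [h] with ξ hξ
  rw [hξ]

/-! ## The concrete core -/

theorem Z_core : ∃ (_ : IsProbabilityMeasure mM) (D : Core mM),
    (∀ F : Lp ℂ 2 mM, F ∈ D.A ↔ ∃ f ∈ ExpSpan, F =ᵐ[mM] toM (coneExt f)) ∧
    (∀ F : Lp ℂ 2 mM, ∀ f ∈ ExpSpan, F =ᵐ[mM] toM (coneExt f) →
      D.En F = 32 * Real.pi ^ 2 * ∫ ξ, ‖f ξ‖ ^ 2 ∂sig) := by
  obtain ⟨hp, V, P, A, one, h1, h2, h3, h4, h5, h6, h7, h8, h9, h10, h11, h12, h13, h14⟩ :=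
    exists_preCore
  obtain ⟨C0, hC0⟩ := strichartz
  have hM := U3_mass_pos
  set M := (mM0 Set.univ).toReal with hMdef
  have hI3 : ∀ F : Lp ℂ 2 mM, ∀ f ∈ ExpSpan, F =ᵐ[mM] toM (coneExt f) →
      ∫ a, ‖coneExt f a‖ ^ (10 / 3 : ℝ) = M * ∫ x, ‖F x‖ ^ (10 / 3 : ℝ) ∂mM := by
    intro F f hf hF
    obtain ⟨hf1, hf2⟩ := Z_expSpan_mem f hf
    rw [integral_toM (coneExt f) (hC0 f hf1 hf2).1.1]
    congr 1
    refine integral_congr_ae ?_
    filter_upwards [hF] with x hx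
    rw [hx]
  refine ⟨hp, ⟨X, V, P, A, one, fun j => (C0_continuous_X j).measurable, sum_norm_X, h1, h2, h3,
    h4, h5, h6, h7, h8, h9, h10, h11, ?_, h12, ?_, ?_⟩, h13, h14⟩
  · intro F hF
    obtain ⟨f, hf, hFf⟩ := (h13 F).1 hF
    obtain ⟨C, hC⟩ := toM_bdd f hf
    refine ⟨C, ?_⟩
    filter_upwards [hFf] with x hx
    rw [hx]
    exact hC x
  · refine ⟨C0 * (32 * Real.pi ^ 2)⁻¹ * (M ^ (3 / 5 : ℝ))⁻¹, fun F hF => ?_⟩
    obtain ⟨f, hf, hFf⟩ := (h13 F).1 hF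
    obtain ⟨hf1, hf2⟩ := Z_expSpan_mem f hf
    rw [h14 F f hf hFf]
    have h := (hC0 f hf1 hf2).2
    have hnn : 0 ≤ ∫ x, ‖F x‖ ^ (10 / 3 : ℝ) ∂mM :=
      integral_nonneg fun x => Real.rpow_nonneg (norm_nonneg _) _
    rw [hI3 F f hf hFf, Real.mul_rpow hM.le hnn] at h
    have hMp : 0 < M ^ (3 / 5 : ℝ) := Real.rpow_pos_of_pos hM _
    have hpi : (0 : ℝ) < Real.pi := Real.pi_pos
    have h' : (∫ x, ‖F x‖ ^ (10 / 3 : ℝ) ∂mM) ^ (3 / 5 : ℝ) ≤
        (M ^ (3 / 5 : ℝ))⁻¹ * (C0 * ∫ ξ, ‖f ξ‖ ^ 2 ∂sig) := by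
      rw [inv_mul_eq_div, le_div_iff₀ hMp]
      linarith
    refine h'.trans (le_of_eq ?_)
    field_simp
  · intro F hF hF0 ε hε
    obtain ⟨f, hf, hFf⟩ := (h13 F).1 hF
    obtain ⟨hf1, hf2⟩ := Z_expSpan_mem f hf
    have hne : ∫ ξ, ‖f ξ‖ ^ 2 ∂sig ≠ 0 := by
      intro h0
      apply hF0
      have hint : Integrable (fun ξ => ‖f ξ‖ ^ 2) sig := hf2.integrable_norm_pow (by norm_num)
      rw [integral_eq_zero_iff_of_nonneg (fun ξ => by positivity) hint] at h0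
      have hf0 : f =ᵐ[sig] 0 := by
        filter_upwards [h0] with ξ hξ
        simpa using hξ
      have h00 : coneExt f = fun _ => 0 := by
        rw [Z_coneExt_congr f 0 hf0]
        funext a
        simp [coneExt]
      rw [Lp.eq_zero_iff_ae_eq_zero]
      filter_upwards [hFf] with x hx
      rw [hx, toM, h00]
      simp
    obtain ⟨f', hf', e1, e2, e3⟩ := centering f hf hne ε hε
    obtain ⟨hf1', hf2'⟩ := Z_expSpan_mem f' hf'
    have hmeas : AEStronglyMeasurable (toM (coneExt f')) mM :=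
      U3_toM_aesm _ (hC0 f' hf1' hf2').1.1
    obtain ⟨C, hC⟩ := toM_bdd f' hf'
    have hLp : MemLp (toM (coneExt f')) 2 mM :=
      MemLp.of_bound hmeas C (Filter.Eventually.of_forall hC)
    have hae : hLp.toLp (toM (coneExt f')) =ᵐ[mM] toM (coneExt f') := hLp.coeFn_toLp
    refine ⟨hLp.toLp (toM (coneExt f')), (h13 _).2 ⟨f', hf', hae⟩, ?_, ?_, ?_⟩
    · rw [h14 _ f' hf' hae, h14 F f hf hFf, e1]
    · have h1 := hI3 _ f' hf' hae
      have h2 := hI3 F f hf hFf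
      rw [e2, h2] at h1
      exact (mul_left_cancel₀ hM.ne' h1).symm
    · intro j
      have h1 := e3 j
      rw [integral_X_toM (coneExt f') (hC0 f' hf1' hf2').1.1 j, hI3 F f hf hFf, norm_mul,
        Complex.norm_real, Real.norm_eq_abs, abs_of_pos hM] at h1
      have h2 : ∫ a, X j a * ((‖toM (coneExt f') a‖ ^ (10 / 3 : ℝ) : ℝ) : ℂ) ∂mM =
          ∫ a, X j a * ((‖hLp.toLp (toM (coneExt f')) a‖ ^ (10 / 3 : ℝ) : ℝ) : ℂ) ∂mM := by
        refine integral_congr_ae ?_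
        filter_upwards [hae] with x hx
        rw [hx]
      rw [h2] at h1
      have h3 : M * ‖∫ a, X j a * ((‖hLp.toLp (toM (coneExt f')) a‖ ^ (10 / 3 : ℝ) : ℝ) : ℂ) ∂mM‖
          ≤ M * (ε * ∫ x, ‖F x‖ ^ (10 / 3 : ℝ) ∂mM) := by
        calc _ ≤ _ := h1
          _ = _ := by ring
      exact le_of_mul_le_mul_left h3 hM

/-! ## The sharp inequality on exponentials -/

theorem Z_one_mem_Fwd : ((1, 0) : R5) ∈ Fwd := by
  simp [Fwd]

theorem Z_fstar_eq : fstar = expo 0 (1, 0) := by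
  funext ξ
  simp [fstar, expo, pair]

theorem memLp_fstar : MemLp fstar 2 sig := by
  rw [Z_fstar_eq]
  exact (expo_integrable 0 (1, 0) Z_one_mem_Fwd).2

theorem Z_fstar_mem : fstar ∈ ExpSpan := by
  rw [Z_fstar_eq]
  exact Submodule.subset_span ⟨0, (1, 0), Z_one_mem_Fwd, rfl⟩

theorem Z_sharp (f : R4 → ℂ) (hf : f ∈ ExpSpan) :
    (∫ a, ‖coneExt f a‖ ^ (10 / 3 : ℝ)) ^ (3 / 5 : ℝ) ≤
      (mM0 Set.univ).toReal ^ (3 / 5 : ℝ) * (32 * Real.pi ^ 2 * ∫ ξ, ‖f ξ‖ ^ 2 ∂sig) := by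
  obtain ⟨hp, D, hA, hE⟩ := Z_core
  obtain ⟨C0, hC0⟩ := strichartz
  obtain ⟨hf1, hf2⟩ := Z_expSpan_mem f hf
  have hmeas : AEStronglyMeasurable (toM (coneExt f)) mM := U3_toM_aesm _ (hC0 f hf1 hf2).1.1
  obtain ⟨C, hC⟩ := toM_bdd f hf
  have hLp : MemLp (toM (coneExt f)) 2 mM :=
    MemLp.of_bound hmeas C (Filter.Eventually.of_forall hC)
  have hae : hLp.toLp (toM (coneExt f)) =ᵐ[mM] toM (coneExt f) := hLp.coeFn_toLp
  have h := D.main (hLp.toLp (toM (coneExt f))) ((hA _).2 ⟨f, hf, hae⟩)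
  rw [hE _ f hf hae] at h
  have h1 : I3 (hLp.toLp (toM (coneExt f))) = ∫ a, ‖toM (coneExt f) a‖ ^ (10 / 3 : ℝ) ∂mM := by
    refine integral_congr_ae ?_
    filter_upwards [hae] with x hx
    rw [hx]
  have hnn : 0 ≤ ∫ a, ‖toM (coneExt f) a‖ ^ (10 / 3 : ℝ) ∂mM :=
    integral_nonneg fun x => Real.rpow_nonneg (norm_nonneg _) _
  rw [integral_toM (coneExt f) (hC0 f hf1 hf2).1.1, Real.mul_rpow U3_mass_pos.le hnn, ← h1]
  exact mul_le_mul_of_nonneg_left h (Real.rpow_nonneg U3_mass_pos.le _)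

theorem Z_coneExt_fstar (a : R5) :
    coneExt fstar a = (4 * Real.pi ^ 2 : ℝ) * (w a) ^ (-(3 / 2) : ℂ) := by
  rw [Z_fstar_eq, coneExt_expo 0 (1, 0) Z_one_mem_Fwd, sub_zero]
  rfl

theorem Z_toM_fstar (a : R5) : toM (coneExt fstar) a = (4 * Real.pi ^ 2 : ℝ) := by
  rw [toM, Z_coneExt_fstar, mul_left_comm, ← Complex.cpow_add _ _ (C0_w_ne a)]
  norm_num

theorem Z_norm_fstar : ∫ ξ, ‖fstar ξ‖ ^ 2 ∂sig = Real.pi ^ 2 / 2 := by
  have h := inner_expo 0 (1, 0) 0 (1, 0) Z_one_mem_Fwd Z_one_mem_Fwd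
  rw [← Z_fstar_eq] at h
  have h1 : ∫ ξ, fstar ξ * conj (fstar ξ) ∂sig = ((∫ ξ, ‖fstar ξ‖ ^ 2 ∂sig : ℝ) : ℂ) := by
    rw [← integral_complex_ofReal]
    refine integral_congr_ae (Filter.Eventually.of_forall fun ξ => ?_)
    simp only
    rw [Complex.mul_conj, Complex.normSq_eq_norm_sq]
  have h2 : qf ((0 : R5) - 0) ((1, 0) + (1, 0)) = (4 : ℝ) := by
    simp [qf]
    norm_num
  have h3 : ((4 : ℝ) : ℂ) ^ (-(3 / 2) : ℂ) = ((1 / 8 : ℝ) : ℂ) := by
    have h4 : (-(3 / 2) : ℂ) = ((-(3 / 2) : ℝ) : ℂ) := by norm_num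
    rw [h4, ← Complex.ofReal_cpow (by norm_num)]
    congr 1
    have h5 : (4 : ℝ) = 2 ^ (2 : ℝ) := by norm_num
    rw [h5, ← Real.rpow_mul (by norm_num)]
    norm_num
  rw [h1, h2, h3, ← Complex.ofReal_mul] at h
  have h6 := Complex.ofReal_injective h
  rw [h6]
  ring

theorem Z_fstar_value :
    (∫ a, ‖coneExt fstar a‖ ^ (10 / 3 : ℝ)) ^ (3 / 5 : ℝ) =
      (mM0 Set.univ).toReal ^ (3 / 5 : ℝ) * (32 * Real.pi ^ 2 * ∫ ξ, ‖fstar ξ‖ ^ 2 ∂sig) := by
  have := mM_prob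
  obtain ⟨C0, hC0⟩ := strichartz
  obtain ⟨hf1, hf2⟩ := Z_expSpan_mem fstar Z_fstar_mem
  have hnn : 0 ≤ ∫ a, ‖toM (coneExt fstar) a‖ ^ (10 / 3 : ℝ) ∂mM :=
    integral_nonneg fun x => Real.rpow_nonneg (norm_nonneg _) _
  rw [integral_toM (coneExt fstar) (hC0 fstar hf1 hf2).1.1, Real.mul_rpow U3_mass_pos.le hnn,
    Z_norm_fstar]
  congr 1
  simp only [Z_toM_fstar]
  rw [Complex.norm_real, Real.norm_eq_abs, abs_of_pos (by positivity), integral_const]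
  simp only [probReal_univ, smul_eq_mul, one_mul]
  rw [← Real.rpow_mul (by positivity)]
  norm_num
  ring

/-! ## Density and the operator -/

/-- the classes of `L²` functions that are also integrable -/
noncomputable def Z_A0 : Submodule ℂ (Lp ℂ 2 sig) where
  carrier := {f | Integrable f sig}
  add_mem' := by
    intro f g hf hg
    exact (hf.add hg).congr (Lp.coeFn_add f g).symm
  zero_mem' := (integrable_zero _ _ _).congr (Lp.coeFn_zero ℂ 2 sig).symm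
  smul_mem' := by
    intro r f hf
    exact (hf.smul r).congr (Lp.coeFn_smul r f).symm

/-- the classes of the exponential sums -/
noncomputable def Z_D0 : Submodule ℂ (Lp ℂ 2 sig) where
  carrier := {f | ∃ g ∈ ExpSpan, f =ᵐ[sig] g}
  add_mem' := by
    rintro f g ⟨f', hf', hf⟩ ⟨g', hg', hg⟩
    exact ⟨f' + g', ExpSpan.add_mem hf' hg', (Lp.coeFn_add f g).trans (hf.add hg)⟩
  zero_mem' := ⟨0, ExpSpan.zero_mem, Lp.coeFn_zero ℂ 2 sig⟩
  smul_mem' := by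
    rintro r f ⟨f', hf', hf⟩
    exact ⟨r • f', ExpSpan.smul_mem r hf', (Lp.coeFn_smul r f).trans (hf.const_smul r)⟩

theorem Z_D0_le : Z_D0 ≤ Z_A0 := by
  rintro f ⟨g, hg, h⟩
  exact (Z_expSpan_mem g hg).1.congr h.symm

theorem Z_D0_dense : Dense (Z_D0 : Set (Lp ℂ 2 sig)) := by
  rw [Submodule.dense_iff_topologicalClosure_eq_top, Submodule.topologicalClosure_eq_top_iff,
    Submodule.eq_bot_iff]
  intro f hf
  have h0 : (f : R4 → ℂ) =ᵐ[sig] 0 := by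
    refine expo_dense f (Lp.memLp f) 1 one_pos fun c v hv _ _ => ?_
    have hmem := (expo_integrable c v hv).2
    have h1 : hmem.toLp (expo c v) ∈ Z_D0 :=
      ⟨expo c v, Submodule.subset_span ⟨c, v, hv, rfl⟩, hmem.coeFn_toLp⟩
    have h2 := (Submodule.mem_orthogonal _ _).1 hf _ h1
    rw [L2.inner_def] at h2
    rw [← h2]
    refine integral_congr_ae ?_
    filter_upwards [hmem.coeFn_toLp] with ξ hξ
    rw [hξ, RCLike.inner_apply]
  exact (Lp.eq_zero_iff_ae_eq_zero).2 h0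

/-- `L²` norm as an integral -/
theorem Z_norm2 (f : Lp ℂ 2 sig) : ‖f‖ ^ 2 = ∫ ξ, ‖f ξ‖ ^ 2 ∂sig := by
  have h := (Lp.memLp f).eLpNorm_eq_integral_rpow_norm (by norm_num) (by norm_num)
  rw [Lp.norm_def, h, ENNReal.toReal_ofReal (by positivity)]
  simp only [ENNReal.toReal_ofNat, Real.rpow_ofNat]
  rw [← Real.rpow_natCast, ← Real.rpow_mul (integral_nonneg fun ξ => by positivity)]
  norm_num

theorem Z_norm103 (g : R5 → ℂ) (hg : MemLp g (10 / 3) volume) :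
    ‖hg.toLp g‖ ^ 2 = (∫ a, ‖g a‖ ^ (10 / 3 : ℝ)) ^ (3 / 5 : ℝ) := by
  have h103 : ((10 / 3 : ℝ≥0∞)).toReal = (10 / 3 : ℝ) := by
    rw [ENNReal.toReal_div]
    norm_num
  have hne : (10 / 3 : ℝ≥0∞) ≠ 0 := by
    intro h
    have h2 := congrArg ENNReal.toReal h
    rw [h103] at h2
    norm_num at h2
  have hne2 : (10 / 3 : ℝ≥0∞) ≠ ⊤ := by
    intro h
    have h2 := congrArg ENNReal.toReal h
    rw [h103] at h2
    norm_num at h2
  have h := hg.eLpNorm_eq_integral_rpow_norm hne hne2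
  have hnn : 0 ≤ ∫ a, ‖g a‖ ^ (10 / 3 : ℝ) :=
    integral_nonneg fun x => Real.rpow_nonneg (norm_nonneg _) _
  rw [Lp.norm_toLp, h, h103, ENNReal.toReal_ofReal (by positivity),
    ← Real.rpow_natCast, ← Real.rpow_mul hnn]
  norm_num

/-- Z1 -/
theorem main_theorem :
    ∃ T : Lp ℂ 2 sig →L[ℂ] Lp ℂ (10 / 3) (volume : Measure R5),
      (∀ f : Lp ℂ 2 sig, Integrable f sig → T f =ᵐ[volume] coneExt f) ∧
      ∀ f : Lp ℂ 2 sig, ‖T f‖ * ‖memLp_fstar.toLp fstar‖ ≤ ‖T (memLp_fstar.toLp fstar)‖ * ‖f‖ := by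
  obtain ⟨C, hC⟩ := strichartz
  let T0 : Z_A0 →ₗ[ℂ] Lp ℂ (10 / 3) (volume : Measure R5) :=
    { toFun := fun f => (hC f.1 f.2 (Lp.memLp f.1)).1.toLp (coneExt f.1)
      map_add' := by
        intro f g
        rw [← MemLp.toLp_add]
        refine MemLp.toLp_congr _ _ (Filter.Eventually.of_forall fun a => ?_)
        rw [Pi.add_apply, ← Z_coneExt_add f.1 g.1 f.2 g.2]
        exact congrFun (Z_coneExt_congr _ _ (Lp.coeFn_add f.1 g.1)) a
      map_smul' := by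
        intro r f
        rw [RingHom.id_apply, ← MemLp.toLp_const_smul]
        refine MemLp.toLp_congr _ _ (Filter.Eventually.of_forall fun a => ?_)
        rw [Pi.smul_apply, smul_eq_mul, ← Z_coneExt_smul]
        exact congrFun (Z_coneExt_congr _ _ (Lp.coeFn_smul r f.1)) a }
  have hT0 : ∀ f : Z_A0, T0 f = (hC f.1 f.2 (Lp.memLp f.1)).1.toLp (coneExt f.1) := fun f => rfl
  have hbound : ∀ f : Z_A0, ‖T0 f‖ ≤ √|C| * ‖Z_A0.subtype f‖ := by
    intro f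
    have h1 : ‖T0 f‖ ^ 2 ≤ |C| * ‖f.1‖ ^ 2 := by
      rw [hT0, Z_norm103, Z_norm2]
      refine (hC f.1 f.2 (Lp.memLp f.1)).2.trans ?_
      exact mul_le_mul_of_nonneg_right (le_abs_self C) (integral_nonneg fun ξ => by positivity)
    have h2 : ‖T0 f‖ ^ 2 ≤ (√|C| * ‖Z_A0.subtype f‖) ^ 2 := by
      rw [mul_pow, Real.sq_sqrt (abs_nonneg C)]
      exact h1
    exact (abs_le_of_sq_le_sq' h2 (by positivity)).2
  have hdense : DenseRange Z_A0.subtype := by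
    refine Z_D0_dense.mono ?_
    intro f hf
    exact ⟨⟨f, Z_D0_le hf⟩, rfl⟩
  let T := T0.extendOfNorm Z_A0.subtype
  have hT : ∀ (f : Lp ℂ 2 sig) (hf : Integrable f sig), T f = T0 ⟨f, hf⟩ := fun f hf =>
    T0.extendOfNorm_eq hdense ⟨_, hbound⟩ ⟨f, hf⟩
  have hTnorm : ∀ f : Lp ℂ 2 sig, Integrable f sig →
      ‖T f‖ ^ 2 = (∫ a, ‖coneExt f a‖ ^ (10 / 3 : ℝ)) ^ (3 / 5 : ℝ) := fun f hf => by
    rw [hT f hf, hT0, Z_norm103]
  refine ⟨T, fun f hf => ?_, ?_⟩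
  · rw [hT f hf, hT0]
    exact MemLp.coeFn_toLp _
  · have hstar : (memLp_fstar.toLp fstar : R4 → ℂ) =ᵐ[sig] fstar := memLp_fstar.coeFn_toLp
    have hstar1 : Integrable (memLp_fstar.toLp fstar) sig :=
      (Z_expSpan_mem fstar Z_fstar_mem).1.congr hstar.symm
    set Fs := memLp_fstar.toLp fstar with hFs
    set K := (mM0 Set.univ).toReal ^ (3 / 5 : ℝ) * (32 * Real.pi ^ 2) with hK
    have e1 : ‖T Fs‖ ^ 2 = K * ‖Fs‖ ^ 2 := by
      rw [hTnorm _ hstar1, Z_coneExt_congr _ _ hstar, Z_fstar_value, Z_norm2]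
      have : ∫ ξ, ‖Fs ξ‖ ^ 2 ∂sig = ∫ ξ, ‖fstar ξ‖ ^ 2 ∂sig := by
        refine integral_congr_ae ?_
        filter_upwards [hstar] with ξ hξ
        rw [hξ]
      rw [this]
      ring
    have e2 : ∀ f ∈ Z_D0, ‖T f‖ ^ 2 ≤ K * ‖f‖ ^ 2 := by
      rintro f ⟨g, hg, h⟩
      have hf : Integrable f sig := (Z_expSpan_mem g hg).1.congr h.symm
      rw [hTnorm _ hf, Z_coneExt_congr _ _ h, Z_norm2]
      have : ∫ ξ, ‖f ξ‖ ^ 2 ∂sig = ∫ ξ, ‖g ξ‖ ^ 2 ∂sig := by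
        refine integral_congr_ae ?_
        filter_upwards [h] with ξ hξ
        rw [hξ]
      rw [this, hK, mul_assoc]
      exact Z_sharp g hg
    have hclosed : IsClosed {f : Lp ℂ 2 sig | ‖T f‖ * ‖Fs‖ ≤ ‖T Fs‖ * ‖f‖} :=
      isClosed_le (by fun_prop) (by fun_prop)
    have hall : (Set.univ : Set (Lp ℂ 2 sig)) ⊆ {f | ‖T f‖ * ‖Fs‖ ≤ ‖T Fs‖ * ‖f‖} := by
      rw [← Z_D0_dense.closure_eq]
      refine closure_minimal ?_ hclosed
      intro f hf
      show ‖T f‖ * ‖Fs‖ ≤ ‖T Fs‖ * ‖f‖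
      refine (abs_le_of_sq_le_sq' ?_ (by positivity)).2
      rw [mul_pow, mul_pow, e1]
      have := e2 f hf
      nlinarith [sq_nonneg ‖Fs‖]
    exact fun f => hall (Set.mem_univ f)

end Pool.Agent.Cone
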