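import Pool.Agent.Work.MP_b0b133_an.CoreDefs

/-!
# Core of the argument: existence of the constant, duality, transfer to the dual function
-/

set_option autoImplicit false
set_option linter.unusedSectionVars false
set_option linter.unusedVariables false
set_option linter.style.longLine false
open MeasureTheory Complex
open scoped ENNReal ComplexConjugate

namespace Pool.Agent.Cone

theorem K_cw_pos (l : ℕ) : 0 < cw l := by
  unfold cw
  positivity

theorem K_cw_le (l : ℕ) : cw l ≤ 1 := by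
  unfold cw
  rw [div_le_one (by positivity)]
  have : (0:ℝ) ≤ l := Nat.cast_nonneg l
  linarith

theorem K_cw_zero : cw 0 = 1 := by
  unfold cw
  norm_num

theorem K_cw_inv (l : ℕ) : 1 ≤ (cw l)⁻¹ :=
  (one_le_inv₀ (K_cw_pos l)).2 (K_cw_le l)

section
variable {Ω : Type*} [MeasurableSpace Ω] {m : Measure Ω} [IsProbabilityMeasure m]

theorem K_P_self (D : Core m) {l : ℕ} {Y : Lp ℂ 2 m} (hY : Y ∈ D.V l) : D.P l Y = Y := by
  have h1 : D.P l Y - Y ∈ D.V l := (D.V l).sub_mem (D.hP l Y) hY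
  have h2 := D.hP' l Y _ h1
  have h3 : inner ℂ (D.P l Y - Y) (D.P l Y - Y) = 0 := by
    rw [inner_sub_right, h2, sub_self]
  exact sub_eq_zero.1 (inner_self_eq_zero.1 h3)

theorem K_P_other (D : Core m) {l k : ℕ} (h : l ≠ k) {Y : Lp ℂ 2 m} (hY : Y ∈ D.V l) :
    D.P k Y = 0 := by
  have h2 := D.hP' k Y _ (D.hP k Y)
  rw [D.orth k l (Ne.symm h) _ (D.hP k Y) _ hY] at h2
  exact inner_self_eq_zero.1 h2

theorem K_inner_PP (D : Core m) (l : ℕ) (F G : Lp ℂ 2 m) :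
    inner ℂ (D.P l F) (D.P l G) = inner ℂ (D.P l F) G :=
  D.hP' l G _ (D.hP l F)

theorem K_inner_PP' (D : Core m) (l : ℕ) (F G : Lp ℂ 2 m) :
    inner ℂ (D.P l F) (D.P l G) = inner ℂ F (D.P l G) := by
  rw [← inner_conj_symm, K_inner_PP, inner_conj_symm]

theorem K_pyth (D : Core m) (l : ℕ) (H : Lp ℂ 2 m) :
    ‖H - D.P l H‖ ^ 2 = ‖H‖ ^ 2 - ‖D.P l H‖ ^ 2 := by
  have h1 : inner ℂ H (D.P l H) = inner ℂ (D.P l H) (D.P l H) := (K_inner_PP' D l H H).symm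
  have h2 := @norm_sub_sq ℂ _ _ _ _ H (D.P l H)
  rw [h2, h1, inner_self_eq_norm_sq_to_K]
  norm_cast
  ring

theorem K_PP_ne (D : Core m) {l k : ℕ} (h : k ≠ l) (F : Lp ℂ 2 m) : D.P l (D.P k F) = 0 :=
  K_P_other D h (D.hP k F)

/-- finite sums -/
theorem K_psum (D : Core m) (F : Lp ℂ 2 m) (n : ℕ) :
    ‖F - ∑ k ∈ Finset.range n, D.P k F‖ ^ 2 = ‖F‖ ^ 2 - ∑ k ∈ Finset.range n, ‖D.P k F‖ ^ 2 := by
  induction n with
  | zero => simp
  | succ n ih =>
    set H := F - ∑ k ∈ Finset.range n, D.P k F with hH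
    have h1 : D.P n H = D.P n F := by
      rw [hH, map_sub, map_sum, Finset.sum_eq_zero, sub_zero]
      intro k hk
      exact K_PP_ne D (Finset.mem_range.1 hk).ne F
    have h2 : F - ∑ k ∈ Finset.range (n + 1), D.P k F = H - D.P n H := by
      rw [h1, hH, Finset.sum_range_succ]
      abel
    rw [h2, K_pyth, ih, h1, Finset.sum_range_succ]
    ring

theorem K_bessel_range (D : Core m) (F : Lp ℂ 2 m) (n : ℕ) :
    ∑ k ∈ Finset.range n, ‖D.P k F‖ ^ 2 ≤ ‖F‖ ^ 2 := by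
  have := K_psum D F n
  nlinarith [sq_nonneg ‖F - ∑ k ∈ Finset.range n, D.P k F‖]

theorem K_bessel (D : Core m) (F : Lp ℂ 2 m) : Summable fun k => ‖D.P k F‖ ^ 2 :=
  summable_of_sum_range_le (fun k => by positivity) (K_bessel_range D F)

theorem K_Qn_summable (D : Core m) (F : Lp ℂ 2 m) : Summable fun k => cw k * ‖D.P k F‖ ^ 2 :=
  Summable.of_nonneg_of_le (fun k => mul_nonneg (K_cw_pos k).le (by positivity))
    (fun k => mul_le_of_le_one_left (by positivity) (K_cw_le k)) (K_bessel D F)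

theorem K_Qn_nonneg (D : Core m) (F : Lp ℂ 2 m) : 0 ≤ D.Qn F :=
  tsum_nonneg fun k => mul_nonneg (K_cw_pos k).le (by positivity)

theorem K_En_nonneg (D : Core m) (F : Lp ℂ 2 m) : 0 ≤ D.En F :=
  tsum_nonneg fun k => mul_nonneg (inv_nonneg.2 (K_cw_pos k).le) (by positivity)

/-- `F` is the sum of its components -/
def K_Par (D : Core m) (F : Lp ℂ 2 m) : Prop :=
  Filter.Tendsto (fun n => ∑ k ∈ Finset.range n, D.P k F) Filter.atTop (nhds F)

theorem K_Par_of_hasSum (D : Core m) {F : Lp ℂ 2 m}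
    (h : HasSum (fun l => ‖D.P l F‖ ^ 2) (‖F‖ ^ 2)) : K_Par D F := by
  rw [K_Par, tendsto_iff_norm_sub_tendsto_zero]
  have h1 := h.tendsto_sum_nat
  have h2 : Filter.Tendsto (fun n => ‖F‖ ^ 2 - ∑ k ∈ Finset.range n, ‖D.P k F‖ ^ 2)
      Filter.atTop (nhds 0) := by
    have h5 := (tendsto_const_nhds (x := ‖F‖ ^ 2)).sub h1
    rwa [sub_self] at h5
  have h3 : Filter.Tendsto (fun n => ‖F - ∑ k ∈ Finset.range n, D.P k F‖ ^ 2)
      Filter.atTop (nhds 0) := by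
    simpa only [K_psum] using h2
  have h4 := (Real.continuous_sqrt.tendsto 0).comp h3
  simp only [Real.sqrt_zero, Function.comp_def, Real.sqrt_sq (norm_nonneg _)] at h4
  simpa only [norm_sub_rev] using h4

theorem K_Par_sub (D : Core m) {F G : Lp ℂ 2 m} (hF : K_Par D F) (hG : K_Par D G) :
    K_Par D (F - G) := by
  unfold K_Par at *
  simpa only [map_sub, Finset.sum_sub_distrib] using hF.sub hG

theorem K_Par_sum (D : Core m) (F : ℕ → Lp ℂ 2 m) (n : ℕ) (hF : ∀ i, K_Par D (F i)) :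
    K_Par D (∑ i ∈ Finset.range n, F i) := by
  unfold K_Par at *
  have := tendsto_finsetSum (Finset.range n) fun i _ => hF i
  refine this.congr fun N => ?_
  rw [Finset.sum_comm]
  exact Finset.sum_congr rfl fun k _ => (map_sum _ _ _).symm

theorem K_Par_mem (D : Core m) {l : ℕ} {Y : Lp ℂ 2 m} (hY : Y ∈ D.V l) : K_Par D Y := by
  unfold K_Par
  refine tendsto_const_nhds.congr' ?_
  filter_upwards [Filter.eventually_gt_atTop l] with n hn
  rw [Finset.sum_eq_single_of_mem l (Finset.mem_range.2 hn), K_P_self D hY]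
  intro k _ hk
  exact K_P_other D (Ne.symm hk) hY

theorem K_hasSum_norm (D : Core m) {F : Lp ℂ 2 m} (h : K_Par D F) :
    HasSum (fun l => ‖D.P l F‖ ^ 2) (‖F‖ ^ 2) := by
  rw [(K_bessel D F).hasSum_iff_tendsto_nat]
  have h1 : Filter.Tendsto (fun n => ‖F - ∑ k ∈ Finset.range n, D.P k F‖ ^ 2)
      Filter.atTop (nhds 0) := by
    have h2 := (tendsto_iff_norm_sub_tendsto_zero.1 h)
    have h3 : Filter.Tendsto (fun n => ‖F - ∑ k ∈ Finset.range n, D.P k F‖)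
      Filter.atTop (nhds 0) := by simpa only [norm_sub_rev] using h2
    simpa using h3.pow 2
  have h4 : Filter.Tendsto (fun n => ‖F‖ ^ 2 - ‖F - ∑ k ∈ Finset.range n, D.P k F‖ ^ 2)
      Filter.atTop (nhds (‖F‖ ^ 2 - 0)) := tendsto_const_nhds.sub h1
  rw [sub_zero] at h4
  refine h4.congr fun n => ?_
  rw [K_psum]
  ring

theorem K_inner_summable (D : Core m) (G F : Lp ℂ 2 m) :
    Summable fun l => ‖D.P l G‖ * ‖D.P l F‖ := by
  refine Summable.of_nonneg_of_le (fun l => by positivity) (fun l => ?_)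
    ((K_bessel D G).add (K_bessel D F))
  nlinarith [sq_nonneg (‖D.P l G‖ - ‖D.P l F‖), sq_nonneg ‖D.P l G‖, sq_nonneg ‖D.P l F‖]

theorem K_hasSum_inner (D : Core m) (G : Lp ℂ 2 m) {F : Lp ℂ 2 m} (h : K_Par D F) :
    HasSum (fun l => inner ℂ (D.P l G) (D.P l F)) (inner ℂ G F) := by
  have hs : Summable fun l => inner ℂ (D.P l G) (D.P l F) :=
    Summable.of_norm_bounded (K_inner_summable D G F) fun l => norm_inner_le_norm _ _
  rw [hs.hasSum_iff_tendsto_nat]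
  have h1 : Filter.Tendsto (fun n => inner ℂ G (∑ k ∈ Finset.range n, D.P k F))
      Filter.atTop (nhds (inner ℂ G F)) := (tendsto_const_nhds).inner h
  refine h1.congr fun n => ?_
  rw [inner_sum]
  exact Finset.sum_congr rfl fun k _ => (K_inner_PP' D k G F).symm

/-! ## Scaling, the function one -/

theorem K_one_mem (D : Core m) : D.one ∈ D.V 0 := by
  rw [D.V0]
  exact Submodule.mem_span_singleton_self _

theorem K_norm_one (D : Core m) : ‖D.one‖ ^ 2 = 1 := by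
  have h1 : inner ℂ D.one D.one = (1 : ℂ) := by
    rw [MeasureTheory.L2.inner_def]
    have : ∀ᵐ x ∂m, inner ℂ (D.one x) (D.one x) = (1 : ℂ) := by
      filter_upwards [D.one_ae] with x hx
      rw [hx]
      simp
    rw [integral_congr_ae this]
    simp
  rw [inner_self_eq_norm_sq_to_K] at h1
  have h2 : ((‖D.one‖ ^ 2 : ℝ) : ℂ) = ((1 : ℝ) : ℂ) := by
    rw [Complex.ofReal_pow, Complex.ofReal_one]
    exact h1
  exact Complex.ofReal_injective h2

theorem K_En_one (D : Core m) : D.En D.one = 1 := by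
  unfold Core.En
  rw [tsum_eq_single 0]
  · rw [K_P_self D (K_one_mem D), K_norm_one, K_cw_zero]
    norm_num
  · intro l hl
    rw [K_P_other D (Ne.symm hl) (K_one_mem D)]
    simp

theorem K_I3_one (D : Core m) : I3 D.one = 1 := by
  unfold I3
  have : ∀ᵐ x ∂m, ‖D.one x‖ ^ (10 / 3 : ℝ) = (1 : ℝ) := by
    filter_upwards [D.one_ae] with x hx
    rw [hx]
    simp
  rw [integral_congr_ae this]
  simp

theorem K_one_le (D : Core m) {S : ℝ} (hS : ∀ F ∈ D.A, I3 F ^ (3 / 5 : ℝ) ≤ S * D.En F) :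
    1 ≤ S := by
  have := hS D.one D.oneA
  rwa [K_I3_one, K_En_one, Real.one_rpow, mul_one] at this

theorem K_En_smul (D : Core m) (c : ℂ) (F : Lp ℂ 2 m) : D.En (c • F) = ‖c‖ ^ 2 * D.En F := by
  unfold Core.En
  rw [← tsum_mul_left]
  refine tsum_congr fun l => ?_
  rw [map_smul, norm_smul]
  ring

theorem K_I3_nonneg (F : Lp ℂ 2 m) : 0 ≤ I3 F :=
  integral_nonneg fun x => Real.rpow_nonneg (norm_nonneg _) _

theorem K_I7_nonneg (F : Lp ℂ 2 m) : 0 ≤ I7 F :=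
  integral_nonneg fun x => Real.rpow_nonneg (norm_nonneg _) _

theorem K_I3_smul (c : ℂ) (F : Lp ℂ 2 m) : I3 (c • F) = ‖c‖ ^ (10 / 3 : ℝ) * I3 F := by
  unfold I3
  rw [← integral_const_mul]
  refine integral_congr_ae ?_
  filter_upwards [Lp.coeFn_smul c F] with x hx
  rw [hx, Pi.smul_apply, norm_smul, Real.mul_rpow (norm_nonneg _) (norm_nonneg _)]

theorem K_zero_of_En (D : Core m) {F : Lp ℂ 2 m} (hF : F ∈ D.A) (h : D.En F = 0) : F = 0 := by
  have h0 := (D.A_sum F hF).hasSum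
  have h0' : ∑' l, (cw l)⁻¹ * ‖D.P l F‖ ^ 2 = 0 := h
  rw [h0'] at h0
  have h1 := (hasSum_zero_iff_of_nonneg
    (fun l => mul_nonneg (inv_nonneg.2 (K_cw_pos l).le) (by positivity))).1 h0
  have h2 : ∀ l, ‖D.P l F‖ ^ 2 = 0 := by
    intro l
    have h4 := congrFun h1 l
    simp only [Pi.zero_apply, mul_eq_zero, inv_eq_zero] at h4
    exact h4.resolve_left (K_cw_pos l).ne'
  have h5 := D.A_par F hF
  simp only [h2] at h5
  have h6 := h5.unique hasSum_zero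
  exact norm_eq_zero.1 (pow_eq_zero_iff (two_ne_zero) |>.1 h6)

theorem K_memLp_top {F : Lp ℂ 2 m} (h : ∃ C : ℝ, ∀ᵐ x ∂m, ‖F x‖ ≤ C) (p : ℝ≥0∞) :
    MemLp (F : Ω → ℂ) p m := by
  obtain ⟨C, hC⟩ := h
  exact MemLp.of_bound (Lp.aestronglyMeasurable F) C hC

theorem K_integrable_rpow {F : Lp ℂ 2 m} (h : ∃ C : ℝ, ∀ᵐ x ∂m, ‖F x‖ ≤ C) {p : ℝ}
    (hp : 0 < p) : Integrable (fun x => ‖F x‖ ^ p) m := by
  have h1 := (K_memLp_top h (ENNReal.ofReal p)).integrable_norm_rpow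
    (by simpa using hp) ENNReal.ofReal_ne_top
  rwa [ENNReal.toReal_ofReal hp.le] at h1

/-- K1 -/
theorem Core.exists_S (D : Core m) : ∃ S : ℝ, 1 ≤ S ∧
    (∀ F ∈ D.A, I3 F ^ (3 / 5 : ℝ) ≤ S * D.En F) ∧
    ∀ δ > 0, ∃ F ∈ D.A, D.En F = 1 ∧ S - δ ≤ I3 F ^ (3 / 5 : ℝ) ∧
      ∀ j, ‖∫ x, D.X j x * (‖F x‖ ^ (10 / 3 : ℝ) : ℝ) ∂m‖ ≤ δ * I3 F := by
  set T : Set ℝ := {r | ∃ F ∈ D.A, D.En F = 1 ∧ r = I3 F ^ (3 / 5 : ℝ)} with hT
  obtain ⟨C, hC⟩ := D.finite
  have hbdd : BddAbove T := by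
    refine ⟨C, ?_⟩
    rintro r ⟨F, hF, hE, rfl⟩
    have h1 := hC F hF
    have h2 : ∑' l, (cw l)⁻¹ * ‖D.P l F‖ ^ 2 = 1 := hE
    rw [h2, mul_one] at h1
    exact h1
  have hne : T.Nonempty := ⟨_, D.one, D.oneA, K_En_one D, rfl⟩
  have hmain : ∀ F ∈ D.A, I3 F ^ (3 / 5 : ℝ) ≤ sSup T * D.En F := by
    intro F hF
    rcases (K_En_nonneg D F).eq_or_lt with h0 | h0
    · rw [K_zero_of_En D hF h0.symm]
      have h1 : I3 (0 : Lp ℂ 2 m) = 0 := by
        have := K_I3_smul (m := m) 0 0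
        rw [zero_smul, norm_zero, Real.zero_rpow (by norm_num), zero_mul] at this
        exact this
      have h2 : D.En (0 : Lp ℂ 2 m) = 0 := by
        unfold Core.En
        simp
      rw [h1, h2, Real.zero_rpow (by norm_num), mul_zero]
    · set c : ℝ := (√(D.En F))⁻¹ with hc
      have hs : 0 < √(D.En F) := Real.sqrt_pos.2 h0
      have hc0 : 0 < c := inv_pos.2 hs
      have hcn : ‖(c : ℂ)‖ = c := by
        rw [Complex.norm_real, Real.norm_of_nonneg hc0.le]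
      have hE : D.En ((c : ℂ) • F) = 1 := by
        rw [K_En_smul, hcn, hc, inv_pow, Real.sq_sqrt h0.le, inv_mul_cancel₀ h0.ne']
      have h1 : I3 ((c : ℂ) • F) ^ (3 / 5 : ℝ) ≤ sSup T :=
        le_csSup hbdd ⟨_, D.A.smul_mem _ hF, hE, rfl⟩
      rw [K_I3_smul, hcn, Real.mul_rpow (Real.rpow_nonneg hc0.le _) (K_I3_nonneg F),
        ← Real.rpow_mul hc0.le] at h1
      have h2 : c ^ ((10 / 3 : ℝ) * (3 / 5)) = (D.En F)⁻¹ := by
        have : ((10 / 3 : ℝ) * (3 / 5)) = (2 : ℕ) := by norm_num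
        rw [this, Real.rpow_natCast, hc, inv_pow, Real.sq_sqrt h0.le]
      rw [h2] at h1
      have h3 := mul_le_mul_of_nonneg_right h1 h0.le
      calc I3 F ^ (3 / 5 : ℝ) = (D.En F)⁻¹ * I3 F ^ (3 / 5 : ℝ) * D.En F := by
            field_simp
        _ ≤ _ := h3
  refine ⟨sSup T, K_one_le D hmain, hmain, fun δ hδ => ?_⟩
  obtain ⟨r, ⟨F, hF, hE, rfl⟩, hr⟩ := exists_lt_of_lt_csSup hne (show sSup T - δ < sSup T by linarith)
  have hF0 : F ≠ 0 := by
    rintro rfl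
    have h2 : D.En (0 : Lp ℂ 2 m) = 0 := by
      unfold Core.En
      simp
    rw [h2] at hE
    norm_num at hE
  obtain ⟨F', hF', h1, h2, h3⟩ := D.cent F hF hF0 δ hδ
  have h2' : I3 F' = I3 F := h2
  refine ⟨F', hF', ?_, ?_, ?_⟩
  · exact h1.trans hE
  · rw [h2']
    exact hr.le
  · intro j
    rw [h2']
    exact h3 j

/-! ## K2 -/

theorem K_holder {G F : Lp ℂ 2 m} (hG : ∃ C : ℝ, ∀ᵐ x ∂m, ‖G x‖ ≤ C)
    (hF : ∃ C : ℝ, ∀ᵐ x ∂m, ‖F x‖ ≤ C) :
    ‖inner ℂ G F‖ ≤ I7 G ^ (7 / 10 : ℝ) * I3 F ^ (3 / 10 : ℝ) := by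
  rw [MeasureTheory.L2.inner_def]
  have hpq : (10 / 7 : ℝ).HolderConjugate (10 / 3) := by
    rw [Real.holderConjugate_iff]
    norm_num
  have h1 := integral_mul_le_Lp_mul_Lq_of_nonneg (μ := m) hpq
    (f := fun x => ‖G x‖) (g := fun x => ‖F x‖)
    (Filter.Eventually.of_forall fun x => norm_nonneg _)
    (Filter.Eventually.of_forall fun x => norm_nonneg _)
    (K_memLp_top hG _).norm (K_memLp_top hF _).norm
  have e1 : (1 / (10 / 7) : ℝ) = 7 / 10 := by norm_num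
  have e2 : (1 / (10 / 3) : ℝ) = 3 / 10 := by norm_num
  rw [e1, e2] at h1
  refine le_trans ?_ h1
  refine (norm_integral_le_integral_norm _).trans ?_
  refine integral_mono_of_nonneg (Filter.Eventually.of_forall fun x => norm_nonneg _) ?_
    (Filter.Eventually.of_forall fun x => norm_inner_le_norm _ _)
  exact ((K_memLp_top hG 2).norm).integrable_mul ((K_memLp_top hF 2).norm)

theorem K_sq_sum_le {E : Type*} [NormedAddCommGroup E] (n : ℕ) (v : ℕ → E) :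
    ‖∑ i ∈ Finset.range n, v i‖ ^ 2 ≤ n * ∑ i ∈ Finset.range n, ‖v i‖ ^ 2 := by
  have h1 : ‖∑ i ∈ Finset.range n, v i‖ ^ 2 ≤ (∑ i ∈ Finset.range n, ‖v i‖) ^ 2 :=
    pow_le_pow_left₀ (norm_nonneg _) (norm_sum_le _ _) 2
  refine h1.trans ?_
  have h2 := sq_sum_le_card_mul_sum_sq (s := Finset.range n) (f := fun i => ‖v i‖)
  simpa using h2

/-- approximation of a finite sum of components by elements of `A` in energy -/
theorem K_approx (D : Core m) (Y : ℕ → Lp ℂ 2 m) (hY : ∀ l, Y l ∈ D.V l) (n : ℕ) (ε : ℝ)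
    (hε : 0 < ε) : ∃ F ∈ D.A,
      Summable (fun k => (cw k)⁻¹ * ‖D.P k (F - ∑ l ∈ Finset.range n, Y l)‖ ^ 2) ∧
      ∑' k, (cw k)⁻¹ * ‖D.P k (F - ∑ l ∈ Finset.range n, Y l)‖ ^ 2 ≤ ε := by
  have hn : (0:ℝ) < (n:ℝ) ^ 2 + 1 := by positivity
  have h0 : ∀ l, ∃ F ∈ D.A, ∑' k, (cw k)⁻¹ * ‖D.P k (F - Y l)‖ ^ 2 < ε / ((n:ℝ) ^ 2 + 1) :=
    fun l => D.dense l (Y l) (hY l) _ (div_pos hε hn)
  choose F hFA hF using h0
  have hsum : ∀ l, Summable fun k => (cw k)⁻¹ * ‖D.P k (F l - Y l)‖ ^ 2 := by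
    intro l
    have hs := (D.A_sum (F l) (hFA l))
    refine (summable_congr_cofinite ?_).1 hs
    have : ({l} : Set ℕ)ᶜ ∈ Filter.cofinite := (Set.finite_singleton l).compl_mem_cofinite
    filter_upwards [this] with k hk
    rw [map_sub, K_P_other D (Ne.symm hk) (hY l), sub_zero]
  refine ⟨∑ l ∈ Finset.range n, F l, D.A.sum_mem fun l _ => hFA l, ?_⟩
  have hterm : ∀ k, (cw k)⁻¹ * ‖D.P k (∑ l ∈ Finset.range n, F l - ∑ l ∈ Finset.range n, Y l)‖ ^ 2
      ≤ n * ∑ l ∈ Finset.range n, (cw k)⁻¹ * ‖D.P k (F l - Y l)‖ ^ 2 := by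
    intro k
    rw [← Finset.sum_sub_distrib, map_sum, ← Finset.mul_sum]
    have := K_sq_sum_le n fun l => D.P k (F l - Y l)
    calc _ ≤ (cw k)⁻¹ * (n * ∑ l ∈ Finset.range n, ‖D.P k (F l - Y l)‖ ^ 2) :=
          mul_le_mul_of_nonneg_left this (inv_nonneg.2 (K_cw_pos k).le)
      _ = _ := by ring
  have hbig : Summable fun k => (n:ℝ) * ∑ l ∈ Finset.range n, (cw k)⁻¹ * ‖D.P k (F l - Y l)‖ ^ 2 :=
    (summable_sum fun l _ => hsum l).mul_left _
  have hs1 : Summable (fun k => (cw k)⁻¹ *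
      ‖D.P k (∑ l ∈ Finset.range n, F l - ∑ l ∈ Finset.range n, Y l)‖ ^ 2) :=
    Summable.of_nonneg_of_le
      (fun k => mul_nonneg (inv_nonneg.2 (K_cw_pos k).le) (by positivity)) hterm hbig
  refine ⟨hs1, ?_⟩
  refine (hs1.tsum_le_tsum hterm hbig).trans ?_
  rw [tsum_mul_left, Summable.tsum_finsetSum fun l _ => hsum l]
  calc (n:ℝ) * ∑ l ∈ Finset.range n, ∑' k, (cw k)⁻¹ * ‖D.P k (F l - Y l)‖ ^ 2
      ≤ n * ∑ l ∈ Finset.range n, ε / ((n:ℝ) ^ 2 + 1) := by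
        refine mul_le_mul_of_nonneg_left (Finset.sum_le_sum fun l _ => (hF l).le)
          (Nat.cast_nonneg n)
    _ = (n:ℝ) ^ 2 / ((n:ℝ) ^ 2 + 1) * ε := by
        rw [Finset.sum_const, Finset.card_range, nsmul_eq_mul]
        ring
    _ ≤ 1 * ε := by
        refine mul_le_mul_of_nonneg_right ?_ hε.le
        rw [div_le_one hn]
        linarith
    _ = ε := one_mul ε

end

end Pool.Agent.Cone
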