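import Pool.Agent.Work.MP_b0b133_an.CoreDefs

/-!
# Module K3 : the ladder bounds
-/

set_option autoImplicit false
open MeasureTheory Complex
open scoped ENNReal ComplexConjugate

namespace Pool.Agent.Cone

variable {Ω : Type*} [MeasurableSpace Ω] {m : Measure Ω} [IsProbabilityMeasure m]

omit [IsProbabilityMeasure m] in
theorem K3_inner_eq (Y F : Lp ℂ 2 m) : inner ℂ Y F = ∫ x, conj (Y x) * F x ∂m := by
  rw [L2.inner_def]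
  refine integral_congr_ae (Filter.Eventually.of_forall fun x => ?_)
  show inner ℂ (Y x) (F x) = _
  rw [RCLike.inner_apply, mul_comm]

omit [IsProbabilityMeasure m] in
theorem K3_integrable (Y F : Lp ℂ 2 m) : Integrable (fun x => conj (Y x) * F x) m := by
  have h := L2.integrable_inner (𝕜 := ℂ) Y F
  refine h.congr (Filter.Eventually.of_forall fun x => ?_)
  show inner ℂ (Y x) (F x) = _
  rw [RCLike.inner_apply, mul_comm]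

/-- `P l` is the identity on `V l` -/
theorem K3_P_of_mem (D : Core m) (l : ℕ) (Y : Lp ℂ 2 m) (hY : Y ∈ D.V l) : D.P l Y = Y := by
  have h1 : D.P l Y - Y ∈ D.V l := (D.V l).sub_mem (D.hP l Y) hY
  have h2 : inner ℂ (D.P l Y - Y) (D.P l Y - Y) = (0 : ℂ) := by
    rw [inner_sub_right (D.P l Y - Y) (D.P l Y) Y, D.hP' l Y _ h1, sub_self]
  exact sub_eq_zero.1 (inner_self_eq_zero.1 h2)

theorem K3_P_of_mem_ne (D : Core m) (l k : ℕ) (hlk : l ≠ k) (Y : Lp ℂ 2 m) (hY : Y ∈ D.V k) :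
    D.P l Y = 0 := by
  have h2 : inner ℂ (D.P l Y) (D.P l Y) = (0 : ℂ) := by
    rw [D.hP' l Y _ (D.hP l Y)]
    exact D.orth l k hlk _ (D.hP l Y) _ hY
  exact inner_self_eq_zero.1 h2

/-- `⟪P_l F, F⟫ = ‖P_l F‖²` -/
theorem K3_inner_P (D : Core m) (l : ℕ) (F : Lp ℂ 2 m) :
    inner ℂ (D.P l F) F = ((‖D.P l F‖ ^ 2 : ℝ) : ℂ) := by
  rw [← D.hP' l F _ (D.hP l F), inner_self_eq_norm_sq_to_K]
  push_cast
  rfl

theorem K3_norm_sub_sq (D : Core m) (F : Lp ℂ 2 m) (s : Finset ℕ) :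
    ‖F - ∑ l ∈ s, D.P l F‖ ^ 2 = ‖F‖ ^ 2 - ∑ l ∈ s, ‖D.P l F‖ ^ 2 := by
  have h1 : inner ℂ (∑ l ∈ s, D.P l F) F = ((∑ l ∈ s, ‖D.P l F‖ ^ 2 : ℝ) : ℂ) := by
    rw [sum_inner]
    push_cast
    refine Finset.sum_congr rfl fun l _ => ?_
    rw [K3_inner_P]
    push_cast
    rfl
  have h2 : inner ℂ (∑ l ∈ s, D.P l F) (∑ l ∈ s, D.P l F) =
      ((∑ l ∈ s, ‖D.P l F‖ ^ 2 : ℝ) : ℂ) := by
    rw [sum_inner]
    push_cast
    refine Finset.sum_congr rfl fun l hl => ?_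
    rw [inner_sum, Finset.sum_eq_single l]
    · rw [inner_self_eq_norm_sq_to_K]
      rfl
    · intro k _ hk
      exact D.orth l k hk.symm _ (D.hP l F) _ (D.hP k F)
    · intro h
      exact absurd hl h
  have h3 : ‖∑ l ∈ s, D.P l F‖ ^ 2 = ∑ l ∈ s, ‖D.P l F‖ ^ 2 := by
    have h := h2
    rw [inner_self_eq_norm_sq_to_K] at h
    have h' : ((‖∑ l ∈ s, D.P l F‖ ^ 2 : ℝ) : ℂ) = ((∑ l ∈ s, ‖D.P l F‖ ^ 2 : ℝ) : ℂ) := by
      rw [← h]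
      push_cast
      rfl
    exact Complex.ofReal_injective h'
  have h4 : RCLike.re (inner ℂ F (∑ l ∈ s, D.P l F) : ℂ) = ∑ l ∈ s, ‖D.P l F‖ ^ 2 := by
    rw [inner_re_symm, h1]
    exact Complex.ofReal_re _
  rw [@norm_sub_sq ℂ, h4, h3]
  ring

/-- Bessel -/
theorem K3_bessel (D : Core m) (F : Lp ℂ 2 m) (s : Finset ℕ) :
    ∑ l ∈ s, ‖D.P l F‖ ^ 2 ≤ ‖F‖ ^ 2 := by
  have h := K3_norm_sub_sq D F s
  nlinarith [sq_nonneg ‖F - ∑ l ∈ s, D.P l F‖]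

theorem K3_summable_P (D : Core m) (F : Lp ℂ 2 m) : Summable fun l => ‖D.P l F‖ ^ 2 :=
  summable_of_sum_le (fun _ => by positivity) (K3_bessel D F)

theorem K3_cw_pos (l : ℕ) : 0 < cw l := by
  unfold cw
  positivity

theorem K3_cw_le_one (l : ℕ) : cw l ≤ 1 := by
  unfold cw
  rw [div_le_one (by positivity)]
  have : (0 : ℝ) ≤ l := Nat.cast_nonneg l
  linarith

theorem K3_summable_Q (D : Core m) (F : Lp ℂ 2 m) : Summable fun l => cw l * ‖D.P l F‖ ^ 2 :=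
  Summable.of_nonneg_of_le (fun l => mul_nonneg (K3_cw_pos l).le (by positivity))
    (fun l => mul_le_of_le_one_left (by positivity) (K3_cw_le_one l)) (K3_summable_P D F)

/-- duality with one test field -/
theorem K3_dual (D : Core m) (k : ℕ) (c : ℝ) (hc : 0 ≤ c) (Y G : Lp ℂ 2 m)
    (M G' : Fin 5 → Lp ℂ 2 m) (hM : ∀ j, M j ∈ D.V k) (hMn : ∑ j, ‖M j‖ ^ 2 = c * ‖Y‖ ^ 2)
    (hYG : inner ℂ Y G = ((‖Y‖ ^ 2 : ℝ) : ℂ))
    (h : ∀ᵐ x ∂m, ∑ j, conj (M j x) * G' j x = (c : ℂ) * (conj (Y x) * G x)) :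
    c * ‖Y‖ ^ 2 ≤ ∑ j, ‖D.P k (G' j)‖ ^ 2 := by
  have h1 : ∑ j, inner ℂ (M j) (G' j) = (c : ℂ) * ((‖Y‖ ^ 2 : ℝ) : ℂ) := by
    have e1 : ∀ j, inner ℂ (M j) (G' j) = ∫ x, conj (M j x) * G' j x ∂m := fun j =>
      K3_inner_eq _ _
    rw [Finset.sum_congr rfl fun j _ => e1 j,
      ← integral_finsetSum _ fun j _ => K3_integrable (M j) (G' j), integral_congr_ae h,
      integral_const_mul, ← K3_inner_eq, hYG]
  have h2 : ∀ j, inner ℂ (M j) (G' j) = inner ℂ (M j) (D.P k (G' j)) := fun j =>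
    (D.hP' k (G' j) (M j) (hM j)).symm
  have h3 : c * ‖Y‖ ^ 2 ≤ ∑ j, ‖M j‖ * ‖D.P k (G' j)‖ := by
    have h4 : ‖∑ j, inner ℂ (M j) (G' j)‖ ≤ ∑ j, ‖M j‖ * ‖D.P k (G' j)‖ := by
      refine (norm_sum_le _ _).trans (Finset.sum_le_sum fun j _ => ?_)
      rw [h2 j]
      exact norm_inner_le_norm _ _
    rw [h1] at h4
    have h5 : ‖(c : ℂ) * ((‖Y‖ ^ 2 : ℝ) : ℂ)‖ = c * ‖Y‖ ^ 2 := by
      rw [← Complex.ofReal_mul, Complex.norm_real, Real.norm_eq_abs, abs_of_nonneg (by positivity)]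
    rwa [h5] at h4
  have h6 : (∑ j, ‖M j‖ * ‖D.P k (G' j)‖) ^ 2 ≤
      (∑ j, ‖M j‖ ^ 2) * ∑ j, ‖D.P k (G' j)‖ ^ 2 :=
    Finset.sum_mul_sq_le_sq_mul_sq _ _ _
  rw [hMn] at h6
  have h7 : 0 ≤ c * ‖Y‖ ^ 2 := by positivity
  have h8 : (c * ‖Y‖ ^ 2) ^ 2 ≤ (c * ‖Y‖ ^ 2) * ∑ j, ‖D.P k (G' j)‖ ^ 2 :=
    (pow_le_pow_left₀ h7 h3 2).trans h6
  rcases h7.eq_or_lt with h9 | h9
  · rw [← h9]
    positivity
  · have h10 : (c * ‖Y‖ ^ 2) * (c * ‖Y‖ ^ 2) ≤ (c * ‖Y‖ ^ 2) * ∑ j, ‖D.P k (G' j)‖ ^ 2 := by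
      rw [← sq]
      exact h8
    exact le_of_mul_le_mul_left h10 h9

theorem K3_dn_step (D : Core m) (G : Lp ℂ 2 m) (G1 : Fin 5 → Lp ℂ 2 m)
    (h : ∀ j, ∀ᵐ x ∂m, G1 j x = conj (D.X j x) * G x) (l : ℕ) :
    ((l + 1) / (2 * l + 5) : ℝ) * ‖D.P (l + 1) G‖ ^ 2 ≤ ∑ j, ‖D.P l (G1 j)‖ ^ 2 := by
  obtain ⟨M, hM, hM1, hM2⟩ := D.dn l (D.P (l + 1) G) (D.hP (l + 1) G)
  refine K3_dual D l _ (by positivity) (D.P (l + 1) G) G M G1 hM hM2 (K3_inner_P D (l + 1) G) ?_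
  filter_upwards [hM1, ae_all_iff.2 h] with x hx1 hx2
  have e1 : ∑ j, conj (M j x) * G1 j x = conj (∑ j, D.X j x * M j x) * G x := by
    rw [map_sum, Finset.sum_mul]
    refine Finset.sum_congr rfl fun j _ => ?_
    rw [hx2 j, map_mul]
    ring
  rw [e1, hx1, map_mul, Complex.conj_ofReal]
  ring

theorem K3_up_step (D : Core m) (G : Lp ℂ 2 m) (G2 : Fin 5 → Lp ℂ 2 m)
    (h : ∀ j, ∀ᵐ x ∂m, G2 j x = D.X j x * G x) (l : ℕ) :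
    ((l + 3) / (2 * l + 3) : ℝ) * ‖D.P l G‖ ^ 2 ≤ ∑ j, ‖D.P (l + 1) (G2 j)‖ ^ 2 := by
  obtain ⟨M, hM, hM1, hM2⟩ := D.up l (D.P l G) (D.hP l G)
  refine K3_dual D (l + 1) _ (by positivity) (D.P l G) G M G2 hM hM2 (K3_inner_P D l G) ?_
  filter_upwards [hM1, ae_all_iff.2 h] with x hx1 hx2
  have e1 : ∑ j, conj (M j x) * G2 j x = conj (∑ j, conj (D.X j x) * M j x) * G x := by
    rw [map_sum, Finset.sum_mul]
    refine Finset.sum_congr rfl fun j _ => ?_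
    rw [hx2 j, map_mul, Complex.conj_conj]
    ring
  rw [e1, hx1, map_mul, Complex.conj_ofReal]
  ring

/-- K3 : ladder bounds -/
theorem Core.ladder_dn (D : Core m) (G : Lp ℂ 2 m) (G1 : Fin 5 → Lp ℂ 2 m)
    (h : ∀ j, ∀ᵐ x ∂m, G1 j x = conj (D.X j x) * G x) :
    ∑' l : ℕ, cw l * ‖D.P l G‖ ^ 2 * (l / (2 * l + 1)) ≤ ∑ j, D.Qn (G1 j) := by
  have hs : Summable fun l : ℕ => cw l * ‖D.P l G‖ ^ 2 * ((l : ℝ) / (2 * l + 1)) := by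
    refine Summable.of_nonneg_of_le (fun l => ?_) (fun l => ?_) (K3_summable_Q D G)
    · exact mul_nonneg (mul_nonneg (K3_cw_pos l).le (by positivity)) (by positivity)
    · refine mul_le_of_le_one_right (mul_nonneg (K3_cw_pos l).le (by positivity)) ?_
      rw [div_le_one (by positivity)]
      have : (0 : ℝ) ≤ l := Nat.cast_nonneg l
      linarith
  have e2 : ∑ j, D.Qn (G1 j) = ∑' l, ∑ j, cw l * ‖D.P l (G1 j)‖ ^ 2 := by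
    unfold Core.Qn
    rw [Summable.tsum_finsetSum fun j _ => K3_summable_Q D (G1 j)]
  have hs2 : Summable fun l => ∑ j, cw l * ‖D.P l (G1 j)‖ ^ 2 :=
    summable_sum fun j _ => K3_summable_Q D (G1 j)
  rw [hs.tsum_eq_zero_add, e2]
  have e3 : cw 0 * ‖D.P 0 G‖ ^ 2 * (((0 : ℕ) : ℝ) / (2 * ((0 : ℕ) : ℝ) + 1)) = 0 := by simp
  rw [e3, zero_add]
  refine Summable.tsum_le_tsum (fun l => ?_) ((summable_nat_add_iff 1).2 hs) hs2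
  have h1 := K3_dn_step D G G1 h l
  have h2 : cw (l + 1) * ‖D.P (l + 1) G‖ ^ 2 * (((l + 1 : ℕ) : ℝ) / (2 * ((l + 1 : ℕ) : ℝ) + 1)) =
      cw l * (((l + 1) / (2 * l + 5) : ℝ) * ‖D.P (l + 1) G‖ ^ 2) := by
    unfold cw
    push_cast
    have a1 : (2 * (l : ℝ) + 3) ≠ 0 := by positivity
    have a2 : (2 * (l : ℝ) + 5) ≠ 0 := by positivity
    have a3 : (2 * ((l : ℝ) + 1) + 3) ≠ 0 := by positivity
    have a4 : (2 * ((l : ℝ) + 1) + 1) ≠ 0 := by positivity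
    field_simp
    ring
  rw [h2, ← Finset.mul_sum]
  exact mul_le_mul_of_nonneg_left h1 (K3_cw_pos l).le

theorem K3_up_aux (D : Core m) (G : Lp ℂ 2 m) (G2 : Fin 5 → Lp ℂ 2 m)
    (h : ∀ j, ∀ᵐ x ∂m, G2 j x = D.X j x * G x) (l : ℕ) :
    cw l * ‖D.P l G‖ ^ 2 * (((l : ℝ) + 3) / (2 * l + 5)) ≤
      ∑ j, cw (l + 1) * ‖D.P (l + 1) (G2 j)‖ ^ 2 := by
  have h1 := K3_up_step D G G2 h l
  have h2 : cw l * ‖D.P l G‖ ^ 2 * (((l : ℝ) + 3) / (2 * l + 5)) =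
      cw (l + 1) * (((l + 3) / (2 * l + 3) : ℝ) * ‖D.P l G‖ ^ 2) := by
    unfold cw
    push_cast
    have a1 : (2 * (l : ℝ) + 3) ≠ 0 := by positivity
    have a2 : (2 * (l : ℝ) + 5) ≠ 0 := by positivity
    have a3 : (2 * ((l : ℝ) + 1) + 3) ≠ 0 := by positivity
    field_simp
    ring
  rw [h2, ← Finset.mul_sum]
  exact mul_le_mul_of_nonneg_left h1 (K3_cw_pos (l + 1)).le

theorem Core.ladder_up (D : Core m) (G : Lp ℂ 2 m) (G2 : Fin 5 → Lp ℂ 2 m)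
    (h : ∀ j, ∀ᵐ x ∂m, G2 j x = D.X j x * G x) :
    ∑' l : ℕ, cw l * ‖D.P l G‖ ^ 2 * ((l + 3) / (2 * l + 5)) ≤ ∑ j, D.Qn (G2 j) := by
  have hs : Summable fun l : ℕ => cw l * ‖D.P l G‖ ^ 2 * (((l : ℝ) + 3) / (2 * l + 5)) := by
    refine Summable.of_nonneg_of_le (fun l => ?_) (fun l => ?_) (K3_summable_Q D G)
    · exact mul_nonneg (mul_nonneg (K3_cw_pos l).le (by positivity)) (by positivity)
    · refine mul_le_of_le_one_right (mul_nonneg (K3_cw_pos l).le (by positivity)) ?_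
      rw [div_le_one (by positivity)]
      have : (0 : ℝ) ≤ l := Nat.cast_nonneg l
      linarith
  have e2 : ∑ j, D.Qn (G2 j) = ∑' l, ∑ j, cw l * ‖D.P l (G2 j)‖ ^ 2 := by
    unfold Core.Qn
    rw [Summable.tsum_finsetSum fun j _ => K3_summable_Q D (G2 j)]
  have hs2 : Summable fun l => ∑ j, cw l * ‖D.P l (G2 j)‖ ^ 2 :=
    summable_sum fun j _ => K3_summable_Q D (G2 j)
  have h0 : 0 ≤ ∑ j, cw 0 * ‖D.P 0 (G2 j)‖ ^ 2 :=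
    Finset.sum_nonneg fun j _ => mul_nonneg (K3_cw_pos 0).le (by positivity)
  have hs3 : Summable fun l => ∑ j, cw (l + 1) * ‖D.P (l + 1) (G2 j)‖ ^ 2 :=
    (summable_nat_add_iff (f := fun l => ∑ j, cw l * ‖D.P l (G2 j)‖ ^ 2) 1).2 hs2
  have e4 : ∑' l, ∑ j, cw l * ‖D.P l (G2 j)‖ ^ 2 = ∑ j, cw 0 * ‖D.P 0 (G2 j)‖ ^ 2 +
      ∑' l, ∑ j, cw (l + 1) * ‖D.P (l + 1) (G2 j)‖ ^ 2 := hs2.tsum_eq_zero_add
  have e5 : ∑' l : ℕ, cw l * ‖D.P l G‖ ^ 2 * (((l : ℝ) + 3) / (2 * l + 5)) ≤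
      ∑' l, ∑ j, cw (l + 1) * ‖D.P (l + 1) (G2 j)‖ ^ 2 := by
    refine Summable.tsum_le_tsum (fun l => ?_) hs hs3
    exact K3_up_aux D G G2 h l
  rw [e2, e4]
  linarith

end Pool.Agent.Cone
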