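import Pool.Agent.Work.MP_b0b133_an.A
import Pool.Agent.Work.MP_b0b133_an.C0
import Pool.Agent.Work.MP_b0b133_an.B1
import Pool.Agent.Work.MP_b0b133_an.C1

/-!
# `L²` of the compactification: orthogonality, ladder identities, reproducing property
-/

set_option autoImplicit false
open MeasureTheory Complex
open scoped ENNReal ComplexConjugate

namespace Pool.Agent.Cone

/-! ### Continuity, integrability, homogeneity -/


theorem L_continuous_X : Continuous fun a : R5 => fun j => X j a :=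
  continuous_pi fun j => C0_continuous_X j

theorem L_integrable (h : (Fin 5 → ℂ) → ℂ) (hc : Continuous h) :
    Integrable (fun a => h fun j => X j a) mM := by
  have := mM_prob
  obtain ⟨C, hC⟩ := (isCompact_closedBall (0 : Fin 5 → ℂ) 1).exists_bound_of_continuousOn
    hc.continuousOn
  refine Integrable.of_bound (hc.comp L_continuous_X).aestronglyMeasurable C
    (Filter.Eventually.of_forall fun a => hC _ ?_)
  rw [mem_closedBall_zero_iff, pi_norm_le_iff_of_nonneg zero_le_one]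
  exact fun j => C0_norm_X_le j a

theorem L_eval_smul (l : ℕ) (P : MvPolynomial (Fin 5) ℂ) (hP : P.IsHomogeneous l) (c : ℂ)
    (x : Fin 5 → ℂ) : MvPolynomial.eval (fun j => c * x j) P = c ^ l * MvPolynomial.eval x P := by
  rw [MvPolynomial.eval_eq', MvPolynomial.eval_eq', Finset.mul_sum]
  refine Finset.sum_congr rfl fun d hd => ?_
  have h1 : ∑ i, d i = l := by
    have := hP (MvPolynomial.mem_support_iff.1 hd)
    rw [← this]
    simp [Finsupp.weight_apply, Finsupp.sum_fintype]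
  simp only [mul_pow, Finset.prod_mul_distrib, Finset.prod_pow_eq_pow_sum]
  rw [h1]
  ring

/-- Euler's identity -/
theorem L_euler (l : ℕ) (P : MvPolynomial (Fin 5) ℂ) (hP : P.IsHomogeneous l) (x : Fin 5 → ℂ) :
    ∑ j, x j * MvPolynomial.eval x (MvPolynomial.pderiv j P) = l * MvPolynomial.eval x P := by
  have := congrArg (MvPolynomial.eval x) hP.sum_X_mul_pderiv
  simpa [map_sum, map_mul, MvPolynomial.eval_X, nsmul_eq_mul] using this

/-! ### Time integrals -/

theorem L_int_zero (h : (Fin 5 → ℂ) → ℂ) (hc : Continuous h) (n : ℤ) (hn : n ≠ 0)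
    (hh : ∀ (T : ℝ) (x : Fin 5 → ℂ), h (fun j => cexp (-(T * I)) * x j) =
      cexp (-(n * I) * T) * h x) : ∫ a, h (fun j => X j a) ∂mM = 0 := by
  rw [integral_comp_X h hc]
  have h1 : ∀ T : ℝ, ∫ ω : S4, h (fun j => cexp (-(T * I)) *
      (((ω : EuclideanSpace ℝ (Fin 5)) j : ℝ) : ℂ)) ∂sphM =
      cexp (-(n * I) * T) * ∫ ω : S4, h (fun j =>
        (((ω : EuclideanSpace ℝ (Fin 5)) j : ℝ) : ℂ)) ∂sphM := fun T => by
    rw [← integral_const_mul]
    exact integral_congr_ae (Filter.Eventually.of_forall fun ω => hh T _)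
  simp only [h1]
  have hc0 : -((n : ℂ) * I) ≠ 0 := by
    simp [hn, I_ne_zero]
  rw [intervalIntegral.integral_mul_const, integral_exp_mul_complex hc0]
  have h2 : cexp (-((n : ℂ) * I) * (Real.pi : ℝ)) = cexp (-((n : ℂ) * I) * ((-Real.pi : ℝ) : ℂ)) := by
    rw [Complex.exp_eq_exp_iff_exists_int]
    refine ⟨-n, ?_⟩
    push_cast
    ring
  rw [h2]
  simp

theorem L_int_sphere (h : (Fin 5 → ℂ) → ℂ) (hc : Continuous h)
    (hh : ∀ (T : ℝ) (x : Fin 5 → ℂ), h (fun j => cexp (-(T * I)) * x j) = h x) :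
    ∫ a, h (fun j => X j a) ∂mM = ∫ ω : S4, h (fun j =>
        (((ω : EuclideanSpace ℝ (Fin 5)) j : ℝ) : ℂ)) ∂sphM := by
  rw [integral_comp_X h hc]
  simp only [hh]
  rw [intervalIntegral.integral_const, smul_smul]
  have : (2 * Real.pi)⁻¹ * (Real.pi - -Real.pi) = 1 := by
    have := Real.pi_pos
    field_simp
    ring
  rw [this, one_smul]

theorem L_exp_conj (T : ℝ) (l k : ℕ) : cexp (-(T * I)) ^ l * conj (cexp (-(T * I)) ^ k) =
    cexp (-(((l : ℤ) - k : ℤ) * I) * T) := by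
  rw [map_pow, ← Complex.exp_conj, ← Complex.exp_nat_mul, ← Complex.exp_nat_mul, ← Complex.exp_add]
  congr 1
  simp only [map_neg, map_mul, conj_ofReal, conj_I]
  push_cast
  ring

/-- L1 -/
theorem evX_orth (l k : ℕ) (hlk : l ≠ k) (P Q : MvPolynomial (Fin 5) ℂ) (hP : P ∈ Harm l)
    (hQ : Q ∈ Harm k) : ∫ a, evX P a * conj (evX Q a) ∂mM = 0 := by
  refine L_int_zero (fun x => MvPolynomial.eval x P * conj (MvPolynomial.eval x Q)) ?_
    ((l : ℤ) - k) (sub_ne_zero.2 (by exact_mod_cast hlk)) fun T x => ?_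
  · exact (MvPolynomial.continuous_eval P).mul (MvPolynomial.continuous_eval Q).star
  · simp only [L_eval_smul l P hP.1, L_eval_smul k Q hQ.1, map_mul]
    rw [← L_exp_conj]
    ring

/-- L2 -/
theorem evX_bil (l k : ℕ) (hl : 0 < l) (P Q : MvPolynomial (Fin 5) ℂ) (hP : P ∈ Harm l)
    (hQ : Q ∈ Harm k) : ∫ a, evX P a * evX Q a ∂mM = 0 := by
  refine L_int_zero (fun x => MvPolynomial.eval x P * MvPolynomial.eval x Q) ?_
    ((l : ℤ) + k) (by omega) fun T x => ?_
  · exact (MvPolynomial.continuous_eval P).mul (MvPolynomial.continuous_eval Q)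
  · simp only [L_eval_smul l P hP.1, L_eval_smul k Q hQ.1]
    rw [mul_mul_mul_comm, ← pow_add, ← Complex.exp_nat_mul]
    congr 2
    push_cast
    ring

theorem L_sumsq_sphere (ω : S4) :
    ∑ j, (((ω : EuclideanSpace ℝ (Fin 5)) j : ℝ) : ℂ) ^ 2 = 1 := by
  have h := ω.2
  rw [mem_sphere_zero_iff_norm] at h
  have h2 := EuclideanSpace.real_norm_sq_eq (ω : EuclideanSpace ℝ (Fin 5))
  rw [h] at h2
  have h3 : ∑ j, ((ω : EuclideanSpace ℝ (Fin 5)) j) ^ 2 = (1 : ℝ) := by rw [← h2]; norm_num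
  exact_mod_cast h3

/-- harmonic polynomials of degree `m + 2` are orthogonal to `|x|²` times harmonic polynomials of
degree `m` -/
theorem L_orthR (m : ℕ) (P Q : MvPolynomial (Fin 5) ℂ) (hP : P ∈ Harm (m + 2)) (hQ : Q ∈ Harm m) :
    ∫ a, evX P a * conj ((∑ k, X k a ^ 2) * evX Q a) ∂mM = 0 := by
  have hc : Continuous fun x : Fin 5 → ℂ =>
      MvPolynomial.eval x P * conj ((∑ k, x k ^ 2) * MvPolynomial.eval x Q) :=
    (MvPolynomial.continuous_eval P).mul
      ((continuous_finsetSum _ fun k _ => (continuous_apply k).pow 2).mul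
        (MvPolynomial.continuous_eval Q)).star
  have h := L_int_sphere (fun x => MvPolynomial.eval x P *
    conj ((∑ k, x k ^ 2) * MvPolynomial.eval x Q)) hc fun T x => by
      have h1 := L_exp_conj T (m + 2) (m + 2)
      simp only [sub_self, Int.cast_zero, zero_mul, neg_zero, Complex.exp_zero] at h1
      simp only [L_eval_smul _ P hP.1, L_eval_smul _ Q hQ.1, mul_pow, ← Finset.mul_sum]
      calc _ = (cexp (-(T * I)) ^ (m + 2) * conj (cexp (-(T * I)) ^ (m + 2))) *
          (MvPolynomial.eval x P * conj ((∑ k, x k ^ 2) * MvPolynomial.eval x Q)) := by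
            simp only [map_mul, pow_add]
            ring
        _ = _ := by rw [h1, one_mul]
  refine Eq.trans h ?_
  simp only [L_sumsq_sphere, one_mul]
  exact sphere_orth (m + 2) m (by omega) P Q hP hQ

/-! ### Pointwise identities -/

theorem L_pderiv_zero (P : MvPolynomial (Fin 5) ℂ) (hP : P ∈ Harm 0) (j : Fin 5) :
    MvPolynomial.pderiv j P = 0 := by
  have h := hP.1
  rw [← MvPolynomial.totalDegree_zero_iff_isHomogeneous,
    MvPolynomial.totalDegree_eq_zero_iff_eq_C] at h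
  rw [h, MvPolynomial.pderiv_C]

theorem L_orthR' (l : ℕ) (P Q : MvPolynomial (Fin 5) ℂ) (hP : P ∈ Harm (l + 1)) (hQ : Q ∈ Harm l)
    (j : Fin 5) :
    ∫ a, evX P a * conj ((∑ k, X k a ^ 2) * evX (MvPolynomial.pderiv j Q) a) ∂mM = 0 := by
  cases l with
  | zero => simp [L_pderiv_zero Q hQ j, evX]
  | succ m => exact L_orthR m P _ hP (pderiv_mem m j Q hQ)

theorem L_evX_up (l : ℕ) (j : Fin 5) (P : MvPolynomial (Fin 5) ℂ) (a : R5) :
    evX (up l j P) a = X j a * evX P a -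
      (1 / (2 * l + 3) : ℂ) * ((∑ k, X k a ^ 2) * evX (MvPolynomial.pderiv j P) a) := by
  simp only [evX, up, map_sub, map_mul, map_sum, map_pow, MvPolynomial.eval_X,
    MvPolynomial.eval_C]

theorem L_sum_conj (a : R5) : ∑ j, conj (X j a) * X j a = 1 := by
  simp only [Complex.conj_mul']
  exact_mod_cast sum_norm_X a

theorem L_evX_euler (l : ℕ) (P : MvPolynomial (Fin 5) ℂ) (hP : P ∈ Harm l) (a : R5) :
    ∑ j, X j a * evX (MvPolynomial.pderiv j P) a = l * evX P a := L_euler l P hP.1 _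

theorem L_ne (l : ℕ) : (2 * (l : ℂ) + 3) ≠ 0 := by
  have : ((2 * l + 3 : ℕ) : ℂ) ≠ 0 := by exact_mod_cast (by omega : 2 * l + 3 ≠ 0)
  simpa using this

theorem L_up_pt (l : ℕ) (P : MvPolynomial (Fin 5) ℂ) (hP : P ∈ Harm l) (a : R5) :
    ∑ j, conj (X j a) * evX (up l j P) a = ((l + 3) / (2 * l + 3) : ℝ) * evX P a := by
  have h1 : ∀ j, conj (X j a) * evX (up l j P) a = (conj (X j a) * X j a) * evX P a -
      (1 / (2 * l + 3) : ℂ) * (X j a * evX (MvPolynomial.pderiv j P) a) := fun j => by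
    rw [L_evX_up]
    linear_combination (-(1 / (2 * l + 3) : ℂ) * evX (MvPolynomial.pderiv j P) a) *
      sumsq_mul_conj_X a j
  simp only [h1, Finset.sum_sub_distrib, ← Finset.mul_sum, ← Finset.sum_mul]
  rw [L_sum_conj, L_evX_euler l P hP]
  have := L_ne l
  push_cast
  field_simp
  ring

theorem L_dn_pt (l : ℕ) (P : MvPolynomial (Fin 5) ℂ) (hP : P ∈ Harm (l + 1)) (a : R5) :
    ∑ j, X j a * ((1 / (2 * l + 5) : ℝ) * evX (MvPolynomial.pderiv j P) a) =
      ((l + 1) / (2 * l + 5) : ℝ) * evX P a := by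
  have h1 : ∀ j, X j a * ((1 / (2 * l + 5) : ℝ) * evX (MvPolynomial.pderiv j P) a) =
      ((1 / (2 * l + 5) : ℝ) : ℂ) * (X j a * evX (MvPolynomial.pderiv j P) a) := fun j => by ring
  simp only [h1, ← Finset.mul_sum]
  rw [L_evX_euler (l + 1) P hP]
  push_cast
  ring

/-! ### Norms -/

theorem L_normsq (F : R5 → ℂ) : ((∫ a, ‖F a‖ ^ 2 ∂mM : ℝ) : ℂ) = ∫ a, F a * conj (F a) ∂mM := by
  rw [← integral_complex_ofReal]
  refine integral_congr_ae (Filter.Eventually.of_forall fun a => ?_)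
  simp only [Complex.mul_conj']
  push_cast
  rfl

/-- continuous functions of `X` -/
def L_CX (F : R5 → ℂ) : Prop := ∃ h : (Fin 5 → ℂ) → ℂ, Continuous h ∧ F = fun a => h fun j => X j a

theorem L_CX.int {F : R5 → ℂ} (hF : L_CX F) : Integrable F mM := by
  obtain ⟨h, hc, rfl⟩ := hF
  exact L_integrable h hc

theorem L_CX.mul {F G : R5 → ℂ} (hF : L_CX F) (hG : L_CX G) : L_CX fun a => F a * G a := by
  obtain ⟨h, hc, rfl⟩ := hF
  obtain ⟨k, kc, rfl⟩ := hG
  exact ⟨fun x => h x * k x, hc.mul kc, rfl⟩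

theorem L_CX.conj {F : R5 → ℂ} (hF : L_CX F) : L_CX fun a => conj (F a) := by
  obtain ⟨h, hc, rfl⟩ := hF
  exact ⟨fun x => (starRingEnd ℂ) (h x), hc.star, rfl⟩

theorem L_CX_evX (P : MvPolynomial (Fin 5) ℂ) : L_CX (evX P) :=
  ⟨fun x => MvPolynomial.eval x P, MvPolynomial.continuous_eval P, rfl⟩

theorem L_CX_X (j : Fin 5) : L_CX (X j) := ⟨fun x => x j, continuous_apply j, rfl⟩

theorem L_CX_const (c : ℂ) : L_CX fun _ => c := ⟨fun _ => c, continuous_const, rfl⟩

theorem L_CX_sumsq : L_CX fun a => ∑ k, X k a ^ 2 :=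
  ⟨fun x => ∑ k, x k ^ 2, continuous_finsetSum _ fun k _ => (continuous_apply k).pow 2, rfl⟩

/-- L3 : ladder, up -/
theorem evX_up (l : ℕ) (P : MvPolynomial (Fin 5) ℂ) (hP : P ∈ Harm l) :
    (∀ a, ∑ j, conj (X j a) * evX (up l j P) a = ((l + 3) / (2 * l + 3) : ℝ) * evX P a) ∧
    ∑ j, ∫ a, ‖evX (up l j P) a‖ ^ 2 ∂mM = (l + 3) / (2 * l + 3) * ∫ a, ‖evX P a‖ ^ 2 ∂mM := by
  refine ⟨L_up_pt l P hP, ?_⟩
  have h1 : ∀ j, ((∫ a, ‖evX (up l j P) a‖ ^ 2 ∂mM : ℝ) : ℂ) =
      ∫ a, (conj (X j a) * evX (up l j P) a) * conj (evX P a) ∂mM := fun j => by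
    rw [L_normsq]
    have h2 : ∀ a, evX (up l j P) a * conj (evX (up l j P) a) =
        (conj (X j a) * evX (up l j P) a) * conj (evX P a) -
          (1 / (2 * l + 3) : ℂ) * (evX (up l j P) a *
            conj ((∑ k, X k a ^ 2) * evX (MvPolynomial.pderiv j P) a)) := fun a => by
      have h3 : conj (evX (up l j P) a) = conj (X j a) * conj (evX P a) -
          (1 / (2 * l + 3) : ℂ) * conj ((∑ k, X k a ^ 2) * evX (MvPolynomial.pderiv j P) a) := by
        have hr : (1 / (2 * l + 3) : ℂ) = ((1 / (2 * l + 3) : ℝ) : ℂ) := by push_cast; rfl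
        rw [L_evX_up, map_sub, map_mul, map_mul, hr, conj_ofReal]
      rw [h3]
      ring
    simp only [h2]
    rw [integral_sub, integral_const_mul, L_orthR' l (up l j P) P (up_mem l j P hP) hP j, mul_zero,
      sub_zero]
    · exact (((L_CX_X j).conj.mul (L_CX_evX _)).mul (L_CX_evX P).conj).int
    · exact ((L_CX_evX _).mul (L_CX_sumsq.mul (L_CX_evX _)).conj).int.const_mul _
  have h4 : ((∑ j, ∫ a, ‖evX (up l j P) a‖ ^ 2 ∂mM : ℝ) : ℂ) =
      (((l + 3) / (2 * l + 3) * ∫ a, ‖evX P a‖ ^ 2 ∂mM : ℝ) : ℂ) := by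
    rw [ofReal_sum]
    simp only [h1]
    rw [← integral_finsetSum _ fun j _ =>
      (((L_CX_X j).conj.mul (L_CX_evX _)).mul (L_CX_evX P).conj).int]
    simp only [← Finset.sum_mul, L_up_pt l P hP]
    simp only [mul_assoc]
    rw [integral_const_mul, ← L_normsq]
    push_cast
    rfl
  exact_mod_cast h4

theorem L_conj_sumsq_mul (a : R5) (j : Fin 5) : conj (∑ k, X k a ^ 2) * X j a = conj (X j a) := by
  have h := congrArg (starRingEnd ℂ) (sumsq_mul_conj_X a j)
  rwa [map_mul, Complex.conj_conj] at h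

theorem L_sumsq_unit (a : R5) : (∑ k, X k a ^ 2) * conj (∑ k, X k a ^ 2) = 1 := by
  have h1 : ∀ j, X j a * conj (X j a) = X j a ^ 2 * conj (∑ k, X k a ^ 2) := fun j => by
    rw [← L_conj_sumsq_mul a j]
    ring
  have h2 := L_sum_conj a
  rw [← h2, Finset.sum_mul]
  exact Finset.sum_congr rfl fun j _ => by rw [← h1 j, mul_comm]

theorem L_up_dn (l : ℕ) (j : Fin 5) (P : MvPolynomial (Fin 5) ℂ) (a : R5) :
    evX (up (l + 1) j P) a = X j a * evX P a - (∑ k, X k a ^ 2) *
      (((1 / (2 * l + 5) : ℝ) : ℂ) * evX (MvPolynomial.pderiv j P) a) := by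
  rw [L_evX_up]
  have : (1 / (2 * ((l + 1 : ℕ) : ℂ) + 3)) = ((1 / (2 * l + 5) : ℝ) : ℂ) := by
    push_cast
    congr 1
    ring
  rw [this]
  ring

/-- L4 : ladder, down -/
theorem evX_dn (l : ℕ) (P : MvPolynomial (Fin 5) ℂ) (hP : P ∈ Harm (l + 1)) :
    (∀ a, ∑ j, X j a * ((1 / (2 * l + 5) : ℝ) * evX (MvPolynomial.pderiv j P) a) =
      ((l + 1) / (2 * l + 5) : ℝ) * evX P a) ∧
    ∑ j, ∫ a, ‖((1 / (2 * l + 5) : ℝ) : ℂ) * evX (MvPolynomial.pderiv j P) a‖ ^ 2 ∂mM =
      (l + 1) / (2 * l + 5) * ∫ a, ‖evX P a‖ ^ 2 ∂mM := by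
  refine ⟨L_dn_pt l P hP, ?_⟩
  set r : ℂ := ((1 / (2 * l + 5) : ℝ) : ℂ) with hr
  have hrc : conj r = r := by rw [hr, conj_ofReal]
  have h1 : ∀ j, ((∫ a, ‖r * evX (MvPolynomial.pderiv j P) a‖ ^ 2 ∂mM : ℝ) : ℂ) =
      ∫ a, evX P a * conj (X j a * (r * evX (MvPolynomial.pderiv j P) a)) ∂mM := fun j => by
    rw [L_normsq]
    have h2 : ∀ a, (r * evX (MvPolynomial.pderiv j P) a) *
          conj (r * evX (MvPolynomial.pderiv j P) a) =
        evX P a * conj (X j a * (r * evX (MvPolynomial.pderiv j P) a)) -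
          r * (evX (up (l + 1) j P) a *
            conj ((∑ k, X k a ^ 2) * evX (MvPolynomial.pderiv j P) a)) := fun a => by
      have h3 := L_up_dn l j P a
      rw [← hr] at h3
      rw [h3]
      simp only [map_mul, hrc]
      linear_combination (r * evX (MvPolynomial.pderiv j P) a * r *
        conj (evX (MvPolynomial.pderiv j P) a)) * (-L_sumsq_unit a) +
        (evX P a * r * conj (evX (MvPolynomial.pderiv j P) a)) * L_conj_sumsq_mul a j
    simp only [h2]
    rw [integral_sub, integral_const_mul,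
      L_orthR (l + 0) (up (l + 1) j P) _ (up_mem (l + 1) j P hP) (pderiv_mem l j P hP), mul_zero,
      sub_zero]
    · exact ((L_CX_evX P).mul ((L_CX_X j).mul ((L_CX_const r).mul (L_CX_evX _))).conj).int
    · exact ((L_CX_evX _).mul (L_CX_sumsq.mul (L_CX_evX _)).conj).int.const_mul _
  have h4 : ((∑ j, ∫ a, ‖r * evX (MvPolynomial.pderiv j P) a‖ ^ 2 ∂mM : ℝ) : ℂ) =
      (((l + 1) / (2 * l + 5) * ∫ a, ‖evX P a‖ ^ 2 ∂mM : ℝ) : ℂ) := by
    rw [ofReal_sum]
    simp only [h1]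
    rw [← integral_finsetSum _ fun j _ =>
      ((L_CX_evX P).mul ((L_CX_X j).mul ((L_CX_const r).mul (L_CX_evX _))).conj).int]
    simp only [← Finset.mul_sum, ← map_sum]
    have h5 := L_dn_pt l P hP
    rw [← hr] at h5
    simp only [h5, map_mul, conj_ofReal]
    have h6 : ∀ a, evX P a * ((((l + 1) / (2 * l + 5) : ℝ) : ℂ) * conj (evX P a)) =
        (((l + 1) / (2 * l + 5) : ℝ) : ℂ) * (evX P a * conj (evX P a)) := fun a => by ring
    simp only [h6]
    rw [integral_const_mul, ← L_normsq]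
    push_cast
    rfl
  exact_mod_cast h4

/-- `up` and `pderiv / (2 l + 5)` are adjoint to each other -/
theorem L_adj (l : ℕ) (P K : MvPolynomial (Fin 5) ℂ) (hP : P ∈ Harm (l + 1)) (hK : K ∈ Harm l)
    (j : Fin 5) :
    ∫ a, evX P a * conj (evX (up l j K) a) ∂mM =
      ((1 / (2 * l + 5) : ℝ) : ℂ) * ∫ a, evX (MvPolynomial.pderiv j P) a * conj (evX K a) ∂mM := by
  have hr : (1 / (2 * l + 3) : ℂ) = ((1 / (2 * l + 3) : ℝ) : ℂ) := by push_cast; rfl
  have h2 : ∀ a, evX P a * conj (evX (up l j K) a) =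
      (evX (up (l + 1) j P) a * conj ((∑ k, X k a ^ 2) * evX K a) +
        ((1 / (2 * l + 5) : ℝ) : ℂ) * (evX (MvPolynomial.pderiv j P) a * conj (evX K a))) -
        ((1 / (2 * l + 3) : ℝ) : ℂ) * (evX P a *
          conj ((∑ k, X k a ^ 2) * evX (MvPolynomial.pderiv j K) a)) := fun a => by
    rw [L_up_dn l j P a, L_evX_up l j K a, map_sub, map_mul, map_mul, hr, conj_ofReal]
    simp only [map_mul]
    linear_combination (evX P a * conj (evX K a)) * (-L_conj_sumsq_mul a j) +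
      (((1 / (2 * l + 5) : ℝ) : ℂ) * evX (MvPolynomial.pderiv j P) a * conj (evX K a)) *
        L_sumsq_unit a
  simp only [h2]
  have i1 : Integrable (fun a => evX (up (l + 1) j P) a * conj ((∑ k, X k a ^ 2) * evX K a)) mM :=
    ((L_CX_evX _).mul (L_CX_sumsq.mul (L_CX_evX _)).conj).int
  have i2 : Integrable (fun a => ((1 / (2 * l + 5) : ℝ) : ℂ) *
      (evX (MvPolynomial.pderiv j P) a * conj (evX K a))) mM :=
    ((L_CX_evX _).mul (L_CX_evX _).conj).int.const_mul _
  have i3 : Integrable (fun a => ((1 / (2 * l + 3) : ℝ) : ℂ) * (evX P a *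
      conj ((∑ k, X k a ^ 2) * evX (MvPolynomial.pderiv j K) a))) mM :=
    ((L_CX_evX _).mul (L_CX_sumsq.mul (L_CX_evX _)).conj).int.const_mul _
  have i12 : Integrable (fun a => evX (up (l + 1) j P) a * conj ((∑ k, X k a ^ 2) * evX K a) +
      ((1 / (2 * l + 5) : ℝ) : ℂ) * (evX (MvPolynomial.pderiv j P) a * conj (evX K a))) mM :=
    i1.add i2
  rw [integral_sub i12 i3, integral_add i1 i2,
    L_orthR l (up (l + 1) j P) K (up_mem (l + 1) j P hP) hK, integral_const_mul,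
    integral_const_mul, L_orthR' l P K hP hK j]
  ring

/-- L5 : reproducing property -/
theorem evX_repr (l : ℕ) (P : MvPolynomial (Fin 5) ℂ) (hP : P ∈ Harm l) (β : Fin 5 → ℂ) :
    ∫ a, evX P a * conj (evX (zon l β) a) ∂mM =
      cw l * MvPolynomial.eval (fun j => conj (β j)) P := by
  induction l generalizing P with
  | zero =>
    have := mM_prob
    have h := hP.1
    rw [← MvPolynomial.totalDegree_zero_iff_isHomogeneous,
      MvPolynomial.totalDegree_eq_zero_iff_eq_C] at h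
    rw [h]
    simp [evX, zon, cw]
  | succ l ih =>
    have h1 : ∀ a, evX P a * conj (evX (zon (l + 1) β) a) =
        ∑ j, (((2 * l + 3) / (l + 1) : ℝ) : ℂ) * conj (β j) *
          (evX P a * conj (evX (up l j (zon l β)) a)) := fun a => by
      have hr : ((2 * l + 3) / (l + 1) : ℂ) = (((2 * l + 3) / (l + 1) : ℝ) : ℂ) := by
        push_cast; rfl
      simp only [evX, zon, map_mul, map_sum, MvPolynomial.eval_C, hr, conj_ofReal]
      simp only [Finset.mul_sum]
      exact Finset.sum_congr rfl fun j _ => by ring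
    simp only [h1]
    rw [integral_finsetSum _ fun j _ => ((L_CX_evX _).mul (L_CX_evX _).conj).int.const_mul _]
    simp only [integral_const_mul]
    have h2 : ∀ j, ∫ a, evX P a * conj (evX (up l j (zon l β)) a) ∂mM =
        ((1 / (2 * l + 5) : ℝ) : ℂ) * (cw l *
          MvPolynomial.eval (fun j => conj (β j)) (MvPolynomial.pderiv j P)) := fun j => by
      rw [L_adj l P (zon l β) hP (zon_mem l β) j, ih _ (pderiv_mem l j P hP)]
    simp only [h2]
    have h3 := L_euler (l + 1) P hP.1 fun j => conj (β j)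
    have h4 : ∀ j, (((2 * l + 3) / (l + 1) : ℝ) : ℂ) * conj (β j) *
        (((1 / (2 * l + 5) : ℝ) : ℂ) * (cw l *
          MvPolynomial.eval (fun j => conj (β j)) (MvPolynomial.pderiv j P))) =
        ((((2 * l + 3) / (l + 1) : ℝ) : ℂ) * ((1 / (2 * l + 5) : ℝ) : ℂ) * cw l) * (conj (β j) *
          MvPolynomial.eval (fun j => conj (β j)) (MvPolynomial.pderiv j P)) := fun j => by ring
    simp only [h4, ← Finset.mul_sum]
    rw [h3, ← mul_assoc]
    congr 1
    have h5 : (2 * l + 3) / (l + 1) * (1 / (2 * l + 5)) * cw l * (l + 1) = cw (l + 1) := by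
      simp only [cw]
      push_cast
      have e1 : (2 * (l : ℝ) + 3) ≠ 0 := by positivity
      have e2 : ((l : ℝ) + 1) ≠ 0 := by positivity
      have e3 : (2 * (l : ℝ) + 5) ≠ 0 := by positivity
      have e4 : (2 * ((l : ℝ) + 1) + 3) ≠ 0 := by positivity
      field_simp
      ring
    rw [← h5]
    push_cast
    rfl

end Pool.Agent.Cone
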