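import Mathlib

/-!
# Scalar inequalities for the half-cone in dimension four

`num_pt`: a pointwise inequality for `‖1 + b‖ ^ (10/3)`, `num_final`: the final inequality in one
variable, `num_end`: the conclusion of the argument from the numbers `S, t, w, s₁, s₂`.
-/

namespace Pool.Agent.Cone

/-! ### Positivity of polynomials with integer coefficients -/

/-- Value of the polynomial with coefficients `l`. -/
noncomputable def evl : List ℤ → ℝ → ℝ
  | [], _ => 0
  | c :: l, x => c + x * evl l x

/-- Sum of coefficient lists. -/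
def addL : List ℤ → List ℤ → List ℤ
  | [], l => l
  | a :: l, [] => a :: l
  | a :: l, b :: m => (a + b) :: addL l m

/-- Multiple of a coefficient list. -/
def smL (a : ℤ) : List ℤ → List ℤ
  | [] => []
  | c :: l => (a * c) :: smL a l

/-- One step of the shift. -/
def stL (a c : ℤ) (s : List ℤ) : List ℤ := addL [c] (addL (0 :: s) (smL a s))

/-- Coefficients of `P (a + X)`. -/
def shL (a : ℤ) : List ℤ → List ℤ
  | [] => []
  | c :: l => stL a c (shL a l)

/-- Lower bound on `[0, w]`. -/
def lowL (w : ℤ) : List ℤ → ℤ
  | [] => 0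
  | c :: l => c + min 0 (w * lowL w l)

theorem evl_addL : ∀ (l m : List ℤ) (x : ℝ), evl (addL l m) x = evl l x + evl m x
  | [], m, x => by simp only [addL, evl, zero_add]
  | a :: l, [], x => by simp only [addL, evl, add_zero]
  | a :: l, b :: m, x => by
    simp only [addL, evl, evl_addL l m x]
    push_cast
    ring

theorem evl_smL (a : ℤ) : ∀ (l : List ℤ) (x : ℝ), evl (smL a l) x = a * evl l x
  | [], x => by simp only [smL, evl, mul_zero]
  | c :: l, x => by
    simp only [smL, evl, evl_smL a l x]
    push_cast
    ring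

theorem evl_shL (a : ℤ) : ∀ (l : List ℤ) (x : ℝ), evl (shL a l) x = evl l (a + x)
  | [], x => rfl
  | c :: l, x => by
    simp only [shL, stL, evl_addL, evl, evl_smL, evl_shL a l x]
    push_cast
    ring

theorem lowL_le {w : ℤ} {x : ℝ} (h0 : 0 ≤ x) (hw : x ≤ w) :
    ∀ l : List ℤ, (lowL w l : ℝ) ≤ evl l x
  | [] => by simp only [lowL, evl, Int.cast_zero, le_refl]
  | c :: l => by
    have ih := lowL_le h0 hw l
    simp only [lowL, evl]
    push_cast
    have : min (0 : ℝ) (w * lowL w l) ≤ x * evl l x := by
      rcases le_total 0 (evl l x) with h | h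
      · exact (min_le_left _ _).trans (mul_nonneg h0 h)
      · refine (min_le_right _ _).trans ?_
        have h1 : (w : ℝ) * lowL w l ≤ w * evl l x :=
          mul_le_mul_of_nonneg_left ih (h0.trans hw)
        have h2 : (w : ℝ) * evl l x ≤ x * evl l x := mul_le_mul_of_nonpos_right hw h
        exact h1.trans h2
    linarith

theorem evl_seg {l : List ℤ} {a w : ℤ} (h : 0 ≤ lowL w (shL a l)) {x : ℝ} (h1 : (a : ℝ) ≤ x)
    (h2 : x ≤ a + w) : 0 ≤ evl l x := by
  have h3 := lowL_le (w := w) (x := x - a) (by linarith) (by linarith) (shL a l)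
  rw [evl_shL, add_sub_cancel] at h3
  have h4 : (0 : ℝ) ≤ lowL w (shL a l) := by exact_mod_cast h
  linarith

theorem evl_nonneg {x : ℝ} (hx : 0 ≤ x) : ∀ l : List ℤ, (∀ c ∈ l, 0 ≤ c) → 0 ≤ evl l x
  | [], _ => le_refl _
  | c :: l, h => by
    have h1 : 0 ≤ c := h c (by simp)
    have h2 := evl_nonneg hx l fun d hd => h d (by simp [hd])
    have h3 : (0 : ℝ) ≤ c := by exact_mod_cast h1
    exact add_nonneg h3 (mul_nonneg hx h2)

theorem evl_ray {l : List ℤ} {a : ℤ} (h : ∀ c ∈ shL a l, 0 ≤ c) {x : ℝ} (h1 : (a : ℝ) ≤ x) :
    0 ≤ evl l x := by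
  have h3 := evl_nonneg (x := x - a) (by linarith) (shL a l) h
  rwa [evl_shL, add_sub_cancel] at h3

/-! ### The three polynomials -/

/-- Coefficients for the case of positive `b`. -/
def L1 : List ℤ :=
  [931404561182380557145702733481079223523213312000000, 0, 0,
   18662361060820218855569451126336037847040000000,
   52689766985416699629486346990100183777280000, 0,
   143203953006582619028279567704915968000000, 1339970066971249888852090123242700800000, 0,
   130215817882330937665951629312000000, 16357056481582640244776490762240000, 0,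
   -4113919076342409363193856000000, 99662224207030594515763200000,
   53013261925343040425164800, -24623430962648186880000000, 291472264195976724480000,
   674098484361560064000, -35224100536320000000, 0, 3942938522419200, -29859840000000, 0, 0,
   6388956]

/-- Coefficients for the case of negative `b`. -/
def L2 : List ℤ :=
  [931404561182380557145702733481079223523213312000000, 0, 0,
   -18662361060820218855569451126336037847040000000,
   52689766985416699629486346990100183777280000, 0,
   143203953006582619028279567704915968000000, -1339970066971249888852090123242700800000, 0,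
   -130215817882330937665951629312000000, 16357056481582640244776490762240000, 0,
   -4113919076342409363193856000000, -99662224207030594515763200000,
   53013261925343040425164800, 24623430962648186880000000, 291472264195976724480000,
   -674098484361560064000, -35224100536320000000, 0, 3942938522419200, 29859840000000, 0, 0,
   6388956]

/-- Coefficients for the final inequality. -/
def L3 : List ℤ :=
  [538818237802240223166542643200000000, 0, -64194669376509239623680000000000,
   -83777802060449576030044160000, 0, 0, -12790683597521828184064, 2167240497561600000000,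
   0, -490414838644736, 0, 0, -24394929741]

theorem L1_nonneg {x : ℝ} (hx : 0 ≤ x) : 0 ≤ evl L1 x := by
  rcases le_total x 71 with h | h
  · exact evl_seg (a := 0) (w := 71) (by decide +kernel) (by norm_num; linarith) (by norm_num; linarith)
  rcases le_total x 100 with h | h
  · exact evl_seg (a := 71) (w := 29) (by decide +kernel) (by norm_num; linarith) (by norm_num; linarith)
  rcases le_total x 182 with h | h
  · exact evl_seg (a := 100) (w := 82) (by decide +kernel) (by norm_num; linarith) (by norm_num; linarith)
  exact evl_ray (a := 182) (by decide +kernel) (by norm_num; linarith)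

theorem L2_nonneg {x : ℝ} (hx : 0 ≤ x) : 0 ≤ evl L2 x := by
  rcases le_total x 36 with h | h
  · exact evl_seg (a := 0) (w := 36) (by decide +kernel) (by norm_num; linarith) (by norm_num; linarith)
  rcases le_total x 49 with h | h
  · exact evl_seg (a := 36) (w := 13) (by decide +kernel) (by norm_num; linarith) (by norm_num; linarith)
  exact evl_ray (a := 49) (by decide +kernel) (by norm_num; linarith)

theorem L3_nonneg {x : ℝ} (hx : 0 ≤ x) (hx1 : x ≤ 97) : 0 ≤ evl L3 x := by
  rcases le_total x 86 with h | h
  · exact evl_seg (a := 0) (w := 86) (by decide +kernel) (by norm_num; linarith) (by norm_num; linarith)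
  rcases le_total x 95 with h | h
  · exact evl_seg (a := 86) (w := 9) (by decide +kernel) (by norm_num; linarith) (by norm_num; linarith)
  exact evl_seg (a := 95) (w := 2) (by decide +kernel) (by norm_num; linarith) (by norm_num; linarith)

theorem poly1 {x : ℝ} (hx : 0 ≤ x) :
    (1 + x ^ 3) ^ 10 ≤ (1 + 10 / 3 * x ^ 3 + 46 / 9 * x ^ 6 + 29 / 25 * x ^ 10) ^ 3 := by
  have h := L1_nonneg (x := 64 * x) (by positivity)
  have e : x ^ 6 * evl L1 (64 * x) = 11390625 * 64 ^ 24 *
      ((1 + 10 / 3 * x ^ 3 + 46 / 9 * x ^ 6 + 29 / 25 * x ^ 10) ^ 3 - (1 + x ^ 3) ^ 10) := by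
    simp only [L1, evl]
    push_cast
    ring
  have h1 : 0 ≤ x ^ 6 * evl L1 (64 * x) := mul_nonneg (by positivity) h
  rw [e] at h1
  have h2 := nonneg_of_mul_nonneg_right h1 (by norm_num)
  linarith

theorem poly2 {x : ℝ} (hx : 0 ≤ x) :
    (1 - x ^ 3) ^ 10 ≤ (1 - 10 / 3 * x ^ 3 + 46 / 9 * x ^ 6 + 29 / 25 * x ^ 10) ^ 3 := by
  have h := L2_nonneg (x := 64 * x) (by positivity)
  have e : x ^ 6 * evl L2 (64 * x) = 11390625 * 64 ^ 24 *
      ((1 - 10 / 3 * x ^ 3 + 46 / 9 * x ^ 6 + 29 / 25 * x ^ 10) ^ 3 - (1 - x ^ 3) ^ 10) := by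
    simp only [L2, evl]
    push_cast
    ring
  have h1 : 0 ≤ x ^ 6 * evl L2 (64 * x) := mul_nonneg (by positivity) h
  rw [e] at h1
  have h2 := nonneg_of_mul_nonneg_right h1 (by norm_num)
  linarith

theorem poly3 {x : ℝ} (hx : 0 ≤ x) (hx1 : 128 * x ≤ 97) :
    (1 - x ^ 3) ^ 2 * (1 + 181 / 2500 * x ^ 3) ^ 3 ≤ (1 - 29 / 25 * x ^ 5) ^ 3 := by
  have h := L3_nonneg (x := 128 * x) (by positivity) hx1
  have e : x ^ 3 * evl L3 (128 * x) = 15625000000 * 128 ^ 12 *
      ((1 - 29 / 25 * x ^ 5) ^ 3 - (1 - x ^ 3) ^ 2 * (1 + 181 / 2500 * x ^ 3) ^ 3) := by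
    simp only [L3, evl]
    push_cast
    ring
  have h1 : 0 ≤ x ^ 3 * evl L3 (128 * x) := mul_nonneg (by positivity) h
  rw [e] at h1
  have h2 := nonneg_of_mul_nonneg_right h1 (by norm_num)
  linarith

end Pool.Agent.Cone
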