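import Pool.Agent.Work.MP_b0b133_an.Num2

/-!
# Second variation

`sec_pt`: the pointwise expansion of `‖1 + z‖ ^ (10/7)`, `sec_one`: the second variation for one
multiplier, `sec_var`: the combination over the multipliers, `det_of_form`: the determinant.
-/

namespace Pool.Agent.Cone

open MeasureTheory

/-- `(1 + y)^(5/7) ≤ 1 + 5/7 y - 5/49 y² + 15/343 y³` for `y ≥ -1`. -/
theorem rpow57_le {y : ℝ} (hy : -1 ≤ y) :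
    (1 + y) ^ (5 / 7 : ℝ) ≤ 1 + 5 / 7 * y - 5 / 49 * y ^ 2 + 15 / 343 * y ^ 3 := by
  have h0 : 0 ≤ 1 + y := by linarith
  obtain ⟨x, hx0, hx⟩ : ∃ x : ℝ, 0 ≤ x ∧ x ^ 7 = 1 + y := by
    refine ⟨(1 + y) ^ (1 / 7 : ℝ), Real.rpow_nonneg h0 _, ?_⟩
    rw [← Real.rpow_natCast, ← Real.rpow_mul h0]
    norm_num
  have e : (1 + y) ^ (5 / 7 : ℝ) = x ^ 5 := by
    rw [← hx, ← Real.rpow_natCast, ← Real.rpow_natCast, ← Real.rpow_mul hx0]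
    congr 1
    norm_num
  have ey : y = x ^ 7 - 1 := by linarith
  rw [e, ey]
  have key : 1 + 5 / 7 * (x ^ 7 - 1) - 5 / 49 * (x ^ 7 - 1) ^ 2 + 15 / 343 * (x ^ 7 - 1) ^ 3 -
      x ^ 5 = (x - 1) ^ 4 * (1 / 343 * (48 + 192 * x + 480 * x ^ 2 + 960 * x ^ 3 + 1680 * x ^ 4 +
        2345 * x ^ 5 + 2660 * x ^ 6 + 2690 * x ^ 7 + 2500 * x ^ 8 + 2155 * x ^ 9 + 1720 * x ^ 10 +
        1260 * x ^ 11 + 840 * x ^ 12 + 525 * x ^ 13 + 300 * x ^ 14 + 150 * x ^ 15 + 60 * x ^ 16 +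
        15 * x ^ 17)) := by ring
  have h1 : 0 ≤ (x - 1) ^ 4 := by positivity
  have h2 := mul_nonneg h1 (show 0 ≤ (1 / 343 * (48 + 192 * x + 480 * x ^ 2 + 960 * x ^ 3 +
    1680 * x ^ 4 + 2345 * x ^ 5 + 2660 * x ^ 6 + 2690 * x ^ 7 + 2500 * x ^ 8 + 2155 * x ^ 9 +
    1720 * x ^ 10 + 1260 * x ^ 11 + 840 * x ^ 12 + 525 * x ^ 13 + 300 * x ^ 14 + 150 * x ^ 15 +
    60 * x ^ 16 + 15 * x ^ 17)) by positivity)
  linarith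

/-- The pointwise expansion. -/
theorem sec_pt {z : ℂ} (hz : ‖z‖ ≤ 1 / 2) : ‖1 + z‖ ^ (10 / 7 : ℝ) ≤
    1 + 10 / 7 * z.re + 5 / 7 * ‖z‖ ^ 2 - 20 / 49 * z.re ^ 2 + 11 / 10 * ‖z‖ ^ 3 := by
  have hr : 0 ≤ ‖z‖ := norm_nonneg z
  have hm : ‖1 + z‖ ^ 2 = 1 + (2 * z.re + ‖z‖ ^ 2) := by
    have hb : ‖z‖ ^ 2 = z.re ^ 2 + z.im ^ 2 := by
      rw [← Complex.normSq_eq_norm_sq, Complex.normSq_apply]; ring
    rw [← Complex.normSq_eq_norm_sq, Complex.normSq_apply, hb]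
    simp only [Complex.add_re, Complex.add_im, Complex.one_re, Complex.one_im]
    ring
  have hre' := abs_le.1 (Complex.abs_re_le_norm z)
  set r := ‖z‖
  set c := z.re
  set y := 2 * c + r ^ 2 with hy
  have e : ‖1 + z‖ ^ (10 / 7 : ℝ) = (1 + y) ^ (5 / 7 : ℝ) := by
    rw [← hm, ← Real.rpow_natCast, ← Real.rpow_mul (norm_nonneg _)]
    congr 1
    norm_num
  have h1 : -1 ≤ y := by nlinarith
  rw [e]
  refine (rpow57_le h1).trans ?_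
  have hyu : |y| ≤ 5 / 2 * r := by
    rw [abs_le]
    constructor <;> nlinarith
  have hy3 : y ^ 3 ≤ 125 / 8 * r ^ 3 := by
    calc y ^ 3 ≤ |y ^ 3| := le_abs_self _
      _ = |y| ^ 3 := abs_pow y 3
      _ ≤ (5 / 2 * r) ^ 3 := pow_le_pow_left₀ (abs_nonneg _) hyu 3
      _ = 125 / 8 * r ^ 3 := by ring
  have hy2 : 4 * c ^ 2 - 4 * r ^ 3 ≤ y ^ 2 := by
    have : y ^ 2 = 4 * c ^ 2 + 4 * c * r ^ 2 + r ^ 4 := by rw [hy]; ring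
    rw [this]
    have h3 : -(r * r ^ 2) ≤ c * r ^ 2 := by
      have := mul_le_mul_of_nonneg_right hre'.1 (sq_nonneg r)
      linarith
    nlinarith [sq_nonneg (r ^ 2)]
  have h4 : 0 ≤ r ^ 3 := by positivity
  rw [hy] at hy2 hy3 ⊢
  nlinarith

/-- `m^(7/5) ≤ 1 + 7/5 (m - 1) + 2/5 (m - 1)²`. -/
theorem rpow75_le {m : ℝ} (hm : 0 ≤ m) :
    m ^ (7 / 5 : ℝ) ≤ 1 + 7 / 5 * (m - 1) + 2 / 5 * (m - 1) ^ 2 := by
  obtain ⟨y, hy0, hy⟩ : ∃ y : ℝ, 0 ≤ y ∧ y ^ 5 = m := by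
    refine ⟨m ^ (1 / 5 : ℝ), Real.rpow_nonneg hm _, ?_⟩
    rw [← Real.rpow_natCast, ← Real.rpow_mul hm]
    norm_num
  have e : m ^ (7 / 5 : ℝ) = y ^ 7 := by
    rw [← hy, ← Real.rpow_natCast, ← Real.rpow_natCast, ← Real.rpow_mul hy0]
    congr 1
    norm_num
  rw [e, ← hy]
  have h2 : 0 ≤ (y - 1) ^ 2 * (2 * y ^ 3 + 4 * y ^ 2 + 6 * y + 3) := by positivity
  have h3 : y ^ 2 ≤ 3 / 5 + 2 / 5 * y ^ 5 := by nlinarith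
  have h4 : y ^ 5 * y ^ 2 ≤ y ^ 5 * (3 / 5 + 2 / 5 * y ^ 5) :=
    mul_le_mul_of_nonneg_left h3 (by positivity)
  nlinarith

end Pool.Agent.Cone
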